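import Mathlib

/-!
MODULE BW (M). Bernstein-Walsh inequality for polynomials by Lagrange interpolation (Mathlib only).

`D = 0`: constant. `D ≥ 1`: nodes `t_i = -1 + 2 i/D`, `i = 0..D`. Lagrange interpolation (Lagrange.interpolate,
Lagrange.eq_interpolate) gives `P(z) = ∑_i P(t_i) ∏_(j≠i) (z - t_j)/(t_i - t_j)`. `|z - t_j| ≤ 2` and
`∏_(j≠i) |t_i - t_j| = (2/D)^D i! (D-i)!`, so
`|P(z)| ≤ m 2^D (D/2)^D ∑_i 1/(i! (D-i)!) = m D^D 2^D/D! ≤ (2 e)^D m ≤ 12^D m` (Real.pow_div_factorial_le_exp).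
-/

namespace PC992LG

open Polynomial

private theorem prod_fact (D i : ℕ) (hi : i ≤ D) :
    ∏ j ∈ (Finset.range (D + 1)).erase i, |(i : ℝ) - j| =
      (Nat.factorial i : ℝ) * (Nat.factorial (D - i) : ℝ) := by
  have hsplit : (Finset.range (D + 1)).erase i
      = Finset.range i ∪ Finset.Ico (i + 1) (D + 1) := by
    ext x
    simp only [Finset.mem_erase, Finset.mem_range, Finset.mem_union, Finset.mem_Ico]
    omega
  have hdisj : Disjoint (Finset.range i) (Finset.Ico (i + 1) (D + 1)) := by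
    rw [Finset.disjoint_left]
    intro x hx
    simp only [Finset.mem_range, Finset.mem_Ico] at *
    omega
  rw [hsplit, Finset.prod_union hdisj]
  congr 1
  · rw [← Finset.prod_range_add_one_eq_factorial, Nat.cast_prod]
    rw [← Finset.prod_range_reflect]
    refine Finset.prod_congr rfl fun j hj => ?_
    rw [Finset.mem_range] at hj
    have : ((i - 1 - j : ℕ) : ℝ) = (i : ℝ) - (j + 1) := by
      have h1 : i - 1 - j = i - (j + 1) := by omega
      rw [h1, Nat.cast_sub hj]
      push_cast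
      ring
    rw [this, show (i : ℝ) - (i - (j + 1)) = (j : ℝ) + 1 by ring, abs_of_nonneg (by positivity)]
    push_cast
    ring
  · rw [← Finset.prod_range_add_one_eq_factorial, Nat.cast_prod, Finset.prod_Ico_eq_prod_range]
    have : D + 1 - (i + 1) = D - i := by omega
    rw [this]
    refine Finset.prod_congr rfl fun j hj => ?_
    push_cast
    rw [show (i : ℝ) - (i + 1 + j) = -((j : ℝ) + 1) by ring, abs_neg, abs_of_nonneg]
    positivity

theorem bernstein_walsh (D : ℕ) (P : ℂ[X]) (hP : P.natDegree ≤ D) (m : ℝ)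
    (h : ∀ t : ℝ, |t| ≤ 1 → ‖P.eval (t : ℂ)‖ ≤ m) (z : ℂ) (hz : ‖z‖ ≤ 1) :
    ‖P.eval z‖ ≤ 12 ^ D * m := by
  have hm : 0 ≤ m := le_trans (norm_nonneg _) (h 0 (by simp))
  rcases Nat.eq_zero_or_pos D with rfl | hD
  · have hc := Polynomial.eq_C_of_natDegree_le_zero hP
    have h0 := h 0 (by simp)
    rw [hc] at h0 ⊢
    simpa using h0
  have hDr : (0 : ℝ) < D := by exact_mod_cast hD
  set v : ℕ → ℂ := fun i => ((-1 + 2 * (i : ℝ) / D : ℝ) : ℂ) with hv
  have hvdiff : ∀ i j : ℕ, ‖v i - v j‖ = 2 / D * |(i : ℝ) - j| := by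
    intro i j
    simp only [hv]
    rw [← Complex.ofReal_sub, Complex.norm_real, Real.norm_eq_abs]
    rw [show (-1 + 2 * (i : ℝ) / D) - (-1 + 2 * (j : ℝ) / D) = 2 / D * ((i : ℝ) - j) by ring,
      abs_mul, abs_of_pos (by positivity)]
  have hinj : Set.InjOn v (Finset.range (D + 1)) := by
    intro i _ j _ hij
    have h1 := hvdiff i j
    rw [hij, sub_self, norm_zero] at h1
    have h2 : |(i : ℝ) - j| = 0 := by
      rcases mul_eq_zero.1 h1.symm with h3 | h3
      · exfalso
        have : (0 : ℝ) < 2 / D := by positivity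
        linarith
      · exact h3
    have h3 := abs_eq_zero.1 h2
    have h4 : (i : ℝ) = j := by linarith
    exact_mod_cast h4
  have hdeg : P.degree < (Finset.range (D + 1)).card := by
    rw [Finset.card_range]
    refine lt_of_le_of_lt Polynomial.degree_le_natDegree ?_
    exact_mod_cast Nat.lt_succ_of_le hP
  have hint := Lagrange.eq_interpolate hinj hdeg
  have hev : P.eval z = ∑ i ∈ Finset.range (D + 1), P.eval (v i) *
      (Lagrange.basis (Finset.range (D + 1)) v i).eval z := by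
    conv_lhs => rw [hint]
    rw [Lagrange.interpolate_apply, Polynomial.eval_finsetSum]
    refine Finset.sum_congr rfl fun i _ => ?_
    rw [Polynomial.eval_mul, Polynomial.eval_C]
  have hvle : ∀ i ∈ Finset.range (D + 1), |(-1 + 2 * (i : ℝ) / D : ℝ)| ≤ 1 := by
    intro i hi
    rw [Finset.mem_range] at hi
    have h1 : (i : ℝ) ≤ D := by exact_mod_cast Nat.lt_succ_iff.1 hi
    have h2 : 2 * (i : ℝ) / D ≤ 2 := by
      rw [div_le_iff₀ hDr]; linarith
    have h3 : 0 ≤ 2 * (i : ℝ) / D := by positivity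
    rw [abs_le]; constructor <;> linarith
  have hbasis : ∀ i ∈ Finset.range (D + 1),
      ‖(Lagrange.basis (Finset.range (D + 1)) v i).eval z‖ ≤
        (D : ℝ) ^ D * ((Nat.factorial i : ℝ) * (Nat.factorial (D - i) : ℝ))⁻¹ := by
    intro i hi
    have hi' : i ≤ D := by
      rw [Finset.mem_range] at hi; omega
    unfold Lagrange.basis
    rw [Polynomial.eval_prod, norm_prod]
    have hstep : ∀ j ∈ (Finset.range (D + 1)).erase i,
        ‖(Lagrange.basisDivisor (v i) (v j)).eval z‖ ≤ (D : ℝ) * |(i : ℝ) - j|⁻¹ := by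
      intro j hj
      rw [Finset.mem_erase] at hj
      unfold Lagrange.basisDivisor
      rw [Polynomial.eval_mul, Polynomial.eval_C, Polynomial.eval_sub, Polynomial.eval_X,
        Polynomial.eval_C, norm_mul, norm_inv, hvdiff]
      have h1 : ‖z - v j‖ ≤ 2 := by
        refine le_trans (norm_sub_le _ _) ?_
        have : ‖v j‖ ≤ 1 := by
          simp only [hv]
          rw [Complex.norm_real, Real.norm_eq_abs]
          exact hvle j hj.2
        linarith
      have hpos : 0 < |(i : ℝ) - j| := by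
        rw [abs_pos, sub_ne_zero]
        intro hc
        exact hj.1 (by exact_mod_cast hc.symm)
      calc (2 / (D : ℝ) * |(i : ℝ) - j|)⁻¹ * ‖z - v j‖
          ≤ (2 / (D : ℝ) * |(i : ℝ) - j|)⁻¹ * 2 := by
            refine mul_le_mul_of_nonneg_left h1 (by positivity)
        _ = (D : ℝ) * |(i : ℝ) - j|⁻¹ := by
            field_simp
    refine le_trans (Finset.prod_le_prod (fun _ _ => norm_nonneg _) hstep) ?_
    rw [Finset.prod_mul_distrib, Finset.prod_const, Finset.card_erase_of_mem hi,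
      Finset.card_range, Nat.add_sub_cancel, Finset.prod_inv_distrib, prod_fact D i hi']
  have hsum : ‖P.eval z‖ ≤ ∑ i ∈ Finset.range (D + 1),
      m * ((D : ℝ) ^ D * ((Nat.factorial i : ℝ) * (Nat.factorial (D - i) : ℝ))⁻¹) := by
    rw [hev]
    refine le_trans (norm_sum_le _ _) (Finset.sum_le_sum fun i hi => ?_)
    rw [norm_mul]
    refine mul_le_mul ?_ (hbasis i hi) (norm_nonneg _) hm
    simp only [hv]
    exact h _ (hvle i hi)
  have hbin : ∑ i ∈ Finset.range (D + 1),
      ((Nat.factorial i : ℝ) * (Nat.factorial (D - i) : ℝ))⁻¹ = 2 ^ D / (Nat.factorial D : ℝ) := by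
    have h1 : ∑ i ∈ Finset.range (D + 1), (Nat.choose D i : ℝ) = 2 ^ D := by
      exact_mod_cast Nat.sum_range_choose D
    rw [← h1, Finset.sum_div]
    refine Finset.sum_congr rfl fun i hi => ?_
    rw [Finset.mem_range] at hi
    rw [Nat.cast_choose ℝ (Nat.lt_succ_iff.1 hi)]
    have : (Nat.factorial D : ℝ) ≠ 0 := by positivity
    have : (Nat.factorial i : ℝ) ≠ 0 := by positivity
    have : (Nat.factorial (D - i) : ℝ) ≠ 0 := by positivity
    field_simp
  rw [← Finset.mul_sum, ← Finset.mul_sum, hbin] at hsum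
  have hexp : (D : ℝ) ^ D / (Nat.factorial D : ℝ) ≤ Real.exp D :=
    Real.pow_div_factorial_le_exp (D : ℝ) hDr.le D
  have hexp2 : Real.exp D ≤ 3 ^ D := by
    have h1 : Real.exp (D : ℝ) = Real.exp 1 ^ D := by
      rw [← Real.exp_nat_mul, mul_one]
    rw [h1]
    have h2 : Real.exp 1 ≤ 3 := by
      have := Real.exp_one_lt_d9
      linarith
    exact pow_le_pow_left₀ (Real.exp_pos 1).le h2 D
  calc ‖P.eval z‖ ≤ m * ((D : ℝ) ^ D * (2 ^ D / (Nat.factorial D : ℝ))) := hsum
    _ = m * (2 ^ D * ((D : ℝ) ^ D / (Nat.factorial D : ℝ))) := by ring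
    _ ≤ m * (2 ^ D * 3 ^ D) := by
        refine mul_le_mul_of_nonneg_left ?_ hm
        refine mul_le_mul_of_nonneg_left (le_trans hexp hexp2) (by positivity)
    _ = m * 6 ^ D := by rw [← mul_pow]; norm_num
    _ ≤ m * 12 ^ D := by
        refine mul_le_mul_of_nonneg_left ?_ hm
        exact pow_le_pow_left₀ (by norm_num) (by norm_num) D
    _ = 12 ^ D * m := by ring

/-- the same on an interval and a disc of radius `ρ` around `z0` -/
theorem bernstein_walsh' (D : ℕ) (P : ℂ[X]) (hP : P.natDegree ≤ D) (z0 : ℂ) (ρ m : ℝ)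
    (hρ : 0 < ρ) (h : ∀ t : ℝ, |t| ≤ ρ → ‖P.eval (z0 + t)‖ ≤ m) (z : ℂ)
    (hz : ‖z - z0‖ ≤ ρ) : ‖P.eval z‖ ≤ 12 ^ D * m := by
  set Q : ℂ[X] := P.comp (C z0 + C (ρ : ℂ) * X) with hQ
  have hQev : ∀ w : ℂ, Q.eval w = P.eval (z0 + ρ * w) := by
    intro w
    simp [hQ, Polynomial.eval_comp]
  have hdeg : Q.natDegree ≤ D := by
    refine le_trans (Polynomial.natDegree_comp_le) ?_
    have h1 : (C z0 + C (ρ : ℂ) * X : ℂ[X]).natDegree ≤ 1 := by
      compute_degree
    calc P.natDegree * (C z0 + C (ρ : ℂ) * X : ℂ[X]).natDegree ≤ D * 1 :=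
          Nat.mul_le_mul hP h1
      _ = D := mul_one D
  have hρc : (ρ : ℂ) ≠ 0 := by exact_mod_cast hρ.ne'
  have h1 := bernstein_walsh D Q hdeg m (by
    intro t ht
    rw [hQev, ← Complex.ofReal_mul]
    refine h (ρ * t) ?_
    rw [abs_mul, abs_of_pos hρ]
    nlinarith [abs_nonneg t]) ((z - z0) / ρ) (by
    rw [norm_div, Complex.norm_real, Real.norm_eq_abs, abs_of_pos hρ, div_le_one hρ]
    exact hz)
  rw [hQev, mul_div_cancel₀ _ hρc, add_sub_cancel] at h1
  exact h1

end PC992LG
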