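import Mathlib

/-!
MODULE Avg (M-L). Cartan's averaging of Jensen's formula (Mathlib only).

For `|a| = 1`, `f z0 ≠ a` and all zeros `u` of `f - a` in the closed ball have `|u - z0| > r0`, so Jensen's formula
(AnalyticOnNhd.circleAverage_log_norm) gives
`circleAverage (log ‖f · - a‖) z0 R = ∑ᶠ u, divisor.. u * log (R/|u - z0|) + log ‖f z0 - a‖ ≤ p log (R/r0) + log ‖f z0 - a‖`
(the divisor is nonnegative, `0 ≤ log (R/|u-z0|) ≤ log (R/r0)` where it is positive).
Average over `|a| = 1` (circleAverage in `a`, centre `0`, radius `1`): `circleAverage_log_norm_sub_const_eq_posLog` gives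
`avg_a log ‖w - a‖ = log⁺ ‖w‖`, which is `0` for `w = f z0`. The order of the two averages can be exchanged:
see Mathlib/Analysis/Complex/ValueDistribution/Proximity/IntegralPresentation.lean
(`circleAverage_circleAverage_eq_proximity_top`, `circleIntegrable_circleAverage_log_norm_sub`), written there for functions
meromorphic on the plane; the same proof works on the circle (only `f` restricted to the circle is used): the function
`(θ, φ) ↦ log ‖f (z0 + R e^(iθ)) - e^(iφ)‖` is measurable, bounded above by a constant, and its integral over `φ` is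
`log⁺ ‖f‖ ≥ 0`, so it is integrable on the product (its negative part is at most positive part minus the function,
Tonelli). So `avg_z log⁺ ‖f z‖ ≤ p log (R/r0)`.
-/

namespace PC992LG

open Filter Topology Metric Real MeromorphicOn

open MeasureTheory Set

/-- Cartan's kernel -/
private noncomputable def ck (F : ℝ → ℂ) (α β : ℝ) : ℝ :=
  Real.log ‖F β - circleMap 0 1 α‖

private lemma ck_left (F : ℝ → ℂ) (β : ℝ) :
    IntegrableOn (fun α => ck F α β) (Ioc 0 (2 * π)) := by
  apply (intervalIntegrable_iff_integrableOn_Ioc_of_le two_pi_pos.le).1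
  simpa [ck, norm_sub_rev, CircleIntegrable] using
    circleIntegrable_log_norm_sub_const (a := F β) (c := 0) 1

private lemma ck_meas (F : ℝ → ℂ) (hF : Continuous F) :
    Measurable (fun p : ℝ × ℝ ↦ ck F p.1 p.2) := by
  have := hF.measurable
  unfold ck; fun_prop

private lemma ck_norm (F : ℝ → ℂ) (β : ℝ) :
    ∫ α in Ioc 0 (2 * π), ‖ck F α β‖ =
      2 * (∫ α, (ck F α β)⁺ ∂(volume.restrict (Ioc 0 (2 * π)))) -
        (2 * π) * log⁺ ‖F β‖ := by
  let μ : Measure ℝ := volume.restrict (Ioc 0 (2 * π))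
  calc ∫ α, ‖ck F α β‖ ∂μ
    _ = 2 * (∫ α, (ck F α β)⁺ ∂μ) - ∫ α, ck F α β ∂μ :=
      integral_abs_eq_two_mul_integral_posPart_sub_integral (ck_left F β)
    _ = 2 * (∫ α, (ck F α β)⁺ ∂μ) - 2 * π * log⁺ ‖F β‖ := by
      congr
      set z := F β
      suffices h_avg : circleAverage (Real.log ‖z - ·‖) 0 1 = log⁺ ‖z‖ by
        convert congr(2 * π * $h_avg)
        simp [circleAverage_def, field, ck, intervalIntegral.integral_of_le two_pi_pos.le, z, μ]
      simp [norm_sub_rev]

private lemma ck_int_norm (F : ℝ → ℂ) (hF : Continuous F) :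
    Integrable (fun β => ∫ α, ‖ck F α β‖ ∂(volume.restrict (Ioc 0 (2 * π))))
      (volume.restrict (Ioc 0 (2 * π))) := by
  let μ : Measure ℝ := volume.restrict (Ioc 0 (2 * π))
  have hm := ck_meas F hF
  have h_meas_K : Measurable (fun a : ℝ × ℝ ↦ (ck F a.1 a.2)⁺) := by fun_prop
  have h_int_posLog : Integrable (fun β ↦ log⁺ ‖F β‖) μ :=
    (Continuous.integrableOn_Ioc (continuous_posLog.comp hF.norm))
  have h_int_Bound : Integrable (fun β ↦ log⁺ ‖F β‖ + Real.log 2) μ :=
    h_int_posLog.add (integrable_const _)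
  have h_int_Term1 : Integrable (fun β ↦ ∫ α, (ck F α β)⁺ ∂μ) μ := by
    apply Integrable.mono (h_int_Bound.const_mul (2 * π))
      h_meas_K.stronglyMeasurable.integral_prod_left'.aestronglyMeasurable
    filter_upwards with β
    have h_int_nonneg : 0 ≤ ∫ α, (ck F α β)⁺ ∂μ := by positivity
    have h_bound_nonneg : 0 ≤ (2 * π) * (log⁺ ‖F β‖ + Real.log 2) := by
      positivity [posLog_nonneg (x := ‖F β‖)]
    rw [norm_of_nonneg h_int_nonneg, norm_of_nonneg h_bound_nonneg]
    have : ∫ α, (ck F α β)⁺ ∂(volume.restrict (Ioc 0 (2 * π))) ≤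
        ∫ _, log⁺ ‖F β‖ + Real.log 2 ∂(volume.restrict (Ioc 0 (2 * π))) := by
      refine integral_mono_of_nonneg (.of_forall (by simp [posPart])) (integrable_const _)
        (.of_forall ?_)
      intro α
      calc (ck F α β)⁺
        _ = log⁺ ‖F β + (-circleMap 0 1 α)‖ := by
          simp [ck, posLog_def, posPart, max_comm, sub_eq_add_neg]
        _ ≤ log⁺ ‖F β‖ + log⁺ ‖-circleMap 0 1 α‖ + Real.log 2 :=
          posLog_norm_add_le (F β) (-circleMap 0 1 α)
        _ = log⁺ ‖F β‖ + Real.log 2 := by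
          simp [norm_circleMap_zero, add_comm]
    rwa [integral_const, smul_eq_mul, mul_comm, measureReal_restrict_apply_univ,
      mul_comm, volume_real_Ioc_of_le two_pi_pos.le, sub_zero] at this
  exact Integrable.congr ((h_int_Term1.const_mul 2).sub (h_int_posLog.const_mul (2 * π)))
    (Eventually.of_forall fun β ↦ (ck_norm F β).symm)

private lemma ck_integrable (F : ℝ → ℂ) (hF : Continuous F) :
    IntegrableOn (fun p : ℝ × ℝ ↦ ck F p.1 p.2) (uIoc 0 (2 * π) ×ˢ uIoc 0 (2 * π)) := by
  rw [IntegrableOn, Measure.volume_eq_prod, ← Measure.prod_restrict]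
  have hm := ck_meas F hF
  simpa [uIoc_of_le two_pi_pos.le] using (integrable_prod_iff' hm.aestronglyMeasurable).2
    ⟨Eventually.of_forall (ck_left F), ck_int_norm F hF⟩

private lemma ck_right (F : ℝ → ℂ) (hF : Continuous F) :
    IntegrableOn (fun α => ∫ β in 0..2 * π, ck F α β) (Ioc 0 (2 * π)) := by
  have h_int := ck_integrable F hF
  rw [uIoc_of_le two_pi_pos.le, IntegrableOn, Measure.volume_eq_prod, ← Measure.prod_restrict]
    at h_int
  simpa [IntegrableOn, intervalIntegral.integral_of_le two_pi_pos.le, ck]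
    using h_int.integral_prod_left

private lemma swap_avg (f : ℂ → ℂ) (z0 : ℂ) (R : ℝ) (hF : Continuous (fun β => f (circleMap z0 R β))) :
    circleAverage (fun a ↦ circleAverage (fun z => Real.log ‖f z - a‖) z0 R) 0 1 =
      circleAverage (fun z => log⁺ ‖f z‖) z0 R := by
  let F : ℝ → ℂ := fun β => f (circleMap z0 R β)
  calc circleAverage (fun a ↦ circleAverage (fun z => Real.log ‖f z - a‖) z0 R) 0 1
    _ = (2 * π)⁻¹ * (2 * π)⁻¹ * ∫ α in 0..2 * π, ∫ β in 0..2 * π, ck F α β := by
      simp [circleAverage, F, ck, mul_assoc]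
    _ = (2 * π)⁻¹ * (2 * π)⁻¹ * ∫ β in 0..2 * π, ∫ α in 0..2 * π, ck F α β := by
      rw [MeasureTheory.intervalIntegral_intervalIntegral_swap]
      exact ck_integrable F hF
    _ = (2 * π)⁻¹ * ∫ β in 0..2 * π, ((2 * π)⁻¹ * ∫ α in 0..2 * π, ck F α β) := by
      simp [mul_comm, mul_left_comm, mul_assoc]
    _ = (2 * π)⁻¹ * ∫ β in 0..2 * π, log⁺ ‖f (circleMap z0 R β)‖ := by
      congr 1
      apply intervalIntegral.integral_congr
      intro β hβ
      calc (2 * π)⁻¹ * ∫ α in 0..2 * π, ck F α β
        _ = circleAverage (Real.log ‖f (circleMap z0 R β) - ·‖) 0 1 := by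
          simp [F, circleAverage, ck]
        _ = log⁺ ‖f (circleMap z0 R β)‖ := by
          simp [norm_sub_rev]
    _ = circleAverage (fun z => log⁺ ‖f z‖) z0 R := by
      simp [circleAverage]

private lemma int_avg (f : ℂ → ℂ) (z0 : ℂ) (R : ℝ) (hF : Continuous (fun β => f (circleMap z0 R β))) :
    CircleIntegrable (fun a ↦ circleAverage (fun z => Real.log ‖f z - a‖) z0 R) 0 1 := by
  rw [CircleIntegrable, intervalIntegrable_iff_integrableOn_Ioc_of_le two_pi_pos.le]
  apply IntegrableOn.congr_fun
    ((ck_right (fun β => f (circleMap z0 R β)) hF).const_mul (2 * π)⁻¹)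
    (fun _ _ ↦ by simp [circleAverage, ck]) measurableSet_Ioc

theorem avg_posLog (f : ℂ → ℂ) (z0 : ℂ) (r0 R p : ℝ) (h0 : 0 < r0) (hR : r0 ≤ R) (hp : 0 ≤ p)
    (hf : AnalyticOnNhd ℂ f (closedBall z0 R)) (hsmall : ∀ z ∈ closedBall z0 r0, ‖f z‖ < 1)
    (hdiv : ∀ a : ℂ, ‖a‖ = 1 →
      ((∑ᶠ u, divisor (fun z => f z - a) (closedBall z0 R) u : ℤ) : ℝ) ≤ p) :
    circleAverage (fun z => log⁺ ‖f z‖) z0 R ≤ p * Real.log (R / r0) := by
  classical
  have hR0 : 0 < R := h0.trans_le hR
  have habs : |R| = R := abs_of_pos hR0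
  have hF : Continuous (fun β => f (circleMap z0 R β)) := by
    refine hf.continuousOn.comp_continuous (continuous_circleMap z0 R) fun β => ?_
    exact sphere_subset_closedBall (circleMap_mem_sphere z0 hR0.le β)
  have hLR : 0 ≤ Real.log (R / r0) := Real.log_nonneg ((one_le_div h0).2 hR)
  have hz0 : ‖f z0‖ < 1 := hsmall z0 (mem_closedBall_self h0.le)
  have key : ∀ a : ℂ, ‖a‖ = 1 → circleAverage (fun z => Real.log ‖f z - a‖) z0 R ≤
      p * Real.log (R / r0) + Real.log ‖a - f z0‖ := by
    intro a ha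
    have hfa : AnalyticOnNhd ℂ (fun z => f z - a) (closedBall z0 |R|) := by
      rw [habs]
      exact fun z hz => (hf z hz).sub analyticAt_const
    have hne : ∀ z ∈ closedBall z0 r0, f z - a ≠ 0 := by
      intro z hz h
      have h1 := hsmall z hz
      rw [sub_eq_zero.1 h, ha] at h1
      exact lt_irrefl _ h1
    have hJ := AnalyticOnNhd.circleAverage_log_norm hR0.ne' hfa
      (hne z0 (mem_closedBall_self h0.le))
    rw [hJ, norm_sub_rev a (f z0)]
    have hD := hdiv a ha
    rw [habs] at hfa ⊢
    set D := divisor (fun z => f z - a) (closedBall z0 R) with hDdef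
    have hfin := D.finiteSupport (isCompact_closedBall z0 R)
    have hDnn : ∀ u, 0 ≤ D u := fun u => MeromorphicOn.AnalyticOnNhd.divisor_nonneg hfa u
    have hs1 : Function.support (fun u => (D u : ℝ) * Real.log (R * ‖z0 - u‖⁻¹)) ⊆
        (hfin.toFinset : Set ℂ) := by
      intro u hu
      rw [Set.Finite.coe_toFinset]
      intro h
      apply hu
      simp [h]
    have hs2 : Function.support (fun u => D u) ⊆ (hfin.toFinset : Set ℂ) := by
      rw [Set.Finite.coe_toFinset]
    rw [finsum_eq_sum_of_support_subset _ hs1]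
    rw [finsum_eq_sum_of_support_subset _ hs2] at hD
    have h2 : ∑ u ∈ hfin.toFinset, (D u : ℝ) * Real.log (R * ‖z0 - u‖⁻¹) ≤
        ∑ u ∈ hfin.toFinset, (D u : ℝ) * Real.log (R / r0) := by
      refine Finset.sum_le_sum fun u hu => ?_
      have hDu : D u ≠ 0 := by
        rw [Set.Finite.mem_toFinset] at hu
        exact hu
      refine mul_le_mul_of_nonneg_left ?_ (by exact_mod_cast hDnn u)
      have hucb : u ∈ closedBall z0 R := D.supportWithinDomain hDu
      have hfu : f u - a = 0 := by
        by_contra hcon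
        apply hDu
        rw [hDdef, AnalyticOnNhd.divisor_apply hfa hucb,
          (hfa u hucb).analyticOrderAt_eq_zero.mpr hcon]
        simp
      have hur : r0 < ‖z0 - u‖ := by
        by_contra hcon
        push Not at hcon
        refine hne u ?_ hfu
        rw [mem_closedBall, dist_eq_norm, norm_sub_rev]
        exact hcon
      rw [← div_eq_mul_inv]
      apply Real.log_le_log (div_pos hR0 (h0.trans hur))
      exact div_le_div_of_nonneg_left hR0.le h0 hur.le
    rw [← Finset.sum_mul] at h2
    have h3 : (∑ u ∈ hfin.toFinset, (D u : ℝ)) * Real.log (R / r0) ≤ p * Real.log (R / r0) := by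
      refine mul_le_mul_of_nonneg_right ?_ hLR
      push_cast at hD
      exact hD
    linarith
  have hci : CircleIntegrable (fun a : ℂ => p * Real.log (R / r0) + Real.log ‖a - f z0‖) 0 1 := by
    apply CircleIntegrable.add
    · exact circleIntegrable_const _ _ _
    · exact circleIntegrable_log_norm_sub_const 1
  rw [← swap_avg f z0 R hF]
  refine (circleAverage_mono (int_avg f z0 R hF) hci ?_).trans ?_
  · intro a ha
    apply key a
    simpa using ha
  · rw [circleAverage_fun_add (circleIntegrable_const _ _ _)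
      (circleIntegrable_log_norm_sub_const 1), circleAverage_const,
      circleAverage_log_norm_sub_const_eq_posLog]
    have h4 : log⁺ ‖f z0‖ = 0 := by
      rw [posLog_eq_zero_iff]
      rw [abs_of_nonneg (norm_nonneg _)]
      exact hz0.le
    rw [h4, add_zero]

end PC992LG
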