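import Mathlib

/-!
MODULE SupA (M). From circle averages to a pointwise bound (Mathlib only).

Area proof: for `0 < s ≤ R/2`, Jensen's formula (or AnalyticOnNhd.circleAverage_log_norm, all terms of the sum are
nonnegative) gives `log ‖f z‖ ≤ circleAverage (log ‖f‖) z s ≤ circleAverage (log⁺ ‖f‖) z s` (if `f z ≠ 0`; if `f z = 0` the claim is
clear, as `Real.log 0 = 0 ≤ 4 T`). Multiply by `s` and integrate over `s ∈ (0, R/2)`, polar coordinates around `z` and around
`z0`: `(R^2/8) log ‖f z‖ ≤ (1/(2π)) ∫_{B(z, R/2)} log⁺ ‖f‖ ≤ (1/(2π)) ∫_{B(z0, R)} log⁺ ‖f‖ ≤ ∫_0^R T s ds = R^2 T/2`.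
Other proof: Poisson's formula (Mathlib/Analysis/Complex/Poisson.lean, JensenFormula.lean: Herglotz kernel), with kernel
at most `(R + R/2)/(R - R/2) = 3` on `|z - z0| ≤ R/2`, applied to `log ‖f‖` (zeros split off by
Blaschke factors or canonical decomposition): constant `3` in place of `4`.
-/

namespace PC992LG

open Filter Topology Metric Real MeasureTheory
open scoped ENNReal

/-- polar coordinates around `c` -/
private theorem lpolar (G : ℂ → ℝ≥0∞) (hG : Measurable G) (c : ℂ) :
    ∫⁻ p, G p = ∫⁻ r in Set.Ioi (0 : ℝ), ENNReal.ofReal r *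
      ∫⁻ θ in Set.Ioo (-π) π, G (circleMap c r θ) := by
  have h1 : ∫⁻ p, G p = ∫⁻ p, G (c + p) := (lintegral_add_left_eq_self G c).symm
  rw [h1, ← Complex.lintegral_comp_polarCoord_symm]
  have h2 : polarCoord.target = Set.Ioi (0 : ℝ) ×ˢ Set.Ioo (-π) π := rfl
  rw [h2, Measure.volume_eq_prod, ← Measure.prod_restrict]
  have hm : Measurable fun p : ℝ × ℝ => circleMap c p.1 p.2 := by
    unfold circleMap
    fun_prop
  rw [lintegral_prod]
  · refine lintegral_congr fun r => ?_
    rw [← lintegral_const_mul]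
    · refine lintegral_congr fun θ => ?_
      simp only [smul_eq_mul]
      congr 2
      rw [Complex.polarCoord_symm_apply]
      unfold circleMap
      rw [Complex.exp_mul_I]
      push_cast
      ring
    · exact hG.comp (by unfold circleMap; fun_prop)
  · refine Measurable.aemeasurable ?_
    simp only [smul_eq_mul]
    refine Measurable.mul (by fun_prop) ?_
    have : (fun p : ℝ × ℝ => G (c + Complex.polarCoord.symm p))
        = fun p : ℝ × ℝ => G (circleMap c p.1 p.2) := by
      funext p
      congr 1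
      rw [Complex.polarCoord_symm_apply]
      unfold circleMap
      rw [Complex.exp_mul_I]
      push_cast
      ring
    rw [this]
    exact hG.comp hm

private theorem log_le_avg (f : ℂ → ℂ) (z : ℂ) (s : ℝ) (hs : 0 < s)
    (hf : AnalyticOnNhd ℂ f (closedBall z s)) (hz : f z ≠ 0) :
    Real.log ‖f z‖ ≤ circleAverage (fun z => log⁺ ‖f z‖) z s := by
  have hs' : |s| = s := abs_of_pos hs
  have hf' : AnalyticOnNhd ℂ f (closedBall z |s|) := by rw [hs']; exact hf
  have hj := hf'.circleAverage_log_norm hs.ne' hz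
  have hnn : 0 ≤ ∑ᶠ u, (MeromorphicOn.divisor f (closedBall z |s|) u : ℝ) *
      Real.log (s * ‖z - u‖⁻¹) := by
    refine finsum_nonneg fun u => ?_
    by_cases hu : u ∈ closedBall z |s|
    · refine mul_nonneg (mod_cast MeromorphicOn.AnalyticOnNhd.divisor_nonneg hf' u) ?_
      by_cases huz : u = z
      · subst huz; simp
      · refine Real.log_nonneg ?_
        rw [hs', mem_closedBall, dist_eq_norm'] at hu
        have hpos : 0 < ‖z - u‖ := by
          rw [norm_pos_iff, sub_ne_zero]; exact fun h => huz h.symm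
        rw [← div_eq_mul_inv, le_div_iff₀ hpos]
        linarith
    · rw [Function.locallyFinsuppWithin.apply_eq_zero_of_notMem _ hu]
      simp
  have hmono : circleAverage (Real.log ‖f ·‖) z s ≤ circleAverage (fun z => log⁺ ‖f z‖) z s := by
    refine circleAverage_mono ?_ ?_ ?_
    · exact (hf'.mono sphere_subset_closedBall).meromorphicOn.circleIntegrable_log_norm
    · exact (hf'.mono sphere_subset_closedBall).meromorphicOn.circleIntegrable_posLog_norm
    · intro x _
      exact le_max_right _ _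
  linarith

private theorem inner_eq (f : ℂ → ℂ) (z0 : ℂ) (R : ℝ)
    (hf : AnalyticOnNhd ℂ f (closedBall z0 R)) (c : ℂ) (r : ℝ) (hr : 0 < r)
    (hsub : closedBall c r ⊆ closedBall z0 R) :
    ∫⁻ θ in Set.Ioo (-π) π, (closedBall z0 R).indicator
      (fun w => ENNReal.ofReal (log⁺ ‖f w‖)) (circleMap c r θ) =
      ENNReal.ofReal (2 * π * circleAverage (fun z => log⁺ ‖f z‖) c r) := by
  have hmem : ∀ θ : ℝ, circleMap c r θ ∈ closedBall z0 R := fun θ =>
    hsub (circleMap_mem_closedBall c hr.le θ)
  have h1 : ∀ θ : ℝ, (closedBall z0 R).indicator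
      (fun w => ENNReal.ofReal (log⁺ ‖f w‖)) (circleMap c r θ)
      = ENNReal.ofReal (log⁺ ‖f (circleMap c r θ)‖) := fun θ =>
    Set.indicator_of_mem (hmem θ) _
  simp_rw [h1]
  have hcont : Continuous fun θ : ℝ => log⁺ ‖f (circleMap c r θ)‖ := by
    refine continuous_posLog.comp (continuous_norm.comp ?_)
    exact hf.continuousOn.comp_continuous (continuous_circleMap c r) hmem
  have hint : Integrable (fun θ : ℝ => log⁺ ‖f (circleMap c r θ)‖)
      (volume.restrict (Set.Ioo (-π) π)) :=
    (hcont.integrableOn_Icc (a := -π) (b := π)).mono_set Set.Ioo_subset_Icc_self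
  rw [← ofReal_integral_eq_lintegral_ofReal hint (ae_of_all _ fun θ => posLog_nonneg)]
  congr 1
  rw [← integral_Ioc_eq_integral_Ioo, ← intervalIntegral.integral_of_le (by linarith [Real.pi_pos])]
  have hper : Function.Periodic (fun θ : ℝ => log⁺ ‖f (circleMap c r θ)‖) (2 * π) := by
    intro θ
    simp only
    rw [periodic_circleMap c r θ]
  have h2 := hper.intervalIntegral_add_eq (-π) 0
  rw [show -π + 2 * π = π by ring, zero_add] at h2
  rw [h2, circleAverage_def, smul_eq_mul, ← mul_assoc, mul_inv_cancel₀ (by positivity), one_mul]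

private theorem lint_id (b : ℝ) (hb : 0 ≤ b) (C : ℝ≥0∞) :
    ∫⁻ r in Set.Ioc (0 : ℝ) b, ENNReal.ofReal r * C = ENNReal.ofReal (b ^ 2 / 2) * C := by
  rw [lintegral_mul_const _ (by fun_prop)]
  congr 1
  have hint : Integrable (fun r : ℝ => r) (volume.restrict (Set.Ioc (0 : ℝ) b)) :=
    (continuous_id.integrableOn_Icc (a := 0) (b := b)).mono_set Set.Ioc_subset_Icc_self
  rw [← ofReal_integral_eq_lintegral_ofReal hint
    ((ae_restrict_iff' measurableSet_Ioc).2 (ae_of_all _ fun r hr => hr.1.le))]
  congr 1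
  rw [← intervalIntegral.integral_of_le hb, integral_id]
  ring

theorem sup_of_avg (f : ℂ → ℂ) (z0 : ℂ) (R T : ℝ) (hR : 0 < R) (hT0 : 0 ≤ T)
    (hf : AnalyticOnNhd ℂ f (closedBall z0 R))
    (hT : ∀ ρ, 0 < ρ → ρ ≤ R → circleAverage (fun z => log⁺ ‖f z‖) z0 ρ ≤ T)
    (z : ℂ) (hz : z ∈ closedBall z0 (R / 2)) : Real.log ‖f z‖ ≤ 4 * T := by
  by_cases hfz : f z = 0
  · rw [hfz]; simpa using hT0
  rcases le_or_gt (Real.log ‖f z‖) 0 with hL | hL
  · linarith
  set G : ℂ → ℝ≥0∞ := (closedBall z0 R).indicator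
      (fun w => ENNReal.ofReal (log⁺ ‖f w‖)) with hG
  have hGm : Measurable G := by
    classical
    have hcont : ContinuousOn (fun w => ENNReal.ofReal (log⁺ ‖f w‖)) (closedBall z0 R) := by
      refine ENNReal.continuous_ofReal.comp_continuousOn ?_
      refine continuous_posLog.comp_continuousOn ?_
      exact continuous_norm.comp_continuousOn hf.continuousOn
    have h0 : ContinuousOn (fun _ : ℂ => (0 : ℝ≥0∞)) (closedBall z0 R)ᶜ := continuousOn_const
    have h1 := hcont.measurable_piecewise h0 isClosed_closedBall.measurableSet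
    have h2 : (closedBall z0 R).piecewise (fun w => ENNReal.ofReal (log⁺ ‖f w‖))
        (fun _ => (0 : ℝ≥0∞)) = G := by
      rw [hG, ← Set.piecewise_eq_indicator]
      rfl
    rw [← h2]
    exact h1
  have hup : ∫⁻ p, G p ≤ ENNReal.ofReal (R ^ 2 / 2) * ENNReal.ofReal (2 * π * T) := by
    rw [lpolar G hGm z0, ← lint_id R hR.le]
    have hsplit : ∫⁻ r in Set.Ioi (0 : ℝ), ENNReal.ofReal r *
        ∫⁻ θ in Set.Ioo (-π) π, G (circleMap z0 r θ)
        ≤ ∫⁻ r in Set.Ioi (0 : ℝ), (Set.Ioc (0 : ℝ) R).indicator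
          (fun r => ENNReal.ofReal r * ENNReal.ofReal (2 * π * T)) r := by
      refine setLIntegral_mono' measurableSet_Ioi fun r hr => ?_
      by_cases hrR : r ≤ R
      · rw [Set.indicator_of_mem (show r ∈ Set.Ioc (0 : ℝ) R from ⟨hr, hrR⟩)]
        rw [hG, inner_eq f z0 R hf z0 r hr (closedBall_subset_closedBall hrR)]
        gcongr
        exact hT r hr hrR
      · push Not at hrR
        have hz0 : ∀ θ : ℝ, G (circleMap z0 r θ) = 0 := by
          intro θ
          rw [hG]
          refine Set.indicator_of_notMem ?_ _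
          rw [mem_closedBall, dist_eq_norm]
          have h1 : ‖circleMap z0 r θ - z0‖ = |r| := by
            rw [circleMap_sub_center]
            exact norm_circleMap_zero r θ
          rw [h1, abs_of_pos hr]
          exact not_le.2 hrR
        simp_rw [hz0]
        simp
    refine le_trans hsplit ?_
    refine le_trans (setLIntegral_le_lintegral _ _) ?_
    rw [lintegral_indicator measurableSet_Ioc]
  have hlo : ENNReal.ofReal ((R / 2) ^ 2 / 2) * ENNReal.ofReal (2 * π * Real.log ‖f z‖)
      ≤ ∫⁻ p, G p := by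
    rw [lpolar G hGm z, ← lint_id (R / 2) (by positivity)]
    refine le_trans (setLIntegral_mono' measurableSet_Ioc ?_)
      (lintegral_mono_set (fun r hr => hr.1))
    intro r hr
    have hsub : closedBall z r ⊆ closedBall z0 R := by
      refine closedBall_subset_closedBall' ?_
      rw [mem_closedBall] at hz
      have := hr.2
      linarith
    rw [hG, inner_eq f z0 R hf z r hr.1 hsub]
    gcongr
    exact log_le_avg f z r hr.1 (hf.mono hsub) hfz
  have hfin := le_trans hlo hup
  have hpi := Real.pi_pos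
  rw [← ENNReal.ofReal_mul (by positivity), ← ENNReal.ofReal_mul (by positivity),
    ENNReal.ofReal_le_ofReal_iff (by positivity)] at hfin
  have h3 : (R ^ 2 * π / 4) * Real.log ‖f z‖ ≤ (R ^ 2 * π / 4) * (4 * T) := by
    nlinarith [hfin]
  exact le_of_mul_le_mul_left h3 (by positivity)

end PC992LG
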