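import Mathlib
import Pool.Agent.Work.MP_992d6e_an.WC.Defs

/-!
MP_992d6e_an, LG: a bound in `n` and `log M` for the number of equilibria of intrinsic condition
number at most `M`. Common definitions. Plan: /team-store/blueprint_992_log.md

Parts: V (valence: zero counting for one complex variable), D (doubling inequality), F (the field on
complex lines), L (local count), G (gaps), A (assembly).
-/

namespace PC992LG

open Polynomial Metric PC992WC

noncomputable section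

/-- Wronskian at `t` of `h 0, ..., h (s-1)`, complex valued functions of a real variable. -/
def WrC (h : ℕ → ℝ → ℂ) (s : ℕ) (t : ℝ) : ℂ :=
  (Matrix.of (fun i j : Fin s => iteratedDeriv (i : ℕ) (h j) t)).det

/-- `g` is real analytic and `g^2` is a quotient of complex polynomials of degree at most `d`
without real zeros. -/
def Alg (d : ℕ) (g : ℝ → ℂ) : Prop :=
  (∀ t, AnalyticAt ℝ g t) ∧ ∃ U V : ℂ[X], U.natDegree ≤ d ∧ V.natDegree ≤ d ∧
    ∀ t : ℝ, U.eval (t : ℂ) ≠ 0 ∧ V.eval (t : ℂ) ≠ 0 ∧ g t ^ 2 * V.eval (t : ℂ) = U.eval (t : ℂ)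

/-- `w` is a real linear combination of `S 0, ..., S (r-1)`. -/
def InSpan (r : ℕ) (S : ℕ → ℝ → ℝ) (w : ℝ → ℝ) : Prop :=
  ∃ c : ℕ → ℝ, ∀ t, w t = ∑ l ∈ Finset.range r, c l * S l t

/-- `S 0, ..., S (r-1)` are real analytic and each Wronskian of the first `s` of them vanishes only at
zeros of a nonzero polynomial of degree at most `8 d s^2`. -/
structure Sel (d r : ℕ) (S : ℕ → ℝ → ℝ) : Prop where
  an : ∀ j < r, ∀ t, AnalyticAt ℝ (S j) t
  wr : ∀ s, 1 ≤ s → s ≤ r → ∃ q : ℝ[X], q ≠ 0 ∧ q.natDegree ≤ 8 * d * s ^ 2 ∧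
    ∀ t, Wr S s t = 0 → q.eval t = 0

/-- `S` and the algebraic functions `G` are related by an invertible constant matrix. -/
structure Par (d r : ℕ) (S : ℕ → ℝ → ℝ) (G : ℕ → ℝ → ℂ) (A : Matrix (Fin r) (Fin r) ℂ) :
    Prop where
  alg : ∀ k < r, Alg d (G k)
  det : A.det ≠ 0
  lin : ∀ (i : Fin r) (t : ℝ), (S i t : ℂ) = ∑ k : Fin r, A i k * G k t

/-- The functions `γ + ∑ (α_l + β_l z) P_l(z)^(-3/2)` on the disc `|z - z0| < R`, where `P_l` has degree at
most `2` and no zero in the disc, and `h l` is a branch of `P_l^(-3/2)`. -/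
def Cls (n : ℕ) (z0 : ℂ) (R : ℝ) (φ : ℂ → ℂ) : Prop :=
  ∃ (γ : ℂ) (α β : Fin n → ℂ) (P : Fin n → ℂ[X]) (h : Fin n → ℂ → ℂ),
    (∀ l, (P l).natDegree ≤ 2) ∧ (∀ l, DifferentiableOn ℂ (h l) (ball z0 R)) ∧
    (∀ l, ∀ z ∈ ball z0 R, h l z ^ 2 * (P l).eval z ^ 3 = 1) ∧
    ∀ z ∈ ball z0 R, φ z = γ + ∑ l, (α l + β l * z) * h l z

end

end PC992LG
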