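import Mathlib
import Pool.Agent.Work.MP_992d6e_an.LG.Defs

/-!
MODULE ReZ (M). Zeros of the real part of a function whose square is rational (Mathlib only).

For a complex polynomial `P` let `Pr, Pi` be the real polynomials with `P(t) = Pr(t) + i Pi(t)` for real `t`
(coefficientwise real and imaginary parts). Put `E = Nui * Der - Nur * Dei` (the imaginary part of
`Nu * conj De`), a real polynomial of degree at most `2 e`. From `B^2 De = Nu`: `Im (B^2) |De|^2 = E(t)`.
If `Re B(t) = 0` then `B(t)^2` is real, so `E(t) = 0`; so if `E ≠ 0` take `q = E`.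
If `E = 0` then `B^2` is real valued. Take `q = Nur^2 + Nui^2`; it is not `0`, as `B` is not identically `0`. Suppose
`Re B(t1) = 0` and `q(t1) ≠ 0`; then `B(t1)^2 < 0`, so `B^2` is real and negative near `t1`, so `Re B = 0` near
`t1`, so `Re B = 0` everywhere by the identity theorem for real analytic functions on the line
(AnalyticOnNhd.eq_of_eventuallyEq or eqOn_zero_of_preconnected_of_eventuallyEq_zero), contradiction.
-/

namespace PC992LG

open Polynomial Filter Topology

/-- real part of a complex polynomial -/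
private noncomputable def rp (P : ℂ[X]) : ℝ[X] :=
  ∑ i ∈ Finset.range (P.natDegree + 1), C (P.coeff i).re * X ^ i

/-- imaginary part of a complex polynomial -/
private noncomputable def ip (P : ℂ[X]) : ℝ[X] :=
  ∑ i ∈ Finset.range (P.natDegree + 1), C (P.coeff i).im * X ^ i

private lemma rp_eval (P : ℂ[X]) (t : ℝ) : (rp P).eval t = (P.eval (t : ℂ)).re := by
  rw [eval_eq_sum_range (p := P), Complex.re_sum, rp, eval_finset_sum]
  refine Finset.sum_congr rfl fun i _ => ?_
  rw [← Complex.ofReal_pow, Complex.re_mul_ofReal]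
  simp

private lemma ip_eval (P : ℂ[X]) (t : ℝ) : (ip P).eval t = (P.eval (t : ℂ)).im := by
  rw [eval_eq_sum_range (p := P), Complex.im_sum, ip, eval_finset_sum]
  refine Finset.sum_congr rfl fun i _ => ?_
  rw [← Complex.ofReal_pow, Complex.im_mul_ofReal]
  simp

private lemma rp_deg (P : ℂ[X]) : (rp P).natDegree ≤ P.natDegree := by
  refine natDegree_sum_le_of_forall_le _ _ fun i hi => ?_
  refine (natDegree_C_mul_X_pow_le _ _).trans ?_
  have := Finset.mem_range.1 hi
  omega

private lemma ip_deg (P : ℂ[X]) : (ip P).natDegree ≤ P.natDegree := by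
  refine natDegree_sum_le_of_forall_le _ _ fun i hi => ?_
  refine (natDegree_C_mul_X_pow_le _ _).trans ?_
  have := Finset.mem_range.1 hi
  omega

theorem re_zeros (e : ℕ) (B : ℝ → ℂ) (Nu De : ℂ[X]) (hB : ∀ t, AnalyticAt ℝ B t)
    (h1 : Nu.natDegree ≤ e) (h2 : De.natDegree ≤ e)
    (h : ∀ t : ℝ, De.eval (t : ℂ) ≠ 0 ∧ B t ^ 2 * De.eval (t : ℂ) = Nu.eval (t : ℂ))
    (hne : ∃ t, (B t).re ≠ 0) :
    ∃ q : ℝ[X], q ≠ 0 ∧ q.natDegree ≤ 2 * e ∧ ∀ t, (B t).re = 0 → q.eval t = 0 := by
  classical
  set E : ℝ[X] := ip Nu * rp De - rp Nu * ip De with hE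
  have hEe : ∀ t : ℝ, E.eval t = (B t ^ 2).im *
      ((De.eval (t : ℂ)).re ^ 2 + (De.eval (t : ℂ)).im ^ 2) := by
    intro t
    rw [hE, eval_sub, eval_mul, eval_mul, rp_eval, rp_eval, ip_eval, ip_eval, ← (h t).2,
      Complex.mul_re, Complex.mul_im]
    ring
  have hpos : ∀ t : ℝ, (De.eval (t : ℂ)).re ^ 2 + (De.eval (t : ℂ)).im ^ 2 ≠ 0 := by
    intro t h0
    apply (h t).1
    have a : (De.eval (t : ℂ)).re = 0 := by nlinarith [sq_nonneg (De.eval (t : ℂ)).re, sq_nonneg (De.eval (t : ℂ)).im]
    have b : (De.eval (t : ℂ)).im = 0 := by nlinarith [sq_nonneg (De.eval (t : ℂ)).re, sq_nonneg (De.eval (t : ℂ)).im]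
    exact Complex.ext a b
  have him : ∀ t : ℝ, (B t ^ 2).im = 2 * (B t).re * (B t).im := by
    intro t
    rw [sq, Complex.mul_im]; ring
  by_cases h0 : E = 0
  · have hz : ∀ t, (B t).re * (B t).im = 0 := by
      intro t
      have h3 := hEe t
      rw [h0, eval_zero, him] at h3
      have := (mul_eq_zero.1 h3.symm).resolve_right (hpos t)
      linarith
    obtain ⟨t0, ht0⟩ := hne
    have hRe : ∀ t, AnalyticAt ℝ (fun s => (B s).re) t := fun t =>
      (Complex.reCLM.analyticAt (B t)).comp (hB t)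
    have hIm : ∀ t, AnalyticAt ℝ (fun s => (B s).im) t := fun t =>
      (Complex.imCLM.analyticAt (B t)).comp (hB t)
    have hev : (fun s => (B s).im) =ᶠ[𝓝 t0] (fun _ => (0 : ℝ)) := by
      have h4 : ∀ᶠ s in 𝓝 t0, (B s).re ≠ 0 := (hRe t0).continuousAt.eventually_ne ht0
      filter_upwards [h4] with s hs
      exact (mul_eq_zero.1 (hz s)).resolve_left hs
    have hI0 : (fun s => (B s).im) = (fun _ => (0 : ℝ)) :=
      AnalyticOnNhd.eq_of_eventuallyEq (fun t _ => hIm t) (fun t _ => analyticAt_const) hev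
    refine ⟨rp Nu ^ 2 + ip Nu ^ 2, ?_, ?_, ?_⟩
    · intro hq
      have h5 : (rp Nu ^ 2 + ip Nu ^ 2).eval t0 = 0 := by rw [hq, eval_zero]
      rw [eval_add, eval_pow, eval_pow, rp_eval, ip_eval] at h5
      have a : (Nu.eval (t0 : ℂ)).re = 0 := by nlinarith [sq_nonneg (Nu.eval (t0 : ℂ)).re, sq_nonneg (Nu.eval (t0 : ℂ)).im]
      have b : (Nu.eval (t0 : ℂ)).im = 0 := by nlinarith [sq_nonneg (Nu.eval (t0 : ℂ)).re, sq_nonneg (Nu.eval (t0 : ℂ)).im]
      have h6 : Nu.eval (t0 : ℂ) = 0 := Complex.ext a b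
      have h7 := (h t0).2
      rw [h6] at h7
      have h8 : B t0 = 0 := by
        have := (mul_eq_zero.1 h7).resolve_right (h t0).1
        exact pow_eq_zero_iff (two_ne_zero) |>.1 this
      exact ht0 (by rw [h8]; rfl)
    · refine (natDegree_add_le _ _).trans (max_le ?_ ?_)
      · refine natDegree_pow_le.trans ?_
        have := rp_deg Nu
        omega
      · refine natDegree_pow_le.trans ?_
        have := ip_deg Nu
        omega
    · intro t ht
      have h9 : B t = 0 := Complex.ext ht (congrFun hI0 t)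
      have h10 := (h t).2
      rw [h9] at h10
      rw [eval_add, eval_pow, eval_pow, rp_eval, ip_eval, ← h10]
      simp
  · refine ⟨E, h0, ?_, ?_⟩
    · refine (natDegree_sub_le _ _).trans (max_le ?_ ?_)
      · refine natDegree_mul_le.trans ?_
        have := ip_deg Nu
        have := rp_deg De
        omega
      · refine natDegree_mul_le.trans ?_
        have := rp_deg Nu
        have := ip_deg De
        omega
    · intro t ht
      rw [hEe, him, ht]; ring

end PC992LG
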