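import Mathlib
import Pool.Agent.Work.MP_992d6e_an.LG.Defs

/-!
MODULE WrL (M). Linear algebra of Wronskians (only needs Defs; compare WC/Wr.lean).

WrC_ofReal: `iteratedDeriv` commutes with the coercion `ℝ → ℂ` (induction on `i`, the formula for `i` holds
  near `t`; HasDerivAt.ofReal_comp), then `RingHom.map_det` (Complex.ofRealHom).
WrC_lin: `iteratedDeriv i (h j) t = ∑ k, A j k * iteratedDeriv i (g k) t` (iteratedDeriv_fun_sum,
  iteratedDeriv_const_mul ...; the functions are `C^∞`), so the matrix of `h` is (matrix of `g`) * Aᵀ.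
WrC_re: expand both determinants along the last column (Matrix.det_succ_column, Fin.last s); the minors of the
  complex determinant are determinants of real matrices (coerced), and `Re (iteratedDeriv i g t) = iteratedDeriv i (Re g) t`.
WrC_analytic: derivatives of analytic functions are analytic (AnalyticAt.deriv, iteratedDeriv_succ),
  Matrix.det_apply, finite sums and products.
-/

namespace PC992LG

open Polynomial Filter Topology PC992WC
open scoped ContDiff

lemma contDiff_of_analytic {F : Type*} [NormedAddCommGroup F] [NormedSpace ℝ F] [CompleteSpace F]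
    {g : ℝ → F} (hg : ∀ t, AnalyticAt ℝ g t) : ContDiff ℝ ∞ g :=
  contDiff_iff_contDiffAt.mpr fun t => (hg t).contDiffAt

lemma WrC_congr {h g : ℕ → ℝ → ℂ} {s : ℕ} (hg : ∀ j < s, h j = g j) (t : ℝ) :
    WrC h s t = WrC g s t := by
  unfold WrC
  congr 1
  ext i j
  simp only [Matrix.of_apply]
  rw [hg j j.2]

private lemma wl_lt (i : ℕ) : ((i : ℕ) : ℕ∞ω) < (∞ : ℕ∞ω) := by
  exact_mod_cast ENat.natCast_lt_top i

private lemma wl_of (f : ℝ → ℝ) (hf : ContDiff ℝ ∞ f) (i : ℕ) (t : ℝ) :
    iteratedDeriv i (fun x => (f x : ℂ)) t = ((iteratedDeriv i f t : ℝ) : ℂ) := by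
  induction i generalizing t with
  | zero => simp
  | succ i ih =>
    have h1 : iteratedDeriv i (fun x => (f x : ℂ)) = fun x => ((iteratedDeriv i f x : ℝ) : ℂ) :=
      funext ih
    rw [iteratedDeriv_succ, h1, iteratedDeriv_succ]
    have h2 : DifferentiableAt ℝ (iteratedDeriv i f) t :=
      (hf.differentiable_iteratedDeriv i (wl_lt i)) t
    exact h2.hasDerivAt.ofReal_comp.deriv

private lemma wl_re (g : ℝ → ℂ) (hg : ContDiff ℝ ∞ g) (i : ℕ) (t : ℝ) :
    (iteratedDeriv i g t).re = iteratedDeriv i (fun x => (g x).re) t := by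
  induction i generalizing t with
  | zero => simp
  | succ i ih =>
    have h1 : iteratedDeriv i (fun x => (g x).re) = fun x => (iteratedDeriv i g x).re :=
      funext fun x => (ih x).symm
    rw [iteratedDeriv_succ, iteratedDeriv_succ, h1]
    have h2 : DifferentiableAt ℝ (iteratedDeriv i g) t :=
      (hg.differentiable_iteratedDeriv i (wl_lt i)) t
    have h3 : HasDerivAt (fun x => (iteratedDeriv i g x).re) ((deriv (iteratedDeriv i g) t).re) t :=
      (Complex.reCLM.hasFDerivAt).comp_hasDerivAt t h2.hasDerivAt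
    exact h3.deriv.symm

theorem WrC_ofReal (h : ℕ → ℝ → ℝ) (s : ℕ) (t : ℝ) (hh : ∀ j < s, ContDiff ℝ ∞ (h j)) :
    WrC (fun j x => (h j x : ℂ)) s t = ((Wr h s t : ℝ) : ℂ) := by
  unfold WrC Wr
  have h1 := RingHom.map_det Complex.ofRealHom
    (Matrix.of (fun i j : Fin s => iteratedDeriv (i : ℕ) (h j) t))
  rw [← Complex.ofRealHom_eq_coe, h1]
  congr 1
  ext i j
  simp only [Matrix.of_apply, RingHom.mapMatrix_apply, Matrix.map_apply]
  exact wl_of (h j) (hh j j.2) i t

theorem WrC_lin (h g : ℕ → ℝ → ℂ) (s : ℕ) (A : Matrix (Fin s) (Fin s) ℂ)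
    (hg : ∀ j < s, ContDiff ℝ ∞ (g j))
    (hA : ∀ (j : Fin s) (t : ℝ), h j t = ∑ k : Fin s, A j k * g k t) (t : ℝ) :
    WrC h s t = A.det * WrC g s t := by
  unfold WrC
  have h1 : Matrix.of (fun i j : Fin s => iteratedDeriv (i : ℕ) (h j) t) =
      Matrix.of (fun i j : Fin s => iteratedDeriv (i : ℕ) (g j) t) * A.transpose := by
    ext i j
    rw [Matrix.mul_apply]
    simp only [Matrix.of_apply, Matrix.transpose_apply]
    have h2 : h j = fun t => ∑ k : Fin s, A j k * g k t := funext (hA j)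
    rw [h2, iteratedDeriv_fun_sum]
    · refine Finset.sum_congr rfl fun k _ => ?_
      rw [iteratedDeriv_const_mul_field, mul_comm]
    · intro k _
      exact (contDiff_const.mul ((hg k k.2).of_le (wl_lt i).le)).contDiffAt
  rw [h1, Matrix.det_mul, Matrix.det_transpose, mul_comm]

theorem WrC_re (S : ℕ → ℝ → ℝ) (g : ℝ → ℂ) (s : ℕ) (hS : ∀ j < s, ContDiff ℝ ∞ (S j))
    (hg : ContDiff ℝ ∞ g) (t : ℝ) :
    (WrC (Function.update (fun j x => (S j x : ℂ)) s g) (s + 1) t).re =
      Wr (Function.update S s (fun x => (g x).re)) (s + 1) t := by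
  unfold WrC Wr
  rw [Matrix.det_succ_column _ (Fin.last s), Matrix.det_succ_column _ (Fin.last s),
    Complex.re_sum]
  refine Finset.sum_congr rfl fun i _ => ?_
  have h1 : ((Matrix.of (fun i j : Fin (s + 1) => iteratedDeriv (i : ℕ)
      (Function.update (fun j x => (S j x : ℂ)) s g j) t)).submatrix i.succAbove
        (Fin.last s).succAbove).det = (((Matrix.of (fun i j : Fin (s + 1) => iteratedDeriv (i : ℕ)
      (Function.update S s (fun x => (g x).re) j) t)).submatrix i.succAbove
        (Fin.last s).succAbove).det : ℝ) := by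
    rw [← Complex.ofRealHom_eq_coe, RingHom.map_det]
    congr 1
    ext a b
    simp only [Matrix.submatrix_apply, Matrix.of_apply, RingHom.mapMatrix_apply, Matrix.map_apply,
      Fin.succAbove_last, Fin.val_castSucc]
    have hb : (b : ℕ) ≠ s := b.2.ne
    rw [Function.update_of_ne hb, Function.update_of_ne hb]
    exact wl_of (S b) (hS b b.2) _ t
  rw [h1, Complex.re_mul_ofReal]
  congr 1
  simp only [Matrix.of_apply, Fin.val_last, Function.update_self]
  rw [← wl_re g hg]
  have h2 : ((-1 : ℂ) ^ ((i : ℕ) + s)) = (((-1 : ℝ) ^ ((i : ℕ) + s) : ℝ) : ℂ) := by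
    push_cast
    rfl
  rw [h2, Complex.re_ofReal_mul]

theorem WrC_analytic (h : ℕ → ℝ → ℂ) (s : ℕ) (hh : ∀ j < s, ∀ t, AnalyticAt ℝ (h j) t) (t : ℝ) :
    AnalyticAt ℝ (WrC h s) t := by
  have h1 : WrC h s = fun t => ∑ σ : Equiv.Perm (Fin s), (Equiv.Perm.sign σ : ℂ) *
      ∏ i : Fin s, iteratedDeriv ((σ i : Fin s) : ℕ) (h i) t := by
    funext t
    unfold WrC
    rw [Matrix.det_apply']
    rfl
  rw [h1]
  refine Finset.analyticAt_fun_sum _ fun σ _ => ?_
  refine analyticAt_const.mul (Finset.analyticAt_fun_prod _ fun i _ => ?_)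
  rw [iteratedDeriv_eq_iterate]
  exact (hh i i.2 t).iterated_deriv _

end PC992LG
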