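import Mathlib
import Pool.Agent.Work.MP_992d6e_an.LG.WrL
import Pool.Agent.Work.MP_992d6e_an.LG.ReZ
import Pool.Agent.Work.MP_992d6e_an.WC.Ect

/-!
MODULE DepW (M). Vanishing Wronskians and linear dependence.

dep_of_wr: the product of the polynomials `q s` of `Sel.wr`, `1 ≤ s ≤ r`, is not `0`, so there are `a < b` such that
  `Wr S s t ≠ 0` for `t ∈ [a,b]`, `1 ≤ s ≤ r` (finitely many roots). With `h = update S r w`:
  `Wr h s = Wr S s` for `s ≤ r` (Wr_congr), so `ect_dep` gives `w = ∑ c l * S l` on `[a,b]`; both sides are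
  analytic on the line, so they agree everywhere (AnalyticOnNhd identity theorem on `univ`).
sel_add: `Wr (update S r w) (r+1)` is not identically `0` by dep_of_wr; so some `(B t).re ≠ 0`; `re_zeros` gives the
  polynomial for `s = r+1` (degree at most `2 * (4 d (r+1)^2)`); for `s ≤ r` use `hS.wr` and Wr_congr.
-/

namespace PC992LG

open Polynomial Filter Topology PC992WC
open scoped ContDiff

private lemma wr_upd (r : ℕ) (S : ℕ → ℝ → ℝ) (w : ℝ → ℝ) (s : ℕ) (hs : s ≤ r) (t : ℝ) :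
    Wr (Function.update S r w) s t = Wr S s t := by
  apply Wr_congr
  intro j hj
  rw [Function.update_of_ne (by omega)]

private lemma one_poly {d r : ℕ} {S : ℕ → ℝ → ℝ} (hS : Sel d r S) :
    ∀ m, m ≤ r → ∃ Q : ℝ[X], Q ≠ 0 ∧ ∀ s, 1 ≤ s → s ≤ m → ∀ t, Wr S s t = 0 → Q.eval t = 0 := by
  intro m
  induction m with
  | zero => exact fun _ => ⟨1, one_ne_zero, fun s h1 h2 => by omega⟩
  | succ m ih =>
    intro hm
    obtain ⟨Q, hQ, hQ2⟩ := ih (by omega)
    obtain ⟨q, hq, -, hq2⟩ := hS.wr (m + 1) (by omega) hm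
    refine ⟨Q * q, mul_ne_zero hQ hq, fun s h1 h2 t ht => ?_⟩
    rw [eval_mul]
    rcases Nat.lt_or_ge m s with h | h
    · have : s = m + 1 := by omega
      subst this
      rw [hq2 t ht, mul_zero]
    · rw [hQ2 s h1 h t ht, zero_mul]

theorem dep_of_wr (d r : ℕ) (S : ℕ → ℝ → ℝ) (w : ℝ → ℝ) (hS : Sel d r S)
    (hw : ∀ t, AnalyticAt ℝ w t) (h0 : ∀ t, Wr (Function.update S r w) (r + 1) t = 0) :
    InSpan r S w := by
  obtain ⟨Q, hQ, hQ2⟩ := one_poly hS r le_rfl
  obtain ⟨t0, ht0⟩ : ∃ t0, Q.eval t0 ≠ 0 := by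
    by_contra hcon
    push Not at hcon
    exact hQ (Polynomial.funext fun t => by rw [hcon t, eval_zero])
  have hev : ∀ᶠ t in 𝓝 t0, Q.eval t ≠ 0 := Q.continuous.continuousAt.eventually_ne ht0
  obtain ⟨ε, hε, hball⟩ := Metric.eventually_nhds_iff.1 hev
  have hne : ∀ t ∈ Set.Icc (t0 - ε / 2) (t0 + ε / 2), Q.eval t ≠ 0 := by
    intro t ht
    apply hball
    rw [Real.dist_eq, abs_lt]
    constructor
    · linarith [ht.1]
    · linarith [ht.2]
  obtain ⟨c, hc⟩ := ect_dep r (Function.update S r w) (t0 - ε / 2) (t0 + ε / 2)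
    (fun j hj t _ => by
      rcases Nat.lt_or_ge j r with h | h
      · rw [Function.update_of_ne (by omega)]
        exact (hS.an j h t).contDiffAt
      · have : j = r := by omega
        subst this
        rw [Function.update_self]
        exact (hw t).contDiffAt)
    (fun s h1 h2 t ht h => by
      rw [wr_upd r S w s h2] at h
      exact hne t ht (hQ2 s h1 h2 t h))
    (fun t _ => h0 t)
  refine ⟨c, fun t => ?_⟩
  have hf : AnalyticOnNhd ℝ w Set.univ := fun t _ => hw t
  have hg : AnalyticOnNhd ℝ (fun t => ∑ l ∈ Finset.range r, c l * S l t) Set.univ := by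
    intro t _
    refine Finset.analyticAt_fun_sum _ fun l hl => ?_
    exact analyticAt_const.mul (hS.an l (Finset.mem_range.1 hl) t)
  have hev2 : w =ᶠ[𝓝 t0] fun t => ∑ l ∈ Finset.range r, c l * S l t := by
    have h1 : ∀ᶠ t in 𝓝 t0, t ∈ Set.Icc (t0 - ε / 2) (t0 + ε / 2) :=
      Icc_mem_nhds (by linarith) (by linarith)
    filter_upwards [h1] with t ht
    have h2 := hc t ht
    rw [Function.update_self] at h2
    rw [h2]
    refine Finset.sum_congr rfl fun l hl => ?_
    rw [Function.update_of_ne (Finset.mem_range.1 hl).ne]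
  exact hf.eqOn_of_preconnected_of_eventuallyEq hg isPreconnected_univ (Set.mem_univ t0) hev2
    (Set.mem_univ t)

theorem sel_add (d r : ℕ) (S : ℕ → ℝ → ℝ) (w : ℝ → ℝ) (hS : Sel d r S)
    (hw : ∀ t, AnalyticAt ℝ w t) (hind : ¬ InSpan r S w)
    (B : ℝ → ℂ) (hB : ∀ t, AnalyticAt ℝ B t) (Nu De : ℂ[X])
    (h1 : Nu.natDegree ≤ 4 * d * (r + 1) ^ 2) (h2 : De.natDegree ≤ 4 * d * (r + 1) ^ 2)
    (h : ∀ t : ℝ, De.eval (t : ℂ) ≠ 0 ∧ B t ^ 2 * De.eval (t : ℂ) = Nu.eval (t : ℂ))
    (hBW : ∀ t, (B t).re = Wr (Function.update S r w) (r + 1) t) :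
    Sel d (r + 1) (Function.update S r w) := by
  have hne : ∃ t, (B t).re ≠ 0 := by
    by_contra hcon
    push Not at hcon
    exact hind (dep_of_wr d r S w hS hw fun t => by rw [← hBW, hcon])
  refine ⟨fun j hj t => ?_, fun s hs1 hs2 => ?_⟩
  · rcases Nat.lt_or_ge j r with h' | h'
    · rw [Function.update_of_ne (by omega)]
      exact hS.an j h' t
    · have : j = r := by omega
      subst this
      rw [Function.update_self]
      exact hw t
  · rcases Nat.lt_or_ge r s with h' | h'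
    · have hs : s = r + 1 := by omega
      subst hs
      obtain ⟨q, hq, hqd, hq2⟩ := re_zeros _ B Nu De hB h1 h2 h hne
      refine ⟨q, hq, ?_, fun t ht => hq2 t (by rw [hBW, ht])⟩
      calc q.natDegree ≤ 2 * (4 * d * (r + 1) ^ 2) := hqd
        _ = 8 * d * (r + 1) ^ 2 := by ring
    · obtain ⟨q, hq, hqd, hq2⟩ := hS.wr s hs1 h'
      exact ⟨q, hq, hqd, fun t ht => hq2 t (by rw [← wr_upd r S w s h' t, ht])⟩

end PC992LG
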