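import Mathlib
import Pool.Agent.Work.MP_992d6e_an.LG.WrL

/-!
MODULE WrP (M). The square of a Wronskian of algebraic functions is a quotient of polynomials
(compare WC/Deg.lean).

For `G^2 V = U` put `D = 2 U V`, `N = U' V - U V'`. Differentiating `G^2 V = U` and multiplying by `V` and `G`
gives `D G' = N G` on the real line (`G(t) ≠ 0`, since `U(t) ≠ 0`). With `R 0 = 1`,
`R (i+1) = (R i)' D - i (R i) D' + N (R i)` (natDegree at most `2 d i`), `iteratedDeriv i G t * D(t)^i = G(t) R_i(t)`
by induction (the identity holds on the whole line, differentiate it and divide by `D^i`).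
Hence `W * ∏_j D_j^(s-1) = (∏_j G_j) * det (R_(i,j) D_j^(s-1-i))`, the last determinant has natDegree at most
`s * 2 d (s-1)`; square it and multiply by `∏ V_j`:
`De = ∏ V_j * ∏ D_j^(2(s-1))`, `Nu = ∏ U_j * det^2`, both of natDegree at most `d s + 4 d s (s-1) ≤ 4 d s^2`.
`s = 0`: `Nu = De = 1`.
-/

namespace PC992LG

open Polynomial Filter Topology PC992WC
open scoped ContDiff

private noncomputable def rr (D N : ℂ[X]) : ℕ → ℂ[X]
  | 0 => 1
  | i + 1 => derivative (rr D N i) * D - C (i : ℂ) * rr D N i * derivative D + N * rr D N i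

private lemma rr_deg (D N : ℂ[X]) (d : ℕ) (hD : D.natDegree ≤ 2 * d) (hN : N.natDegree ≤ 2 * d)
    (i : ℕ) : (rr D N i).natDegree ≤ 2 * d * i := by
  induction i with
  | zero => simp [rr]
  | succ i ih =>
    rw [rr]
    have e : 2 * d * (i + 1) = 2 * d * i + 2 * d := by ring
    have h1 : (derivative (rr D N i)).natDegree ≤ 2 * d * i :=
      ((natDegree_derivative_le _).trans (Nat.sub_le _ _)).trans ih
    have h2 : (derivative D).natDegree ≤ 2 * d :=
      ((natDegree_derivative_le _).trans (Nat.sub_le _ _)).trans hD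
    refine (natDegree_add_le _ _).trans (max_le ((natDegree_sub_le _ _).trans (max_le ?_ ?_)) ?_)
    · refine natDegree_mul_le.trans ?_
      omega
    · refine natDegree_mul_le.trans ?_
      have h3 := natDegree_C_mul_le (i : ℂ) (rr D N i)
      omega
    · refine natDegree_mul_le.trans ?_
      omega

private lemma hd_poly (P : ℂ[X]) (t : ℝ) :
    HasDerivAt (fun x : ℝ => P.eval (x : ℂ)) ((derivative P).eval (t : ℂ)) t :=
  (P.hasDerivAt (t : ℂ)).comp_ofReal

private lemma rr_eval (G : ℝ → ℂ) (hG : ∀ t, AnalyticAt ℝ G t) (D N : ℂ[X])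
    (hDN : ∀ t : ℝ, D.eval (t : ℂ) * deriv G t = N.eval (t : ℂ) * G t) (i : ℕ) (t : ℝ) :
    iteratedDeriv i G t * D.eval (t : ℂ) ^ i = G t * (rr D N i).eval (t : ℂ) := by
  induction i generalizing t with
  | zero => simp [rr]
  | succ i ih =>
    have hs := contDiff_of_analytic hG
    have h1 : DifferentiableAt ℝ (iteratedDeriv i G) t :=
      (hs.differentiable_iteratedDeriv i (by exact_mod_cast ENat.natCast_lt_top i)) t
    have h2 := h1.hasDerivAt.mul ((hd_poly D t).pow i)
    have h3 := (hG t).differentiableAt.hasDerivAt.mul (hd_poly (rr D N i) t)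
    have h4 : (iteratedDeriv i G * (fun x : ℝ => D.eval (x : ℂ)) ^ i) =
        (G * fun x : ℝ => (rr D N i).eval (x : ℂ)) := by
      funext x
      exact ih x
    rw [h4] at h2
    have h5 := h2.unique h3
    simp only [Pi.pow_apply] at h5
    rw [← iteratedDeriv_succ] at h5
    have h6 : (i : ℂ) * D.eval (t : ℂ) ^ (i - 1) * D.eval (t : ℂ) =
        (i : ℂ) * D.eval (t : ℂ) ^ i := by
      rcases Nat.eq_zero_or_pos i with rfl | hi
      · simp
      · rw [mul_assoc, ← pow_succ, Nat.sub_add_cancel hi]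
    have h7 := ih t
    have h8 := hDN t
    rw [rr]
    simp only [eval_add, eval_sub, eval_mul, eval_C]
    set x := D.eval (t : ℂ)
    set y := (derivative D).eval (t : ℂ)
    set a := iteratedDeriv i G t
    set b := iteratedDeriv (i + 1) G t
    set r := (rr D N i).eval (t : ℂ)
    set r' := (derivative (rr D N i)).eval (t : ℂ)
    have h9 : b * x ^ i * x + a * ((i : ℂ) * x ^ (i - 1) * y) * x =
        deriv G t * r * x + G t * r' * x := by
      rw [← add_mul, h5, add_mul]
    have h10 : a * ((i : ℂ) * x ^ (i - 1) * y) * x = (i : ℂ) * y * (a * x ^ i) := by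
      have : a * ((i : ℂ) * x ^ (i - 1) * y) * x = a * y * ((i : ℂ) * x ^ (i - 1) * x) := by ring
      rw [this, h6]
      ring
    have h11 : b * x ^ (i + 1) = b * x ^ i * x := by ring
    rw [h10, h7] at h9
    rw [h11]
    linear_combination h9 + r * h8

private lemma alg_DN {G : ℝ → ℂ} (hG : ∀ t, AnalyticAt ℝ G t) {U V : ℂ[X]}
    (hUV : ∀ t : ℝ, U.eval (t : ℂ) ≠ 0 ∧ V.eval (t : ℂ) ≠ 0 ∧
      G t ^ 2 * V.eval (t : ℂ) = U.eval (t : ℂ)) (t : ℝ) :
    (C 2 * U * V).eval (t : ℂ) * deriv G t =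
      (derivative U * V - U * derivative V).eval (t : ℂ) * G t := by
  have h1 := ((hG t).differentiableAt.hasDerivAt.pow 2).mul (hd_poly V t)
  have h2 : (G ^ 2 * fun x : ℝ => V.eval (x : ℂ)) = fun x : ℝ => U.eval (x : ℂ) := by
    funext x
    exact (hUV x).2.2
  rw [h2] at h1
  have h3 := h1.unique (hd_poly U t)
  have h4 := (hUV t).2.2
  simp only [eval_sub, eval_mul, eval_C]
  simp only [Pi.pow_apply, Nat.cast_ofNat] at h3
  set v := V.eval (t : ℂ)
  set u := U.eval (t : ℂ)
  have h5 : (2 : ℂ) * G t ^ (2 - 1) * deriv G t * v + G t ^ 2 * (derivative V).eval (t : ℂ) =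
      (derivative U).eval (t : ℂ) := h3
  norm_num at h5
  linear_combination (G t * v) * h5 - (2 * v * deriv G t + G t * (derivative V).eval (t : ℂ)) * h4

theorem WrC_struct (d s : ℕ) (G : ℕ → ℝ → ℂ) (hG : ∀ j < s, Alg d (G j)) :
    ∃ Nu De : ℂ[X], Nu.natDegree ≤ 4 * d * s ^ 2 ∧ De.natDegree ≤ 4 * d * s ^ 2 ∧
      ∀ t : ℝ, De.eval (t : ℂ) ≠ 0 ∧ WrC G s t ^ 2 * De.eval (t : ℂ) = Nu.eval (t : ℂ) := by
  classical
  have hG' : ∀ j : Fin s, Alg d (G j) := fun j => hG j j.2
  choose han U V hU hV hUV using hG'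
  set D : Fin s → ℂ[X] := fun j => C 2 * U j * V j with hD
  set N : Fin s → ℂ[X] := fun j => derivative (U j) * V j - U j * derivative (V j) with hN
  have hDd : ∀ j, (D j).natDegree ≤ 2 * d := by
    intro j
    refine natDegree_mul_le.trans ?_
    have h1 := natDegree_C_mul_le (2 : ℂ) (U j)
    have h2 := hU j
    have h3 := hV j
    omega
  have hNd : ∀ j, (N j).natDegree ≤ 2 * d := by
    intro j
    have h2 := hU j
    have h3 := hV j
    have h4 := natDegree_derivative_le (U j)
    have h5 := natDegree_derivative_le (V j)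
    refine (natDegree_sub_le _ _).trans (max_le ?_ ?_)
    · refine natDegree_mul_le.trans ?_
      omega
    · refine natDegree_mul_le.trans ?_
      omega
  let A : Matrix (Fin s) (Fin s) ℂ[X] :=
    Matrix.of (fun i j : Fin s => rr (D j) (N j) i * (D j) ^ (s - 1 - (i : ℕ)))
  have hA : ∀ i j, (A i j).natDegree ≤ 2 * d * (s - 1) := by
    intro i j
    simp only [A, Matrix.of_apply]
    refine natDegree_mul_le.trans ?_
    have h1 := rr_deg (D j) (N j) d (hDd j) (hNd j) i
    have h2 : ((D j) ^ (s - 1 - (i : ℕ))).natDegree ≤ (s - 1 - (i : ℕ)) * (2 * d) :=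
      natDegree_pow_le.trans (Nat.mul_le_mul_left _ (hDd j))
    have h3 : 2 * d * (i : ℕ) + (s - 1 - (i : ℕ)) * (2 * d) = 2 * d * (s - 1) := by
      have hi := i.2
      have h4 : s - 1 = (i : ℕ) + (s - 1 - (i : ℕ)) := by omega
      conv_rhs => rw [h4]
      ring
    omega
  have hdet : A.det.natDegree ≤ s * (2 * d * (s - 1)) := by
    rw [Matrix.det_apply]
    refine natDegree_sum_le_of_forall_le _ _ fun σ _ => ?_
    have h1 : (Equiv.Perm.sign σ • ∏ i, A (σ i) i).natDegree ≤ (∏ i, A (σ i) i).natDegree := by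
      rcases Int.units_eq_one_or (Equiv.Perm.sign σ) with h | h
      · rw [h, one_smul]
      · rw [h, Units.neg_smul, one_smul, natDegree_neg]
    refine h1.trans ?_
    refine (natDegree_prod_le _ _).trans ?_
    refine (Finset.sum_le_card_nsmul _ _ (2 * d * (s - 1)) fun i _ => hA _ _).trans ?_
    simp only [Finset.card_univ, Fintype.card_fin, smul_eq_mul]
    exact le_rfl
  have hprod : ∀ W : Fin s → ℂ[X], ∀ e : ℕ, (∀ j, (W j).natDegree ≤ e) →
      (∏ j, W j).natDegree ≤ s * e := by
    intro W e hW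
    refine (natDegree_prod_le _ _).trans ?_
    refine (Finset.sum_le_card_nsmul _ _ e fun i _ => hW _).trans ?_
    simp only [Finset.card_univ, Fintype.card_fin, smul_eq_mul]
    exact le_rfl
  have harith : s * d + 2 * (s * (2 * d * (s - 1))) ≤ 4 * d * s ^ 2 := by
    rcases Nat.eq_zero_or_pos s with rfl | hs
    · simp
    · obtain ⟨m, rfl⟩ : ∃ m, s = m + 1 := ⟨s - 1, by omega⟩
      have : m + 1 - 1 = m := by omega
      rw [this]
      nlinarith [Nat.zero_le (d * (m + 1)), Nat.zero_le (d * m)]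
  refine ⟨(∏ j, U j) * A.det ^ 2, (∏ j, V j) * (∏ j, (D j) ^ (s - 1)) ^ 2, ?_, ?_, ?_⟩
  · refine natDegree_mul_le.trans ?_
    have h1 := hprod U d hU
    have h2 : (A.det ^ 2).natDegree ≤ 2 * A.det.natDegree := natDegree_pow_le
    omega
  · refine natDegree_mul_le.trans ?_
    have h1 := hprod V d hV
    have h2 : ((∏ j, (D j) ^ (s - 1)) ^ 2).natDegree ≤ 2 * (∏ j, (D j) ^ (s - 1)).natDegree :=
      natDegree_pow_le
    have h3 := hprod (fun j => (D j) ^ (s - 1)) (2 * d * (s - 1)) (fun j => by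
      refine natDegree_pow_le.trans ?_
      rw [mul_comm]
      exact Nat.mul_le_mul_right _ (hDd j))
    omega
  · intro t
    have hD0 : ∀ j, (D j).eval (t : ℂ) ≠ 0 := by
      intro j
      simp only [hD, eval_mul, eval_C]
      exact mul_ne_zero (mul_ne_zero two_ne_zero (hUV j t).1) (hUV j t).2.1
    constructor
    · rw [eval_mul, eval_pow, eval_prod, eval_prod]
      refine mul_ne_zero (Finset.prod_ne_zero_iff.mpr fun j _ => (hUV j t).2.1)
        (pow_ne_zero _ (Finset.prod_ne_zero_iff.mpr fun j _ => ?_))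
      rw [eval_pow]
      exact pow_ne_zero _ (hD0 j)
    · have key : WrC G s t * ∏ j, (D j).eval (t : ℂ) ^ (s - 1) =
          (∏ j : Fin s, G j t) * A.det.eval (t : ℂ) := by
        have e1 : A.det.eval (t : ℂ) = (A.map (fun p => p.eval (t : ℂ))).det := by
          have := RingHom.map_det (Polynomial.evalRingHom (t : ℂ)) A
          simpa using this
        rw [e1, ← Matrix.det_mul_row, mul_comm]
        unfold WrC
        rw [← Matrix.det_mul_row]
        congr 1
        ext i j
        simp only [Matrix.of_apply, Matrix.map_apply, A, eval_mul, eval_pow]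
        have hDN : ∀ t : ℝ, (D j).eval (t : ℂ) * deriv (G j) t = (N j).eval (t : ℂ) * G j t :=
          fun t => alg_DN (han j) (hUV j) t
        have h1 := rr_eval (G j) (han j) (D j) (N j) hDN i t
        have hi := i.2
        have h2 : (D j).eval (t : ℂ) ^ (s - 1) =
            (D j).eval (t : ℂ) ^ (i : ℕ) * (D j).eval (t : ℂ) ^ (s - 1 - (i : ℕ)) := by
          rw [← pow_add]
          congr 1
          omega
        rw [h2]
        linear_combination (D j).eval (t : ℂ) ^ (s - 1 - (i : ℕ)) * h1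
      have hGG : (∏ j : Fin s, G j t) ^ 2 * ∏ j, (V j).eval (t : ℂ) = ∏ j, (U j).eval (t : ℂ) := by
        rw [← Finset.prod_pow, ← Finset.prod_mul_distrib]
        exact Finset.prod_congr rfl fun j _ => (hUV j t).2.2
      rw [eval_mul, eval_mul, eval_pow, eval_pow, eval_prod, eval_prod, eval_prod]
      simp only [eval_pow]
      rw [← hGG]
      have : WrC G s t ^ 2 * ((∏ j, (V j).eval (t : ℂ)) *
          (∏ j, (D j).eval (t : ℂ) ^ (s - 1)) ^ 2) =
          (∏ j, (V j).eval (t : ℂ)) * (WrC G s t * ∏ j, (D j).eval (t : ℂ) ^ (s - 1)) ^ 2 := by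
        ring
      rw [this, key]
      ring

/-- the complex conjugate of an algebraic function -/
lemma Alg.conj {d : ℕ} {g : ℝ → ℂ} (hg : Alg d g) :
    Alg d (fun t => (starRingEnd ℂ) (g t)) := by
  obtain ⟨han, U, V, hU, hV, hUV⟩ := hg
  have hev : ∀ (P : ℂ[X]) (t : ℝ), (P.map (starRingEnd ℂ)).eval (t : ℂ) =
      (starRingEnd ℂ) (P.eval (t : ℂ)) := by
    intro P t
    have h1 := Polynomial.eval₂_at_apply (starRingEnd ℂ) (t : ℂ) (p := P)
    rw [Complex.conj_ofReal] at h1
    rw [eval_map, h1]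
  refine ⟨fun t => ?_, U.map (starRingEnd ℂ), V.map (starRingEnd ℂ), natDegree_map_le.trans hU,
    natDegree_map_le.trans hV, fun t => ?_⟩
  · exact (Complex.conjCLE.toContinuousLinearMap.analyticAt (g t)).comp (han t)
  · obtain ⟨h1, h2, h3⟩ := hUV t
    rw [hev, hev]
    refine ⟨?_, ?_, ?_⟩
    · rwa [Ne, map_eq_zero]
    · rwa [Ne, map_eq_zero]
    · rw [← map_pow, ← map_mul, h3]

end PC992LG
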