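import Mathlib
import Pool.Agent.Work.MP_992d6e_an.LG.WrP
import Pool.Agent.Work.MP_992d6e_an.LG.DepW

/-!
MODULE ParE (M). Extending the parallel lists by one function.

par_add: `A' i k = A i k` for `i, k < r`, `A' i r = 0` for `i < r`, `A' r r = μ`, `A' r k = ∑_l c l * A l k` for `k < r`
  (Fin.lastCases or `Fin.snoc`); `det A' = det A * μ` (expand along the last column, Matrix.det_succ_column with
  `Fin.last r`, only the entry `(r,r)` is nonzero). `(w t : ℂ) = μ g t + ∑_l c l ∑_k A l k G k t`.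
sel_par_add: `WrC (fun j x => (S' j x : ℂ)) (r+1) = det A' * WrC G' (r+1)` (WrC_lin), so with `B t = (Wr S' (r+1) t : ℂ)`
  (WrC_ofReal) and `WrC_struct` for `G'`: `B^2 De = (det A')^2 Nu`; `sel_add`. Analyticity of `B`: WrC_analytic.
sel_half: the case `w = Re g`: `B = WrC (update (S coerced) r g) (r+1)`; its real part is
  `Wr (update S r w) (r+1)` (WrC_re), and `B = det A' * WrC (update G r g) (r+1)` with `A'` = `A` and an additional
  entry `1` (WrC_lin).
-/

namespace PC992LG

open Polynomial Filter Topology PC992WC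
open scoped ContDiff

/-- the enlarged matrix -/
private noncomputable def bigM (r : ℕ) (A : Matrix (Fin r) (Fin r) ℂ) (v : Fin r → ℂ) (μ : ℂ) :
    Matrix (Fin (r + 1)) (Fin (r + 1)) ℂ :=
  Matrix.of (Fin.snoc (α := fun _ => Fin (r + 1) → ℂ) (fun i => Fin.snoc (α := fun _ => ℂ) (A i) 0)
    (Fin.snoc (α := fun _ => ℂ) v μ))

private lemma bigM_cc (r : ℕ) (A : Matrix (Fin r) (Fin r) ℂ) (v : Fin r → ℂ) (μ : ℂ)
    (i j : Fin r) : bigM r A v μ i.castSucc j.castSucc = A i j := by
  simp [bigM]

private lemma bigM_cl (r : ℕ) (A : Matrix (Fin r) (Fin r) ℂ) (v : Fin r → ℂ) (μ : ℂ)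
    (i : Fin r) : bigM r A v μ i.castSucc (Fin.last r) = 0 := by
  simp [bigM]

private lemma bigM_lc (r : ℕ) (A : Matrix (Fin r) (Fin r) ℂ) (v : Fin r → ℂ) (μ : ℂ)
    (j : Fin r) : bigM r A v μ (Fin.last r) j.castSucc = v j := by
  simp [bigM]

private lemma bigM_ll (r : ℕ) (A : Matrix (Fin r) (Fin r) ℂ) (v : Fin r → ℂ) (μ : ℂ) :
    bigM r A v μ (Fin.last r) (Fin.last r) = μ := by
  simp [bigM]

private lemma bigM_det (r : ℕ) (A : Matrix (Fin r) (Fin r) ℂ) (v : Fin r → ℂ) (μ : ℂ) :
    (bigM r A v μ).det = A.det * μ := by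
  rw [Matrix.det_succ_column _ (Fin.last r), Fin.sum_univ_castSucc]
  have h1 : ∀ i : Fin r, (-1 : ℂ) ^ ((i.castSucc : Fin (r + 1)) + (Fin.last r : Fin (r + 1)) : ℕ) *
      bigM r A v μ i.castSucc (Fin.last r) *
      ((bigM r A v μ).submatrix i.castSucc.succAbove (Fin.last r).succAbove).det = 0 := by
    intro i
    rw [bigM_cl, mul_zero, zero_mul]
  rw [Finset.sum_congr rfl fun i _ => h1 i, Finset.sum_const_zero, zero_add, bigM_ll]
  have h2 : (bigM r A v μ).submatrix (Fin.last r).succAbove (Fin.last r).succAbove = A := by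
    ext i j
    rw [Matrix.submatrix_apply, Fin.succAbove_last, bigM_cc]
  rw [h2, Fin.val_last, ← two_mul, pow_mul]
  simp [mul_comm]

theorem par_add (d r : ℕ) (S : ℕ → ℝ → ℝ) (G : ℕ → ℝ → ℂ) (A : Matrix (Fin r) (Fin r) ℂ)
    (hP : Par d r S G A) (g : ℝ → ℂ) (hg : Alg d g) (w : ℝ → ℝ) (μ : ℂ) (hμ : μ ≠ 0) (c : ℕ → ℂ)
    (hw : ∀ t, (w t : ℂ) = μ * g t + ∑ l ∈ Finset.range r, c l * (S l t : ℂ)) :
    ∃ A' : Matrix (Fin (r + 1)) (Fin (r + 1)) ℂ,
      Par d (r + 1) (Function.update S r w) (Function.update G r g) A' := by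
  refine ⟨bigM r A (fun k => ∑ l : Fin r, c l * A l k) μ, ?_, ?_, ?_⟩
  · intro k hk
    rcases Nat.lt_or_ge k r with h | h
    · rw [Function.update_of_ne (by omega)]
      exact hP.alg k h
    · have : k = r := by omega
      subst this
      rw [Function.update_self]
      exact hg
  · rw [bigM_det]
    exact mul_ne_zero hP.det hμ
  · intro i t
    rw [Fin.sum_univ_castSucc]
    refine Fin.lastCases ?_ (fun i => ?_) i
    · rw [bigM_ll, Fin.val_last, Function.update_self, Function.update_self, hw, add_comm]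
      congr 1
      rw [← Fin.sum_univ_eq_sum_range (fun l => c l * (S l t : ℂ))]
      simp only [bigM_lc, Fin.val_castSucc, Finset.sum_mul]
      rw [Finset.sum_comm]
      refine Finset.sum_congr rfl fun l _ => ?_
      rw [hP.lin, Finset.mul_sum]
      refine Finset.sum_congr rfl fun k _ => ?_
      rw [Function.update_of_ne k.2.ne]
      ring
    · rw [bigM_cl, zero_mul, add_zero, Fin.val_castSucc, Function.update_of_ne i.2.ne, hP.lin]
      refine Finset.sum_congr rfl fun k _ => ?_
      rw [bigM_cc, Fin.val_castSucc, Function.update_of_ne k.2.ne]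

private lemma alg_cd {d : ℕ} {g : ℝ → ℂ} (hg : Alg d g) : ContDiff ℝ ∞ g :=
  contDiff_of_analytic hg.1

/-- adding a real function `w ≡ μ g` modulo the span -/
theorem sel_par_add (d r : ℕ) (S : ℕ → ℝ → ℝ) (G : ℕ → ℝ → ℂ) (A : Matrix (Fin r) (Fin r) ℂ)
    (hS : Sel d r S) (hP : Par d r S G A) (g : ℝ → ℂ) (hg : Alg d g) (w : ℝ → ℝ)
    (hwa : ∀ t, AnalyticAt ℝ w t) (μ : ℂ) (hμ : μ ≠ 0) (c : ℕ → ℂ)
    (hw : ∀ t, (w t : ℂ) = μ * g t + ∑ l ∈ Finset.range r, c l * (S l t : ℂ))
    (hind : ¬ InSpan r S w) :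
    Sel d (r + 1) (Function.update S r w) ∧
      ∃ A' : Matrix (Fin (r + 1)) (Fin (r + 1)) ℂ,
        Par d (r + 1) (Function.update S r w) (Function.update G r g) A' := by
  obtain ⟨A', hA'⟩ := par_add d r S G A hP g hg w μ hμ c hw
  refine ⟨?_, A', hA'⟩
  obtain ⟨Nu, De, hNu, hDe, hND⟩ := WrC_struct d (r + 1) (Function.update G r g) hA'.alg
  have han : ∀ j < r + 1, ∀ t, AnalyticAt ℝ (Function.update S r w j) t := by
    intro j hj t
    rcases Nat.lt_or_ge j r with h | h
    · rw [Function.update_of_ne (by omega)]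
      exact hS.an j h t
    · have : j = r := by omega
      subst this
      rw [Function.update_self]
      exact hwa t
  have hB : ∀ t, ((Wr (Function.update S r w) (r + 1) t : ℝ) : ℂ) =
      A'.det * WrC (Function.update G r g) (r + 1) t := by
    intro t
    rw [← WrC_ofReal _ _ _ fun j hj => contDiff_of_analytic (han j hj)]
    exact WrC_lin _ _ _ A' (fun j hj => alg_cd (hA'.alg j hj)) (fun j t => hA'.lin j t) t
  refine sel_add d r S w hS hwa hind
    (fun t => ((Wr (Function.update S r w) (r + 1) t : ℝ) : ℂ)) ?_ (C (A'.det ^ 2) * Nu) De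
    ?_ hDe ?_ ?_
  · intro t
    have h1 : (fun t => ((Wr (Function.update S r w) (r + 1) t : ℝ) : ℂ)) =
        fun t => A'.det * WrC (Function.update G r g) (r + 1) t := funext hB
    rw [h1]
    exact analyticAt_const.mul (WrC_analytic _ _ (fun j hj => (hA'.alg j hj).1) t)
  · exact (natDegree_C_mul_le _ _).trans hNu
  · intro t
    refine ⟨(hND t).1, ?_⟩
    rw [hB, mul_pow, mul_assoc, (hND t).2, eval_mul, eval_C]
  · intro t
    exact Complex.ofReal_re _

/-- adding the real part of `g` when `g` and its conjugate are both new -/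
theorem sel_half (d r : ℕ) (S : ℕ → ℝ → ℝ) (G : ℕ → ℝ → ℂ) (A : Matrix (Fin r) (Fin r) ℂ)
    (hS : Sel d r S) (hP : Par d r S G A) (g : ℝ → ℂ) (hg : Alg d g)
    (hind : ¬ InSpan r S (fun t => (g t).re)) :
    Sel d (r + 1) (Function.update S r (fun t => (g t).re)) := by
  have hre : ∀ t, AnalyticAt ℝ (fun t => (g t).re) t := by
    intro t
    exact (Complex.reCLM.analyticAt _).comp (hg.1 t)
  -- the functions `S, g`
  obtain ⟨Nu, De, hNu, hDe, hND⟩ := WrC_struct d (r + 1) (Function.update G r g) (by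
    intro k hk
    rcases Nat.lt_or_ge k r with h | h
    · rw [Function.update_of_ne (by omega)]
      exact hP.alg k h
    · have : k = r := by omega
      subst this
      rw [Function.update_self]
      exact hg)
  have hGan : ∀ j < r + 1, ∀ t, AnalyticAt ℝ (Function.update G r g j) t := by
    intro k hk
    rcases Nat.lt_or_ge k r with h | h
    · rw [Function.update_of_ne (by omega)]
      exact (hP.alg k h).1
    · have : k = r := by omega
      subst this
      rw [Function.update_self]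
      exact hg.1
  obtain ⟨A', hA'⟩ : ∃ A' : Matrix (Fin (r + 1)) (Fin (r + 1)) ℂ, A' = bigM r A 0 1 := ⟨_, rfl⟩
  have hlin : ∀ (j : Fin (r + 1)) (t : ℝ),
      Function.update (fun j x => ((S j x : ℝ) : ℂ)) r g j t =
        ∑ k : Fin (r + 1), A' j k * Function.update G r g k t := by
    intro j t
    rw [Fin.sum_univ_castSucc, hA']
    refine Fin.lastCases ?_ (fun i => ?_) j
    · rw [bigM_ll, Fin.val_last, Function.update_self, Function.update_self]
      simp [bigM_lc]
    · rw [bigM_cl, zero_mul, add_zero, Fin.val_castSucc, Function.update_of_ne i.2.ne, hP.lin]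
      refine Finset.sum_congr rfl fun k _ => ?_
      rw [bigM_cc, Fin.val_castSucc, Function.update_of_ne k.2.ne]
  have hB : ∀ t, WrC (Function.update (fun j x => ((S j x : ℝ) : ℂ)) r g) (r + 1) t =
      A'.det * WrC (Function.update G r g) (r + 1) t := by
    intro t
    exact WrC_lin _ _ _ A' (fun j hj => contDiff_of_analytic (hGan j hj)) hlin t
  refine sel_add d r S _ hS hre hind
    (WrC (Function.update (fun j x => ((S j x : ℝ) : ℂ)) r g) (r + 1)) ?_
    (C (A'.det ^ 2) * Nu) De ?_ hDe ?_ ?_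
  · intro t
    have h1 : WrC (Function.update (fun j x => ((S j x : ℝ) : ℂ)) r g) (r + 1) =
        fun t => A'.det * WrC (Function.update G r g) (r + 1) t := funext hB
    rw [h1]
    exact analyticAt_const.mul (WrC_analytic _ _ hGan t)
  · exact (natDegree_C_mul_le _ _).trans hNu
  · intro t
    refine ⟨(hND t).1, ?_⟩
    rw [hB, mul_pow, mul_assoc, (hND t).2, eval_mul, eval_C]
  · intro t
    exact WrC_re S g r (fun j hj => contDiff_of_analytic (hS.an j hj)) (alg_cd hg) t

end PC992LG
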