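import Mathlib
import Pool.Agent.Work.MP_992d6e_an.LG.ParE

/-!
MODULE ParF (M). Extending the parallel lists by `Re g`, `Im g` on one side and `g`, `conj g` on the other.

par_add2: `u = (g + conj g)/2`, `v = (g - conj g)/(2i)`; the matrix `A2` has the blocks `A` and
`[[1/2, 1/2], [1/(2i), -1/(2i)]]` and zeros elsewhere; its determinant is `det A * (-1/(2i)) ≠ 0` (e.g. Matrix.fromBlocks and
Matrix.det_fromBlocks_zero₂₁ with the equivalence `Fin r ⊕ Fin 2 ≃ Fin (r+2)` (finSumFinEquiv), Matrix.det_reindex_self).
`conj g` is Alg by Alg.conj.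
sel_full: `sel_add` for `S1 = update S r u`, `w = v`, with `B t = (Wr S2 (r+2) t : ℂ) = det A2 * WrC G2 (r+2) t` (WrC_ofReal, WrC_lin)
and `WrC_struct` for `G2`: `B^2 De = (det A2)^2 Nu`.
-/

namespace PC992LG

open Polynomial Filter Topology PC992WC
open scoped ContDiff

private noncomputable def M2 : Matrix (Fin 2) (Fin 2) ℂ :=
  !![1 / 2, 1 / 2; 1 / (2 * Complex.I), -(1 / (2 * Complex.I))]

private theorem M2_det : M2.det ≠ 0 := by
  rw [M2, Matrix.det_fin_two_of]
  have h : (1 / 2 : ℂ) * -(1 / (2 * Complex.I)) - 1 / 2 * (1 / (2 * Complex.I)) =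
      -(1 / (2 * Complex.I)) := by ring
  rw [h]
  simp

private theorem re_conj (z : ℂ) : ((z.re : ℝ) : ℂ) = 1 / 2 * z + 1 / 2 * (starRingEnd ℂ) z := by
  rw [Complex.re_eq_add_conj]
  ring

private theorem im_conj (z : ℂ) : ((z.im : ℝ) : ℂ) =
    1 / (2 * Complex.I) * z + -(1 / (2 * Complex.I)) * (starRingEnd ℂ) z := by
  rw [Complex.im_eq_sub_conj]
  ring

theorem par_add2 (d r : ℕ) (S : ℕ → ℝ → ℝ) (G : ℕ → ℝ → ℂ) (A : Matrix (Fin r) (Fin r) ℂ)
    (hP : Par d r S G A) (g : ℝ → ℂ) (hg : Alg d g) :
    ∃ A' : Matrix (Fin (r + 2)) (Fin (r + 2)) ℂ,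
      Par d (r + 2)
        (Function.update (Function.update S r (fun t => (g t).re)) (r + 1) (fun t => (g t).im))
        (Function.update (Function.update G r g) (r + 1) (fun t => (starRingEnd ℂ) (g t))) A' := by
  have hG0 : ∀ k : ℕ, k < r → Function.update (Function.update G r g) (r + 1)
      (fun t => (starRingEnd ℂ) (g t)) k = G k := fun k hk => by
    rw [Function.update_of_ne (by omega), Function.update_of_ne (by omega)]
  have hG1 : Function.update (Function.update G r g) (r + 1)
      (fun t => (starRingEnd ℂ) (g t)) r = g := by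
    rw [Function.update_of_ne (by omega), Function.update_self]
  have hG2 : Function.update (Function.update G r g) (r + 1)
      (fun t => (starRingEnd ℂ) (g t)) (r + 1) = fun t => (starRingEnd ℂ) (g t) :=
    Function.update_self ..
  have hS0 : ∀ k : ℕ, k < r → Function.update (Function.update S r (fun t => (g t).re)) (r + 1)
      (fun t => (g t).im) k = S k := fun k hk => by
    rw [Function.update_of_ne (by omega), Function.update_of_ne (by omega)]
  have hS1 : Function.update (Function.update S r (fun t => (g t).re)) (r + 1)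
      (fun t => (g t).im) r = fun t => (g t).re := by
    rw [Function.update_of_ne (by omega), Function.update_self]
  have hS2 : Function.update (Function.update S r (fun t => (g t).re)) (r + 1)
      (fun t => (g t).im) (r + 1) = fun t => (g t).im :=
    Function.update_self ..
  refine ⟨Matrix.reindex finSumFinEquiv finSumFinEquiv (Matrix.fromBlocks A 0 0 M2),
    fun k hk => ?_, ?_, fun i t => ?_⟩
  · rcases Nat.lt_trichotomy k r with h | h | h
    · rw [hG0 k h]
      exact hP.alg k h
    · subst h
      rw [hG1]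
      exact hg
    · have : k = r + 1 := by omega
      subst this
      rw [hG2]
      exact hg.conj
  · rw [Matrix.det_reindex_self, Matrix.det_fromBlocks_zero₂₁]
    exact mul_ne_zero hP.det M2_det
  · obtain ⟨x, rfl⟩ := finSumFinEquiv.surjective i
    rw [← finSumFinEquiv.sum_comp, Fintype.sum_sum_type]
    simp only [Matrix.reindex_apply, Matrix.submatrix_apply, Equiv.symm_apply_apply]
    rcases x with x | x
    · simp only [Matrix.fromBlocks_apply₁₁, Matrix.fromBlocks_apply₁₂, Matrix.zero_apply, zero_mul,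
        Finset.sum_const_zero, add_zero, finSumFinEquiv_apply_left, Fin.val_castAdd]
      rw [hS0 x x.2, hP.lin x t]
      exact Finset.sum_congr rfl fun k _ => by rw [hG0 k k.2]
    · simp only [Matrix.fromBlocks_apply₂₁, Matrix.fromBlocks_apply₂₂, Matrix.zero_apply, zero_mul,
        Finset.sum_const_zero, zero_add, finSumFinEquiv_apply_right, Fin.val_natAdd,
        Fin.sum_univ_two, Fin.val_zero, Fin.val_one, add_zero]
      rw [hG1, hG2]
      fin_cases x
      · simp only [M2, Fin.zero_eta, add_zero, Matrix.of_apply, Matrix.cons_val', Matrix.cons_val_zero,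
          Matrix.cons_val_one, Matrix.cons_val_fin_one]
        rw [hS1]
        exact re_conj (g t)
      · simp only [M2, Fin.mk_one, Matrix.of_apply, Matrix.cons_val', Matrix.cons_val_zero,
          Matrix.cons_val_one, Matrix.cons_val_fin_one]
        rw [hS2]
        exact im_conj (g t)

private theorem an_im {g : ℝ → ℂ} {t : ℝ} (h : AnalyticAt ℝ g t) :
    AnalyticAt ℝ (fun t => (g t).im) t :=
  (Complex.imCLM.analyticAt (g t)).comp h

private theorem an_coe {g : ℝ → ℝ} {t : ℝ} (h : AnalyticAt ℝ g t) :
    AnalyticAt ℝ (fun t => (g t : ℂ)) t :=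
  (Complex.ofRealCLM.analyticAt (g t)).comp h

theorem sel_full (d r : ℕ) (S : ℕ → ℝ → ℝ) (G : ℕ → ℝ → ℂ) (A : Matrix (Fin r) (Fin r) ℂ)
    (hP : Par d r S G A) (g : ℝ → ℂ) (hg : Alg d g)
    (hS1 : Sel d (r + 1) (Function.update S r (fun t => (g t).re)))
    (hind : ¬ InSpan (r + 1) (Function.update S r (fun t => (g t).re)) (fun t => (g t).im)) :
    Sel d (r + 2)
      (Function.update (Function.update S r (fun t => (g t).re)) (r + 1)
        (fun t => (g t).im)) := by
  obtain ⟨A', hP'⟩ := par_add2 d r S G A hP g hg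
  obtain ⟨Nu, De, h1, h2, h3⟩ := WrC_struct d (r + 2) _ hP'.alg
  have hv : ∀ t, AnalyticAt ℝ (fun t => (g t).im) t := fun t => an_im (hg.1 t)
  have hS2 : ∀ j < r + 2, ∀ t, AnalyticAt ℝ (Function.update (Function.update S r
      (fun t => (g t).re)) (r + 1) (fun t => (g t).im) j) t := by
    intro j hj t
    by_cases h : j = r + 1
    · subst h
      rw [Function.update_self]
      exact hv t
    · rw [Function.update_of_ne h]
      exact hS1.an j (by omega) t
  have hco : ∀ t, WrC (fun j x => ((Function.update (Function.update S r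
      (fun t => (g t).re)) (r + 1) (fun t => (g t).im) j x : ℝ) : ℂ)) (r + 2) t =
      ((Wr (Function.update (Function.update S r
      (fun t => (g t).re)) (r + 1) (fun t => (g t).im)) (r + 2) t : ℝ) : ℂ) := fun t =>
    WrC_ofReal _ _ _ fun j hj => contDiff_of_analytic (hS2 j hj)
  have hlin := fun t => WrC_lin (fun j x => ((Function.update (Function.update S r
      (fun t => (g t).re)) (r + 1) (fun t => (g t).im) j x : ℝ) : ℂ)) _ (r + 2) A'
      (fun j hj => contDiff_of_analytic (hP'.alg j hj).1) hP'.lin t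
  refine sel_add d (r + 1) _ _ hS1 hv hind (WrC (fun j x => ((Function.update (Function.update S r
      (fun t => (g t).re)) (r + 1) (fun t => (g t).im) j x : ℝ) : ℂ)) (r + 2))
    (fun t => WrC_analytic _ _ (fun j hj t => an_coe (hS2 j hj t)) t)
    (C (A'.det ^ 2) * Nu) De ((natDegree_C_mul_le _ _).trans h1) h2 (fun t => ⟨(h3 t).1, ?_⟩)
    (fun t => ?_)
  · rw [hlin, eval_mul, eval_C, ← (h3 t).2]
    ring
  · rw [hco, Complex.ofReal_re]

end PC992LG
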