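import Mathlib
import Pool.Agent.Work.MP_992d6e_an.LG.ParF

/-!
MODULE SelC (M). Selection of real functions from complex algebraic ones.

Prove by induction on `m` the statement with the additional conclusion `∃ G A, Par d r S G A`. `m = 0`: `r = 0`.
Step: let `g = g m`, `u = Re g`, `v = Im g`, and `S, r, G, A` for the first `m` functions.
(1) `u, v ∈ span S`: keep everything.
(2) `u = ∑ c l S l`, `v ∉ span S`: `v = -i g + ∑ (i c l) S l`: sel_par_add with `w = v`, `μ = -i`.
(3) `u ∉ span S`, and `v ∈ span (update S r u)` with `r+1` functions, `v = ∑ c l S l + c u`: then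
    `g = (1 + i c) u + ∑ i c l S l`, `1 + i c ≠ 0`, so `u = g/(1+ic) - ∑ (i c l/(1+ic)) S l`: sel_par_add with `w = u`.
(4) `u ∉ span S`, `v ∉ span (update S r u)`: sel_half, then par_add2 and sel_full (module ParF).
Spans only grow: `InSpan r S w → InSpan (r+1) (update S r w') w`.
-/

namespace PC992LG

open Polynomial Filter Topology PC992WC
open scoped ContDiff

private theorem span_mono {r : ℕ} {S : ℕ → ℝ → ℝ} {w : ℝ → ℝ} (w' : ℝ → ℝ)
    (h : InSpan r S w) : InSpan (r + 1) (Function.update S r w') w := by
  obtain ⟨c, hc⟩ := h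
  refine ⟨Function.update c r 0, fun t => ?_⟩
  rw [Finset.sum_range_succ, Function.update_self, zero_mul, add_zero, hc t]
  refine Finset.sum_congr rfl fun l hl => ?_
  have hl' : l ≠ r := (Finset.mem_range.1 hl).ne
  rw [Function.update_of_ne hl', Function.update_of_ne hl']

private theorem span_self (r : ℕ) (S : ℕ → ℝ → ℝ) (w : ℝ → ℝ) :
    InSpan (r + 1) (Function.update S r w) w := by
  refine ⟨Function.update 0 r 1, fun t => ?_⟩
  rw [Finset.sum_range_succ, Function.update_self, Function.update_self, one_mul]
  have : ∑ l ∈ Finset.range r, (Function.update 0 r 1 : ℕ → ℝ) l * Function.update S r w l t = 0 := by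
    refine Finset.sum_eq_zero fun l hl => ?_
    have hl' : l ≠ r := (Finset.mem_range.1 hl).ne
    rw [Function.update_of_ne hl', Pi.zero_apply, zero_mul]
  rw [this, zero_add]

private theorem selection_aux (d m : ℕ) (g : ℕ → ℝ → ℂ) (hg : ∀ j < m, Alg d (g j)) :
    ∃ (r : ℕ) (S : ℕ → ℝ → ℝ) (G : ℕ → ℝ → ℂ) (A : Matrix (Fin r) (Fin r) ℂ), r ≤ 2 * m ∧
      Sel d r S ∧ Par d r S G A ∧
      ∀ j < m, InSpan r S (fun t => (g j t).re) ∧ InSpan r S (fun t => (g j t).im) := by
  induction m with
  | zero =>
    refine ⟨0, fun _ _ => 0, fun _ _ => 0, 1, le_rfl, ⟨fun j hj => absurd hj (by omega),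
      fun s h1 h2 => absurd h1 (by omega)⟩, ⟨fun j hj => absurd hj (by omega), ?_,
      fun i => i.elim0⟩, fun j hj => absurd hj (by omega)⟩
    rw [Matrix.det_one]
    exact one_ne_zero
  | succ m ih =>
    obtain ⟨r, S, G, A, hr, hS, hP, hsp⟩ := ih fun j hj => hg j (by omega)
    have hgm := hg m (by omega)
    have hu : ∀ t, AnalyticAt ℝ (fun t => (g m t).re) t := fun t =>
      (Complex.reCLM.analyticAt (g m t)).comp (hgm.1 t)
    have hv : ∀ t, AnalyticAt ℝ (fun t => (g m t).im) t := fun t =>
      (Complex.imCLM.analyticAt (g m t)).comp (hgm.1 t)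
    have hsplit : ∀ t, g m t = ((g m t).re : ℂ) + Complex.I * ((g m t).im : ℂ) := fun t => by
      rw [mul_comm, Complex.re_add_im]
    by_cases h1 : InSpan r S (fun t => (g m t).re)
    · by_cases h2 : InSpan r S (fun t => (g m t).im)
      · refine ⟨r, S, G, A, by omega, hS, hP, fun j hj => ?_⟩
        rcases Nat.lt_succ_iff_lt_or_eq.1 hj with h | h
        · exact hsp j h
        · subst h
          exact ⟨h1, h2⟩
      · obtain ⟨c, hc⟩ := id h1
        obtain ⟨hS', A', hP'⟩ := sel_par_add d r S G A hS hP (g m) hgm (fun t => (g m t).im) hv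
          (-Complex.I) (neg_ne_zero.2 Complex.I_ne_zero) (fun l => Complex.I * c l) (fun t => by
            have h3 : ∑ l ∈ Finset.range r, (Complex.I * (c l : ℂ)) * (S l t : ℂ) =
                Complex.I * (((g m t).re : ℝ) : ℂ) := by
              have h4 := congrArg (fun x : ℝ => (x : ℂ)) (hc t)
              simp only [Complex.ofReal_sum, Complex.ofReal_mul] at h4
              rw [h4, Finset.mul_sum]
              exact Finset.sum_congr rfl fun l _ => by ring
            rw [h3]
            linear_combination Complex.I * hsplit t + ((g m t).im : ℂ) * Complex.I_mul_I) h2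
        refine ⟨r + 1, _, _, A', by omega, hS', hP', fun j hj => ?_⟩
        rcases Nat.lt_succ_iff_lt_or_eq.1 hj with h | h
        · exact ⟨span_mono _ (hsp j h).1, span_mono _ (hsp j h).2⟩
        · subst h
          exact ⟨span_mono _ h1, span_self _ _ _⟩
    · by_cases h2 : InSpan (r + 1) (Function.update S r (fun t => (g m t).re))
          (fun t => (g m t).im)
      · obtain ⟨c, hc⟩ := id h2
        have hne : (1 + Complex.I * (c r : ℂ)) ≠ 0 := by
          intro h
          have := congrArg Complex.re h
          simp at this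
        obtain ⟨hS', A', hP'⟩ := sel_par_add d r S G A hS hP (g m) hgm (fun t => (g m t).re) hu
          (1 + Complex.I * (c r : ℂ))⁻¹ (inv_ne_zero hne)
          (fun l => -(Complex.I * c l * (1 + Complex.I * (c r : ℂ))⁻¹)) (fun t => by
            have h4 := congrArg (fun x : ℝ => (x : ℂ)) (hc t)
            simp only [Finset.sum_range_succ, Function.update_self, Complex.ofReal_add,
              Complex.ofReal_sum, Complex.ofReal_mul] at h4
            have h5 : ∑ l ∈ Finset.range r, (c l : ℂ) *
                ((Function.update S r (fun t => (g m t).re) l t : ℝ) : ℂ) =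
                ∑ l ∈ Finset.range r, (c l : ℂ) * (S l t : ℂ) :=
              Finset.sum_congr rfl fun l hl => by
                rw [Function.update_of_ne (Finset.mem_range.1 hl).ne]
            rw [h5] at h4
            have h3 : ∑ l ∈ Finset.range r, (-(Complex.I * (c l : ℂ) *
                (1 + Complex.I * (c r : ℂ))⁻¹)) * (S l t : ℂ) =
                -(Complex.I * (1 + Complex.I * (c r : ℂ))⁻¹) *
                  ∑ l ∈ Finset.range r, (c l : ℂ) * (S l t : ℂ) := by
              rw [Finset.mul_sum]
              exact Finset.sum_congr rfl fun l _ => by ring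
            rw [h3]
            have h6 : ∑ l ∈ Finset.range r, (c l : ℂ) * (S l t : ℂ) =
                ((g m t).im : ℂ) - (c r : ℂ) * ((g m t).re : ℂ) := by
              rw [h4]
              ring
            rw [h6]
            have h7 : (1 + Complex.I * (c r : ℂ))⁻¹ * g m t +
                -(Complex.I * (1 + Complex.I * (c r : ℂ))⁻¹) *
                  (((g m t).im : ℂ) - (c r : ℂ) * ((g m t).re : ℂ)) =
                (1 + Complex.I * (c r : ℂ))⁻¹ * ((1 + Complex.I * (c r : ℂ)) *
                  ((g m t).re : ℂ)) := by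
              linear_combination (1 + Complex.I * (c r : ℂ))⁻¹ * hsplit t
            rw [h7, inv_mul_cancel_left₀ hne]) h1
        refine ⟨r + 1, _, _, A', by omega, hS', hP', fun j hj => ?_⟩
        rcases Nat.lt_succ_iff_lt_or_eq.1 hj with h | h
        · exact ⟨span_mono _ (hsp j h).1, span_mono _ (hsp j h).2⟩
        · subst h
          exact ⟨span_self _ _ _, h2⟩
      · have hS1 := sel_half d r S G A hS hP (g m) hgm h1
        obtain ⟨A', hP'⟩ := par_add2 d r S G A hP (g m) hgm
        have hS2 := sel_full d r S G A hP (g m) hgm hS1 h2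
        refine ⟨r + 2, _, _, A', by omega, hS2, hP', fun j hj => ?_⟩
        rcases Nat.lt_succ_iff_lt_or_eq.1 hj with h | h
        · exact ⟨span_mono _ (span_mono _ (hsp j h).1), span_mono _ (span_mono _ (hsp j h).2)⟩
        · subst h
          exact ⟨span_mono _ (span_self _ _ _), span_self _ _ _⟩

theorem selection (d m : ℕ) (g : ℕ → ℝ → ℂ) (hg : ∀ j < m, Alg d (g j)) :
    ∃ (r : ℕ) (S : ℕ → ℝ → ℝ), r ≤ 2 * m ∧ Sel d r S ∧
      ∀ j < m, InSpan r S (fun t => (g j t).re) ∧ InSpan r S (fun t => (g j t).im) := by
  obtain ⟨r, S, G, A, hr, hS, hP, h⟩ := selection_aux d m g hg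
  exact ⟨r, S, hr, hS, h⟩

end PC992LG
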