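import Mathlib
import Pool.Agent.Work.MP_992d6e_an.LG.SelC
import Pool.Agent.Work.MP_992d6e_an.WC.Ect

/-!
MODULE CntC (M). Zero count (compare WC/Cnt.lean, which is very similar).

sel_count: `B` = union of the root sets of the polynomials of `Sel.wr`, `1 ≤ s ≤ r`, so `|B| ≤ 8 d r^3`. For `t ∈ T \ B` let
  `ν t = #{b ∈ B, b < t}`. If `t1 < t2` in `T \ B` have the same `ν` then `[t1,t2]` does not meet `B`, so all
  `Wr S s ≠ 0` there and `ect_zeros` bounds each fibre by `r`.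
re_count: `selection`; `Re (∑ γ j g j) = ∑ (Re γ j * Re g j - Im γ j * Im g j) = ∑ c l S l`, some `c l ≠ 0` by hne; with
  `r ≤ 2m`: `64 d m^3 + (64 d m^3 + 1) 2 m ≤ 200 d m^4`.
-/

namespace PC992LG

open Polynomial Filter Topology PC992WC
open scoped ContDiff

theorem sel_count (d r : ℕ) (S : ℕ → ℝ → ℝ) (hS : Sel d r S) (c : ℕ → ℝ)
    (hc : ∃ l < r, c l ≠ 0) (T : Finset ℝ)
    (hT : ∀ t ∈ T, ∑ l ∈ Finset.range r, c l * S l t = 0) :
    T.card ≤ 8 * d * r ^ 3 + (8 * d * r ^ 3 + 1) * r := by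
  classical
  have hq : ∀ s, ∃ q : ℝ[X], 1 ≤ s → s ≤ r → q ≠ 0 ∧ q.natDegree ≤ 8 * d * s ^ 2 ∧
      ∀ t, Wr S s t = 0 → q.eval t = 0 := by
    intro s
    by_cases h : 1 ≤ s ∧ s ≤ r
    · obtain ⟨q, hq⟩ := hS.wr s h.1 h.2
      exact ⟨q, fun _ _ => hq⟩
    · exact ⟨0, fun h1 h2 => absurd ⟨h1, h2⟩ h⟩
  choose Q hQ using hq
  let B : Finset ℝ := (Finset.Icc 1 r).biUnion (fun s => (Q s).roots.toFinset)
  have hroots : ∀ p : ℝ[X], p.roots.toFinset.card ≤ p.natDegree := fun p =>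
    (Multiset.toFinset_card_le _).trans (Polynomial.card_roots' p)
  have hB : B.card ≤ 8 * d * r ^ 3 := by
    have b1 : B.card ≤ r * (8 * d * r ^ 2) := by
      refine (Finset.card_biUnion_le_card_mul _ _ (8 * d * r ^ 2) ?_).trans ?_
      · intro s hs
        rw [Finset.mem_Icc] at hs
        refine (hroots _).trans ((hQ s hs.1 hs.2).2.1.trans ?_)
        exact Nat.mul_le_mul_left _ (Nat.pow_le_pow_left hs.2 2)
      · rw [Nat.card_Icc]
        exact Nat.mul_le_mul_right _ (by omega)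
    calc B.card ≤ r * (8 * d * r ^ 2) := b1
      _ = 8 * d * r ^ 3 := by ring
  have hBQ : ∀ t, t ∉ B → ∀ s, 1 ≤ s → s ≤ r → Wr S s t ≠ 0 := by
    intro t ht s hs1 hs2 h0
    apply ht
    rw [Finset.mem_biUnion]
    refine ⟨s, Finset.mem_Icc.mpr ⟨hs1, hs2⟩, ?_⟩
    rw [Multiset.mem_toFinset, Polynomial.mem_roots (hQ s hs1 hs2).1]
    exact (hQ s hs1 hs2).2.2 t h0
  let ν : ℝ → ℕ := fun t => (B.filter (fun b => b < t)).card
  have hfib : ∀ v ∈ (T \ B).image ν, ((T \ B).filter (fun t => ν t = v)).card ≤ r := by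
    intro v _
    set F := (T \ B).filter (fun t => ν t = v) with hFdef
    rcases F.eq_empty_or_nonempty with h0 | hne
    · rw [h0]
      simp
    set a := F.min' hne with ha
    set b := F.max' hne with hb
    have haF : a ∈ F := F.min'_mem hne
    have hbF : b ∈ F := F.max'_mem hne
    have hFI : ∀ t ∈ F, t ∈ Set.Icc a b := fun t ht => ⟨F.min'_le t ht, F.le_max' t ht⟩
    have hFm : ∀ t ∈ F, t ∈ T ∧ t ∉ B ∧ ν t = v := by
      intro t ht
      rw [hFdef, Finset.mem_filter, Finset.mem_sdiff] at ht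
      exact ⟨ht.1.1, ht.1.2, ht.2⟩
    have hIB : ∀ t ∈ Set.Icc a b, t ∉ B := by
      intro t ht htB
      rcases ht.2.eq_or_lt with rfl | hlt
      · exact (hFm b hbF).2.1 htB
      · have hss : B.filter (fun x => x < a) ⊂ B.filter (fun x => x < b) := by
          rw [Finset.ssubset_iff_of_subset]
          · refine ⟨t, Finset.mem_filter.mpr ⟨htB, hlt⟩, ?_⟩
            rw [Finset.mem_filter]
            exact fun h => absurd h.2 (not_lt.mpr ht.1)
          · intro x hx
            rw [Finset.mem_filter] at hx ⊢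
            exact ⟨hx.1, hx.2.trans_le (ht.1.trans ht.2)⟩
        have := Finset.card_lt_card hss
        have e1 := (hFm a haF).2.2
        have e2 := (hFm b hbF).2.2
        simp only [ν] at e1 e2
        omega
    refine (ect_zeros r S a b ?_ ?_ c hc F ?_).le
    · intro j hj t _
      exact (hS.an j hj t).contDiffAt
    · intro s hs1 hs2 t ht
      exact hBQ t (hIB t ht) s hs1 hs2
    · intro t ht
      exact ⟨hFI t ht, hT t (hFm t ht).1⟩
  have hc1 : (T \ B).card ≤ r * ((T \ B).image ν).card :=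
    Finset.card_le_mul_card_image _ _ hfib
  have hc2 : ((T \ B).image ν).card ≤ B.card + 1 := by
    have : (T \ B).image ν ⊆ Finset.range (B.card + 1) := by
      intro v hv
      rw [Finset.mem_image] at hv
      obtain ⟨t, _, rfl⟩ := hv
      rw [Finset.mem_range]
      exact Nat.lt_succ_of_le (Finset.card_filter_le _ _)
    have := Finset.card_le_card this
    rwa [Finset.card_range] at this
  have hc3 : T.card ≤ B.card + (T \ B).card := by
    have := Finset.card_le_card (Finset.subset_union_right (s₁ := B) (s₂ := T))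
    rw [← Finset.union_sdiff_self_eq_union] at this
    exact this.trans (Finset.card_union_le _ _)
  calc T.card ≤ B.card + (T \ B).card := hc3
    _ ≤ 8 * d * r ^ 3 + r * (8 * d * r ^ 3 + 1) := by
      refine Nat.add_le_add hB (hc1.trans (Nat.mul_le_mul_left _ (hc2.trans (by omega))))
    _ = 8 * d * r ^ 3 + (8 * d * r ^ 3 + 1) * r := by ring

theorem re_count (d m : ℕ) (hd : 0 < d) (hm : 0 < m) (g : ℕ → ℝ → ℂ) (hg : ∀ j < m, Alg d (g j))
    (γ : ℕ → ℂ) (hne : ∃ t, (∑ j ∈ Finset.range m, γ j * g j t).re ≠ 0) (T : Finset ℝ)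
    (hT : ∀ t ∈ T, (∑ j ∈ Finset.range m, γ j * g j t).re = 0) :
    T.card ≤ 200 * d * m ^ 4 := by
  classical
  obtain ⟨r, S, hr, hS, hsp⟩ := selection d m g hg
  have hcr : ∀ j, ∃ c : ℕ → ℝ, j < m → ∀ t, (g j t).re = ∑ l ∈ Finset.range r, c l * S l t := by
    intro j
    by_cases h : j < m
    · obtain ⟨c, hc⟩ := (hsp j h).1
      exact ⟨c, fun _ => hc⟩
    · exact ⟨0, fun h' => absurd h' h⟩
  have hci : ∀ j, ∃ c : ℕ → ℝ, j < m → ∀ t, (g j t).im = ∑ l ∈ Finset.range r, c l * S l t := by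
    intro j
    by_cases h : j < m
    · obtain ⟨c, hc⟩ := (hsp j h).2
      exact ⟨c, fun _ => hc⟩
    · exact ⟨0, fun h' => absurd h' h⟩
  choose cr hcr using hcr
  choose ci hci using hci
  let c : ℕ → ℝ := fun l => ∑ j ∈ Finset.range m, ((γ j).re * cr j l - (γ j).im * ci j l)
  have hkey : ∀ t, (∑ j ∈ Finset.range m, γ j * g j t).re =
      ∑ l ∈ Finset.range r, c l * S l t := by
    intro t
    rw [Complex.re_sum]
    have e : ∀ j ∈ Finset.range m, (γ j * g j t).re =
        ∑ l ∈ Finset.range r, ((γ j).re * cr j l - (γ j).im * ci j l) * S l t := by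
      intro j hj
      rw [Finset.mem_range] at hj
      rw [Complex.mul_re, hcr j hj t, hci j hj t, Finset.mul_sum, Finset.mul_sum,
        ← Finset.sum_sub_distrib]
      apply Finset.sum_congr rfl
      intro l _
      ring
    rw [Finset.sum_congr rfl e, Finset.sum_comm]
    apply Finset.sum_congr rfl
    intro l _
    simp only [c]
    rw [Finset.sum_mul]
  have hc : ∃ l < r, c l ≠ 0 := by
    by_contra hcon
    push Not at hcon
    obtain ⟨t, ht⟩ := hne
    apply ht
    rw [hkey t]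
    apply Finset.sum_eq_zero
    intro l hl
    rw [hcon l (Finset.mem_range.mp hl), zero_mul]
  have h1 := sel_count d r S hS c hc T (fun t ht => by rw [← hkey t]; exact hT t ht)
  have h2 : r ^ 3 ≤ (2 * m) ^ 3 := Nat.pow_le_pow_left hr 3
  have h3 : 8 * d * r ^ 3 ≤ 64 * d * m ^ 3 := by
    calc 8 * d * r ^ 3 ≤ 8 * d * (2 * m) ^ 3 := Nat.mul_le_mul_left _ h2
      _ = 64 * d * m ^ 3 := by ring
  have h4 : (8 * d * r ^ 3 + 1) * r ≤ (64 * d * m ^ 3 + 1) * (2 * m) :=
    Nat.mul_le_mul (by omega) hr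
  have h5 : m ^ 3 ≤ m ^ 4 := Nat.pow_le_pow_right hm (by norm_num)
  have h6 : d * m ^ 3 ≤ d * m ^ 4 := Nat.mul_le_mul_left _ h5
  have h7 : m ≤ d * m ^ 4 := by
    have : m ≤ m ^ 4 := Nat.le_self_pow (by norm_num) m
    calc m ≤ m ^ 4 := this
      _ = 1 * m ^ 4 := (one_mul _).symm
      _ ≤ d * m ^ 4 := Nat.mul_le_mul_right _ hd
  calc T.card ≤ 8 * d * r ^ 3 + (8 * d * r ^ 3 + 1) * r := h1
    _ ≤ 64 * d * m ^ 3 + (64 * d * m ^ 3 + 1) * (2 * m) := Nat.add_le_add h3 h4
    _ = 64 * (d * m ^ 3) + 128 * (d * m ^ 4) + 2 * m := by ring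
    _ ≤ 200 * (d * m ^ 4) := by omega
    _ = 200 * d * m ^ 4 := by ring

end PC992LG
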