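import Mathlib
import Pool.Agent.Work.MP_992d6e_an.LG.CntC

/-!
MODULE Circ (M). Zeros of the real part on a circle.

`t = tan (θ/2)` maps `(-π, π)` bijectively onto the line and `exp (iθ) = (1 + i t)/(1 - i t)`. Put
`w(t) = (1+it)/(1-it)`, `z(t) = z0 + r w(t)` (of absolute value `|z(t) - z0| = r < R`). The functions
`g 0 = 1`, `g (1+l) = h_l(z(t))`, `g (1+n+l) = w(t) h_l(z(t))`, `l < n`, are of class Alg 6:
`P_l(z(t)) (1-it)^2 = Q_l(t)` with `Q_l` a polynomial of degree at most `2` (`P_l = p0 + p1 X + p2 X^2` gives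
`p0 (1-iX)^2 + p1 (z0 (1-iX) + r (1+iX)) (1-iX) + p2 (z0 (1-iX) + r (1+iX))^2`), so
`g_(1+l)^2 Q_l^3 = (1-it)^6` and `g_(1+n+l)^2 Q_l^3 = (1+it)^2 (1-it)^4`; `Q_l(t) ≠ 0` as `h^2 P^3 = 1`.
Analyticity: `h_l` is holomorphic in the open ball, `z(t)` is real analytic with values in it.
`φ(z(t)) = γ + ∑ (α_l + β_l z0) h_l(z(t)) + (β_l r) w(t) h_l(z(t))`. `re_count` with `d = 6`, `m = 2n+1 ≤ 3n`:
`200 * 6 * 81 n^4 ≤ 100000 n^4`; `θ ↦ tan (θ/2)` is injective on `(-π,π)`.
-/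

namespace PC992LG

open Polynomial Filter Topology PC992WC Metric
open scoped ContDiff Real

private noncomputable def cw (t : ℝ) : ℂ := (1 + t * Complex.I) / (1 - t * Complex.I)

private lemma cden (t : ℝ) : (1 - t * Complex.I : ℂ) ≠ 0 := by
  intro h
  have := congrArg Complex.re h
  simp at this

private lemma cnum (t : ℝ) : (1 + t * Complex.I : ℂ) ≠ 0 := by
  intro h
  have := congrArg Complex.re h
  simp at this

private lemma cw_norm (t : ℝ) : ‖cw t‖ = 1 := by
  unfold cw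
  have e : (1 - t * Complex.I : ℂ) = (starRingEnd ℂ) (1 + t * Complex.I) := by
    simp [Complex.conj_ofReal, sub_eq_add_neg]
  rw [norm_div, e, Complex.norm_conj, div_self]
  exact norm_ne_zero_iff.mpr (cnum t)

private lemma cw_an (t : ℝ) : AnalyticAt ℝ cw t := by
  unfold cw
  have h1 : AnalyticAt ℝ (fun t : ℝ => (t : ℂ)) t := Complex.ofRealCLM.analyticAt t
  refine AnalyticAt.div ?_ ?_ (cden t)
  · exact analyticAt_const.add (h1.mul analyticAt_const)
  · exact analyticAt_const.sub (h1.mul analyticAt_const)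

private lemma cw_exp (θ : ℝ) (hθ : θ ∈ Set.Ioo (-π) π) :
    Complex.exp (θ * Complex.I) = cw (Real.tan (θ / 2)) := by
  have hc : Real.cos (θ / 2) ≠ 0 := by
    refine (Real.cos_pos_of_mem_Ioo ⟨?_, ?_⟩).ne'
    · linarith [hθ.1]
    · linarith [hθ.2]
  have h1 : Complex.exp (θ * Complex.I) = Complex.exp (((θ / 2 : ℝ) : ℂ) * Complex.I) ^ 2 := by
    rw [← Complex.exp_nat_mul]
    congr 1
    push_cast
    ring
  rw [h1, Complex.exp_mul_I, ← Complex.ofReal_cos, ← Complex.ofReal_sin]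
  unfold cw
  rw [eq_div_iff (cden _), Real.tan_eq_sin_div_cos]
  have hc' : ((Real.cos (θ / 2) : ℝ) : ℂ) ≠ 0 := by exact_mod_cast hc
  have hcs : ((Real.cos (θ / 2) : ℝ) : ℂ) ^ 2 + ((Real.sin (θ / 2) : ℝ) : ℂ) ^ 2 = 1 := by
    exact_mod_cast Real.cos_sq_add_sin_sq (θ / 2)
  generalize ((Real.cos (θ / 2) : ℝ)) = c at *
  generalize ((Real.sin (θ / 2) : ℝ)) = s at *
  push_cast
  field_simp
  linear_combination (c + s * Complex.I) * hcs - (c + s * Complex.I) * s ^ 2 * Complex.I_sq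

private lemma cz_mem {z0 : ℂ} {R r : ℝ} (hr : 0 < r) (hrR : r < R) (t : ℝ) :
    z0 + r * cw t ∈ ball z0 R := by
  rw [mem_ball_iff_norm, add_sub_cancel_left, norm_mul, cw_norm, mul_one, Complex.norm_real,
    Real.norm_of_nonneg hr.le]
  exact hrR

private noncomputable def cQ (z0 : ℂ) (r : ℝ) (P : ℂ[X]) : ℂ[X] :=
  C (P.coeff 0) * (1 - C Complex.I * X) ^ 2 +
  C (P.coeff 1) * ((C z0 * (1 - C Complex.I * X) + C (r : ℂ) * (1 + C Complex.I * X)) *
    (1 - C Complex.I * X)) +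
  C (P.coeff 2) * (C z0 * (1 - C Complex.I * X) + C (r : ℂ) * (1 + C Complex.I * X)) ^ 2

private lemma cQ_deg (z0 : ℂ) (r : ℝ) (P : ℂ[X]) : (cQ z0 r P).natDegree ≤ 2 := by
  unfold cQ
  compute_degree

private lemma cQ_eval (z0 : ℂ) (r : ℝ) (P : ℂ[X]) (hP : P.natDegree ≤ 2) (t : ℝ) :
    (cQ z0 r P).eval (t : ℂ) = P.eval (z0 + r * cw t) * (1 - t * Complex.I) ^ 2 := by
  have e : P.eval (z0 + r * cw t) = P.coeff 0 + P.coeff 1 * (z0 + r * cw t) +
      P.coeff 2 * (z0 + r * cw t) ^ 2 := by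
    rw [Polynomial.eval_eq_sum_range' (n := 3) (by omega)]
    simp [Finset.sum_range_succ]
  rw [e]
  have hw : (1 + Complex.I * t : ℂ) = cw t * (1 - Complex.I * t) := by
    unfold cw
    have := cden t
    rw [mul_comm Complex.I (t : ℂ), div_mul_cancel₀ _ this]
  unfold cQ
  simp only [eval_add, eval_mul, eval_C, eval_pow, eval_sub, eval_one, eval_X]
  rw [hw, mul_comm (t : ℂ) Complex.I]
  ring

private lemma cden_eval (t : ℝ) : (1 - C Complex.I * X : ℂ[X]).eval (t : ℂ) = 1 - t * Complex.I := by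
  simp only [eval_sub, eval_one, eval_mul, eval_C, eval_X]
  ring

private lemma cnum_eval (t : ℝ) : (1 + C Complex.I * X : ℂ[X]).eval (t : ℂ) = 1 + t * Complex.I := by
  simp only [eval_add, eval_one, eval_mul, eval_C, eval_X]
  ring

private lemma calg (z0 : ℂ) (R r : ℝ) (hr : 0 < r) (hrR : r < R) (P : ℂ[X]) (hP : P.natDegree ≤ 2)
    (h : ℂ → ℂ) (hd : DifferentiableOn ℂ h (ball z0 R))
    (hh : ∀ z ∈ ball z0 R, h z ^ 2 * P.eval z ^ 3 = 1) :
    Alg 6 (fun t => h (z0 + r * cw t)) ∧ Alg 6 (fun t => cw t * h (z0 + r * cw t)) := by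
  have han : ∀ t : ℝ, AnalyticAt ℝ (fun t => h (z0 + r * cw t)) t := by
    intro t
    have h1 : AnalyticAt ℝ h (z0 + r * cw t) :=
      (hd.analyticAt (isOpen_ball.mem_nhds (cz_mem hr hrR t))).restrictScalars
    have h2 : AnalyticAt ℝ (fun t => z0 + r * cw t) t :=
      analyticAt_const.add (analyticAt_const.mul (cw_an t))
    exact AnalyticAt.comp (f := fun t => z0 + r * cw t) h1 h2
  have hPne : ∀ t : ℝ, P.eval (z0 + r * cw t) ≠ 0 := by
    intro t h0
    have := hh _ (cz_mem hr hrR t)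
    rw [h0] at this
    simp at this
  have hQne : ∀ t : ℝ, (cQ z0 r P).eval (t : ℂ) ≠ 0 := by
    intro t
    rw [cQ_eval z0 r P hP]
    exact mul_ne_zero (hPne t) (pow_ne_zero _ (cden t))
  have hV : ((cQ z0 r P) ^ 3).natDegree ≤ 6 := by
    refine Polynomial.natDegree_pow_le.trans ?_
    have := cQ_deg z0 r P
    omega
  refine ⟨⟨han, (1 - C Complex.I * X) ^ 6, (cQ z0 r P) ^ 3, by compute_degree, hV, fun t => ?_⟩,
    ⟨fun t => (cw_an t).mul (han t), (1 + C Complex.I * X) ^ 2 * (1 - C Complex.I * X) ^ 4,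
      (cQ z0 r P) ^ 3, by compute_degree, hV, fun t => ?_⟩⟩
  · refine ⟨?_, ?_, ?_⟩
    · rw [eval_pow, cden_eval]
      exact pow_ne_zero _ (cden t)
    · rw [eval_pow]
      exact pow_ne_zero _ (hQne t)
    · rw [eval_pow, eval_pow, cden_eval, cQ_eval z0 r P hP]
      have := hh _ (cz_mem hr hrR t)
      linear_combination (1 - t * Complex.I : ℂ) ^ 6 * this
  · refine ⟨?_, ?_, ?_⟩
    · rw [eval_mul, eval_pow, eval_pow, cden_eval, cnum_eval]
      exact mul_ne_zero (pow_ne_zero _ (cnum t)) (pow_ne_zero _ (cden t))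
    · rw [eval_pow]
      exact pow_ne_zero _ (hQne t)
    · rw [eval_mul, eval_pow, eval_pow, eval_pow, cden_eval, cnum_eval, cQ_eval z0 r P hP]
      have := hh _ (cz_mem hr hrR t)
      have hw : cw t * (1 - t * Complex.I) = 1 + t * Complex.I := by
        unfold cw
        rw [div_mul_cancel₀ _ (cden t)]
      calc (cw t * h (z0 + r * cw t)) ^ 2 *
            (P.eval (z0 + r * cw t) * (1 - t * Complex.I) ^ 2) ^ 3
          = (cw t * (1 - t * Complex.I)) ^ 2 * (1 - t * Complex.I) ^ 4 *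
            (h (z0 + r * cw t) ^ 2 * P.eval (z0 + r * cw t) ^ 3) := by ring
        _ = _ := by rw [this, hw, mul_one]

theorem circle_count (n : ℕ) (hn : 0 < n) (z0 : ℂ) (R r : ℝ) (φ : ℂ → ℂ) (hφ : Cls n z0 R φ)
    (hr : 0 < r) (hrR : r < R)
    (hne : ∃ θ ∈ Set.Ioo (-π) π, (φ (z0 + r * Complex.exp (θ * Complex.I))).re ≠ 0)
    (T : Finset ℝ)
    (hT : ∀ θ ∈ T, θ ∈ Set.Ioo (-π) π ∧ (φ (z0 + r * Complex.exp (θ * Complex.I))).re = 0) :
    T.card ≤ 100000 * n ^ 4 := by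
  classical
  obtain ⟨γ, α, β, P, h, hP, hd, hh, hφe⟩ := hφ
  let g : ℕ → ℝ → ℂ := fun j t =>
    if j = 0 then 1 else if hj : j - 1 < n then h ⟨j - 1, hj⟩ (z0 + r * cw t) else
      if hj : j - 1 - n < n then cw t * h ⟨j - 1 - n, hj⟩ (z0 + r * cw t) else 1
  let c : ℕ → ℂ := fun j =>
    if j = 0 then γ else if hj : j - 1 < n then α ⟨j - 1, hj⟩ + β ⟨j - 1, hj⟩ * z0 else
      if hj : j - 1 - n < n then β ⟨j - 1 - n, hj⟩ * r else 0
  have hone : Alg 6 (fun _ : ℝ => (1 : ℂ)) := by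
    refine ⟨fun t => analyticAt_const, 1, 1, by simp, by simp, fun t => ?_⟩
    simp
  have hg : ∀ j < 2 * n + 1, Alg 6 (g j) := by
    intro j hj
    by_cases h0 : j = 0
    · have : g j = fun _ => 1 := by
        funext t
        simp only [g]
        rw [if_pos h0]
      rw [this]
      exact hone
    by_cases h1 : j - 1 < n
    · have : g j = fun t => h ⟨j - 1, h1⟩ (z0 + r * cw t) := by
        funext t
        simp only [g]
        rw [if_neg h0, dif_pos h1]
      rw [this]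
      exact (calg z0 R r hr hrR _ (hP _) _ (hd _) (hh _)).1
    · have h2 : j - 1 - n < n := by omega
      have : g j = fun t => cw t * h ⟨j - 1 - n, h2⟩ (z0 + r * cw t) := by
        funext t
        simp only [g]
        rw [if_neg h0, dif_neg h1, dif_pos h2]
      rw [this]
      exact (calg z0 R r hr hrR _ (hP _) _ (hd _) (hh _)).2
  have hsum : ∀ t : ℝ, ∑ j ∈ Finset.range (2 * n + 1), c j * g j t = φ (z0 + r * cw t) := by
    intro t
    rw [hφe _ (cz_mem hr hrR t), Finset.sum_range_succ', two_mul, Finset.sum_range_add,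
      Finset.sum_range, Finset.sum_range]
    have e0 : c 0 * g 0 t = γ := by
      simp [c, g]
    have e1 : ∀ l : Fin n, c ((l : ℕ) + 1) * g ((l : ℕ) + 1) t =
        (α l + β l * z0) * h l (z0 + r * cw t) := by
      intro l
      have hl : (l : ℕ) + 1 - 1 < n := by have := l.2; omega
      simp only [c, g]
      rw [if_neg (Nat.succ_ne_zero _), if_neg (Nat.succ_ne_zero _), dif_pos hl, dif_pos hl]
      have : (⟨(l : ℕ) + 1 - 1, hl⟩ : Fin n) = l := Fin.ext (by simp)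
      rw [this]
    have e2 : ∀ l : Fin n, c (n + (l : ℕ) + 1) * g (n + (l : ℕ) + 1) t =
        (β l * r) * (cw t * h l (z0 + r * cw t)) := by
      intro l
      have hl1 : ¬ (n + (l : ℕ) + 1 - 1 < n) := by omega
      have hl2 : n + (l : ℕ) + 1 - 1 - n < n := by have := l.2; omega
      simp only [c, g]
      rw [if_neg (Nat.succ_ne_zero _), if_neg (Nat.succ_ne_zero _), dif_neg hl1, dif_neg hl1,
        dif_pos hl2, dif_pos hl2]
      have : (⟨n + (l : ℕ) + 1 - 1 - n, hl2⟩ : Fin n) = l := Fin.ext (by simp)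
      rw [this]
    rw [e0, Finset.sum_congr rfl (fun l _ => e1 l), Finset.sum_congr rfl (fun l _ => e2 l),
      ← Finset.sum_add_distrib, add_comm]
    congr 1
    apply Finset.sum_congr rfl
    intro l _
    ring
  have hinj : Set.InjOn (fun θ : ℝ => Real.tan (θ / 2)) (Set.Ioo (-π) π) := by
    intro x hx y hy hxy
    have h1 : x / 2 ∈ Set.Ioo (-(π / 2)) (π / 2) := ⟨by linarith [hx.1], by linarith [hx.2]⟩
    have h2 : y / 2 ∈ Set.Ioo (-(π / 2)) (π / 2) := ⟨by linarith [hy.1], by linarith [hy.2]⟩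
    have := Real.injOn_tan h1 h2 hxy
    linarith
  have hcard : (T.image (fun θ : ℝ => Real.tan (θ / 2))).card = T.card :=
    Finset.card_image_of_injOn (fun x hx y hy hxy => hinj (hT x hx).1 (hT y hy).1 hxy)
  have hmain := re_count 6 (2 * n + 1) (by norm_num) (by omega) g hg c
    (by
      obtain ⟨θ, hθ, hne'⟩ := hne
      refine ⟨Real.tan (θ / 2), ?_⟩
      rw [hsum, ← cw_exp θ hθ]
      exact hne')
    (T.image (fun θ : ℝ => Real.tan (θ / 2)))
    (by
      intro t ht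
      rw [Finset.mem_image] at ht
      obtain ⟨θ, hθ, rfl⟩ := ht
      rw [hsum, ← cw_exp θ (hT θ hθ).1]
      exact (hT θ hθ).2)
  rw [hcard] at hmain
  have h3 : (2 * n + 1) ^ 4 ≤ (3 * n) ^ 4 := Nat.pow_le_pow_left (by omega) 4
  calc T.card ≤ 200 * 6 * (2 * n + 1) ^ 4 := hmain
    _ ≤ 200 * 6 * (3 * n) ^ 4 := Nat.mul_le_mul_left _ h3
    _ = 97200 * n ^ 4 := by ring
    _ ≤ 100000 * n ^ 4 := Nat.mul_le_mul_right _ (by norm_num)

end PC992LG
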