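import Mathlib
import Pool.Agent.Work.MP_992d6e_an.LG.Defs

/-!
MODULE Wind (M). The argument principle by the intermediate value theorem (Mathlib only).

`Complex.exists_continuousOn_eqOn_exp_comp` (ball z0 R is convex, so simply connected) gives a continuous `L` on
`ball z0 R` with `exp (L z) = g z`. For `z = z0 + r e^(iθ)`: `z - ζ_i = r e^(iθ) (1 - (ζ_i - z0) e^(-iθ)/r)` and the last
factor is in the slit plane, as `|ζ_i - z0| < r`. So
`φ(z) = r^N exp (i N θ + Λ(θ))`, `Λ(θ) = ∑_i log (1 - (ζ_i - z0) e^(-iθ)/r) + L(z)`, continuous on `[-π, π]`,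
`Λ(π) = Λ(-π)`. `ψ(θ) = N θ + Im Λ(θ)` is continuous with `ψ(π) - ψ(-π) = 2 π N`, and `Re φ(z) = 0` if
`cos ψ(θ) = 0`. For each integer `k` with `ψ(-π) < π/2 + k π < ψ(π)` (at least `2N - 1` of them: an open interval
of length `2 N π`) the intermediate value theorem gives `θ_k ∈ (-π, π)` with `ψ(θ_k) = π/2 + kπ`; they are distinct.
-/

namespace PC992LG

open Filter Topology Metric
open scoped Real

private theorem exp_log_fac (w : ℂ) (h : ‖w‖ < 1) : Complex.exp (Complex.log (1 - w)) = 1 - w := by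
  apply Complex.exp_log
  intro h0
  have h1 : w = 1 := by rw [sub_eq_zero] at h0; exact h0.symm
  rw [h1] at h
  simp at h

theorem winding (z0 : ℂ) (r R : ℝ) (hr : 0 < r) (hrR : r < R) (N : ℕ) (ζ : Fin N → ℂ)
    (hζ : ∀ i, ζ i ∈ ball z0 r) (g : ℂ → ℂ) (hg : ContinuousOn g (ball z0 R))
    (hg0 : ∀ z ∈ ball z0 R, g z ≠ 0) (φ : ℂ → ℂ)
    (hφ : ∀ z ∈ sphere z0 r, φ z = (∏ i, (z - ζ i)) * g z) :
    ∃ T : Finset ℝ, 2 * N ≤ T.card + 1 ∧
      ∀ θ ∈ T, θ ∈ Set.Ioo (-π) π ∧ (φ (z0 + r * Complex.exp (θ * Complex.I))).re = 0 := by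
  classical
  have hrc : (r : ℂ) ≠ 0 := by exact_mod_cast hr.ne'
  obtain ⟨L, hL, hLg⟩ : ∃ f : ℂ → ℂ, ContinuousOn f (ball z0 R) ∧
      Set.EqOn (Complex.exp ∘ f) g (ball z0 R) := by
    apply Complex.exists_continuousOn_eqOn_exp_comp
    · have h1 : ContractibleSpace (ball z0 R) :=
        (convex_ball z0 R).contractibleSpace ⟨z0, mem_ball_self (hr.trans hrR)⟩
      exact (inferInstance : SimplyConnectedSpace (ball z0 R))
    · exact isOpen_ball
    · exact hg
    · rintro ⟨z, hz, h0⟩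
      exact hg0 z hz h0
  let Z : ℝ → ℂ := fun θ => z0 + r * Complex.exp (θ * Complex.I)
  let W : Fin N → ℝ → ℂ := fun i θ => (ζ i - z0) * Complex.exp (-(θ * Complex.I)) / r
  have hZs : ∀ θ, Z θ ∈ sphere z0 r := by
    intro θ
    simp only [Z, mem_sphere, dist_eq_norm, add_sub_cancel_left, norm_mul,
      Complex.norm_exp_ofReal_mul_I, mul_one, Complex.norm_real, Real.norm_eq_abs, abs_of_pos hr]
  have hZb : ∀ θ, Z θ ∈ ball z0 R := fun θ => by
    have := hZs θ
    rw [mem_sphere] at this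
    rw [mem_ball, this]
    exact hrR
  have hW : ∀ i θ, ‖W i θ‖ < 1 := by
    intro i θ
    have h1 : ‖Complex.exp (-(θ * Complex.I))‖ = 1 := by
      have := Complex.norm_exp_ofReal_mul_I (-θ)
      push_cast at this
      rw [neg_mul] at this
      exact this
    have h2 := hζ i
    rw [mem_ball, dist_eq_norm] at h2
    simp only [W, norm_div, norm_mul, h1, mul_one, Complex.norm_real, Real.norm_eq_abs,
      abs_of_pos hr]
    rw [div_lt_one hr]
    exact h2
  let Λ : ℝ → ℂ := fun θ => ∑ i, Complex.log (1 - W i θ) + L (Z θ)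
  have hZc : Continuous Z := by fun_prop
  have hWc : ∀ i, Continuous (W i) := fun i => by fun_prop
  have hΛc : Continuous Λ := by
    apply Continuous.add
    · apply continuous_finsetSum
      intro i _
      rw [continuous_iff_continuousAt]
      intro θ
      apply ContinuousAt.clog
      · exact (continuous_const.sub (hWc i)).continuousAt
      · have h1 := Complex.mem_slitPlane_of_norm_lt_one (z := -(W i θ)) (by rw [norm_neg]; exact hW i θ)
        rw [← sub_eq_add_neg] at h1
        exact h1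
    · exact hL.comp_continuous hZc hZb
  let ψ : ℝ → ℝ := fun θ => N * θ + (Λ θ).im
  have hψc : Continuous ψ := by
    apply Continuous.add
    · fun_prop
    · exact Complex.continuous_im.comp hΛc
  have hper : Λ π = Λ (-π) := by
    have h1 : Complex.exp (((-π : ℝ) : ℂ) * Complex.I) = Complex.exp ((π : ℂ) * Complex.I) := by
      push_cast
      rw [neg_mul, Complex.exp_neg, Complex.exp_pi_mul_I]
      norm_num
    have h2 : Complex.exp (-(((-π : ℝ) : ℂ) * Complex.I)) = Complex.exp (-((π : ℂ) * Complex.I)) := by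
      push_cast
      rw [neg_mul, neg_neg, Complex.exp_neg, Complex.exp_pi_mul_I]
      norm_num
    simp only [Λ, Z, W, h1, h2]
  have hψ : ψ π = ψ (-π) + 2 * N * π := by
    simp only [ψ, hper]
    ring
  have hval : ∀ θ, φ (Z θ) = r ^ N * Complex.exp (N * (θ * Complex.I) + Λ θ) := by
    intro θ
    rw [hφ _ (hZs θ)]
    have h1 : ∀ i, Z θ - ζ i = r * Complex.exp (θ * Complex.I) * (1 - W i θ) := by
      intro i
      simp only [Z, W]
      rw [Complex.exp_neg]
      have := Complex.exp_ne_zero (θ * Complex.I)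
      field_simp
      ring
    rw [Finset.prod_congr rfl (fun i _ => h1 i), Finset.prod_mul_distrib, Finset.prod_const,
      Finset.card_univ, Fintype.card_fin, mul_pow]
    have h2 : g (Z θ) = Complex.exp (L (Z θ)) := (hLg (hZb θ)).symm
    have h3 : ∏ i, (1 - W i θ) = Complex.exp (∑ i, Complex.log (1 - W i θ)) := by
      rw [Complex.exp_sum]
      exact Finset.prod_congr rfl (fun i _ => (exp_log_fac _ (hW i θ)).symm)
    rw [h2, h3, Complex.exp_add, Complex.exp_add, Complex.exp_nat_mul]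
    ring
  have hre : ∀ θ, Real.cos (ψ θ) = 0 → (φ (Z θ)).re = 0 := by
    intro θ h
    rw [hval θ]
    have h1 : ((r : ℂ) ^ N) = ((r ^ N : ℝ) : ℂ) := by push_cast; rfl
    rw [h1, Complex.re_ofReal_mul, Complex.exp_re]
    have h2 : (N * (θ * Complex.I) + Λ θ).im = ψ θ := by
      simp [ψ]
    rw [h2, h, mul_zero, mul_zero]
  -- the points
  set a := ψ (-π) with ha
  let k0 : ℤ := ⌊(a - π / 2) / π⌋ + 1
  have hk1 : a < π / 2 + k0 * π := by
    have h1 := Int.lt_floor_add_one ((a - π / 2) / π)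
    rw [div_lt_iff₀ Real.pi_pos] at h1
    have h2 : (k0 : ℝ) = (⌊(a - π / 2) / π⌋ : ℝ) + 1 := by simp [k0]
    rw [h2]
    linarith
  have hk2 : π / 2 + k0 * π ≤ a + π := by
    have h1 := Int.floor_le ((a - π / 2) / π)
    rw [le_div_iff₀ Real.pi_pos] at h1
    have h2 : (k0 : ℝ) = (⌊(a - π / 2) / π⌋ : ℝ) + 1 := by simp [k0]
    rw [h2]
    linarith
  have hex : ∀ j : ℕ, j < 2 * N - 1 → ∃ θ ∈ Set.Ioo (-π) π, ψ θ = π / 2 + (k0 + j) * π := by
    intro j hj
    have h1 : Set.Ioo (ψ (-π)) (ψ π) ⊆ ψ '' Set.Ioo (-π) π :=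
      intermediate_value_Ioo (by linarith [Real.pi_pos]) hψc.continuousOn
    have hj' : (j : ℝ) + 2 ≤ 2 * N := by
      have : j + 2 ≤ 2 * N := by omega
      exact_mod_cast this
    obtain ⟨θ, hθ, h⟩ := h1 (a := π / 2 + (k0 + j) * π) (by
      constructor
      · rw [← ha]
        have : 0 ≤ (j : ℝ) * π := by positivity
        nlinarith
      · rw [hψ]
        have : ((j : ℝ) + 2) * π ≤ 2 * N * π := mul_le_mul_of_nonneg_right hj' Real.pi_pos.le
        have h5 := Real.pi_pos
        nlinarith)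
    exact ⟨θ, hθ, h⟩
  choose! t ht1 ht2 using hex
  refine ⟨(Finset.range (2 * N - 1)).image t, ?_, ?_⟩
  · rw [Finset.card_image_of_injOn, Finset.card_range]
    · omega
    · intro i hi j hj hij
      have h1 := ht2 i (by simpa using hi)
      have h2 := ht2 j (by simpa using hj)
      rw [hij, h2] at h1
      have h3 : (j : ℝ) = i := by
        have h4 : ((j : ℝ) - i) * π = 0 := by linarith
        rcases mul_eq_zero.1 h4 with h | h
        · linarith
        · exact absurd h Real.pi_ne_zero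
      exact_mod_cast h3.symm
  · intro θ hθ
    rw [Finset.mem_image] at hθ
    obtain ⟨j, hj, rfl⟩ := hθ
    rw [Finset.mem_range] at hj
    refine ⟨ht1 j hj, hre _ ?_⟩
    rw [ht2 j hj, Real.cos_eq_zero_iff]
    exact ⟨k0 + j, by push_cast; ring⟩

end PC992LG
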