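import Mathlib
import Pool.Agent.Work.MP_992d6e_an.LG.Circ
import Pool.Agent.Work.MP_992d6e_an.LG.Wind

/-!
MODULE Val (M-L). Functions of the class have at most `100000 n^4` zeros in a disc.

factor: for `φ` holomorphic on `ball z0 R`, not identically `0`, and `r < R` there are `r < r' < R'' < R` such that `φ` has no zero
  with `r' ≤ |z - z0| < R''`, and `φ = ∏ (z - ζ_i) * g` on `ball z0 R''` with `ζ_i ∈ ball z0 r'` (with
  multiplicity, `N` of them) and `g` holomorphic without zeros on `ball z0 R''`. The zeros in a compact ball are finite in number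
  (identity theorem); split off one factor `z - ζ` at a time (dslope), the analytic order at the zeros is finite
  (or: MeromorphicOn.extract_zeros_poles, Mathlib.Analysis.Meromorphic.FactorizedRational / divisor API, or
  Mathlib/Analysis/Complex/CanonicalDecomposition.lean). The sum of the divisor of `φ` over `closedBall z0 r`
  is at most `N`.
valence: if `N = 0` the bound is clear. If `Re φ = 0` on the circle `|z - z0| = r'` (up to one point, so on all of it), then
  `Re φ = 0` in the disc (maximum principle for the harmonic function `Re φ`, or: `exp φ` and `exp (-φ)` have absolute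
  value `1` on the circle, Complex.norm_le_of_forall_mem_frontier_norm_le), so `φ` is constant and has no zero,
  contradiction. Otherwise `circle_count` and `winding` (with `R''`) give `2 N - 1 ≤ 100000 n^4`, so `N ≤ 100000 n^4`.
  (`Cls` is inherited by smaller discs; for `r ≤ 0` the ball is a point or empty: not needed.)
-/

namespace PC992LG

open Filter Topology Metric Polynomial
open scoped Real

lemma Cls.differentiableOn {n : ℕ} {z0 : ℂ} {R : ℝ} {φ : ℂ → ℂ} (h : Cls n z0 R φ) :
    DifferentiableOn ℂ φ (ball z0 R) := by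
  obtain ⟨γ, α, β, P, h, hP, hd, hh, hφe⟩ := h
  refine DifferentiableOn.congr ?_ hφe
  refine (differentiableOn_const γ).add (DifferentiableOn.fun_sum fun l _ => ?_)
  exact (((differentiableOn_const (α l)).add ((differentiableOn_const (β l)).mul differentiableOn_id)).mul (hd l))

lemma Cls.mono {n : ℕ} {z0 : ℂ} {R R' : ℝ} {φ : ℂ → ℂ} (h : Cls n z0 R φ) (hR : R' ≤ R) :
    Cls n z0 R' φ := by
  obtain ⟨γ, α, β, P, hl, hP, hd, hh, hφe⟩ := h
  have hs : ball z0 R' ⊆ ball z0 R := ball_subset_ball hR
  exact ⟨γ, α, β, P, hl, hP, fun l => (hd l).mono hs, fun l z hz => hh l z (hs hz),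
    fun z hz => hφe z (hs hz)⟩

/-- adding a constant and multiplying by a constant -/
lemma Cls.affine {n : ℕ} {z0 : ℂ} {R : ℝ} {φ : ℂ → ℂ} (h : Cls n z0 R φ) (a b : ℂ) :
    Cls n z0 R (fun z => a * φ z + b) := by
  obtain ⟨γ, α, β, P, hl, hP, hd, hh, hφe⟩ := h
  refine ⟨a * γ + b, fun l => a * α l, fun l => a * β l, P, hl, hP, hd, hh, fun z hz => ?_⟩
  simp only [hφe z hz]
  rw [mul_add, Finset.mul_sum]
  have : ∀ l, a * ((α l + β l * z) * hl l z) = (a * α l + a * β l * z) * hl l z := fun l => by ring
  simp only [this]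
  ring

/-- factorisation over a finite set of zeros -/
private lemma fac_aux (B : Set ℂ) (hBo : IsOpen B) (hBc : IsPreconnected B) (D : Finset ℂ) :
    ∀ φ : ℂ → ℂ, DifferentiableOn ℂ φ B → (∃ z ∈ B, φ z ≠ 0) → (∀ z ∈ B, φ z = 0 → z ∈ D) →
      (∀ z ∈ D, z ∈ B) →
      ∃ (l : List ℂ) (g : ℂ → ℂ), (∀ z ∈ l, z ∈ D) ∧ DifferentiableOn ℂ g B ∧
        (∀ z ∈ B, g z ≠ 0) ∧ ∀ z ∈ B, φ z = (l.map (fun ζ => z - ζ)).prod * g z := by
  classical
  induction D using Finset.induction_on with
  | empty =>
    intro φ hφ _ hz _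
    refine ⟨[], φ, by simp, hφ, fun z hzB h0 => ?_, fun z _ => by simp⟩
    simpa using hz z hzB h0
  | insert u D' hu ih =>
    intro φ hφ hne hz hD
    have hφa : AnalyticOnNhd ℂ φ B := hφ.analyticOnNhd hBo
    have huB : u ∈ B := hD u (Finset.mem_insert_self _ _)
    have hnt : ¬ ∀ᶠ z in 𝓝 u, φ z = 0 := by
      intro hev
      obtain ⟨z, hzB, hz0⟩ := hne
      exact hz0 (hφa.eqOn_zero_of_preconnected_of_eventuallyEq_zero hBc huB hev hzB)
    obtain ⟨m, gl, hga, hg0, hgeq⟩ := (hφa u huB).exists_eventuallyEq_pow_smul_nonzero_iff.mpr hnt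
    set g1 : ℂ → ℂ := fun z => if z = u then gl u else φ z / (z - u) ^ m with hg1
    have hg1u : g1 =ᶠ[𝓝 u] gl := by
      filter_upwards [hgeq] with z hzz
      by_cases hzu : z = u
      · simp [hg1, hzu]
      · have h3 : (z - u) ^ m ≠ 0 := pow_ne_zero _ (sub_ne_zero.2 hzu)
        simp only [hg1, if_neg hzu, hzz, smul_eq_mul]
        field_simp
    have hfac : ∀ z ∈ B, φ z = (z - u) ^ m * g1 z := by
      intro z hzB
      by_cases hzu : z = u
      · have h5 := hgeq.self_of_nhds
        subst hzu
        simp only [hg1, if_true]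
        simpa [smul_eq_mul] using h5
      · have h3 : (z - u) ^ m ≠ 0 := pow_ne_zero _ (sub_ne_zero.2 hzu)
        simp only [hg1, if_neg hzu]
        field_simp
    have hg1d : DifferentiableOn ℂ g1 B := by
      intro z hzB
      by_cases hzu : z = u
      · subst hzu
        exact (hga.differentiableAt.congr_of_eventuallyEq hg1u).differentiableWithinAt
      · have h3 : (z - u) ^ m ≠ 0 := pow_ne_zero _ (sub_ne_zero.2 hzu)
        have h4 : DifferentiableAt ℂ (fun w => φ w / (w - u) ^ m) z :=
          (hφa z hzB).differentiableAt.div (by fun_prop) h3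
        refine (h4.congr_of_eventuallyEq ?_).differentiableWithinAt
        filter_upwards [isOpen_ne.mem_nhds hzu] with w hw
        have hw' : w ≠ u := hw
        simp only [hg1, if_neg hw']
    obtain ⟨l, g, hl, hg, hgn, heq⟩ := ih g1 hg1d
      (by
        obtain ⟨z, hzB, hz0⟩ := hne
        refine ⟨z, hzB, fun h0 => hz0 ?_⟩
        rw [hfac z hzB, h0, mul_zero])
      (by
        intro z hzB h0
        have h6 : φ z = 0 := by rw [hfac z hzB, h0, mul_zero]
        have h7 := hz z hzB h6
        rcases Finset.mem_insert.1 h7 with h8 | h8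
        · exfalso
          subst h8
          simp only [hg1, if_true] at h0
          exact hg0 h0
        · exact h8)
      (fun z hzD => hD z (Finset.mem_insert_of_mem hzD))
    refine ⟨List.replicate m u ++ l, g, ?_, hg, hgn, ?_⟩
    · intro z hz'
      rcases List.mem_append.1 hz' with h9 | h9
      · rw [List.eq_of_mem_replicate h9]
        exact Finset.mem_insert_self _ _
      · exact Finset.mem_insert_of_mem (hl z h9)
    · intro z hzB
      rw [hfac z hzB, heq z hzB, List.map_append, List.prod_append, List.map_replicate,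
        List.prod_replicate]
      ring

theorem factor (z0 : ℂ) (R r : ℝ) (hr : 0 < r) (hrR : r < R) (φ : ℂ → ℂ)
    (hφ : DifferentiableOn ℂ φ (ball z0 R)) (hne : ∃ z ∈ ball z0 R, φ z ≠ 0) :
    ∃ (r' R'' : ℝ) (N : ℕ) (ζ : Fin N → ℂ) (g : ℂ → ℂ), r < r' ∧ r' < R'' ∧ R'' < R ∧
      (∀ i, ζ i ∈ ball z0 r') ∧ DifferentiableOn ℂ g (ball z0 R'') ∧
      (∀ z ∈ ball z0 R'', g z ≠ 0) ∧ (∀ z ∈ ball z0 R'', φ z = (∏ i, (z - ζ i)) * g z) ∧
      ∑ᶠ u, MeromorphicOn.divisor φ (closedBall z0 r) u ≤ (N : ℤ) := by
  classical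
  set B := ball z0 R with hB
  have hBc : IsPreconnected B := (convex_ball z0 R).isPreconnected
  have hφa : AnalyticOnNhd ℂ φ B := hφ.analyticOnNhd isOpen_ball
  set R1 : ℝ := (r + R) / 2 with hR1
  have hrR1 : r < R1 := by rw [hR1]; linarith
  have hR1R : R1 < R := by rw [hR1]; linarith
  have hcB : closedBall z0 R1 ⊆ B := closedBall_subset_ball hR1R
  -- the zeros in the closed ball are finite in number
  have hfin : {z | z ∈ closedBall z0 R1 ∧ φ z = 0}.Finite := by
    by_contra hinf
    have hinf' : {z | z ∈ closedBall z0 R1 ∧ φ z = 0}.Infinite := hinf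
    obtain ⟨x, hx, hacc⟩ := hinf'.exists_accPt_of_subset_isCompact (isCompact_closedBall z0 R1)
      (fun z hz => hz.1)
    rw [accPt_iff_frequently_nhdsNE] at hacc
    obtain ⟨z, hzB, hz0⟩ := hne
    refine hz0 (hφa.eqOn_zero_of_preconnected_of_frequently_eq_zero hBc (hcB hx) ?_ hzB)
    exact hacc.mono fun y hy => hy.2
  set S : Finset ℂ := hfin.toFinset with hS
  have hSm : ∀ z, z ∈ S ↔ z ∈ closedBall z0 R1 ∧ φ z = 0 := fun z => by
    rw [hS, Set.Finite.mem_toFinset]; rfl
  set T : Finset ℝ := insert R1 ((S.image (fun z => dist z z0)).filter (fun x => r < x)) with hT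
  have hTne : T.Nonempty := ⟨R1, Finset.mem_insert_self _ _⟩
  set m := T.min' hTne with hm
  have hrm : r < m := by
    have h1 := T.min'_mem hTne
    rw [← hm, hT] at h1
    rcases Finset.mem_insert.1 h1 with h2 | h2
    · rw [h2]; exact hrR1
    · exact (Finset.mem_filter.1 h2).2
  have hmR1 : m ≤ R1 := T.min'_le _ (Finset.mem_insert_self _ _)
  have hSr : ∀ z ∈ S, dist z z0 < m → dist z z0 ≤ r := by
    intro z hz hlt
    by_contra hcon
    push Not at hcon
    have h3 : dist z z0 ∈ T :=
      Finset.mem_insert_of_mem (Finset.mem_filter.2 ⟨Finset.mem_image_of_mem _ hz, hcon⟩)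
    exact absurd (T.min'_le _ h3) (not_le.2 hlt)
  set r' := r + (m - r) / 3 with hr'
  set R'' := r + 2 * (m - r) / 3 with hR''
  have hrr' : r < r' := by rw [hr']; linarith
  have hr'R'' : r' < R'' := by rw [hr', hR'']; linarith
  have hR''m : R'' < m := by rw [hR'']; linarith
  have hR''R : R'' < R := by linarith
  set D : Finset ℂ := S.filter (fun z => dist z z0 ≤ r) with hD
  have hDr : ∀ z ∈ D, z ∈ ball z0 r' := by
    intro z hz
    rw [mem_ball]
    exact lt_of_le_of_lt (Finset.mem_filter.1 hz).2 hrr'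
  have hB''B : ball z0 R'' ⊆ B := ball_subset_ball hR''R.le
  obtain ⟨l, g, hl, hg, hgn, heq⟩ := fac_aux (ball z0 R'') isOpen_ball
    (convex_ball z0 R'').isPreconnected D φ (hφ.mono hB''B)
    (by
      by_contra hcon
      push Not at hcon
      obtain ⟨z, hzB, hz0⟩ := hne
      refine hz0 (hφa.eqOn_zero_of_preconnected_of_eventuallyEq_zero hBc
        (mem_ball_self (hr.trans hrR)) ?_ hzB)
      filter_upwards [ball_mem_nhds z0 (show (0 : ℝ) < R'' by linarith)] with w hw
      exact hcon w hw)
    (by
      intro z hz h0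
      rw [mem_ball] at hz
      have hzS : z ∈ S := (hSm z).2 ⟨by rw [mem_closedBall]; linarith, h0⟩
      exact Finset.mem_filter.2 ⟨hzS, hSr z hzS (by linarith)⟩)
    (fun z hz => ball_subset_ball hr'R''.le (hDr z hz))
  have hprod : ∀ z, (l.map (fun ζ => z - ζ)).prod = ∏ i : Fin l.length, (z - l.get i) := by
    intro z
    rw [← List.prod_ofFn]
    congr 1
    apply List.ext_get
    · simp
    · intro n h1 h2
      simp
  refine ⟨r', R'', l.length, l.get, g, hrr', hr'R'', hR''R,
    fun i => hDr _ (hl _ (List.get_mem l i)), hg, hgn,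
    fun z hz => by rw [heq z hz, hprod], ?_⟩
  -- the divisor
  have hsub : closedBall z0 r ⊆ ball z0 R'' := closedBall_subset_ball (by linarith)
  have hmer : MeromorphicOn φ (closedBall z0 r) := fun z hz =>
    (hφa z (hB''B (hsub hz))).meromorphicAt
  have hga : AnalyticOnNhd ℂ g (ball z0 R'') := hg.analyticOnNhd isOpen_ball
  have hdiv : ∀ u, MeromorphicOn.divisor φ (closedBall z0 r) u ≤
      ((Finset.univ.filter (fun i : Fin l.length => l.get i = u)).card : ℤ) := by
    intro u
    by_cases hu : u ∈ closedBall z0 r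
    · rw [MeromorphicOn.divisor_apply hmer hu]
      have hord : meromorphicOrderAt φ u =
          (((Finset.univ.filter (fun i : Fin l.length => l.get i = u)).card : ℤ) :
            WithTop ℤ) := by
        rw [meromorphicOrderAt_eq_int_iff (hmer u hu)]
        refine ⟨fun z => (∏ i ∈ Finset.univ.filter (fun i : Fin l.length => ¬ l.get i = u),
          (z - l.get i)) * g z, ?_, ?_, ?_⟩
        · refine AnalyticAt.mul ?_ (hga u (hsub hu))
          refine Finset.analyticAt_fun_prod _ fun i _ => ?_
          exact analyticAt_id.sub analyticAt_const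
        · refine mul_ne_zero (Finset.prod_ne_zero_iff.2 fun i hi => ?_) (hgn u (hsub hu))
          exact sub_ne_zero.2 fun h => (Finset.mem_filter.1 hi).2 h.symm
        · filter_upwards [nhdsWithin_le_nhds (isOpen_ball.mem_nhds (hsub hu))] with z hz
          rw [heq z hz, hprod, smul_eq_mul, zpow_natCast, ← mul_assoc]
          congr 1
          rw [← Finset.prod_filter_mul_prod_filter_not Finset.univ
            (fun i : Fin l.length => l.get i = u)]
          congr 1
          rw [← Finset.prod_const]
          refine Finset.prod_congr rfl fun i hi => ?_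
          rw [(Finset.mem_filter.1 hi).2]
      rw [hord]
      simp
    · rw [Function.locallyFinsuppWithin.apply_eq_zero_of_notMem _ hu]
      positivity
  have hsupp : Function.support (fun u => MeromorphicOn.divisor φ (closedBall z0 r) u) ⊆
      ((Finset.univ.image l.get : Finset ℂ) : Set ℂ) := by
    intro u hu
    by_contra hcon
    have h8 : (Finset.univ.filter (fun i : Fin l.length => l.get i = u)).card = 0 := by
      rw [Finset.card_eq_zero, Finset.filter_eq_empty_iff]
      intro i _ h9
      exact hcon (by rw [← h9]; exact Finset.mem_coe.2 (Finset.mem_image_of_mem _ (Finset.mem_univ i)))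
    have h10 := hdiv u
    rw [h8] at h10
    have h11 : 0 ≤ MeromorphicOn.divisor φ (closedBall z0 r) u := by
      have h12 : AnalyticOnNhd ℂ φ (closedBall z0 r) := fun z hz => hφa z (hB''B (hsub hz))
      exact MeromorphicOn.AnalyticOnNhd.divisor_nonneg h12 u
    exact hu (le_antisymm (by simpa using h10) h11)
  rw [finsum_eq_sum_of_support_subset _ hsupp]
  calc ∑ u ∈ Finset.univ.image l.get, MeromorphicOn.divisor φ (closedBall z0 r) u
      ≤ ∑ u ∈ Finset.univ.image l.get,
        ((Finset.univ.filter (fun i : Fin l.length => l.get i = u)).card : ℤ) :=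
        Finset.sum_le_sum fun u _ => hdiv u
    _ = (l.length : ℤ) := by
        rw [← Nat.cast_sum, ← Finset.card_eq_sum_card_fiberwise
          (fun i _ => Finset.mem_coe.2 (Finset.mem_image_of_mem _ (Finset.mem_univ i)))]
        simp

theorem valence (n : ℕ) (hn : 0 < n) (z0 : ℂ) (R r : ℝ) (φ : ℂ → ℂ) (hφ : Cls n z0 R φ)
    (hne : ∃ z ∈ ball z0 R, φ z ≠ 0) (hr : 0 < r) (hrR : r < R) :
    ∑ᶠ u, MeromorphicOn.divisor φ (closedBall z0 r) u ≤ (100000 * n ^ 4 : ℤ) := by
  classical
  have hφd := hφ.differentiableOn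
  have hφa : AnalyticOnNhd ℂ φ (ball z0 R) := hφd.analyticOnNhd isOpen_ball
  obtain ⟨r', R'', N, ζ, g, hrr', hr'R'', hR''R, hζ, hg, hgn, heq, hdiv⟩ :=
    factor z0 R r hr hrR φ hφd hne
  refine hdiv.trans ?_
  have hr' : 0 < r' := hr.trans hrr'
  have hr'R : r' < R := hr'R''.trans hR''R
  rcases Nat.eq_zero_or_pos N with hN | hN
  · rw [hN]; positivity
  by_cases hcir : ∃ θ ∈ Set.Ioo (-π) π, (φ (z0 + r' * Complex.exp (θ * Complex.I))).re ≠ 0
  · obtain ⟨T, hT1, hT2⟩ := winding z0 r' R'' hr' hr'R'' N ζ hζ g hg.continuousOn hgn φ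
      (fun z hz => heq z (sphere_subset_closedBall.trans (closedBall_subset_ball hr'R'') hz))
    have h1 := circle_count n hn z0 R r' φ hφ hr' hr'R hcir T hT2
    have h2 : N ≤ 100000 * n ^ 4 := by
      have : 0 < n ^ 4 := by positivity
      omega
    exact_mod_cast h2
  · exfalso
    push Not at hcir
    have hsb : closedBall z0 r' ⊆ ball z0 R := closedBall_subset_ball hr'R
    have hpt : ∀ θ : ℝ, z0 + r' * Complex.exp (θ * Complex.I) ∈ sphere z0 r' := by
      intro θ
      rw [mem_sphere, dist_eq_norm, add_sub_cancel_left, norm_mul, Complex.norm_exp_ofReal_mul_I,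
        mul_one, Complex.norm_real, Real.norm_eq_abs, abs_of_pos hr']
    have hcont : Continuous (fun θ : ℝ => (φ (z0 + r' * Complex.exp (θ * Complex.I))).re) := by
      refine Complex.continuous_re.comp ?_
      refine (hφd.continuousOn).comp_continuous (by fun_prop) fun θ => ?_
      exact hsb (sphere_subset_closedBall (hpt θ))
    have hcl : Set.EqOn (fun θ : ℝ => (φ (z0 + r' * Complex.exp (θ * Complex.I))).re)
        (fun _ => (0 : ℝ)) (Set.Icc (-π) π) := by
      have h3 : Set.EqOn (fun θ : ℝ => (φ (z0 + r' * Complex.exp (θ * Complex.I))).re)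
        (fun _ => (0 : ℝ)) (Set.Ioo (-π) π) := fun θ hθ => hcir θ hθ
      have h4 := h3.closure hcont continuous_const
      rwa [closure_Ioo (by linarith [Real.pi_pos] : (-π : ℝ) ≠ π)] at h4
    have hsph : ∀ z ∈ sphere z0 r', (φ z).re = 0 := by
      intro z hz
      have h5 : z - z0 = r' * Complex.exp ((z - z0).arg * Complex.I) := by
        have h6 := Complex.norm_mul_exp_arg_mul_I (z - z0)
        rw [mem_sphere, dist_eq_norm] at hz
        rw [hz] at h6
        exact h6.symm
      have h7 := hcl ⟨(Complex.neg_pi_lt_arg (z - z0)).le, Complex.arg_le_pi (z - z0)⟩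
      simp only at h7
      rw [← h5, add_sub_cancel] at h7
      exact h7
    have hdc : DiffContOnCl ℂ φ (ball z0 r') := by
      refine ⟨hφd.mono (ball_subset_closedBall.trans hsb), ?_⟩
      rw [closure_ball z0 hr'.ne']
      exact hφd.continuousOn.mono hsb
    have hre : ∀ z ∈ ball z0 r', (φ z).re = 0 := by
      intro z hz
      have hz' : z ∈ closure (ball z0 r') := subset_closure hz
      have h8 : ‖Complex.exp (φ z)‖ ≤ 1 := by
        refine Complex.norm_le_of_forall_mem_frontier_norm_le (f := fun z => Complex.exp (φ z))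
          isBounded_ball ?_ ?_ hz'
        · exact Complex.differentiable_exp.comp_diffContOnCl hdc
        · intro w hw
          rw [frontier_ball z0 hr'.ne'] at hw
          simp only [Complex.norm_exp, hsph w hw, Real.exp_zero, le_refl]
      have h9 : ‖Complex.exp (- φ z)‖ ≤ 1 := by
        refine Complex.norm_le_of_forall_mem_frontier_norm_le (f := fun z => Complex.exp (- φ z))
          isBounded_ball ?_ ?_ hz'
        · exact Complex.differentiable_exp.comp_diffContOnCl hdc.neg
        · intro w hw
          rw [frontier_ball z0 hr'.ne'] at hw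
          simp only [Complex.norm_exp, Complex.neg_re, hsph w hw, neg_zero, Real.exp_zero, le_refl]
      rw [Complex.norm_exp, Real.exp_le_one_iff] at h8 h9
      rw [Complex.neg_re] at h9
      linarith
    have hφa' : AnalyticOnNhd ℂ φ (ball z0 r') := hφa.mono (ball_subset_closedBall.trans hsb)
    rcases hφa'.is_constant_or_isOpen (convex_ball z0 r').isPreconnected with ⟨w, hw⟩ | hop
    · have h10 : w = 0 := by
        rw [← hw _ (hζ ⟨0, hN⟩), heq _ (ball_subset_ball hr'R''.le (hζ ⟨0, hN⟩)),
          Finset.prod_eq_zero (Finset.mem_univ (⟨0, hN⟩ : Fin N)) (sub_self _), zero_mul]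
      obtain ⟨z, hzB, hz0⟩ := hne
      refine hz0 (hφa.eqOn_zero_of_preconnected_of_eventuallyEq_zero
        (convex_ball z0 R).isPreconnected (mem_ball_self (hr.trans hrR)) ?_ hzB)
      filter_upwards [ball_mem_nhds z0 hr'] with v hv
      rw [hw v hv, h10]; rfl
    · have h11 := hop (ball z0 r') subset_rfl isOpen_ball
      rw [Metric.isOpen_iff] at h11
      obtain ⟨ε, hε, hsub⟩ := h11 (φ z0) (Set.mem_image_of_mem _ (mem_ball_self hr'))
      have h12 : φ z0 + ((ε / 2 : ℝ) : ℂ) ∈ ball (φ z0) ε := by
        rw [mem_ball, dist_eq_norm, add_sub_cancel_left, Complex.norm_real, Real.norm_eq_abs,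
          abs_of_pos (by linarith)]
        linarith
      obtain ⟨v, hv, hve⟩ := hsub h12
      have h13 := hre v hv
      rw [hve, Complex.add_re, hre z0 (mem_ball_self hr'), Complex.ofReal_re] at h13
      linarith

end PC992LG
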