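import Mathlib
import Pool.Agent.Work.MP_992d6e_an.LG.Val
import Pool.Agent.Work.MP_992d6e_an.LG.Avg
import Pool.Agent.Work.MP_992d6e_an.LG.SupA

/-!
MODULE Doub (M). The doubling inequality.

doubling_one: let `m' > m` be positive, `f = φ/m'`. For `|a| = 1` the function `f - a` is in the class (Cls.affine) and not
  identically `0` (`|f z0| < 1`), so `valence` bounds its number of zeros in `closedBall z0 (4ρ)` by `p = 100000 n^4`.
  `avg_posLog` with `r0 = ρ` and each radius `ρ' ∈ [ρ, 4ρ]`: the average of `log⁺ ‖f‖` on the circle of radius `ρ'` is at most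
  `p log 4`; for `ρ' < ρ` it is `0`. `sup_of_avg` with `R = 4ρ`: `log ‖f z‖ ≤ 4 p log 4` on `closedBall z0 (2ρ)`, so
  `‖φ z‖ ≤ exp (4 p log 4) m'`; let `m' → m`. (`m ≥ 0` follows from the hypothesis.)
doubling: let `k` be maximal with `2^k ρ1 ≤ ρ2`. Apply doubling_one `k+1` times, with `ρ = 2^j ρ1`, `j ≤ k`, to get a bound on
  `closedBall z0 (2^(k+1) ρ1) ⊇ closedBall z0 ρ2`, and once more with `ρ = ρ2`. The exponent is `C n^4 (k+2)` with
  `k ≤ log (ρ2/ρ1)/log 2`, so `exp (C n^4 (k+2)) ≤ (2 ρ2/ρ1)^(C' n^4)` with `C' = 2 C/log 2`.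
-/

namespace PC992LG

open Filter Topology Metric Real

private lemma doub_aux (n : ℕ) (hn : 0 < n) (z0 : ℂ) (R : ℝ) (φ : ℂ → ℂ)
    (h : Cls n z0 R φ) (ρ m m' : ℝ) (hρ : 0 < ρ) (hR : 4 * ρ < R)
    (hm : ∀ z ∈ closedBall z0 ρ, ‖φ z‖ ≤ m) (hmm : m < m') :
    ∀ z ∈ closedBall z0 (2 * ρ), ‖φ z‖ ≤ Real.exp (400000 * Real.log 4 * n ^ 4) * m' := by
  have hm0 : 0 ≤ m := (norm_nonneg _).trans (hm z0 (mem_closedBall_self hρ.le))
  have hm' : 0 < m' := lt_of_le_of_lt hm0 hmm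
  have hRpos : 0 < R := by linarith
  set p : ℝ := 100000 * (n : ℝ) ^ 4 with hp
  have hp0 : 0 ≤ p := by positivity
  set f : ℂ → ℂ := fun z => ((m' : ℂ)⁻¹) * φ z with hf
  have hnorm : ∀ z, ‖f z‖ = ‖φ z‖ / m' := by
    intro z
    simp only [hf, norm_mul, norm_inv, Complex.norm_real, Real.norm_eq_abs, abs_of_pos hm']
    rw [div_eq_inv_mul]
  have hsmall : ∀ z ∈ closedBall z0 ρ, ‖f z‖ < 1 := by
    intro z hz
    rw [hnorm, div_lt_one hm']
    exact lt_of_le_of_lt (hm z hz) hmm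
  have hdiff : DifferentiableOn ℂ f (ball z0 R) := by
    have := h.differentiableOn
    exact this.const_mul _
  have hanR : AnalyticOnNhd ℂ f (ball z0 R) := hdiff.analyticOnNhd isOpen_ball
  have han : ∀ r, r < R → AnalyticOnNhd ℂ f (closedBall z0 r) := by
    intro r hr
    exact hanR.mono (closedBall_subset_ball hr)
  have hz0 : ‖f z0‖ < 1 := hsmall z0 (mem_closedBall_self hρ.le)
  have hdiv : ∀ r, 0 < r → r < R → ∀ a : ℂ, ‖a‖ = 1 →
      ((∑ᶠ u, MeromorphicOn.divisor (fun z => f z - a) (closedBall z0 r) u : ℤ) : ℝ) ≤ p := by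
    intro r hr hrR a ha
    have hc : Cls n z0 R (fun z => f z - a) := by
      have := h.affine ((m' : ℂ)⁻¹) (-a)
      simpa [hf, sub_eq_add_neg] using this
    have hne : ∃ z ∈ ball z0 R, (fun z => f z - a) z ≠ 0 := by
      refine ⟨z0, mem_ball_self hRpos, ?_⟩
      intro h0
      have : f z0 = a := sub_eq_zero.1 h0
      rw [this, ha] at hz0
      exact lt_irrefl _ hz0
    have := valence n hn z0 R r _ hc hne hr hrR
    have h2 : ((∑ᶠ u, MeromorphicOn.divisor (fun z => f z - a) (closedBall z0 r) u : ℤ) : ℝ)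
        ≤ ((100000 * n ^ 4 : ℤ) : ℝ) := by exact_mod_cast this
    refine h2.trans (le_of_eq ?_)
    rw [hp]
    push_cast
    ring
  have hlog4 : 0 ≤ Real.log 4 := Real.log_nonneg (by norm_num)
  have hT0 : 0 ≤ p * Real.log 4 := mul_nonneg hp0 hlog4
  have hT : ∀ r, 0 < r → r ≤ 4 * ρ →
      circleAverage (fun z => log⁺ ‖f z‖) z0 r ≤ p * Real.log 4 := by
    intro r hr hr4
    rcases le_or_gt ρ r with hρr | hρr
    · have h1 := avg_posLog f z0 ρ r p hρ hρr hp0 (han r (by linarith)) hsmall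
        (hdiv r hr (by linarith))
      refine h1.trans (mul_le_mul_of_nonneg_left ?_ hp0)
      apply Real.log_le_log (div_pos hr hρ)
      rw [div_le_iff₀ hρ]
      linarith
    · have h1 : circleAverage (fun z => log⁺ ‖f z‖) z0 r = circleAverage (fun _ => (0 : ℝ)) z0 r := by
        apply circleAverage_congr_sphere
        intro z hz
        have hz' : z ∈ closedBall z0 ρ := by
          rw [mem_sphere, abs_of_pos hr] at hz
          rw [mem_closedBall, hz]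
          exact hρr.le
        have hlt := hsmall z hz'
        exact Real.posLog_eq_zero_iff _ |>.2 (by rw [abs_of_nonneg (norm_nonneg _)]; exact hlt.le)
      rw [h1, circleAverage_const]
      exact hT0
  intro z hz
  have hz2 : z ∈ closedBall z0 (4 * ρ / 2) := by
    have : 4 * ρ / 2 = 2 * ρ := by ring
    rw [this]; exact hz
  have hlog := sup_of_avg f z0 (4 * ρ) (p * Real.log 4) (by linarith) hT0
    (han (4 * ρ) hR) hT z hz2
  have hfz : ‖f z‖ ≤ Real.exp (400000 * Real.log 4 * n ^ 4) := by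
    by_cases h0 : ‖f z‖ = 0
    · rw [h0]; exact (Real.exp_pos _).le
    · have hpos : 0 < ‖f z‖ := lt_of_le_of_ne (norm_nonneg _) (Ne.symm h0)
      rw [← Real.log_le_iff_le_exp hpos]
      refine hlog.trans (le_of_eq ?_)
      rw [hp]
      ring
  rw [hnorm, div_le_iff₀ hm'] at hfz
  exact hfz

theorem doubling_one : ∃ C : ℝ, 0 < C ∧ ∀ (n : ℕ), 0 < n → ∀ (z0 : ℂ) (R : ℝ) (φ : ℂ → ℂ),
    Cls n z0 R φ → ∀ ρ m : ℝ, 0 < ρ → 4 * ρ < R → (∀ z ∈ closedBall z0 ρ, ‖φ z‖ ≤ m) →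
    ∀ z ∈ closedBall z0 (2 * ρ), ‖φ z‖ ≤ Real.exp (C * n ^ 4) * m := by
  refine ⟨400000 * Real.log 4, mul_pos (by norm_num) (Real.log_pos (by norm_num)), ?_⟩
  intro n hn z0 R φ h ρ m hρ hR hm z hz
  set E := Real.exp (400000 * Real.log 4 * n ^ 4) with hE
  have hEpos : 0 < E := Real.exp_pos _
  have key : ∀ m', m < m' → ‖φ z‖ / E ≤ m' := by
    intro m' hmm
    rw [div_le_iff₀ hEpos, mul_comm]
    exact doub_aux n hn z0 R φ h ρ m m' hρ hR hm hmm z hz
  have := le_of_forall_gt_imp_ge_of_dense key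
  rw [div_le_iff₀ hEpos, mul_comm] at this
  exact this

theorem doubling : ∃ C : ℝ, 0 < C ∧ ∀ (n : ℕ), 0 < n → ∀ (z0 : ℂ) (R : ℝ) (φ : ℂ → ℂ),
    Cls n z0 R φ → ∀ ρ₁ ρ₂ m : ℝ, 0 < ρ₁ → ρ₁ ≤ ρ₂ → 4 * ρ₂ < R →
    (∀ z ∈ closedBall z0 ρ₁, ‖φ z‖ ≤ m) →
    ∀ z ∈ closedBall z0 (2 * ρ₂), ‖φ z‖ ≤ (2 * ρ₂ / ρ₁) ^ (C * (n : ℝ) ^ 4) * m := by
  obtain ⟨C, hC, H⟩ := doubling_one
  have hlog2 : 0 < Real.log 2 := Real.log_pos (by norm_num)
  refine ⟨2 * C / Real.log 2, by positivity, ?_⟩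
  intro n hn z0 R φ h ρ₁ ρ₂ m h1 h12 hR hm
  have h2 : 0 < ρ₂ := lt_of_lt_of_le h1 h12
  have hm0 : 0 ≤ m := (norm_nonneg _).trans (hm z0 (mem_closedBall_self h1.le))
  have step : ∀ j : ℕ, 2 ^ j * ρ₁ ≤ 2 * ρ₂ → ∀ z ∈ closedBall z0 (2 ^ j * ρ₁),
      ‖φ z‖ ≤ Real.exp (C * n ^ 4 * j) * m := by
    intro j
    induction j with
    | zero =>
      intro _ z hz
      simp only [pow_zero, one_mul] at hz
      simpa using hm z hz
    | succ j ih =>
      intro hj z hz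
      have hj' : 2 ^ j * ρ₁ ≤ ρ₂ := by
        rw [pow_succ] at hj
        linarith
      have ih' := ih (by linarith)
      have hz' : z ∈ closedBall z0 (2 * (2 ^ j * ρ₁)) := by
        have : (2 : ℝ) ^ (j + 1) * ρ₁ = 2 * (2 ^ j * ρ₁) := by ring
        rw [← this]; exact hz
      have := H n hn z0 R φ h (2 ^ j * ρ₁) _ (by positivity) (by linarith) ih' z hz'
      refine this.trans (le_of_eq ?_)
      rw [← mul_assoc, ← Real.exp_add]
      congr 2
      push_cast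
      ring
  obtain ⟨k, hk1, hk2⟩ := exists_nat_pow_near (x := ρ₂ / ρ₁) (y := (2 : ℝ))
    (by rw [le_div_iff₀ h1]; linarith) (by norm_num)
  rw [le_div_iff₀ h1] at hk1
  rw [div_lt_iff₀ h1] at hk2
  have hk3 : 2 ^ (k + 1) * ρ₁ ≤ 2 * ρ₂ := by
    rw [pow_succ]
    linarith
  have hb := step (k + 1) hk3
  have hb2 : ∀ z ∈ closedBall z0 ρ₂, ‖φ z‖ ≤ Real.exp (C * n ^ 4 * ((k + 1 : ℕ) : ℝ)) * m := by
    intro z hz
    exact hb z (closedBall_subset_closedBall hk2.le hz)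
  intro z hz
  have hfin := H n hn z0 R φ h ρ₂ _ h2 hR hb2 z hz
  refine hfin.trans ?_
  rw [← mul_assoc, ← Real.exp_add]
  apply mul_le_mul_of_nonneg_right _ hm0
  have hpos : 0 < 2 * ρ₂ / ρ₁ := by positivity
  rw [Real.rpow_def_of_pos hpos]
  apply Real.exp_le_exp.2
  have hl : (k + 1 : ℝ) * Real.log 2 ≤ Real.log (2 * ρ₂ / ρ₁) := by
    have : (k + 1 : ℝ) * Real.log 2 = Real.log ((2 : ℝ) ^ (k + 1)) := by
      rw [Real.log_pow]
      push_cast
      ring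
    rw [this]
    apply Real.log_le_log (by positivity)
    rw [le_div_iff₀ h1]
    exact hk3
  have hn4 : (0 : ℝ) ≤ (n : ℝ) ^ 4 := by positivity
  have h3 : (k + 1 : ℝ) * Real.log 2 * (2 * C / Real.log 2 * (n : ℝ) ^ 4)
      ≤ Real.log (2 * ρ₂ / ρ₁) * (2 * C / Real.log 2 * (n : ℝ) ^ 4) :=
    mul_le_mul_of_nonneg_right hl (by positivity)
  refine le_trans ?_ h3
  have h4 : (k + 1 : ℝ) * Real.log 2 * (2 * C / Real.log 2 * (n : ℝ) ^ 4)
      = 2 * (k + 1) * (C * (n : ℝ) ^ 4) := by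
    field_simp
  rw [h4]
  have hk0 : (0 : ℝ) ≤ k := Nat.cast_nonneg k
  have hCn : 0 ≤ C * (n : ℝ) ^ 4 := by positivity
  push_cast
  nlinarith

end PC992LG
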