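import Mathlib
import Pool.Agent.Work.MP_992d6e_an.LG.Doub
import Pool.Agent.Work.MP_992d6e_an.LG.BW

/-!
MODULE RCx (M). A bound on a real interval gives a bound on a complex disc.

Let `c0 = 1/5000`, `K = 576`, `S` = supremum of `‖φ‖` on `closedBall z0 ρ` (attained). `doubling` with `ρ₁ = ρ`, `2 ρ₂ = K ρ`
(`4 ρ₂ = 2 K ρ < R`): `‖φ‖ ≤ e^Λ S` on `closedBall z0 (Kρ)`, `Λ = C n^4 log K`. By Cauchy's estimate the Taylor coefficients
satisfy `|a_k| ≤ e^Λ S (Kρ)^(-k)`; the Taylor polynomial `T` of degree `D` (DifferentiableOn.hasFPowerSeriesOnBall,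
`cauchyPowerSeries`, norm_cauchyPowerSeries_le) satisfies `‖φ - T‖ ≤ ∑_(k>D) e^Λ S K^(-k) ≤ 2 e^Λ S K^(-(D+1))` on
`closedBall z0 ρ`. Take `D = ⌈2Λ/log K⌉₊`, so that `e^Λ ≤ K^(D/2)` and the error is at most `2 S 24^(-D) K^(-1)`.
bernstein_walsh' for `T`: `S ≤ 12^D (m + err) + err ≤ 12^D m + 2 * 12^D * 2 * 24^(-D) S/576 ≤ 12^D m + S/2`. So `S ≤ 2 * 12^D m` and
`D ≤ C' n^4`.
-/

namespace PC992LG

open Filter Topology Metric Real Polynomial

private theorem real_to_complex_aux (C : ℝ) (hC : 0 < C) (hdoub : ∀ (n : ℕ), 0 < n →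
    ∀ (z0 : ℂ) (R : ℝ) (φ : ℂ → ℂ), Cls n z0 R φ → ∀ ρ₁ ρ₂ m : ℝ, 0 < ρ₁ → ρ₁ ≤ ρ₂ →
    4 * ρ₂ < R → (∀ z ∈ closedBall z0 ρ₁, ‖φ z‖ ≤ m) →
    ∀ z ∈ closedBall z0 (2 * ρ₂), ‖φ z‖ ≤ (2 * ρ₂ / ρ₁) ^ (C * (n : ℝ) ^ 4) * m)
    (n : ℕ) (hn : 0 < n) (z0 : ℂ) (R : ℝ) (φ : ℂ → ℂ) (hφ : Cls n z0 R φ) (ρ m : ℝ)
    (hρ : 0 < ρ) (hρR : ρ ≤ 1 / 5000 * R) (hm : ∀ t : ℝ, |t| ≤ ρ → ‖φ (z0 + t)‖ ≤ m) :
    ∀ z ∈ closedBall z0 ρ, ‖φ z‖ ≤
      Real.exp ((Real.log 24 + 2 * C * Real.log 12) * n ^ 4) * m := by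
  have hm0 : 0 ≤ m := le_trans (norm_nonneg _) (hm 0 (by simpa using hρ.le))
  have hn4 : (1 : ℝ) ≤ (n : ℝ) ^ 4 := one_le_pow₀ (by exact_mod_cast hn)
  set L : ℝ := C * (n : ℝ) ^ 4 with hL
  have hLpos : 0 < L := by positivity
  have hdiff := hφ.differentiableOn
  -- the supremum on the disc
  have hcont : ContinuousOn (fun z => ‖φ z‖) (closedBall z0 ρ) := by
    refine continuous_norm.comp_continuousOn (hdiff.continuousOn.mono ?_)
    exact closedBall_subset_ball (by linarith)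
  obtain ⟨x, hx, hxmax⟩ := (isCompact_closedBall z0 ρ).exists_isMaxOn
    ⟨z0, mem_closedBall_self hρ.le⟩ hcont
  set S : ℝ := ‖φ x‖ with hS
  have hSmax : ∀ z ∈ closedBall z0 ρ, ‖φ z‖ ≤ S := fun z hz => hxmax hz
  have hS0 : 0 ≤ S := norm_nonneg _
  -- the bound on the large disc
  have hbig : ∀ z ∈ closedBall z0 (576 * ρ), ‖φ z‖ ≤ (576 : ℝ) ^ L * S := by
    intro z hz
    have h1 := hdoub n hn z0 R φ hφ ρ (288 * ρ) S hρ (by linarith) (by linarith) hSmax z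
      (by rw [show 2 * (288 * ρ) = 576 * ρ by ring]; exact hz)
    rw [show 2 * (288 * ρ) / ρ = 576 by field_simp; norm_num] at h1
    exact h1
  set M : ℝ := (576 : ℝ) ^ L * S with hM
  have hM0 : 0 ≤ M := by positivity
  -- Taylor coefficients
  have hcoef : ∀ k : ℕ, ‖iteratedDeriv k φ z0‖ ≤ k.factorial * M / (576 * ρ) ^ k := by
    intro k
    refine Complex.norm_iteratedDeriv_le_of_forall_mem_sphere_norm_le k (by positivity) ?_ ?_
    · refine DifferentiableOn.diffContOnCl ?_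
      refine hdiff.mono ?_
      rw [closure_ball _ (by positivity : (576 * ρ) ≠ 0)]
      exact closedBall_subset_ball (by linarith)
    · intro z hz
      exact hbig z (sphere_subset_closedBall hz)
  set D : ℕ := ⌈2 * L⌉₊ with hD
  have hD1 : 2 * L ≤ D := Nat.le_ceil _
  have hD2 : (D : ℝ) ≤ 2 * L + 1 := (Nat.ceil_lt_add_one (by positivity)).le
  set T : ℂ[X] := ∑ k ∈ Finset.range (D + 1),
    Polynomial.C ((k.factorial : ℂ)⁻¹ * iteratedDeriv k φ z0) * (Polynomial.X - Polynomial.C z0) ^ k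
    with hT
  have hTdeg : T.natDegree ≤ D := by
    rw [hT]
    refine Polynomial.natDegree_sum_le_of_forall_le _ _ fun k hk => ?_
    refine le_trans (Polynomial.natDegree_C_mul_le _ _) ?_
    refine le_trans (Polynomial.natDegree_pow_le) ?_
    rw [Polynomial.natDegree_X_sub_C, mul_one]
    rw [Finset.mem_range] at hk
    omega
  have herr : ∀ z ∈ closedBall z0 ρ, ‖T.eval z - φ z‖ ≤ 2 * (M * (1 / 576) ^ (D + 1)) := by
    intro z hz
    have hz' : z ∈ ball z0 (576 * ρ) := closedBall_subset_ball (by linarith) hz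
    have hd' : DifferentiableOn ℂ φ (ball z0 (576 * ρ)) :=
      hdiff.mono (ball_subset_ball (by linarith))
    have hsum := Complex.hasSum_taylorSeries_on_ball hd' hz'
    have hb : ∀ k : ℕ, ‖(k.factorial : ℂ)⁻¹ • (z - z0) ^ k • iteratedDeriv k φ z0‖
        ≤ M * (1 / 576 : ℝ) ^ k := by
      intro k
      rw [norm_smul, norm_smul, norm_inv, norm_pow, Complex.norm_natCast]
      have h1 : ‖z - z0‖ ≤ ρ := by rwa [mem_closedBall, dist_eq_norm] at hz
      have hf : (0 : ℝ) < k.factorial := by exact_mod_cast k.factorial_pos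
      calc ((k.factorial : ℝ))⁻¹ * (‖z - z0‖ ^ k * ‖iteratedDeriv k φ z0‖)
          ≤ ((k.factorial : ℝ))⁻¹ * (ρ ^ k * (k.factorial * M / (576 * ρ) ^ k)) := by
            refine mul_le_mul_of_nonneg_left ?_ (by positivity)
            refine mul_le_mul (pow_le_pow_left₀ (norm_nonneg _) h1 k) (hcoef k)
              (norm_nonneg _) (by positivity)
        _ = M * (1 / 576 : ℝ) ^ k := by
            rw [mul_pow, one_div, inv_pow]
            have : ρ ^ k ≠ 0 := by positivity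
            field_simp
    have h2 := norm_sub_le_of_geometric_bound_of_hasSum (by norm_num : (1 / 576 : ℝ) < 1) hb hsum
      (D + 1)
    have h3 : ∑ k ∈ Finset.range (D + 1), (k.factorial : ℂ)⁻¹ • (z - z0) ^ k •
        iteratedDeriv k φ z0 = T.eval z := by
      rw [hT, Polynomial.eval_finsetSum]
      refine Finset.sum_congr rfl fun k _ => ?_
      simp only [smul_eq_mul, Polynomial.eval_mul, Polynomial.eval_C, Polynomial.eval_pow,
        Polynomial.eval_sub, Polynomial.eval_X]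
      ring
    rw [h3] at h2
    refine le_trans h2 ?_
    have h4 : 0 ≤ M * (1 / 576 : ℝ) ^ (D + 1) := by positivity
    rw [div_le_iff₀ (by norm_num)]
    nlinarith
  set E : ℝ := 2 * (M * (1 / 576) ^ (D + 1)) with hE
  have hE0 : 0 ≤ E := by positivity
  have hEle : 2 * (12 ^ D * E) ≤ S / 2 := by
    have h1 : (576 : ℝ) ^ L ≤ 24 ^ D := by
      have h2 : (576 : ℝ) = 24 ^ (2 : ℝ) := by norm_num
      rw [h2, ← Real.rpow_mul (by norm_num), ← Real.rpow_natCast]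
      exact Real.rpow_le_rpow_of_exponent_le (by norm_num) hD1
    have h3 : M ≤ 24 ^ D * S := mul_le_mul_of_nonneg_right h1 hS0
    have h4 : (1 / 576 : ℝ) ^ (D + 1) = (1 / 576) * ((1 / 24) ^ D * (1 / 24) ^ D) := by
      rw [← mul_pow, pow_succ]; norm_num; ring
    have h5 : (24 : ℝ) ^ D * (1 / 24) ^ D = 1 := by rw [← mul_pow]; norm_num
    have h6 : (12 : ℝ) ^ D * (1 / 24) ^ D ≤ 1 := by
      rw [← mul_pow]
      exact pow_le_one₀ (by norm_num) (by norm_num)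
    calc 2 * (12 ^ D * E) = 4 * (12 ^ D * (M * (1 / 576) ^ (D + 1))) := by rw [hE]; ring
      _ ≤ 4 * (12 ^ D * ((24 ^ D * S) * (1 / 576) ^ (D + 1))) := by gcongr
      _ = (4 / 576) * S * ((24 ^ D * (1 / 24) ^ D) * (12 ^ D * (1 / 24) ^ D)) := by
          rw [h4]; ring
      _ = (4 / 576) * S * (12 ^ D * (1 / 24) ^ D) := by rw [h5, one_mul]
      _ ≤ (4 / 576) * S * 1 := by gcongr
      _ ≤ S / 2 := by linarith
  have h12 : (1 : ℝ) ≤ 12 ^ D := one_le_pow₀ (by norm_num)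
  have hSle : S ≤ 2 * 12 ^ D * m := by
    have hT1 : ∀ t : ℝ, |t| ≤ ρ → ‖T.eval (z0 + t)‖ ≤ m + E := by
      intro t ht
      have hmem : z0 + (t : ℂ) ∈ closedBall z0 ρ := by
        rw [mem_closedBall, dist_eq_norm, add_sub_cancel_left, Complex.norm_real,
          Real.norm_eq_abs]
        exact ht
      have h1 := herr _ hmem
      have h2 := hm t ht
      calc ‖T.eval (z0 + t)‖ = ‖φ (z0 + t) + (T.eval (z0 + t) - φ (z0 + t))‖ := by
            congr 1; ring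
        _ ≤ ‖φ (z0 + t)‖ + ‖T.eval (z0 + t) - φ (z0 + t)‖ := norm_add_le _ _
        _ ≤ m + E := add_le_add h2 h1
    have h1 := bernstein_walsh' D T hTdeg z0 ρ (m + E) hρ hT1 x (by
      rwa [mem_closedBall, dist_eq_norm] at hx)
    have h2 := herr x hx
    have h3 : S ≤ ‖T.eval x‖ + ‖T.eval x - φ x‖ := by
      rw [hS]
      calc ‖φ x‖ = ‖T.eval x - (T.eval x - φ x)‖ := by congr 1; ring
        _ ≤ _ := norm_sub_le _ _
    have h4 : E ≤ 12 ^ D * E := le_mul_of_one_le_left hE0 h12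
    nlinarith
  intro z hz
  refine le_trans (hSmax z hz) (le_trans hSle ?_)
  refine mul_le_mul_of_nonneg_right ?_ hm0
  have h1 : (12 : ℝ) ^ D ≤ 12 ^ (2 * L + 1) := by
    rw [← Real.rpow_natCast]
    exact Real.rpow_le_rpow_of_exponent_le (by norm_num) hD2
  have h2 : (12 : ℝ) ^ (2 * L + 1) = Real.exp (Real.log 12 * (2 * L + 1)) := by
    rw [Real.rpow_def_of_pos (by norm_num)]
  have h3 : (2 : ℝ) * Real.exp (Real.log 12 * (2 * L + 1))
      = Real.exp (Real.log 24 + Real.log 12 * (2 * L)) := by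
    rw [show Real.log 24 + Real.log 12 * (2 * L) = Real.log 2 + Real.log 12 * (2 * L + 1) by
      rw [show (24 : ℝ) = 2 * 12 by norm_num, Real.log_mul (by norm_num) (by norm_num)]; ring]
    rw [Real.exp_add, Real.exp_log (by norm_num)]
  calc 2 * (12 : ℝ) ^ D ≤ 2 * 12 ^ (2 * L + 1) := by linarith
    _ = Real.exp (Real.log 24 + Real.log 12 * (2 * L)) := by rw [h2, h3]
    _ ≤ Real.exp ((Real.log 24 + 2 * C * Real.log 12) * n ^ 4) := by
        refine Real.exp_le_exp.2 ?_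
        have h24 : 0 ≤ Real.log 24 := Real.log_nonneg (by norm_num)
        rw [hL]
        nlinarith

theorem real_to_complex : ∃ C c₀ : ℝ, 0 < C ∧ 0 < c₀ ∧ c₀ ≤ 1 ∧ ∀ (n : ℕ), 0 < n →
    ∀ (z0 : ℂ) (R : ℝ) (φ : ℂ → ℂ), Cls n z0 R φ → ∀ ρ m : ℝ, 0 < ρ → ρ ≤ c₀ * R →
    (∀ t : ℝ, |t| ≤ ρ → ‖φ (z0 + t)‖ ≤ m) →
    ∀ z ∈ closedBall z0 ρ, ‖φ z‖ ≤ Real.exp (C * n ^ 4) * m := by
  obtain ⟨C, hC, hdoub⟩ := doubling
  have h24 : 0 < Real.log 24 := Real.log_pos (by norm_num)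
  have h12 : 0 < Real.log 12 := Real.log_pos (by norm_num)
  refine ⟨Real.log 24 + 2 * C * Real.log 12, 1 / 5000, by positivity, by norm_num, by norm_num,
    ?_⟩
  intro n hn z0 R φ hφ ρ m hρ hρR hm
  exact real_to_complex_aux C hC hdoub n hn z0 R φ hφ ρ m hρ hρR hm

end PC992LG
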