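import Pool.Agent.Work.MP_992d6e_an.LG.GDefs
import Pool.Agent.Work.MP_992d6e_an.LG.RCx

/-!
MODULE GCirc (M). From the positive real axis to a whole circle.

Balls `ball z0 (r/2)` with `‖z0‖ = r` lie in the annulus (`r/2 > A`, `3r/2 < B`), so `Cls n z0 (r/2) φ`. `C₁, c₀` from `real_to_complex`, `c₀ ≤ 1`:
`z0 = r`, `R = r/2`, `ρ = c₀ r/8 ≤ c₀ R`; for real `|t| ≤ ρ`, `r + t ∈ [r/2, 2r]`; so `‖φ‖ ≤ E₁ m` on `closedBall r κ`, `κ = c₀ r/8`,
`E₁ = exp (C₁ n^4)`. Chain `z j = r exp (i θ j/128)`, `j ≤ 128`, `|θ| ≤ π`, steps at most `r/16 - ` (`π/128 ≤ 1/40`). Claim: `‖φ‖ ≤ E₂^j E₁ m` on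
`closedBall (z j) κ`. Step: `doubling` at `z j` with `R = r/2`, `ρ₁ = κ`, `ρ₂ = r/10` (`κ ≤ r/8`: if `κ > r/10` use `ρ₁ = r/10`; simply take
`κ = c₀ r/16 ≤ r/10`), `4 ρ₂ < R`: `‖φ‖ ≤ (2ρ₂/κ)^(C₂ n^4) E₂^j E₁ m` on `closedBall (z j) (r/5)`, which contains `closedBall (z (j+1)) κ`. The factor `E₂ = (2ρ₂/κ)^(C₂ n^4)`
is `exp (C n^4)` with an absolute constant. A point `ζ` with `‖ζ‖ = r` is `r exp (iθ)`, `|θ| ≤ π` (Complex.norm_mul_exp_arg_mul_I).
-/

set_option autoImplicit false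

namespace PC992LG

open Metric

private lemma gci_norm (r x : ℝ) (hr : 0 ≤ r) : ‖(r : ℂ) * Complex.exp (Complex.I * x)‖ = r := by
  have h : Complex.I * (x : ℂ) = x * Complex.I := mul_comm _ _
  rw [norm_mul, h, Complex.norm_exp_ofReal_mul_I, mul_one, Complex.norm_real,
    Real.norm_of_nonneg hr]

private lemma gci_step (r x y : ℝ) (hr : 0 ≤ r) :
    ‖(r : ℂ) * Complex.exp (Complex.I * (x + y : ℝ)) - r * Complex.exp (Complex.I * x)‖ ≤
      r * |y| := by
  have h1 : (r : ℂ) * Complex.exp (Complex.I * (x + y : ℝ)) - r * Complex.exp (Complex.I * x) =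
      (r * Complex.exp (Complex.I * x)) * (Complex.exp (Complex.I * y) - 1) := by
    have : Complex.I * ((x + y : ℝ) : ℂ) = Complex.I * x + Complex.I * y := by
      push_cast
      ring
    rw [this, Complex.exp_add]
    ring
  rw [h1, norm_mul, gci_norm r x hr]
  exact mul_le_mul_of_nonneg_left Real.norm_exp_I_mul_ofReal_sub_one_le hr

theorem circ_chain : ∃ C : ℝ, 0 < C ∧ ∀ (n : ℕ) (φ : ℂ → ℂ) (A B r m : ℝ), 0 < n → 0 < A →
    4 * A ≤ r → 4 * r ≤ B →
    (∀ (z0 : ℂ) (R : ℝ), (∀ z ∈ ball z0 R, A < ‖z‖ ∧ ‖z‖ < B) → Cls n z0 R φ) →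
    (∀ t : ℝ, r / 2 ≤ t → t ≤ 2 * r → ‖φ t‖ ≤ m) →
    ∀ ζ : ℂ, ‖ζ‖ = r → ‖φ ζ‖ ≤ Real.exp (C * n ^ 4) * m := by
  obtain ⟨C₁, c₀, hC₁, hc₀, hc₁, hrc⟩ := real_to_complex
  obtain ⟨C₂, hC₂, hdb⟩ := doubling
  have hL0 : 0 ≤ Real.log (4 / c₀) := by
    apply Real.log_nonneg
    rw [le_div_iff₀ hc₀]
    linarith
  refine ⟨C₁ + 32 * (C₂ * Real.log (4 / c₀)), by positivity, ?_⟩
  intro n φ A B r m hn hA hAr hrB hcls hm ζ hζ
  have hr : 0 < r := by linarith
  have hpi := Real.pi_pos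
  have hpi4 := Real.pi_lt_four
  have hpi3 : Real.pi < 3.2 := by
    have := Real.pi_lt_d2
    linarith
  set κ : ℝ := c₀ * r / 20 with hκ
  have hκ0 : 0 < κ := by positivity
  have hκ1 : κ ≤ r / 20 := by
    rw [hκ]
    have : c₀ * r ≤ 1 * r := mul_le_mul_of_nonneg_right hc₁ hr.le
    linarith
  have hball : ∀ z0 : ℂ, ‖z0‖ = r → Cls n z0 (r / 2) φ := by
    intro z0 hz0
    refine hcls z0 (r / 2) fun z hz => ?_
    rw [mem_ball, dist_eq_norm] at hz
    have h1 := norm_sub_norm_le z0 z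
    have h2 := norm_sub_norm_le z z0
    rw [norm_sub_rev z0 z] at h1
    constructor <;> linarith
  -- the chain
  set θ : ℝ := Complex.arg ζ with hθ
  have hθ1 : |θ| ≤ Real.pi := Complex.abs_arg_le_pi ζ
  have key : ∀ j : ℕ, ∀ z ∈ closedBall ((r : ℂ) * Complex.exp (Complex.I * (j * (θ / 32) : ℝ))) κ,
      ‖φ z‖ ≤ Real.exp ((C₁ + j * (C₂ * Real.log (4 / c₀))) * n ^ 4) * m := by
    intro j
    induction j with
    | zero =>
      intro z hz
      have h1 : ((r : ℂ) * Complex.exp (Complex.I * ((0 : ℕ) * (θ / 32) : ℝ))) = r := by simp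
      rw [h1] at hz
      have h2 := hrc n hn (r : ℂ) (r / 2) φ
        (hball r (by rw [Complex.norm_real, Real.norm_of_nonneg hr.le])) κ m hκ0
        (by rw [hκ]; nlinarith [mul_pos hc₀ hr]) (fun t ht => by
          have h3 := abs_le.1 ht
          have h4 := hm (r + t) (by linarith) (by linarith)
          push_cast at h4
          exact h4) z hz
      simpa using h2
    | succ j ih =>
      intro z hz
      set z1 : ℂ := (r : ℂ) * Complex.exp (Complex.I * (j * (θ / 32) : ℝ)) with hz1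
      have hz1n : ‖z1‖ = r := gci_norm r _ hr.le
      have h2 := hdb n hn z1 (r / 2) φ (hball z1 hz1n) κ (r / 10)
        (Real.exp ((C₁ + j * (C₂ * Real.log (4 / c₀))) * n ^ 4) * m) hκ0 (by linarith)
        (by linarith) ih z (by
          have h3 := gci_step r (j * (θ / 32)) (θ / 32) hr.le
          have h4 : ((j : ℝ) * (θ / 32) + θ / 32) = ((j + 1 : ℕ) : ℝ) * (θ / 32) := by
            push_cast
            ring
          rw [h4] at h3
          have h5 : |θ / 32| ≤ 1 / 10 := by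
            rw [abs_div, abs_of_pos (by norm_num : (0 : ℝ) < 32)]
            linarith
          have h6 : r * |θ / 32| ≤ r * (1 / 10) := mul_le_mul_of_nonneg_left h5 hr.le
          rw [mem_closedBall] at hz ⊢
          have h7 := dist_triangle z ((r : ℂ) *
            Complex.exp (Complex.I * (((j + 1 : ℕ) : ℝ) * (θ / 32) : ℝ))) z1
          rw [dist_eq_norm ((r : ℂ) * _) z1] at h7
          linarith)
      refine h2.trans (le_of_eq ?_)
      have h8 : 2 * (r / 10) / κ = 4 / c₀ := by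
        rw [hκ]
        field_simp
        ring
      rw [h8, ← mul_assoc, Real.rpow_def_of_pos (by positivity), ← Real.exp_add]
      congr 2
      push_cast
      ring
  have h1 : (r : ℂ) * Complex.exp (Complex.I * (((32 : ℕ) : ℝ) * (θ / 32) : ℝ)) = ζ := by
    have h2 : (((32 : ℕ) : ℝ) * (θ / 32) : ℝ) = θ := by
      push_cast
      ring
    rw [h2, ← hζ, mul_comm Complex.I]
    exact Complex.norm_mul_exp_arg_mul_I ζ
  have h2 := key 32 ζ (by
    rw [h1]
    exact mem_closedBall_self hκ0.le)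
  push_cast at h2
  exact h2

end PC992LG
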