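import Pool.Agent.Work.MP_992d6e_an.LG.GReal
import Pool.Agent.Work.MP_992d6e_an.LG.GCirc

/-!
MODULE GAnn (S-M). Doubling on complex annuli.

ann_ball: `real_chain` with `r = ρ`: `‖F q a y‖ ≤ E₁ m` for `ρ/16 ≤ ‖y - p‖ ≤ 16ρ`. For `‖ζ‖ = r' ∈ [ρ/4, 8ρ]` and real `t ∈ [r'/2, 2r'] ⊆ [ρ/8, 16ρ]`:
`‖φ e e' t‖ = |⟪e', F (p + t e)⟫| ≤ ‖F (p + t e)‖ ≤ E₁ m` (Fam.real, `A < t < B`, `‖p + t e - p‖ = t`). `circ_chain` with `r = r'`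
(`4A ≤ ρ/4`, `4 r' ≤ 32 ρ ≤ B`).
ann_real: choose any unit vector `e₀` and `x₀ = p + (3/2) ρ e₀`; for `‖y - x₀‖ ≤ (3/2) ρ/32`, `t = ‖y - p‖ ∈ [ρ, 2ρ]`, `y = p + t e`, and
`‖F q a y‖ ≤ m` (with `e'` the normalised value, `‖φ e e' t‖ = ‖F y‖`). Then ann_ball.
-/

set_option autoImplicit false

namespace PC992LG

open SM992

theorem ann_ball : ∃ C : ℝ, 0 < C ∧ ∀ (n : ℕ) (q : Fin n → ℝ) (a : Fin n → E)
    (I : Finset (Fin n)) (p : E) (A B ρ m : ℝ) (x₀ : E) (c : E → E → ℤ → ℂ) (φ : E → E → ℂ → ℂ),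
    0 < n → 0 < A → (∀ i ∈ I, ‖a i - p‖ ≤ A) → (∀ i, i ∉ I → B ≤ ‖a i - p‖) →
    Fam q a p A B c φ → 64 * A ≤ ρ → 64 * ρ ≤ B → ρ ≤ ‖x₀ - p‖ → ‖x₀ - p‖ ≤ 2 * ρ →
    (∀ y, ‖y - x₀‖ ≤ ‖x₀ - p‖ / 32 → ‖F q a y‖ ≤ m) →
    ∀ e e' : E, ‖e‖ = 1 → ‖e'‖ = 1 → ∀ ζ : ℂ, ρ / 4 ≤ ‖ζ‖ → ‖ζ‖ ≤ 8 * ρ →
      ‖φ e e' ζ‖ ≤ Real.exp (C * n ^ 4) * m := by
  obtain ⟨C₁, hC₁, hreal⟩ := real_chain
  obtain ⟨C₂, hC₂, hcirc⟩ := circ_chain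
  refine ⟨C₂ + C₁, by positivity, ?_⟩
  intro n q a I p A B ρ m x₀ c φ hn hA hI hB hF hAρ hρB h0 h1 hm e e' he he' ζ hζ0 hζ1
  have hρ : 0 < ρ := by linarith
  have hb := hcirc n (φ e e') A B ‖ζ‖ (Real.exp (C₁ * n ^ 4) * m) hn hA (by linarith)
    (by linarith) (hF.cls e e' he he') (by
      intro t ht0 ht1
      rw [hF.real e e' he he' t (by linarith) (by linarith), Complex.norm_real]
      refine (norm_inner_le_norm _ _).trans ?_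
      rw [he', one_mul]
      have hpt : ‖p + t • e - p‖ = t := by
        rw [add_sub_cancel_left, norm_smul, he, mul_one, Real.norm_eq_abs, abs_of_nonneg]
        linarith
      exact hreal n q a I p A B ρ m x₀ hn hA hI hB hAρ hρB (by linarith) (by linarith) hm
        (p + t • e) (by rw [hpt]; linarith) (by rw [hpt]; linarith)) ζ rfl
  refine hb.trans (le_of_eq ?_)
  rw [← mul_assoc, ← Real.exp_add]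
  congr 2
  ring

theorem ann_real : ∃ C : ℝ, 0 < C ∧ ∀ (n : ℕ) (q : Fin n → ℝ) (a : Fin n → E)
    (I : Finset (Fin n)) (p : E) (A B ρ m : ℝ) (c : E → E → ℤ → ℂ) (φ : E → E → ℂ → ℂ),
    0 < n → 0 < A → (∀ i ∈ I, ‖a i - p‖ ≤ A) → (∀ i, i ∉ I → B ≤ ‖a i - p‖) →
    Fam q a p A B c φ → 64 * A ≤ ρ → 64 * ρ ≤ B →
    (∀ y, ρ ≤ ‖y - p‖ → ‖y - p‖ ≤ 2 * ρ → ‖F q a y‖ ≤ m) →
    ∀ e e' : E, ‖e‖ = 1 → ‖e'‖ = 1 → ∀ ζ : ℂ, ρ / 4 ≤ ‖ζ‖ → ‖ζ‖ ≤ 8 * ρ →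
      ‖φ e e' ζ‖ ≤ Real.exp (C * n ^ 4) * m := by
  obtain ⟨C, hC, h⟩ := ann_ball
  refine ⟨C, hC, ?_⟩
  intro n q a I p A B ρ m c φ hn hA hI hB hF hAρ hρB hm e e' he he' ζ hζ0 hζ1
  have hρ : 0 < ρ := by linarith
  have hx : ‖p + (3 / 2 * ρ) • e - p‖ = 3 / 2 * ρ := by
    rw [add_sub_cancel_left, norm_smul, he, mul_one, Real.norm_eq_abs, abs_of_nonneg]
    linarith
  refine h n q a I p A B ρ m (p + (3 / 2 * ρ) • e) c φ hn hA hI hB hF hAρ hρB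
    (by rw [hx]; linarith) (by rw [hx]; linarith) ?_ e e' he he' ζ hζ0 hζ1
  intro y hy
  rw [hx] at hy
  have e1 : ‖y - p‖ ≤ ‖y - (p + (3 / 2 * ρ) • e)‖ + ‖p + (3 / 2 * ρ) • e - p‖ := by
    have : y - p = (y - (p + (3 / 2 * ρ) • e)) + (p + (3 / 2 * ρ) • e - p) := by abel
    rw [this]
    exact norm_add_le _ _
  have e2 : ‖p + (3 / 2 * ρ) • e - p‖ ≤ ‖y - (p + (3 / 2 * ρ) • e)‖ + ‖y - p‖ := by
    have : p + (3 / 2 * ρ) • e - p = -(y - (p + (3 / 2 * ρ) • e)) + (y - p) := by abel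
    rw [this]
    refine (norm_add_le _ _).trans ?_
    rw [norm_neg]
  rw [hx] at e1 e2
  exact hm y (by linarith) (by linarith)

end PC992LG
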