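import Mathlib

/-!
MODULE GBr (M). Branches of `R^(-3/2)` for real quadratic polynomials (Mathlib only).

Let `μ = β + i √(κ^2 - β^2)`, `|μ| = κ`, so `R(w) = 1 + 2 β w + κ^2 w^2 = (1 + μ w)(1 + conj μ w)`. For `|w| < ρ`: `|μ w| < 1`, so
`1 + μ w` and `1 + conj μ w` have positive real part (slit plane). `g w = (1 + μ w)^(-3/2) * (1 + conj μ w)^(-3/2)` (Complex.cpow)
is holomorphic on `ball 0 ρ`, `g^2 R^3 = 1` (`(u^(-3/2))^2 = u^(-3)`, Complex.cpow_nat_mul or cpow_add). For real `t` the two factors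
are complex conjugates (Complex.cpow_conj, arg ≠ π), so `g t = |1 + μ t|^(-3) = (√R(t))^(-3)` as `R(t) = |1 + μ t|^2`. Power series: `d k` = Taylor coefficients
at `0` (`DifferentiableOn.hasFPowerSeriesOnBall` or `Complex.hasSum_taylorSeries_on_ball`, `d k = (k!)⁻¹ * iteratedDeriv k g 0`);
absolute convergence: compare with a point `w'` with `‖w‖ < ‖w'‖ < ρ` (terms at `w'` bounded), or
`FormalMultilinearSeries.summable_norm_apply`/`HasFPowerSeriesOnBall` API.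
-/

set_option autoImplicit false

namespace PC992LG

open Metric

/-- `u^(-3/2)` squared times `u^3` is one -/
private theorem pow_aux {u : ℂ} (hu : u ≠ 0) : (u ^ (-(3 / 2) : ℂ)) ^ 2 * u ^ 3 = 1 := by
  rw [← Complex.cpow_nat_mul]
  have h1 : ((2 : ℕ) : ℂ) * (-(3 / 2) : ℂ) = -((3 : ℕ) : ℂ) := by push_cast; ring
  rw [h1, Complex.cpow_neg, Complex.cpow_natCast]
  exact inv_mul_cancel₀ (pow_ne_zero 3 hu)

theorem gBranch (β κ ρ : ℝ) (hβ : |β| ≤ κ) (hρ : 0 < ρ) (hκ : κ * ρ ≤ 1) :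
    ∃ (g : ℂ → ℂ) (d : ℕ → ℂ), DifferentiableOn ℂ g (ball 0 ρ) ∧
      (∀ w ∈ ball (0 : ℂ) ρ, g w ^ 2 * (1 + 2 * (β : ℂ) * w + (κ : ℂ) ^ 2 * w ^ 2) ^ 3 = 1) ∧
      (∀ t : ℝ, |t| < ρ → 0 < 1 + 2 * β * t + κ ^ 2 * t ^ 2 ∧
        g t = (((Real.sqrt (1 + 2 * β * t + κ ^ 2 * t ^ 2) ^ 3)⁻¹ : ℝ) : ℂ)) ∧
      ∀ w ∈ ball (0 : ℂ) ρ, Summable (fun k : ℕ => ‖d k‖ * ‖w‖ ^ k) ∧
        HasSum (fun k : ℕ => d k * w ^ k) (g w) := by
  have hκ0 : 0 ≤ κ := (abs_nonneg β).trans hβ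
  have hsq : 0 ≤ κ ^ 2 - β ^ 2 := by
    have := sq_le_sq' (by linarith [neg_abs_le β]) ((le_abs_self β).trans hβ) (a := β) (b := κ)
    linarith
  set s := Real.sqrt (κ ^ 2 - β ^ 2) with hs
  have hs2 : s ^ 2 = κ ^ 2 - β ^ 2 := Real.sq_sqrt hsq
  set μ : ℂ := ⟨β, s⟩ with hμ
  have hμn : ‖μ‖ = κ := by
    rw [Complex.norm_def, Complex.normSq_mk]
    have : β * β + s * s = κ ^ 2 := by nlinarith
    rw [this, Real.sqrt_sq hκ0]
  have hcμn : ‖(starRingEnd ℂ) μ‖ = κ := by rw [RCLike.norm_conj, hμn]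
  have hfac : ∀ w : ℂ, 1 + 2 * (β : ℂ) * w + (κ : ℂ) ^ 2 * w ^ 2 = (1 + μ * w) * (1 + (starRingEnd ℂ) μ * w) := by
    intro w
    have h1 : μ + (starRingEnd ℂ) μ = 2 * (β : ℂ) := by
      rw [Complex.add_conj]
      push_cast
      rfl
    have h2 : μ * (starRingEnd ℂ) μ = (κ : ℂ) ^ 2 := by
      rw [Complex.mul_conj, Complex.normSq_eq_norm_sq, hμn]
      push_cast
      rfl
    linear_combination (-w) * h1 - w ^ 2 * h2
  have hsmall : ∀ ν : ℂ, ‖ν‖ = κ → ∀ w ∈ ball (0 : ℂ) ρ, 0 < (1 + ν * w).re := by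
    intro ν hν w hw
    rw [mem_ball_zero_iff] at hw
    have h1 : ‖ν * w‖ < 1 := by
      rw [norm_mul, hν]
      rcases hκ0.eq_or_lt with h0 | h0
      · rw [← h0, zero_mul]; exact one_pos
      · exact (mul_lt_mul_of_pos_left hw h0).trans_le hκ
    have h2 : |(ν * w).re| ≤ ‖ν * w‖ := Complex.abs_re_le_norm _
    rw [Complex.add_re, Complex.one_re]
    have := neg_abs_le (ν * w).re
    linarith
  have hslit : ∀ ν : ℂ, ‖ν‖ = κ → ∀ w ∈ ball (0 : ℂ) ρ, 1 + ν * w ∈ Complex.slitPlane :=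
    fun ν hν w hw => Or.inl (hsmall ν hν w hw)
  set g : ℂ → ℂ := fun w => (1 + μ * w) ^ (-(3 / 2) : ℂ) * (1 + (starRingEnd ℂ) μ * w) ^ (-(3 / 2) : ℂ) with hg
  have hdiff : ∀ ν : ℂ, ‖ν‖ = κ → ∀ w ∈ ball (0 : ℂ) ρ,
      DifferentiableAt ℂ (fun w : ℂ => (1 + ν * w) ^ (-(3 / 2) : ℂ)) w := by
    intro ν hν w hw
    exact DifferentiableAt.cpow (by fun_prop) (differentiableAt_const _) (hslit ν hν w hw)
  have hgd : DifferentiableOn ℂ g (ball 0 ρ) := by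
    intro w hw
    exact ((hdiff μ hμn w hw).mul (hdiff _ hcμn w hw)).differentiableWithinAt
  refine ⟨g, fun k => ((k.factorial : ℂ))⁻¹ * iteratedDeriv k g 0, hgd, ?_, ?_, ?_⟩
  · intro w hw
    have h1 := pow_aux (Complex.slitPlane_ne_zero (hslit μ hμn w hw))
    have h2 := pow_aux (Complex.slitPlane_ne_zero (hslit _ hcμn w hw))
    rw [hfac]
    calc g w ^ 2 * ((1 + μ * w) * (1 + (starRingEnd ℂ) μ * w)) ^ 3
        = (((1 + μ * w) ^ (-(3 / 2) : ℂ)) ^ 2 * (1 + μ * w) ^ 3) *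
          (((1 + (starRingEnd ℂ) μ * w) ^ (-(3 / 2) : ℂ)) ^ 2 * (1 + (starRingEnd ℂ) μ * w) ^ 3) := by
          rw [hg]; ring
      _ = 1 := by rw [h1, h2, one_mul]
  · intro t ht
    have htb : (t : ℂ) ∈ ball (0 : ℂ) ρ := by
      rw [mem_ball_zero_iff, Complex.norm_real]
      exact ht
    have hre := hsmall μ hμn t htb
    set v : ℂ := 1 + μ * t with hv
    have hvc : 1 + (starRingEnd ℂ) μ * t = (starRingEnd ℂ) v := by
      rw [hv, map_add, map_mul, map_one, Complex.conj_ofReal]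
    have hvn : ‖v‖ ^ 2 = 1 + 2 * β * t + κ ^ 2 * t ^ 2 := by
      rw [← Complex.normSq_eq_norm_sq, Complex.normSq_apply]
      have h1 : v.re = 1 + β * t := by simp [hv, hμ]
      have h2 : v.im = s * t := by simp [hv, hμ]
      rw [h1, h2]
      nlinarith
    have hv0 : v ≠ 0 := Complex.slitPlane_ne_zero (Or.inl hre)
    have hvpos : 0 < ‖v‖ := norm_pos_iff.2 hv0
    have hsqrt : Real.sqrt (1 + 2 * β * t + κ ^ 2 * t ^ 2) = ‖v‖ := by
      rw [← hvn, Real.sqrt_sq hvpos.le]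
    refine ⟨by rw [← hvn]; positivity, ?_⟩
    rw [hsqrt]
    have harg : v.arg ≠ Real.pi := Complex.slitPlane_arg_ne_pi (Or.inl hre)
    show v ^ (-(3 / 2) : ℂ) * (1 + (starRingEnd ℂ) μ * t) ^ (-(3 / 2) : ℂ) = _
    have hcc : (starRingEnd ℂ) (-(3 / 2) : ℂ) = (-(3 / 2) : ℂ) := by
      have : (-(3 / 2) : ℂ) = ((-(3 / 2) : ℝ) : ℂ) := by push_cast; ring
      rw [this, Complex.conj_ofReal]
    rw [hvc, Complex.conj_cpow _ _ harg, hcc, Complex.mul_conj, Complex.normSq_eq_norm_sq]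
    congr 1
    have h3 : (-(3 / 2) : ℂ) = ((-(3 / 2) : ℝ) : ℂ) := by push_cast; ring
    rw [h3, Complex.norm_cpow_real, ← Real.rpow_natCast, ← Real.rpow_mul hvpos.le]
    have h4 : (-(3 / 2) : ℝ) * ((2 : ℕ) : ℝ) = -((3 : ℕ) : ℝ) := by push_cast; ring
    rw [h4, Real.rpow_neg hvpos.le, Real.rpow_natCast]
  · intro w hw
    have h1 := Complex.hasSum_taylorSeries_on_ball hgd hw
    have h2 : HasSum (fun k : ℕ => (((k.factorial : ℂ))⁻¹ * iteratedDeriv k g 0) * w ^ k) (g w) := by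
      have h0 : (fun k : ℕ => (((k.factorial : ℂ))⁻¹ * iteratedDeriv k g 0) * w ^ k) =
          fun k : ℕ => ((k.factorial : ℂ))⁻¹ • (w - 0) ^ k • iteratedDeriv k g 0 := by
        funext k
        rw [sub_zero, smul_eq_mul, smul_eq_mul]
        ring
      rw [h0]
      exact h1
    refine ⟨?_, h2⟩
    have h3 := h2.summable.norm
    refine h3.congr ?_
    intro k
    rw [norm_mul, norm_pow]

end PC992LG
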