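import Pool.Agent.Work.MP_992d6e_an.LG.GDefs
import Pool.Agent.Work.MP_992d6e_an.LG.GBr

/-!
MODULE GLau (M-L). The Laurent expansions of the field on the complex lines through `p`.

Put `b l = p - a l`, so `F q a (p + t e) = ∑ l, q l * ‖b l + t e‖^(-3) • (b l + t e)`. Let `P l = C ‖b l‖^2 + C (2⟪b l, e⟫) X + X^2`, so
`P l (t) = ‖b l + t e‖^2` for real `t`.
Outer charges (`l ∉ I`, `‖b l‖ ≥ B`): `gBranch` with `β = ⟪b l, e⟫/‖b l‖^2`, `κ = 1/‖b l‖`, `ρ = B`; `H l ζ = ‖b l‖^(-3) g ζ`;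
`H^2 P^3 = 1`, `H l t = ‖b l + t e‖^(-3)` for `A < t < B`; Laurent series of `H l`: `‖b l‖^(-3) d k` for `k ≥ 0`, zero for `k < 0`.
Inner charges (`l ∈ I`, `‖b l‖ ≤ A`): `gBranch` with `β = ⟪b l, e⟫`, `κ = ‖b l‖`, `ρ = 1/A`; `H l ζ = ζ^(-3) g (1/ζ)` for `‖ζ‖ > A`;
`P l (ζ) = ζ^2 R(1/ζ)`, so `H^2 P^3 = 1`; `‖b l + t e‖ = t √R(1/t)`; Laurent series: coefficient `d k` at `-3-k`.
`φ e e' ζ = ∑ l, q l (⟪e', b l⟫ + ζ ⟪e', e⟫) H l ζ`: in `Cls n z0 R` for each ball in the annulus, with `γ = 0`, `α l = q l ⟪e', b l⟫`,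
`β l = q l ⟪e', e⟫`. If `H l` has the Laurent coefficients `h k` then `(α + β ζ) H l` has the coefficients `α h k + β h (k-1)`.
Sums over `ℤ` supported on a half line: Function.Injective.hasSum_iff / `HasSum` along `Nat.cast` and `Int.negSucc` (HasSum.of_nat_of_neg_add_one),
summability of the norms in the same way. Finite sums of Laurent series: hasSum_sum, and norms by the triangle inequality.
-/

set_option autoImplicit false

namespace PC992LG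

open Metric SM992

private theorem lau_of_hasSum {A B : ℝ} {c : ℤ → ℂ} {φ : ℂ → ℂ}
    (h : ∀ ζ : ℂ, A < ‖ζ‖ → ‖ζ‖ < B → HasSum (fun k : ℤ => c k * ζ ^ k) (φ ζ)) : Lau A B c φ := by
  intro ζ h1 h2
  refine ⟨?_, h ζ h1 h2⟩
  refine (h ζ h1 h2).summable.norm.congr ?_
  intro k
  rw [norm_mul, norm_zpow]

private theorem lau_lin {A B : ℝ} (hA : 0 < A) {c : ℤ → ℂ} {φ : ℂ → ℂ} (h : Lau A B c φ) (α β : ℂ) :
    Lau A B (fun k => α * c k + β * c (k - 1)) (fun z => (α + β * z) * φ z) := by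
  apply lau_of_hasSum
  intro ζ h1 h2
  have hζ : ζ ≠ 0 := by
    rw [← norm_pos_iff]
    exact hA.trans h1
  have hs := (h ζ h1 h2).2
  have hs1 : HasSum (fun k : ℤ => c (k - 1) * ζ ^ (k - 1)) (φ ζ) := by
    have := (Equiv.subRight (1 : ℤ)).hasSum_iff.2 hs
    exact this
  have hs2 := (hs.mul_left α).add (hs1.mul_left (β * ζ))
  have e1 : (fun k : ℤ => (α * c k + β * c (k - 1)) * ζ ^ k) =
      fun k : ℤ => α * (c k * ζ ^ k) + β * ζ * (c (k - 1) * ζ ^ (k - 1)) := by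
    funext k
    have : ζ ^ k = ζ ^ (k - 1) * ζ := by
      rw [zpow_sub_one₀ hζ]
      field_simp
    rw [this]
    ring
  have e2 : (α + β * ζ) * φ ζ = α * φ ζ + β * ζ * φ ζ := by ring
  show HasSum (fun k : ℤ => (α * c k + β * c (k - 1)) * ζ ^ k) ((α + β * ζ) * φ ζ)
  rw [e1, e2]
  exact hs2

private theorem lau_sum {A B : ℝ} {n : ℕ} {c : Fin n → ℤ → ℂ} {φ : Fin n → ℂ → ℂ} (h : ∀ l, Lau A B (c l) (φ l)) :
    Lau A B (fun k => ∑ l, c l k) (fun z => ∑ l, φ l z) := by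
  apply lau_of_hasSum
  intro ζ h1 h2
  have := hasSum_sum (s := (Finset.univ : Finset (Fin n))) (f := fun l (k : ℤ) => c l k * ζ ^ k) (a := fun l => φ l ζ)
    fun l _ => (h l ζ h1 h2).2
  show HasSum (fun k : ℤ => (∑ l, c l k) * ζ ^ k) (∑ l, φ l ζ)
  simpa only [Finset.sum_mul] using this

private theorem one_branch (b e : E) (he : ‖e‖ = 1) (A B : ℝ) (hA : 0 < A) (hAB : A < B) (hb : ‖b‖ ≤ A ∨ B ≤ ‖b‖) :
    ∃ (h : ℤ → ℂ) (H : ℂ → ℂ) (P : Polynomial ℂ), P.natDegree ≤ 2 ∧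
      DifferentiableOn ℂ H {z | A < ‖z‖ ∧ ‖z‖ < B} ∧
      (∀ z : ℂ, A < ‖z‖ → ‖z‖ < B → H z ^ 2 * (P.eval z) ^ 3 = 1) ∧
      (∀ t : ℝ, A < t → t < B → H t = (((‖b + t • e‖ ^ 3)⁻¹ : ℝ) : ℂ)) ∧ Lau A B h H := by
  set P : Polynomial ℂ := Polynomial.C ((‖b‖ : ℂ) ^ 2) + Polynomial.C (2 * ((inner ℝ b e : ℝ) : ℂ)) * Polynomial.X +
    Polynomial.X ^ 2 with hP
  have hPd : P.natDegree ≤ 2 := by
    rw [hP]
    compute_degree
  have hPe : ∀ z : ℂ, P.eval z = (‖b‖ : ℂ) ^ 2 + 2 * ((inner ℝ b e : ℝ) : ℂ) * z + z ^ 2 := by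
    intro z
    rw [hP]
    simp
  have hin : |inner ℝ b e| ≤ ‖b‖ := by
    have := abs_real_inner_le_norm b e
    rwa [he, mul_one] at this
  have hnorm : ∀ t : ℝ, ‖b + t • e‖ ^ 2 = ‖b‖ ^ 2 + 2 * inner ℝ b e * t + t ^ 2 := by
    intro t
    rw [norm_add_sq_real, inner_smul_right, norm_smul, he, mul_one, Real.norm_eq_abs, sq_abs]
    ring
  rcases hb with hb | hb
  · -- inner charge
    have hρ : 0 < A⁻¹ := inv_pos.2 hA
    have hκ : ‖b‖ * A⁻¹ ≤ 1 := by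
      rw [← div_eq_mul_inv]
      exact (div_le_one hA).2 hb
    obtain ⟨g, d, g1, g2, g3, g4⟩ := gBranch (inner ℝ b e) ‖b‖ A⁻¹ hin hρ hκ
    have hinv : ∀ z : ℂ, A < ‖z‖ → z⁻¹ ∈ ball (0 : ℂ) A⁻¹ := by
      intro z hz
      rw [mem_ball_zero_iff, norm_inv]
      exact (inv_lt_inv₀ (hA.trans hz) hA).2 hz
    have hne : ∀ z : ℂ, A < ‖z‖ → z ≠ 0 := fun z hz => norm_pos_iff.1 (hA.trans hz)
    refine ⟨fun k => if k ≤ -3 then d (-3 - k).toNat else 0, fun z => (z ^ 3)⁻¹ * g z⁻¹, P, hPd, ?_, ?_, ?_, ?_⟩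
    · intro z hz
      have h1 : DifferentiableAt ℂ g z⁻¹ := (g1 z⁻¹ (hinv z hz.1)).differentiableAt (isOpen_ball.mem_nhds (hinv z hz.1))
      have h2 : DifferentiableAt ℂ (fun z : ℂ => g z⁻¹) z :=
        DifferentiableAt.comp z h1 (differentiableAt_inv (hne z hz.1))
      have h3 : DifferentiableAt ℂ (fun z : ℂ => (z ^ 3)⁻¹) z :=
        DifferentiableAt.inv (by fun_prop) (pow_ne_zero 3 (hne z hz.1))
      exact (h3.mul h2).differentiableWithinAt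
    · intro z hz _
      have hz0 := hne z hz
      have h1 := g2 z⁻¹ (hinv z hz)
      have h2 : P.eval z = z ^ 2 * (1 + 2 * ((inner ℝ b e : ℝ) : ℂ) * z⁻¹ + (‖b‖ : ℂ) ^ 2 * z⁻¹ ^ 2) := by
        rw [hPe]
        field_simp
        ring
      rw [h2]
      calc ((z ^ 3)⁻¹ * g z⁻¹) ^ 2 * (z ^ 2 * (1 + 2 * ((inner ℝ b e : ℝ) : ℂ) * z⁻¹ + (‖b‖ : ℂ) ^ 2 * z⁻¹ ^ 2)) ^ 3
          = ((z ^ 3)⁻¹ * z ^ 3) ^ 2 *
            (g z⁻¹ ^ 2 * (1 + 2 * ((inner ℝ b e : ℝ) : ℂ) * z⁻¹ + (‖b‖ : ℂ) ^ 2 * z⁻¹ ^ 2) ^ 3) := by ring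
        _ = 1 := by rw [h1, inv_mul_cancel₀ (pow_ne_zero 3 hz0), one_pow, one_mul]
    · intro t ht _
      have ht0 : 0 < t := hA.trans ht
      have h1 : |t⁻¹| < A⁻¹ := by
        rw [abs_of_pos (inv_pos.2 ht0)]
        exact (inv_lt_inv₀ ht0 hA).2 ht
      obtain ⟨h2, h3⟩ := g3 t⁻¹ h1
      have h4 : ‖b + t • e‖ = t * Real.sqrt (1 + 2 * inner ℝ b e * t⁻¹ + ‖b‖ ^ 2 * t⁻¹ ^ 2) := by
        have h5 : ‖b + t • e‖ ^ 2 = (t * Real.sqrt (1 + 2 * inner ℝ b e * t⁻¹ + ‖b‖ ^ 2 * t⁻¹ ^ 2)) ^ 2 := by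
          rw [mul_pow, Real.sq_sqrt h2.le, hnorm]
          field_simp
          ring
        exact (pow_left_inj₀ (norm_nonneg _) (by positivity) two_ne_zero).1 h5
      rw [h4, mul_pow, mul_inv]
      show ((t : ℂ) ^ 3)⁻¹ * g (t : ℂ)⁻¹ = _
      rw [← Complex.ofReal_inv t, h3]
      push_cast
      ring
    · apply lau_of_hasSum
      intro z hz _
      have hz0 := hne z hz
      have h1 := ((g4 z⁻¹ (hinv z hz)).2).mul_left ((z ^ 3)⁻¹)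
      have hinj : Function.Injective (fun m : ℕ => (-3 - (m : ℤ))) := by
        intro x y hxy
        simp only at hxy
        omega
      have hzero : ∀ x ∉ Set.range (fun m : ℕ => (-3 - (m : ℤ))),
          (fun k : ℤ => (if k ≤ -3 then d (-3 - k).toNat else 0) * z ^ k) x = 0 := by
        intro x hx
        have : ¬ x ≤ -3 := by
          intro hx3
          exact hx ⟨(-3 - x).toNat, by simp only; omega⟩
        simp only [if_neg this, zero_mul]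
      refine (hinj.hasSum_iff hzero).1 ?_
      have e1 : ((fun k : ℤ => (if k ≤ -3 then d (-3 - k).toNat else 0) * z ^ k) ∘ fun m : ℕ => (-3 - (m : ℤ))) =
          fun m : ℕ => (z ^ 3)⁻¹ * (d m * z⁻¹ ^ m) := by
        funext m
        have hm : (-3 - (m : ℤ)) ≤ -3 := by omega
        have hm2 : (-3 - (-3 - (m : ℤ))).toNat = m := by omega
        simp only [Function.comp_apply, if_pos hm, hm2]
        have : z ^ (-3 - (m : ℤ)) = (z ^ 3)⁻¹ * z⁻¹ ^ m := by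
          rw [zpow_sub₀ hz0, zpow_neg, zpow_natCast, inv_pow, div_eq_mul_inv]
          rfl
        rw [this]
        ring
      rw [e1]
      exact h1
  · -- outer charge
    have hB : 0 < B := hA.trans hAB
    have hN : 0 < ‖b‖ := hB.trans_le hb
    have hβ : |inner ℝ b e / ‖b‖ ^ 2| ≤ ‖b‖⁻¹ := by
      rw [abs_div, abs_of_pos (by positivity : 0 < ‖b‖ ^ 2), div_le_iff₀ (by positivity)]
      calc |inner ℝ b e| ≤ ‖b‖ := hin
        _ = ‖b‖⁻¹ * ‖b‖ ^ 2 := by field_simp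
    have hκ : ‖b‖⁻¹ * B ≤ 1 := by
      rw [inv_mul_le_iff₀ hN, mul_one]
      exact hb
    obtain ⟨g, d, g1, g2, g3, g4⟩ := gBranch (inner ℝ b e / ‖b‖ ^ 2) ‖b‖⁻¹ B hβ hB hκ
    have hmem : ∀ z : ℂ, ‖z‖ < B → z ∈ ball (0 : ℂ) B := fun z hz => mem_ball_zero_iff.2 hz
    have hNc : (‖b‖ : ℂ) ≠ 0 := by exact_mod_cast hN.ne'
    refine ⟨fun k => if 0 ≤ k then ((‖b‖ : ℂ) ^ 3)⁻¹ * d k.toNat else 0, fun z => ((‖b‖ : ℂ) ^ 3)⁻¹ * g z, P, hPd,
      ?_, ?_, ?_, ?_⟩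
    · exact (g1.mono fun z hz => hmem z hz.2).const_mul _
    · intro z _ hz
      have h1 := g2 z (hmem z hz)
      push_cast at h1
      have h2 : P.eval z = (‖b‖ : ℂ) ^ 2 * (1 + 2 * (((inner ℝ b e : ℝ) : ℂ) / (‖b‖ : ℂ) ^ 2) * z +
          ((‖b‖ : ℂ)⁻¹) ^ 2 * z ^ 2) := by
        rw [hPe]
        field_simp
      rw [h2]
      calc (((‖b‖ : ℂ) ^ 3)⁻¹ * g z) ^ 2 * ((‖b‖ : ℂ) ^ 2 * (1 + 2 * (((inner ℝ b e : ℝ) : ℂ) / (‖b‖ : ℂ) ^ 2) * z +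
            ((‖b‖ : ℂ)⁻¹) ^ 2 * z ^ 2)) ^ 3
          = (((‖b‖ : ℂ) ^ 3)⁻¹ * (‖b‖ : ℂ) ^ 3) ^ 2 *
            (g z ^ 2 * (1 + 2 * (((inner ℝ b e : ℝ) : ℂ) / (‖b‖ : ℂ) ^ 2) * z +
            ((‖b‖ : ℂ)⁻¹) ^ 2 * z ^ 2) ^ 3) := by ring
        _ = 1 := by rw [h1, inv_mul_cancel₀ (pow_ne_zero 3 hNc), one_pow, one_mul]
    · intro t ht htB
      have ht0 : 0 < t := hA.trans ht
      obtain ⟨h2, h3⟩ := g3 t (by rw [abs_of_pos ht0]; exact htB)
      have h4 : ‖b + t • e‖ = ‖b‖ * Real.sqrt (1 + 2 * (inner ℝ b e / ‖b‖ ^ 2) * t + ‖b‖⁻¹ ^ 2 * t ^ 2) := by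
        have h5 : ‖b + t • e‖ ^ 2 = (‖b‖ * Real.sqrt (1 + 2 * (inner ℝ b e / ‖b‖ ^ 2) * t + ‖b‖⁻¹ ^ 2 * t ^ 2)) ^ 2 := by
          rw [mul_pow, Real.sq_sqrt h2.le, hnorm]
          field_simp
        exact (pow_left_inj₀ (norm_nonneg _) (by positivity) two_ne_zero).1 h5
      rw [h4, mul_pow, mul_inv]
      show ((‖b‖ : ℂ) ^ 3)⁻¹ * g (t : ℂ) = _
      rw [h3]
      push_cast
      ring
    · apply lau_of_hasSum
      intro z _ hz
      have h1 := ((g4 z (hmem z hz)).2).mul_left (((‖b‖ : ℂ) ^ 3)⁻¹)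
      have hinj : Function.Injective (fun m : ℕ => (m : ℤ)) := Nat.cast_injective
      have hzero : ∀ x ∉ Set.range (fun m : ℕ => (m : ℤ)),
          (fun k : ℤ => (if 0 ≤ k then ((‖b‖ : ℂ) ^ 3)⁻¹ * d k.toNat else 0) * z ^ k) x = 0 := by
        intro x hx
        have : ¬ 0 ≤ x := by
          intro hx3
          exact hx ⟨x.toNat, by simp only; omega⟩
        simp only [if_neg this, zero_mul]
      refine (hinj.hasSum_iff hzero).1 ?_
      have e1 : ((fun k : ℤ => (if 0 ≤ k then ((‖b‖ : ℂ) ^ 3)⁻¹ * d k.toNat else 0) * z ^ k) ∘ fun m : ℕ => (m : ℤ)) =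
          fun m : ℕ => ((‖b‖ : ℂ) ^ 3)⁻¹ * (d m * z ^ m) := by
        funext m
        have hm : (0 : ℤ) ≤ (m : ℤ) := by omega
        simp only [Function.comp_apply, if_pos hm, Int.toNat_natCast, zpow_natCast]
        ring
      rw [e1]
      exact h1

theorem exists_fam {n : ℕ} (q : Fin n → ℝ) (a : Fin n → E) (I : Finset (Fin n)) (p : E) (A B : ℝ)
    (hA : 0 < A) (hAB : A < B) (hI : ∀ i ∈ I, ‖a i - p‖ ≤ A) (hO : ∀ i, i ∉ I → B ≤ ‖a i - p‖) :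
    ∃ (c : E → E → ℤ → ℂ) (φ : E → E → ℂ → ℂ), Fam q a p A B c φ := by
  have key : ∀ e e' : E, ∃ (c : ℤ → ℂ) (φ : ℂ → ℂ), ‖e‖ = 1 → ‖e'‖ = 1 → Lau A B c φ ∧
      (∀ t : ℝ, A < t → t < B → φ t = ((inner ℝ e' (F q a (p + t • e)) : ℝ) : ℂ)) ∧
      ∀ (z0 : ℂ) (R : ℝ), (∀ z ∈ ball z0 R, A < ‖z‖ ∧ ‖z‖ < B) → Cls n z0 R φ := by
    intro e e'
    by_cases he : ‖e‖ = 1
    swap
    · exact ⟨0, 0, fun h => absurd h he⟩
    have hb : ∀ l, ‖p - a l‖ ≤ A ∨ B ≤ ‖p - a l‖ := by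
      intro l
      rw [norm_sub_rev]
      by_cases hl : l ∈ I
      · exact Or.inl (hI l hl)
      · exact Or.inr (hO l hl)
    choose h H P h1 h2 h3 h4 h5 using fun l => one_branch (p - a l) e he A B hA hAB (hb l)
    set α : Fin n → ℂ := fun l => ((q l * inner ℝ e' (p - a l) : ℝ) : ℂ) with hα
    set β : Fin n → ℂ := fun l => ((q l * inner ℝ e' e : ℝ) : ℂ) with hβ
    refine ⟨fun k => ∑ l, (α l * h l k + β l * h l (k - 1)), fun z => ∑ l, (α l + β l * z) * H l z, fun _ _ => ?_⟩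
    refine ⟨lau_sum fun l => lau_lin hA (h5 l) (α l) (β l), ?_, ?_⟩
    · intro t ht htB
      have e1 : inner ℝ e' (F q a (p + t • e)) = ∑ l, (q l * inner ℝ e' (p - a l) + q l * inner ℝ e' e * t) *
          (‖(p - a l) + t • e‖ ^ 3)⁻¹ := by
        rw [F, inner_sum]
        refine Finset.sum_congr rfl fun l _ => ?_
        have e2 : p + t • e - a l = (p - a l) + t • e := by abel
        rw [e2, SM992.g, inner_smul_right, inner_smul_right, inner_add_right, inner_smul_right]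
        ring
      rw [e1]
      push_cast
      refine Finset.sum_congr rfl fun l _ => ?_
      rw [h4 l t ht htB, hα, hβ]
      push_cast
      rfl
    · intro z0 R hR
      refine ⟨0, α, β, P, H, h1, ?_, ?_, ?_⟩
      · intro l
        exact (h2 l).mono fun z hz => hR z hz
      · intro l z hz
        exact h3 l z (hR z hz).1 (hR z hz).2
      · intro z _
        rw [zero_add]
  choose c φ hc using key
  exact ⟨c, φ, ⟨fun e e' he he' => (hc e e' he he').1, fun e e' he he' => (hc e e' he he').2.1,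
    fun e e' he he' => (hc e e' he he').2.2⟩⟩

end PC992LG
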