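import Pool.Agent.Work.MP_992d6e_an.LG.GAbs
import Pool.Agent.Work.MP_992d6e_an.LG.GLau
import Pool.Agent.Work.MP_992d6e_an.LG.GAnn
import Pool.Agent.Work.MP_992d6e_an.SM.Grad
import Pool.Agent.Work.MP_992d6e_an.SM.Der

/-!
MODULE GGap (M-L). The scales at which a gap between the charges can contain equilibria of
local condition number at most `K`.

If `B ≤ A` take `U = ∅` (no `x` with `8A ≤ ‖x-p‖ ≤ B/8`). `C₁` = maximum of the constants of `ann_ball`, `ann_real`; `Λ = C₁ n^4`; `c, φ` from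
`exists_fam`; `ι = {u : E × E // ‖u.1‖ = 1 ∧ ‖u.2‖ = 1}`. Hypotheses of `gap_abs`: bounded and doubling, by `ann_real` (a bound of `‖φ i ζ‖` for `ρ ≤ ‖ζ‖ ≤ 2ρ` gives
the bound of `‖F q a y‖` for `ρ ≤ ‖y-p‖ ≤ 2ρ`: `y = p + t e`, `e'` = normalised value; for the boundedness use that `F q a` is continuous on the compact
set `{ρ ≤ ‖y-p‖ ≤ 2ρ}`, which contains no charge). `X = n^4 + log K ≥ 1`, `N = ⌈C₃ X⌉₊`, `C₃` large. `U` from `gap_abs`; `(U.card) ≤ C₂ (Λ+1) N ≤ C n^4 X`.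
Let `x` satisfy `LocC q a K`, `r = ‖x-p‖`, `8A ≤ r`, `8r ≤ B`, `2^j ≤ r < 2^(j+1)` (exists_mem_Ico_zpow), and suppose `j ∉ U`. `A < 2^j < B`. Let
`m, |m| ≤ C₂ (Λ+1)` be as in `gap_abs`, `l₀ ∈ I`: `‖x - a l₀‖ ≤ r + A ≤ (9/8) r`. For `‖y-x‖ ≤ r/32`, `2‖y-x‖ ≤ ‖x - a l‖` for all `l`
(`‖x - a l‖ ≥ r - A` or `≥ B - r`), so `‖F q a y‖ ≤ K (9/8) r σ =: m_x`. `ann_ball` with `ρ = 2^j`, `x₀ = x`: `‖φ e e' ζ‖ ≤ M := e^Λ m_x` for `2^j/4 ≤ ‖ζ‖ ≤ 8 * 2^j`.
Let `e = r⁻¹ • (x-p)`, `e'` = normalised `DF q a x e` (nonzero, norm `≥ σ`). `D ζ = φ e e' ζ - c e e' m ζ^m` is holomorphic near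
`closedBall r (r/4)`, where `2^(j-1) ≤ ‖ζ‖ ≤ 2^(j+2)`, so `‖D ζ‖ ≤ 4M/2^N` there. `φ e e' r = ⟪e', F x⟫ = 0`, so `‖c e e' m r^m‖ ≤ 4M/2^N`. Cauchy
(Complex.norm_deriv_le_of_forall_mem_sphere_norm_le): `‖D'(r)‖ ≤ 16 M/(2^N r)`. `φ'(r) = ⟪e', DF q a x e⟫ = ‖DF q a x e‖` (Fam.real near `r`; HasFDerivAt of
`F`, see the proof of LLoc for `fderiv F = DF`) and `φ'(r) = D'(r) + m c r^(m-1)`, so
`σ ≤ ‖DF q a x e‖ ≤ (16 + 4|m|) M/(2^N r) = (16 + 4|m|) 2^(-N) e^Λ (9/8) K σ`, i.e. `2^N ≤ (9/8)(16 + 4 C₂(Λ+1)) e^Λ K`, which is false for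
`C₃` large (take logarithms: the right side has logarithm `≤ C' X`).
-/

set_option autoImplicit false

namespace PC992LG

open SM992 Metric

private theorem unit_ex (e v : E) (he : ‖e‖ = 1) : ∃ e' : E, ‖e'‖ = 1 ∧ inner ℝ e' v = ‖v‖ := by
  by_cases hv : v = 0
  · exact ⟨e, he, by rw [hv]; simp⟩
  · have h0 : ‖v‖ ≠ 0 := norm_ne_zero_iff.2 hv
    refine ⟨‖v‖⁻¹ • v, ?_, ?_⟩
    · rw [norm_smul, norm_inv, norm_norm, inv_mul_cancel₀ h0]
    · rw [inner_smul_left, real_inner_self_eq_norm_sq]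
      simp only [conj_trivial]
      field_simp

/-- the logarithmic inequality -/
private theorem two_pow_gt (Cg C₁ X Λ K m : ℝ) (N : ℕ) (hCg : 0 < Cg) (hX : 1 ≤ X)
    (hΛ : Λ ≤ C₁ * X) (hK : 2 ≤ K) (hKX : Real.log K ≤ X)
    (hm : |m| ≤ Cg * (Λ + 1)) (hN : (2 * (18 + 4 * Cg * (C₁ + 1) + C₁) + 1) * X ≤ N) :
    (16 + 4 * |m|) * (9 / 8) * Real.exp Λ * K < 2 ^ N := by
  have h1 : (16 + 4 * |m|) ≤ Real.exp (15 + 4 * Cg * (Λ + 1)) := by
    have := Real.add_one_le_exp (15 + 4 * Cg * (Λ + 1))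
    nlinarith
  have h2 : (9 / 8 : ℝ) ≤ Real.exp 1 := by
    have := Real.add_one_le_exp (1 : ℝ)
    linarith
  have h3 : K = Real.exp (Real.log K) := (Real.exp_log (by linarith)).symm
  have h4 : (16 + 4 * |m|) * (9 / 8) * Real.exp Λ * K ≤
      Real.exp (15 + 4 * Cg * (Λ + 1) + 1 + Λ + Real.log K) := by
    rw [Real.exp_add, Real.exp_add, Real.exp_add, ← h3]
    have h5 : 0 ≤ |m| := abs_nonneg m
    gcongr
  refine lt_of_le_of_lt h4 ?_
  have h5 : (2 : ℝ) ^ N = Real.exp (N * Real.log 2) := by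
    rw [mul_comm, Real.exp_mul, Real.exp_log (by norm_num), Real.rpow_natCast]
  rw [h5, Real.exp_lt_exp]
  have h6 : (1 / 2 : ℝ) < Real.log 2 := by
    have := Real.log_two_gt_d9
    linarith
  have h7 : (N : ℝ) * (1 / 2) ≤ N * Real.log 2 := by
    apply mul_le_mul_of_nonneg_left h6.le (Nat.cast_nonneg N)
  have h8 : Λ + 1 ≤ (C₁ + 1) * X := by linarith
  have h9 : 4 * Cg * (Λ + 1) ≤ 4 * Cg * ((C₁ + 1) * X) := by gcongr
  nlinarith

/-- a holomorphic function that is real on a real interval -/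
private theorem deriv_real {φ : ℂ → ℂ} {ψ : ℝ → ℝ} {r d : ℝ} (hφ : DifferentiableAt ℂ φ (r : ℂ))
    (hψ : HasDerivAt ψ d r) (heq : ∀ᶠ t : ℝ in nhds r, φ (t : ℂ) = ((ψ t : ℝ) : ℂ)) :
    deriv φ (r : ℂ) = (d : ℂ) := by
  have h1 : HasDerivAt (fun t : ℝ => φ (t : ℂ)) (deriv φ (r : ℂ)) r :=
    hφ.hasDerivAt.comp_ofReal
  have h2 : HasDerivAt (fun t : ℝ => ((ψ t : ℝ) : ℂ)) (d : ℂ) r := hψ.ofReal_comp
  exact h1.unique (h2.congr_of_eventuallyEq heq)

theorem gap : ∃ C : ℝ, 0 < C ∧ ∀ (n : ℕ) (q : Fin n → ℝ) (a : Fin n → E) (K : ℝ)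
    (I : Finset (Fin n)) (p : E) (A B : ℝ), 0 < n → 2 ≤ K → I.Nonempty → 0 < A →
    (∀ i ∈ I, ‖a i - p‖ ≤ A) → (∀ i, i ∉ I → B ≤ ‖a i - p‖) →
    ∃ U : Finset ℤ, (U.card : ℝ) ≤ C * n ^ 4 * (n ^ 4 + Real.log K) ∧
      ∀ x, LocC q a K x → 8 * A ≤ ‖x - p‖ → 8 * ‖x - p‖ ≤ B →
        ∃ k ∈ U, (2 : ℝ) ^ k ≤ ‖x - p‖ ∧ ‖x - p‖ < 2 ^ (k + 1) := by
  obtain ⟨Ca, hCa, hann⟩ := ann_ball
  obtain ⟨Cr, hCr, hreal⟩ := ann_real
  obtain ⟨Cg, hCg, hgap⟩ := gap_abs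
  set C₁ : ℝ := Ca + Cr with hC₁
  have hC₁0 : 0 < C₁ := by positivity
  set C₃ : ℝ := 2 * (18 + 4 * Cg * (C₁ + 1) + C₁) + 1 with hC₃
  have hC₃0 : 1 ≤ C₃ := by
    have : 0 ≤ 2 * (18 + 4 * Cg * (C₁ + 1) + C₁) := by positivity
    linarith
  refine ⟨Cg * (C₁ + 1) * (C₃ + 1), by positivity, ?_⟩
  intro n q a K I p A B hn hK hI hA hIA hOB
  have hn1 : (1 : ℝ) ≤ n := by exact_mod_cast hn
  have hn4 : (1 : ℝ) ≤ (n : ℝ) ^ 4 := one_le_pow₀ hn1
  have hlogK : 0 < Real.log K := Real.log_pos (by linarith)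
  by_cases hBA : B ≤ A
  · refine ⟨∅, by rw [Finset.card_empty, Nat.cast_zero]; positivity, ?_⟩
    intro x _ h1 h2
    exfalso
    linarith
  push Not at hBA
  have hB : 0 < B := hA.trans hBA
  obtain ⟨c, φ, hfam⟩ := exists_fam q a I p A B hA hBA hIA hOB
  set Λ : ℝ := C₁ * n ^ 4 with hΛ
  have hΛ0 : 0 ≤ Λ := by positivity
  set X : ℝ := n ^ 4 + Real.log K with hX
  have hX1 : 1 ≤ X := by linarith
  set N : ℕ := ⌈C₃ * X⌉₊ with hN
  have hN1 : 1 ≤ N := Nat.one_le_ceil_iff.2 (by positivity)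
  have hNge : C₃ * X ≤ N := Nat.le_ceil _
  have hNle : (N : ℝ) ≤ (C₃ + 1) * X := by
    have := Nat.ceil_lt_add_one (show 0 ≤ C₃ * X by positivity)
    rw [← hN] at this
    linarith
  -- no charges in the annulus
  have hfree : ∀ y : E, A < ‖y - p‖ → ‖y - p‖ < B → ∀ l, y ≠ a l := by
    intro y h1 h2 l hyl
    by_cases hl : l ∈ I
    · have := hIA l hl
      rw [← hyl] at this
      linarith
    · have := hOB l hl
      rw [← hyl] at this
      linarith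
  have hexpr : Real.exp (Cr * n ^ 4) ≤ Real.exp Λ := by
    apply Real.exp_le_exp.2
    rw [hΛ, hC₁]
    nlinarith
  have hexpa : Real.exp (Ca * n ^ 4) ≤ Real.exp Λ := by
    apply Real.exp_le_exp.2
    rw [hΛ, hC₁]
    nlinarith
  obtain ⟨U, hUc, hU⟩ := hgap {u : E × E // ‖u.1‖ = 1 ∧ ‖u.2‖ = 1} (fun u => c u.1.1 u.1.2)
    (fun u => φ u.1.1 u.1.2) A B Λ hA hΛ0 (fun u => hfam.lau _ _ u.2.1 u.2.2) (by
      intro ρ h1 h2
      have hcpt : IsCompact {y : E | ρ ≤ ‖y - p‖ ∧ ‖y - p‖ ≤ 2 * ρ} := by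
        apply Metric.isCompact_of_isClosed_isBounded
        · exact (isClosed_le continuous_const (continuous_id.sub continuous_const).norm).inter
            (isClosed_le (continuous_id.sub continuous_const).norm continuous_const)
        · refine (Metric.isBounded_closedBall (x := p) (r := 2 * ρ)).subset ?_
          intro y hy
          rw [mem_closedBall_iff_norm]
          exact hy.2
      have hcont : ContinuousOn (F q a) {y : E | ρ ≤ ‖y - p‖ ∧ ‖y - p‖ ≤ 2 * ρ} := fun y hy =>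
        (hasStrictFDerivAt_F q a (hfree y (by linarith [hy.1]) (by linarith [hy.2]))).continuousAt
          |>.continuousWithinAt
      obtain ⟨m, hm⟩ := hcpt.exists_bound_of_continuousOn hcont
      refine ⟨Real.exp (Cr * n ^ 4) * m, fun u ζ h3 h4 => ?_⟩
      exact hreal n q a I p A B ρ m c φ hn hA hIA hOB hfam h1 h2 (fun y h5 h6 => hm y ⟨h5, h6⟩)
        _ _ u.2.1 u.2.2 ζ (by linarith) (by linarith)) (by
      intro ρ m h1 h2 h3 u ζ h4 h5
      have hρ0 : 0 < ρ := by linarith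
      have hm0 : 0 ≤ m := by
        refine (norm_nonneg _).trans (h3 u (ρ : ℂ) ?_ ?_)
        · rw [Complex.norm_real, Real.norm_of_nonneg hρ0.le]
        · rw [Complex.norm_real, Real.norm_of_nonneg hρ0.le]; linarith
      refine (hreal n q a I p A B ρ m c φ hn hA hIA hOB hfam h1 h2 ?_ _ _ u.2.1 u.2.2 ζ h4 h5).trans
        (mul_le_mul_of_nonneg_right hexpr hm0)
      intro y h6 h7
      have hy0 : 0 < ‖y - p‖ := by linarith
      have he : ‖(‖y - p‖⁻¹ • (y - p))‖ = 1 := by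
        rw [norm_smul, norm_inv, norm_norm, inv_mul_cancel₀ hy0.ne']
      obtain ⟨e', he', hin⟩ := unit_ex _ (F q a y) he
      have h8 := h3 ⟨(‖y - p‖⁻¹ • (y - p), e'), he, he'⟩ ((‖y - p‖ : ℝ) : ℂ)
        (by rw [Complex.norm_real, Real.norm_of_nonneg hy0.le]; exact h6)
        (by rw [Complex.norm_real, Real.norm_of_nonneg hy0.le]; exact h7)
      have h9 := hfam.real _ _ he he' ‖y - p‖ (by linarith) (by linarith)
      have h10 : p + ‖y - p‖ • (‖y - p‖⁻¹ • (y - p)) = y := by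
        rw [smul_smul, mul_inv_cancel₀ hy0.ne', one_smul]
        abel
      rw [h10, hin] at h9
      simp only [h9] at h8
      rw [Complex.norm_real, norm_norm] at h8
      exact h8) N hN1
  refine ⟨U, ?_, ?_⟩
  · refine hUc.trans ?_
    have h1 : Λ + 1 ≤ (C₁ + 1) * n ^ 4 := by
      rw [hΛ]; nlinarith
    calc Cg * (Λ + 1) * N ≤ Cg * ((C₁ + 1) * n ^ 4) * ((C₃ + 1) * X) := by gcongr
      _ = Cg * (C₁ + 1) * (C₃ + 1) * n ^ 4 * X := by ring
  intro x hx h8A h8B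
  obtain ⟨hx1, hx2, σ, hσ0, hσ, hxF⟩ := hx
  set r : ℝ := ‖x - p‖ with hr
  have hr0 : 0 < r := by linarith
  obtain ⟨j, hj1, hj2⟩ := exists_mem_Ico_zpow hr0 (show (1 : ℝ) < 2 by norm_num)
  by_contra hcon
  have hjU : j ∉ U := fun h => hcon ⟨j, h, hj1, hj2⟩
  set ρ : ℝ := (2 : ℝ) ^ j with hρ
  have hρ0 : 0 < ρ := zpow_pos (by norm_num) j
  have e1 : (2 : ℝ) ^ (j + 1) = 2 * ρ := by
    rw [hρ, zpow_add₀ (by norm_num), zpow_one]; ring
  have e2 : (2 : ℝ) ^ (j - 1) = ρ / 2 := by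
    rw [hρ, zpow_sub₀ (by norm_num), zpow_one]
  have e3 : (2 : ℝ) ^ (j + 2) = 4 * ρ := by
    rw [hρ, zpow_add₀ (by norm_num)]; norm_num; ring
  rw [e1] at hj2
  obtain ⟨h128A, h128B, m, hm, hM⟩ := hU j (by linarith) (by linarith) hjU
  obtain ⟨l₀, hl₀⟩ := hI
  have hxl₀ : ‖x - a l₀‖ ≤ 9 / 8 * r := by
    have h1 : ‖x - a l₀‖ ≤ ‖x - p‖ + ‖a l₀ - p‖ := by
      rw [show x - a l₀ = (x - p) - (a l₀ - p) by abel]
      exact norm_sub_le _ _
    have h2 := hIA l₀ hl₀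
    linarith
  have hxal : ∀ l, 7 / 8 * r ≤ ‖x - a l‖ := by
    intro l
    by_cases hl : l ∈ I
    · have h1 : ‖x - p‖ ≤ ‖x - a l‖ + ‖a l - p‖ := by
        rw [show x - p = (x - a l) + (a l - p) by abel]
        exact norm_add_le _ _
      have h2 := hIA l hl
      linarith
    · have h1 : ‖a l - p‖ ≤ ‖x - a l‖ + ‖x - p‖ := by
        rw [show a l - p = (x - p) - (x - a l) by abel]
        exact (norm_sub_le _ _).trans (le_of_eq (add_comm _ _))
      have h2 := hOB l hl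
      linarith
  set mx : ℝ := K * (9 / 8 * r) * σ with hmx
  have hmx0 : 0 < mx := by positivity
  have hball : ∀ y, ‖y - x‖ ≤ ‖x - p‖ / 32 → ‖F q a y‖ ≤ mx := by
    intro y hy
    refine (hxF y (fun l => ?_) l₀).trans ?_
    · have := hxal l
      rw [← hr] at hy
      linarith
    · rw [hmx]; gcongr
  set M : ℝ := Real.exp Λ * mx with hMdef
  have hM0 : 0 < M := by positivity
  have hφM : ∀ e e' : E, ‖e‖ = 1 → ‖e'‖ = 1 → ∀ ζ : ℂ, ρ / 4 ≤ ‖ζ‖ → ‖ζ‖ ≤ 8 * ρ →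
      ‖φ e e' ζ‖ ≤ M := by
    intro e e' he he' ζ h1 h2
    refine (hann n q a I p A B ρ mx x c φ hn hA hIA hOB hfam (by linarith) (by linarith)
      hj1 hj2.le hball e e' he he' ζ h1 h2).trans ?_
    exact mul_le_mul_of_nonneg_right hexpa hmx0.le
  have hdiff := hM M (fun u ζ h1 h2 => hφM _ _ u.2.1 u.2.2 ζ (by rw [e2] at h1; linarith)
    (by rw [e3] at h2; linarith))
  -- the direction
  set e : E := r⁻¹ • (x - p) with he_def
  have he : ‖e‖ = 1 := by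
    rw [he_def, norm_smul, norm_inv, Real.norm_of_nonneg hr0.le, ← hr, inv_mul_cancel₀ hr0.ne']
  have hpe : p + r • e = x := by
    rw [he_def, smul_smul, mul_inv_cancel₀ hr0.ne', one_smul]
    abel
  obtain ⟨e', he', hin⟩ := unit_ex e (DF q a x e) he
  have hv : σ ≤ ‖DF q a x e‖ := by
    have := hσ e
    rw [he, mul_one] at this
    exact this
  set c₀ : ℂ := c e e' m with hc₀
  have hrn : ‖(r : ℂ)‖ = r := by rw [Complex.norm_real, Real.norm_of_nonneg hr0.le]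
  have hrC : (r : ℂ) ≠ 0 := by exact_mod_cast hr0.ne'
  -- the difference
  have hD : ∀ z ∈ ball (r : ℂ) (r / 2), r / 2 < ‖z‖ ∧ ‖z‖ < 3 / 2 * r := by
    intro z hz
    rw [mem_ball_iff_norm] at hz
    constructor
    · have h1 : ‖(r : ℂ)‖ ≤ ‖z - r‖ + ‖z‖ := by
        rw [show (r : ℂ) = -(z - r) + z by ring]
        refine (norm_add_le _ _).trans ?_
        rw [norm_neg]
        simp
      rw [hrn] at h1
      linarith
    · have h1 : ‖z‖ ≤ ‖z - r‖ + ‖(r : ℂ)‖ := by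
        conv_lhs => rw [show z = (z - r) + r by ring]
        exact norm_add_le _ _
      rw [hrn] at h1
      linarith
  have hφd : DifferentiableOn ℂ (φ e e') (ball (r : ℂ) (r / 2)) := by
    obtain ⟨γ, α, β, P, h, h1, h2, h3, h4⟩ := hfam.cls e e' he he' (r : ℂ) (r / 2) (fun z hz => by
      obtain ⟨h1, h2⟩ := hD z hz
      constructor <;> linarith)
    have h5 : DifferentiableOn ℂ (fun z => γ + ∑ l, (α l + β l * z) * h l z)
        (ball (r : ℂ) (r / 2)) := by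
      refine (differentiableOn_const γ).add (DifferentiableOn.fun_sum fun l _ => ?_)
      exact ((differentiableOn_const (α l)).add
        ((differentiableOn_const (β l)).mul differentiableOn_id)).mul (h2 l)
    exact h5.congr h4
  have hDd : DifferentiableOn ℂ (fun z => φ e e' z - c₀ * z ^ m) (ball (r : ℂ) (r / 2)) := by
    refine hφd.sub ((differentiableOn_const c₀).mul ?_)
    intro z hz
    have h1 := (hD z hz).1
    have h2 : z ≠ 0 := by
      rintro rfl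
      rw [norm_zero] at h1
      linarith
    exact (differentiableAt_zpow.2 (Or.inl h2)).differentiableWithinAt
  have hDb : ∀ z : ℂ, ‖z - r‖ ≤ r / 4 → ‖φ e e' z - c₀ * z ^ m‖ ≤ 4 * M / 2 ^ N := by
    intro z hz
    have h1 : ‖(r : ℂ)‖ ≤ ‖z - r‖ + ‖z‖ := by
      rw [show (r : ℂ) = -(z - r) + z by ring]
      refine (norm_add_le _ _).trans ?_
      rw [norm_neg]
      simp
    have h2 : ‖z‖ ≤ ‖z - r‖ + ‖(r : ℂ)‖ := by
      conv_lhs => rw [show z = (z - r) + r by ring]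
      exact norm_add_le _ _
    rw [hrn] at h1 h2
    exact hdiff ⟨(e, e'), he, he'⟩ z (by rw [e2]; linarith) (by rw [e3]; linarith)
  have hcau : ‖deriv (fun z => φ e e' z - c₀ * z ^ m) (r : ℂ)‖ ≤ 4 * M / 2 ^ N / (r / 4) := by
    refine Complex.norm_deriv_le_of_forall_mem_sphere_norm_le (by positivity) ?_ ?_
    · refine DifferentiableOn.diffContOnCl ?_
      rw [closure_ball _ (by positivity)]
      exact hDd.mono (closedBall_subset_ball (by linarith))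
    · intro z hz
      exact hDb z (by rw [← mem_closedBall_iff_norm]; exact sphere_subset_closedBall hz)
  have hrmem : (r : ℂ) ∈ ball (r : ℂ) (r / 2) := mem_ball_self (by positivity)
  have hφr : φ e e' (r : ℂ) = 0 := by
    rw [hfam.real e e' he he' r (by linarith) (by linarith), hpe, hx2]
    simp
  have hcr : ‖c₀‖ * r ^ m ≤ 4 * M / 2 ^ N := by
    have h1 := hDb (r : ℂ) (by rw [sub_self, norm_zero]; positivity)
    rw [hφr, zero_sub, norm_neg, norm_mul, norm_zpow, hrn] at h1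
    exact h1
  have hφ' : deriv (φ e e') (r : ℂ) = ((‖DF q a x e‖ : ℝ) : ℂ) := by
    refine deriv_real (ψ := fun t => inner ℝ e' (F q a (p + t • e)))
      (hφd.differentiableAt (isOpen_ball.mem_nhds hrmem)) ?_ ?_
    · have h1 : HasFDerivAt (F q a) (DF q a x) (p + r • e) := by
        rw [hpe]
        exact (hasStrictFDerivAt_F q a hx1).hasFDerivAt
      have h2 : HasDerivAt (fun t : ℝ => p + t • e) e r := by
        have := ((hasDerivAt_id r).smul_const e).const_add p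
        simpa using this
      have h3 := h1.comp_hasDerivAt r h2
      have h4 : HasDerivAt (fun t : ℝ => inner ℝ e' (F q a (p + t • e)))
          (inner ℝ e' (DF q a x e)) r := by
        exact (innerSL ℝ e').hasFDerivAt.comp_hasDerivAt r h3
      rw [hin] at h4
      exact h4
    · have h1 : Set.Ioo A B ∈ nhds r := Ioo_mem_nhds (by linarith) (by linarith)
      filter_upwards [h1] with t ht
      exact hfam.real e e' he he' t ht.1 ht.2
  have hder : deriv (fun z => φ e e' z - c₀ * z ^ m) (r : ℂ) =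
      ((‖DF q a x e‖ : ℝ) : ℂ) - c₀ * (m * (r : ℂ) ^ (m - 1)) := by
    have h1 : HasDerivAt (φ e e') ((‖DF q a x e‖ : ℝ) : ℂ) (r : ℂ) := by
      rw [← hφ']
      exact (hφd.differentiableAt (isOpen_ball.mem_nhds hrmem)).hasDerivAt
    have h2 : HasDerivAt (fun z : ℂ => z ^ m) (m * (r : ℂ) ^ (m - 1)) (r : ℂ) :=
      hasDerivAt_zpow m (r : ℂ) (Or.inl hrC)
    exact (h1.sub (h2.const_mul c₀)).deriv
  have hfinal : σ ≤ (16 + 4 * |(m : ℝ)|) * (M / (2 ^ N * r)) := by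
    have h1 : ‖((‖DF q a x e‖ : ℝ) : ℂ)‖ ≤ 4 * M / 2 ^ N / (r / 4) +
        |(m : ℝ)| * (‖c₀‖ * r ^ (m - 1)) := by
      rw [show ((‖DF q a x e‖ : ℝ) : ℂ) = (((‖DF q a x e‖ : ℝ) : ℂ) -
        c₀ * (m * (r : ℂ) ^ (m - 1))) + c₀ * (m * (r : ℂ) ^ (m - 1)) by ring]
      refine (norm_add_le _ _).trans (add_le_add ?_ (le_of_eq ?_))
      · rw [← hder]; exact hcau
      · rw [norm_mul, norm_mul, norm_zpow, hrn, Complex.norm_intCast]
        ring
    rw [Complex.norm_real, norm_norm] at h1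
    have h2 : ‖c₀‖ * r ^ (m - 1) ≤ 4 * M / 2 ^ N / r := by
      rw [zpow_sub_one₀ hr0.ne', ← mul_assoc, le_div_iff₀ hr0, mul_assoc,
        inv_mul_cancel₀ hr0.ne', mul_one]
      exact hcr
    have h2N : (0 : ℝ) < 2 ^ N := by positivity
    calc σ ≤ 4 * M / 2 ^ N / (r / 4) + |(m : ℝ)| * (‖c₀‖ * r ^ (m - 1)) := hv.trans h1
      _ ≤ 4 * M / 2 ^ N / (r / 4) + |(m : ℝ)| * (4 * M / 2 ^ N / r) := by gcongr
      _ = (16 + 4 * |(m : ℝ)|) * (M / (2 ^ N * r)) := by field_simp; ring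
  have hlt := two_pow_gt Cg C₁ X Λ K (m : ℝ) N hCg hX1 (by
      rw [hΛ, hX]
      nlinarith) hK (by rw [hX]; linarith) (by
      refine hm.trans (le_of_eq ?_)
      rfl) hNge
  have h2N : (0 : ℝ) < 2 ^ N := by positivity
  have h3 : (16 + 4 * |(m : ℝ)|) * (M / (2 ^ N * r)) =
      σ * ((16 + 4 * |(m : ℝ)|) * (9 / 8) * Real.exp Λ * K / 2 ^ N) := by
    rw [hMdef, hmx]
    field_simp
  rw [h3] at hfinal
  have h4 : (16 + 4 * |(m : ℝ)|) * (9 / 8) * Real.exp Λ * K / 2 ^ N < 1 := by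
    rw [div_lt_one h2N]
    exact hlt
  nlinarith

end PC992LG
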