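import Pool.Agent.Work.MP_992d6e_an.SM.Bez

/-!
MP_992d6e_an, LG, parts L (local count) and A (assembly): definitions.

Plan: /team-store/blueprint_992_log.md, Steps 5 and 7.
-/

set_option autoImplicit false

namespace PC992LG

open Metric SM992

/-- The restrictions of `f` to the lines through the points of `closedBall y s` extend to holomorphic
functions on the disc of radius `s` that are bounded by `S`. -/
def LineBd (f : E → E) (y : E) (s S : ℝ) : Prop :=
  ∀ x ∈ closedBall y s, ∀ e e' : E, ‖e‖ = 1 → ‖e'‖ = 1 → ∃ φ : ℂ → ℂ,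
    DifferentiableOn ℂ φ (ball 0 s) ∧
    (∀ t : ℝ, |t| < s → φ t = ((inner ℝ e' (f (x + t • e)) : ℝ) : ℂ)) ∧
    ∀ z ∈ ball (0 : ℂ) s, ‖φ z‖ ≤ S

/-- `x` is an equilibrium of local condition number at most `K`: with `d` the distance to the nearest
charge and `σ` a lower bound for `DF`, the field is at most `K d σ` on the ball of radius `d/2`. -/
def LocC {n : ℕ} (q : Fin n → ℝ) (a : Fin n → E) (K : ℝ) (x : E) : Prop :=
  (∀ l, x ≠ a l) ∧ F q a x = 0 ∧ ∃ σ : ℝ, 0 < σ ∧ (∀ v, σ * ‖v‖ ≤ ‖DF q a x v‖) ∧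
    ∀ y, (∀ l, 2 * ‖y - x‖ ≤ ‖x - a l‖) → ∀ l, ‖F q a y‖ ≤ K * ‖x - a l‖ * σ

end PC992LG
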