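import Mathlib
import Pool.Agent.Work.MP_992d6e_an.LG.LDefs

/-!
MODULE FBr (M). A holomorphic branch of `P^(-3/2)` for the quadratic `P(z) = ‖v + z e‖^2`.

`u = <v, e>`, `w = sqrt (‖v‖^2 - u^2)` (Cauchy-Schwarz: `|u| ≤ ‖v‖`), `r = -u + i w`, so `|r| = ‖v‖` and
`P(z) = z^2 + 2 u z + ‖v‖^2 = (z - r)(z - conj r) = ‖v‖^2 (1 - z/r)(1 - z/conj r)`. For `|z| < ‖v‖` both factors have
positive real part, so they are in `Complex.slitPlane`. Put
`h z = ‖v‖^(-3) * exp (-(3/2) (log (1 - z/r) + log (1 - z/conj r)))`. It is holomorphic on the ball, and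
`h^2 = ‖v‖^(-6) exp (-3 (..)) = ‖v‖^(-6) ((1 - z/r)(1 - z/conj r))^(-3) = P^(-3)`.
For real `t` the second factor is the conjugate of the first, so (Complex.log_conj) the sum of the two logarithms is the
real number `2 log |1 - t/r| = log (P t/‖v‖^2)`, with `P t = ‖v + t e‖^2 > 0`, and `h t = ‖v + t e‖^(-3)` (both sides are
positive reals with equal squares: `h t` is real and positive as `exp` of a real number, and
`(h t)^2 (P t)^3 = 1`).
-/

set_option autoImplicit false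

namespace PC992LG

open Metric SM992 Polynomial

/-- the quadratic polynomial `‖v + z e‖^2` -/
noncomputable def quad (v e : E) : ℂ[X] :=
  X ^ 2 + C ((2 * (inner ℝ v e : ℝ) : ℝ) : ℂ) * X + C ((‖v‖ ^ 2 : ℝ) : ℂ)

theorem quad_natDegree (v e : E) : (quad v e).natDegree ≤ 2 := by
  unfold quad
  compute_degree

theorem quad_eval (v e : E) (z : ℂ) :
    (quad v e).eval z = z ^ 2 + 2 * ((inner ℝ v e : ℝ) : ℂ) * z + ((‖v‖ : ℝ) : ℂ) ^ 2 := by
  unfold quad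
  simp only [eval_add, eval_mul, eval_pow, eval_X, eval_C]
  push_cast
  ring

/-- the roots of `z^2 + 2 u z + N^2` -/
private theorem fBr_root (N u : ℝ) (hN : 0 < N) (hu : u ^ 2 ≤ N ^ 2) : ∃ r : ℂ, ‖r‖ = N ∧
    r * (starRingEnd ℂ) r = (N : ℂ) ^ 2 ∧ r + (starRingEnd ℂ) r = -(2 * (u : ℂ)) := by
  have h1 : Complex.normSq ⟨-u, Real.sqrt (N ^ 2 - u ^ 2)⟩ = N ^ 2 := by
    rw [Complex.normSq_mk, Real.mul_self_sqrt (by linarith)]
    ring
  refine ⟨⟨-u, Real.sqrt (N ^ 2 - u ^ 2)⟩, ?_, ?_, ?_⟩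
  · rw [Complex.normSq_eq_norm_sq] at h1
    exact (sq_eq_sq₀ (norm_nonneg _) hN.le).1 h1
  · rw [Complex.mul_conj, h1]
    push_cast
    rfl
  · apply Complex.ext
    · simp only [Complex.add_re, Complex.conj_re, Complex.neg_re, Complex.mul_re, Complex.re_ofNat,
        Complex.ofReal_re, Complex.im_ofNat, Complex.ofReal_im]
      ring
    · simp only [Complex.add_im, Complex.conj_im, Complex.neg_im, Complex.mul_im, Complex.re_ofNat,
        Complex.ofReal_re, Complex.im_ofNat, Complex.ofReal_im]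
      ring

private theorem fBr_slit {r z : ℂ} {N : ℝ} (hN : 0 < N) (hr : ‖r‖ = N)
    (hz : z ∈ ball (0 : ℂ) N) : 1 - z / r ∈ Complex.slitPlane := by
  have h1 : ‖-(z / r)‖ < 1 := by
    rw [norm_neg, norm_div, hr, div_lt_one hN]
    simpa using hz
  have h2 := Complex.mem_slitPlane_of_norm_lt_one h1
  rwa [← sub_eq_add_neg] at h2

private theorem fBr_exp {A B : ℂ} (hA : A ≠ 0) (hB : B ≠ 0) :
    (Complex.exp (-(3 / 2) * (Complex.log A + Complex.log B))) ^ 2 * (A * B) ^ 3 = 1 := by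
  have h1 : A ^ 3 = Complex.exp (((3 : ℕ) : ℂ) * Complex.log A) := by
    rw [Complex.exp_nat_mul, Complex.exp_log hA]
  have h2 : B ^ 3 = Complex.exp (((3 : ℕ) : ℂ) * Complex.log B) := by
    rw [Complex.exp_nat_mul, Complex.exp_log hB]
  rw [mul_pow A B 3, h1, h2, ← Complex.exp_nat_mul, ← Complex.exp_add, ← Complex.exp_add,
    ← Complex.exp_zero]
  congr 1
  push_cast
  ring

theorem branch (v e : E) (hv : v ≠ 0) (he : ‖e‖ = 1) :
    ∃ h : ℂ → ℂ, DifferentiableOn ℂ h (ball 0 ‖v‖) ∧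
      (∀ z ∈ ball (0 : ℂ) ‖v‖, h z ^ 2 * (quad v e).eval z ^ 3 = 1) ∧
      ∀ t : ℝ, |t| < ‖v‖ → h t = (((‖v + t • e‖ ^ 3)⁻¹ : ℝ) : ℂ) := by
  have hN0 : 0 < ‖v‖ := norm_pos_iff.2 hv
  have hu2 : (inner ℝ v e : ℝ) ^ 2 ≤ ‖v‖ ^ 2 := by
    have h1 := abs_real_inner_le_norm v e
    rw [he, mul_one] at h1
    exact sq_le_sq.2 (by rwa [abs_of_pos hN0])
  have hnorm : ∀ t : ℝ, ‖v + t • e‖ ^ 2 = t ^ 2 + 2 * (inner ℝ v e : ℝ) * t + ‖v‖ ^ 2 := by
    intro t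
    rw [norm_add_sq_real, inner_smul_right, norm_smul, he, Real.norm_eq_abs, mul_one, sq_abs]
    ring
  have hquad := quad_eval v e
  generalize (inner ℝ v e : ℝ) = u at hu2 hnorm hquad
  obtain ⟨r, hr, hr1, hr2⟩ := fBr_root ‖v‖ u hN0 hu2
  have hrc : ‖(starRingEnd ℂ) r‖ = ‖v‖ := by rw [RCLike.norm_conj, hr]
  have hr0 : r ≠ 0 := by
    intro h
    rw [h, norm_zero] at hr
    exact hN0.ne hr
  have hrc0 : (starRingEnd ℂ) r ≠ 0 := by
    intro h
    rw [h, norm_zero] at hrc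
    exact hN0.ne hrc
  have hNc : ((‖v‖ : ℝ) : ℂ) ≠ 0 := by exact_mod_cast hN0.ne'
  have hprod : ∀ z : ℂ, z ^ 2 + 2 * (u : ℂ) * z + ((‖v‖ : ℝ) : ℂ) ^ 2 =
      ((‖v‖ : ℝ) : ℂ) ^ 2 * ((1 - z / r) * (1 - z / (starRingEnd ℂ) r)) := by
    intro z
    rw [← hr1]
    field_simp
    have h2 : (2 : ℂ) * u = -(r + (starRingEnd ℂ) r) := by rw [hr2]; ring
    rw [h2]
    ring
  refine ⟨fun z => (((‖v‖ : ℝ) : ℂ) ^ 3)⁻¹ * Complex.exp (-(3 / 2) *
    (Complex.log (1 - z / r) + Complex.log (1 - z / (starRingEnd ℂ) r))), ?_, ?_, ?_⟩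
  · intro z hz
    apply DifferentiableAt.differentiableWithinAt
    have h1 : DifferentiableAt ℂ (fun z => Complex.log (1 - z / r)) z :=
      DifferentiableAt.clog (by fun_prop) (fBr_slit hN0 hr hz)
    have h2 : DifferentiableAt ℂ (fun z => Complex.log (1 - z / (starRingEnd ℂ) r)) z :=
      DifferentiableAt.clog (by fun_prop) (fBr_slit hN0 hrc hz)
    exact (((h1.add h2).const_mul _).cexp).const_mul _
  · intro z hz
    have hA := Complex.slitPlane_ne_zero (fBr_slit hN0 hr hz)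
    have hB := Complex.slitPlane_ne_zero (fBr_slit hN0 hrc hz)
    rw [hquad, hprod]
    have h1 : (Complex.exp (-(3 / 2) * (Complex.log (1 - z / r) +
        Complex.log (1 - z / (starRingEnd ℂ) r)))) ^ 2 *
        ((1 - z / r) * (1 - z / (starRingEnd ℂ) r)) ^ 3 = 1 := fBr_exp hA hB
    have h2 : (((‖v‖ : ℝ) : ℂ) ^ 3)⁻¹ ^ 2 * (((‖v‖ : ℝ) : ℂ) ^ 2) ^ 3 = 1 := by
      field_simp
    calc ((((‖v‖ : ℝ) : ℂ) ^ 3)⁻¹ * Complex.exp (-(3 / 2) * (Complex.log (1 - z / r) +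
          Complex.log (1 - z / (starRingEnd ℂ) r)))) ^ 2 *
          (((‖v‖ : ℝ) : ℂ) ^ 2 * ((1 - z / r) * (1 - z / (starRingEnd ℂ) r))) ^ 3
        = ((((‖v‖ : ℝ) : ℂ) ^ 3)⁻¹ ^ 2 * (((‖v‖ : ℝ) : ℂ) ^ 2) ^ 3) *
          ((Complex.exp (-(3 / 2) * (Complex.log (1 - z / r) +
          Complex.log (1 - z / (starRingEnd ℂ) r)))) ^ 2 *
          ((1 - z / r) * (1 - z / (starRingEnd ℂ) r)) ^ 3) := by ring
      _ = 1 := by rw [h1, h2, mul_one]
  · intro t ht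
    have hz : ((t : ℝ) : ℂ) ∈ ball (0 : ℂ) ‖v‖ := by
      rw [mem_ball_zero_iff, Complex.norm_real, Real.norm_eq_abs]
      exact ht
    have hS := fBr_slit hN0 hr hz
    have hA := Complex.slitPlane_ne_zero hS
    have hconj : (1 - (t : ℂ) / (starRingEnd ℂ) r) = (starRingEnd ℂ) (1 - (t : ℂ) / r) := by
      rw [map_sub, map_one, map_div₀, Complex.conj_ofReal]
    have hP := hprod t
    beta_reduce
    rw [hconj] at hP ⊢
    generalize 1 - (t : ℂ) / r = A at hP hS hA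
    have hlog : Complex.log ((starRingEnd ℂ) A) = (starRingEnd ℂ) (Complex.log A) :=
      Complex.log_conj _ (Complex.slitPlane_arg_ne_pi hS)
    rw [hlog, Complex.add_conj, Complex.log_re]
    have hpos : 0 < ‖A‖ := norm_pos_iff.2 hA
    have h3 : ‖v + t • e‖ = ‖v‖ * ‖A‖ := by
      have h4 : ‖v + t • e‖ ^ 2 = (‖v‖ * ‖A‖) ^ 2 := by
        rw [hnorm t]
        rw [Complex.mul_conj, Complex.normSq_eq_norm_sq] at hP
        have h5 : ((t ^ 2 + 2 * u * t + ‖v‖ ^ 2 : ℝ) : ℂ) = (((‖v‖ * ‖A‖) ^ 2 : ℝ) : ℂ) := by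
          push_cast at hP ⊢
          rw [hP]
          ring
        exact_mod_cast h5
      exact (sq_eq_sq₀ (norm_nonneg _) (by positivity)).1 h4
    rw [h3]
    have h6 : Real.exp (-(3 / 2) * (2 * Real.log ‖A‖)) = (‖A‖ ^ 3)⁻¹ := by
      rw [show -(3 / 2) * (2 * Real.log ‖A‖) = -(3 * Real.log ‖A‖) by ring, Real.exp_neg]
      congr 1
      rw [show (3 : ℝ) * Real.log ‖A‖ = ((3 : ℕ) : ℝ) * Real.log ‖A‖ by norm_num,
        Real.exp_nat_mul, Real.exp_log hpos]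
    have h7 : Complex.exp (-(3 / 2) * ((2 * Real.log ‖A‖ : ℝ) : ℂ)) =
        ((Real.exp (-(3 / 2) * (2 * Real.log ‖A‖)) : ℝ) : ℂ) := by
      push_cast
      rfl
    rw [h7, h6]
    push_cast
    rw [mul_pow, mul_inv]

end PC992LG
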