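import Mathlib
import Pool.Agent.Work.MP_992d6e_an.LG.Defs
import Pool.Agent.Work.MP_992d6e_an.LG.FBr

/-!
MODULE FLn (M). The field on a line is in the class `Cls`.

`v_l = x - a_l`, `‖v_l‖ ≥ R > 0`, `h_l` = the branch of `branch v_l e`,
`φ z = ∑ l, (q_l <e', v_l> + q_l <e', e> z) h_l(z)`, `γ = 0`, `P_l = quad v_l e`, `α_l = q_l <e', v_l>`,
`β_l = q_l <e', e>`. For real `t` with `|t| < R`: `<e', F q a (x + t e)> = ∑ q_l ‖v_l + t e‖^(-3) <e', v_l + t e>`, as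
`x + t e - a_l = v_l + t e` and `F q a y = ∑ q_l g (y - a_l)`, `g u = ‖u‖^(-3) u`. (Restrict `branch` from `ball 0 ‖v_l‖` to
`ball 0 R`.)
-/

set_option autoImplicit false

namespace PC992LG

open Metric SM992

theorem line_cls (n : ℕ) (q : Fin n → ℝ) (a : Fin n → E) (x e e' : E) (R : ℝ) (hR : 0 < R)
    (hx : ∀ l, R ≤ ‖x - a l‖) (he : ‖e‖ = 1) :
    ∃ φ : ℂ → ℂ, Cls n 0 R φ ∧
      ∀ t : ℝ, |t| < R → φ t = ((inner ℝ e' (F q a (x + t • e)) : ℝ) : ℂ) := by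
  have hv : ∀ l, x - a l ≠ 0 := fun l => norm_pos_iff.1 (hR.trans_le (hx l))
  choose h h1 h2 h3 using fun l => branch (x - a l) e (hv l) he
  refine ⟨fun z => 0 + ∑ l, (((q l * (inner ℝ e' (x - a l) : ℝ) : ℝ) : ℂ) +
    ((q l * (inner ℝ e' e : ℝ) : ℝ) : ℂ) * z) * h l z, ⟨0, fun l =>
      ((q l * (inner ℝ e' (x - a l) : ℝ) : ℝ) : ℂ), fun _ => _, fun l => quad (x - a l) e, h,
      fun l => quad_natDegree _ _, fun l => (h1 l).mono (ball_subset_ball (hx l)),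
      fun l z hz => h2 l z (ball_subset_ball (hx l) hz), fun z _ => rfl⟩, ?_⟩
  intro t ht
  beta_reduce
  have hF : (inner ℝ e' (F q a (x + t • e)) : ℝ) = ∑ l, (q l * (inner ℝ e' (x - a l) : ℝ) +
      q l * (inner ℝ e' e : ℝ) * t) * (‖(x - a l) + t • e‖ ^ 3)⁻¹ := by
    unfold F
    rw [inner_sum]
    refine Finset.sum_congr rfl fun l _ => ?_
    have h4 : x + t • e - a l = (x - a l) + t • e := by abel
    rw [h4]
    unfold g
    rw [inner_smul_right, inner_smul_right, inner_add_right, inner_smul_right]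
    ring
  rw [hF, zero_add]
  push_cast
  refine Finset.sum_congr rfl fun l _ => ?_
  rw [h3 l t (ht.trans_le (hx l))]
  push_cast
  ring

end PC992LG
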