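import Mathlib
import Pool.Agent.Work.MP_992d6e_an.LG.FLn
import Pool.Agent.Work.MP_992d6e_an.LG.RCx
import Pool.Agent.Work.MP_992d6e_an.SM.Der

/-!
MODULE FDb (M). Doubling for the field on real balls.

Let `C₁, c₀` be the constants of `real_to_complex` and `C₂` that of `doubling`, `c₁ = min c₀ (1/8)`,
`ρ₀ = min r (c₁ d) ≥ c₁ r > 0`. Let first `2 ‖y - x‖ < d`. If `F q a y = 0` or `y = x` the claim is clear (for `y = x` use the
hypothesis; all factors are `≥ 1`, and `0 ≤ m`). Otherwise put `e = (y - x)/‖y - x‖`, `e' = F y/‖F y‖`, `φ` from `line_cls` with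
`R = d`. For `|t| ≤ ρ₀` (`< d`): `‖φ t‖ = |<e', F (x + t e)>| ≤ m`. `real_to_complex` (`z0 = 0`, `ρ = ρ₀ ≤ c₀ d`): `‖φ‖ ≤ e^(C₁ n^4) m` on
`closedBall 0 ρ₀`. `doubling` with `ρ₁ = ρ₀`, `ρ₂ = max ρ₀ (‖y - x‖/2)` (`4 ρ₂ ≤ max (d/2) (2 ‖y - x‖) < d`) at the point
`z = ‖y - x‖` (`≤ 2 ρ₂`): `‖F y‖ = ‖φ ‖y - x‖‖ ≤ (2 ρ₂/ρ₀)^(C₂ n^4) e^(C₁ n^4) m`, and `2 ρ₂/ρ₀ ≤ d/(c₁ r)`, so the bound is at most
`(d/r)^(C₂ n^4) (1/c₁)^(C₂ n^4) e^(C₁ n^4) m` with `(1/c₁)^(C₂ n^4) = exp (C₂ n^4 log (1/c₁))`. Take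
`C = C₁ + C₂ + C₂ log (1/c₁)` (exponents may be increased, as `d/r ≥ 1`).
If `2 ‖y - x‖ = d`: `F q a` is continuous at `y` (`y ≠ a l` since `d ≤ ‖x - a l‖`, `d > 0`; hasStrictFDerivAt_F), and `y` is the limit of
`x + s (y - x)`, `s → 1-`, for which the bound holds.
-/

set_option autoImplicit false

namespace PC992LG

open Metric SM992

private theorem fdb_strict (C₁ c₀ C₂ : ℝ) (hC₂ : 0 < C₂)
    (H1 : ∀ (n : ℕ), 0 < n →
      ∀ (z0 : ℂ) (R : ℝ) (φ : ℂ → ℂ), Cls n z0 R φ → ∀ ρ m : ℝ, 0 < ρ → ρ ≤ c₀ * R →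
      (∀ t : ℝ, |t| ≤ ρ → ‖φ (z0 + t)‖ ≤ m) →
      ∀ z ∈ closedBall z0 ρ, ‖φ z‖ ≤ Real.exp (C₁ * n ^ 4) * m)
    (H2 : ∀ (n : ℕ), 0 < n → ∀ (z0 : ℂ) (R : ℝ) (φ : ℂ → ℂ),
      Cls n z0 R φ → ∀ ρ₁ ρ₂ m : ℝ, 0 < ρ₁ → ρ₁ ≤ ρ₂ → 4 * ρ₂ < R →
      (∀ z ∈ closedBall z0 ρ₁, ‖φ z‖ ≤ m) →
      ∀ z ∈ closedBall z0 (2 * ρ₂), ‖φ z‖ ≤ (2 * ρ₂ / ρ₁) ^ (C₂ * (n : ℝ) ^ 4) * m)
    (c₁ : ℝ) (hc1 : 0 < c₁) (hc1c : c₁ ≤ c₀) (hc18 : c₁ ≤ 1 / 8)
    (n : ℕ) (q : Fin n → ℝ) (a : Fin n → E) (x : E) (r d m : ℝ) (hn : 0 < n) (hr : 0 < r)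
    (hrd : r ≤ d) (hd : ∀ l, d ≤ ‖x - a l‖)
    (hm : ∀ y, ‖y - x‖ ≤ r → 2 * ‖y - x‖ ≤ d → ‖F q a y‖ ≤ m) (y : E)
    (hy : 2 * ‖y - x‖ < d) (hxy : y ≠ x) (hF : F q a y ≠ 0) :
    ‖F q a y‖ ≤ (d / (c₁ * r)) ^ (C₂ * (n : ℝ) ^ 4) * (Real.exp (C₁ * n ^ 4) * m) := by
  have hd0 : 0 < d := lt_of_lt_of_le hr hrd
  have hm0 : 0 ≤ m := (norm_nonneg _).trans (hm x (by simpa using hr.le) (by simpa using hd0.le))
  set s : ℝ := ‖y - x‖ with hs
  have hs0 : 0 < s := norm_pos_iff.2 (sub_ne_zero.2 hxy)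
  have hFy : 0 < ‖F q a y‖ := norm_pos_iff.2 hF
  set e : E := s⁻¹ • (y - x) with he
  set e' : E := ‖F q a y‖⁻¹ • F q a y with he'
  have hen : ‖e‖ = 1 := by
    rw [he, norm_smul, norm_inv, Real.norm_eq_abs, abs_of_pos hs0, ← hs]
    exact inv_mul_cancel₀ hs0.ne'
  have hen' : ‖e'‖ = 1 := by
    rw [he', norm_smul, norm_inv, norm_norm]
    exact inv_mul_cancel₀ hFy.ne'
  obtain ⟨φ, hφ, hφt⟩ := line_cls n q a x e e' d hd0 hd hen
  set ρ₀ : ℝ := min r (c₁ * d) with hρ₀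
  have hρ0 : 0 < ρ₀ := lt_min hr (by positivity)
  have hρr : ρ₀ ≤ r := min_le_left _ _
  have hρd : ρ₀ ≤ c₁ * d := min_le_right _ _
  have hρ8 : ρ₀ ≤ d / 8 := by
    refine hρd.trans ?_
    nlinarith
  have hρc : ρ₀ ≤ c₀ * d := hρd.trans (by nlinarith)
  have hb1 := H1 n hn 0 d φ hφ ρ₀ m hρ0 hρc (by
    intro t ht
    have ht' : |t| < d := by linarith
    rw [zero_add, hφt t ht', Complex.norm_real]
    refine (norm_inner_le_norm _ _).trans ?_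
    rw [hen', one_mul]
    have hte : ‖x + t • e - x‖ = |t| := by
      rw [add_sub_cancel_left, norm_smul, hen, mul_one, Real.norm_eq_abs]
    refine hm _ ?_ ?_
    · rw [hte]; linarith
    · rw [hte]; linarith)
  set ρ₂ : ℝ := max ρ₀ (s / 2) with hρ₂
  have h4 : 4 * ρ₂ < d := by
    rw [hρ₂]
    rcases max_cases ρ₀ (s / 2) with h | h
    · rw [h.1]; linarith
    · rw [h.1]; linarith
  have hs2 : s ≤ 2 * ρ₂ := by
    have := le_max_right ρ₀ (s / 2)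
    rw [← hρ₂] at this
    linarith
  have hb2 := H2 n hn 0 d φ hφ ρ₀ ρ₂ _ hρ0 (le_max_left _ _) h4 hb1 (s : ℂ) (by
    rw [mem_closedBall, dist_zero_right, Complex.norm_real, Real.norm_eq_abs, abs_of_pos hs0]
    exact hs2)
  have hval : ‖φ (s : ℂ)‖ = ‖F q a y‖ := by
    rw [hφt s (by rw [abs_of_pos hs0]; linarith), Complex.norm_real]
    have hxe : x + s • e = y := by
      rw [he, smul_smul, mul_inv_cancel₀ hs0.ne', one_smul]
      abel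
    rw [hxe, he', real_inner_smul_left, real_inner_self_eq_norm_sq, Real.norm_eq_abs]
    have : ‖F q a y‖⁻¹ * ‖F q a y‖ ^ 2 = ‖F q a y‖ := by
      field_simp
    rw [this, abs_of_pos hFy]
  rw [hval] at hb2
  refine hb2.trans ?_
  refine mul_le_mul_of_nonneg_right ?_ (by positivity)
  refine Real.rpow_le_rpow (by positivity) ?_ (by positivity)
  have hcr : c₁ * r ≤ ρ₀ := by
    rw [hρ₀]
    refine le_min ?_ ?_
    · nlinarith
    · nlinarith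
  have h2d : 2 * ρ₂ ≤ d := by
    have : 0 < ρ₂ := lt_of_lt_of_le hρ0 (le_max_left _ _)
    linarith
  exact div_le_div₀ hd0.le h2d (by positivity) hcr

theorem field_doubling : ∃ C : ℝ, 0 < C ∧ ∀ (n : ℕ) (q : Fin n → ℝ) (a : Fin n → E) (x : E)
    (r d m : ℝ), 0 < n → 0 < r → r ≤ d → (∀ l, d ≤ ‖x - a l‖) →
    (∀ y, ‖y - x‖ ≤ r → 2 * ‖y - x‖ ≤ d → ‖F q a y‖ ≤ m) →
    ∀ y, 2 * ‖y - x‖ ≤ d → ‖F q a y‖ ≤ (d / r) ^ (C * (n : ℝ) ^ 4) * (Real.exp (C * n ^ 4) * m) := by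
  obtain ⟨C₁, c₀, hC1, hc0, hc01, H1⟩ := real_to_complex
  obtain ⟨C₂, hC2, H2⟩ := doubling
  obtain ⟨c₁, hc1, hc1c, hc18⟩ : ∃ c₁ : ℝ, 0 < c₁ ∧ c₁ ≤ c₀ ∧ c₁ ≤ 1 / 8 :=
    ⟨min c₀ (1 / 8), lt_min hc0 (by norm_num), min_le_left _ _, min_le_right _ _⟩
  have hL : 0 ≤ Real.log (1 / c₁) := by
    refine Real.log_nonneg ?_
    rw [le_div_iff₀ hc1]
    linarith
  refine ⟨C₁ + C₂ + C₂ * Real.log (1 / c₁), by positivity, ?_⟩
  intro n q a x r d m hn hr hrd hd hm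
  have hd0 : 0 < d := lt_of_lt_of_le hr hrd
  have hm0 : 0 ≤ m := (norm_nonneg _).trans (hm x (by simpa using hr.le) (by simpa using hd0.le))
  set K : ℝ := C₁ + C₂ + C₂ * Real.log (1 / c₁) with hK
  have hK0 : 0 < K := by positivity
  have hn4 : (0 : ℝ) ≤ (n : ℝ) ^ 4 := by positivity
  have hdr : 1 ≤ d / r := by
    rw [le_div_iff₀ hr]
    linarith
  have hbase : m ≤ (d / r) ^ (K * (n : ℝ) ^ 4) * (Real.exp (K * n ^ 4) * m) := by
    have h1 : 1 ≤ (d / r) ^ (K * (n : ℝ) ^ 4) := Real.one_le_rpow hdr (by positivity)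
    have h2 : 1 ≤ Real.exp (K * n ^ 4) := Real.one_le_exp (by positivity)
    have h3 : m ≤ Real.exp (K * n ^ 4) * m := le_mul_of_one_le_left hm0 h2
    exact h3.trans (le_mul_of_one_le_left (by positivity) h1)
  have hstrict : ∀ y, 2 * ‖y - x‖ < d →
      ‖F q a y‖ ≤ (d / r) ^ (K * (n : ℝ) ^ 4) * (Real.exp (K * n ^ 4) * m) := by
    intro y hy
    by_cases hF : F q a y = 0
    · rw [hF, norm_zero]
      positivity
    by_cases hxy : y = x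
    · refine le_trans ?_ hbase
      rw [hxy]
      exact hm x (by simpa using hr.le) (by simpa using hd0.le)
    have key := fdb_strict C₁ c₀ C₂ hC2 H1 H2 c₁ hc1 hc1c hc18 n q a x r d m hn hr hrd hd hm
      y hy hxy hF
    refine key.trans ?_
    have e1 : d / (c₁ * r) = d / r * (1 / c₁) := by
      field_simp
    rw [e1, Real.mul_rpow (by positivity) (by positivity)]
    have e2 : (1 / c₁) ^ (C₂ * (n : ℝ) ^ 4) = Real.exp (Real.log (1 / c₁) * (C₂ * (n : ℝ) ^ 4)) :=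
      Real.rpow_def_of_pos (by positivity) _
    rw [e2]
    have e3 : (d / r) ^ (C₂ * (n : ℝ) ^ 4) ≤ (d / r) ^ (K * (n : ℝ) ^ 4) := by
      refine Real.rpow_le_rpow_of_exponent_le hdr ?_
      refine mul_le_mul_of_nonneg_right ?_ hn4
      rw [hK]
      have : 0 ≤ C₂ * Real.log (1 / c₁) := by positivity
      linarith
    have e4 : Real.exp (Real.log (1 / c₁) * (C₂ * (n : ℝ) ^ 4)) * (Real.exp (C₁ * n ^ 4) * m)
        ≤ Real.exp (K * n ^ 4) * m := by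
      rw [← mul_assoc, ← Real.exp_add]
      refine mul_le_mul_of_nonneg_right ?_ hm0
      refine Real.exp_le_exp.2 ?_
      rw [hK]
      nlinarith [mul_nonneg hC2.le hn4]
    rw [mul_assoc]
    exact mul_le_mul e3 e4 (by positivity) (by positivity)
  intro y hy
  rcases lt_or_eq_of_le hy with hlt | heq
  · exact hstrict y hlt
  have hya : ∀ l, y ≠ a l := by
    intro l h
    have h1 := hd l
    rw [← h, norm_sub_rev] at h1
    linarith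
  have hcont : ContinuousAt (F q a) y := (hasStrictFDerivAt_F q a hya).continuousAt
  have hline : Filter.Tendsto (fun s : ℝ => x + s • (y - x)) (nhdsWithin 1 (Set.Iio 1)) (nhds y) := by
    have h1 : Filter.Tendsto (fun s : ℝ => x + s • (y - x)) (nhds 1) (nhds (x + (1 : ℝ) • (y - x))) := by
      have : Continuous (fun s : ℝ => x + s • (y - x)) := by fun_prop
      exact this.tendsto 1
    rw [one_smul, add_sub_cancel] at h1
    exact h1.mono_left nhdsWithin_le_nhds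
  have hlim : Filter.Tendsto (fun s : ℝ => ‖F q a (x + s • (y - x))‖) (nhdsWithin 1 (Set.Iio 1))
      (nhds ‖F q a y‖) := (hcont.tendsto.comp hline).norm
  refine le_of_tendsto hlim ?_
  have h01 : Set.Ioo (0 : ℝ) 1 ∈ nhdsWithin 1 (Set.Iio 1) :=
    Ioo_mem_nhdsLT one_pos
  filter_upwards [h01] with s hs
  apply hstrict
  rw [add_sub_cancel_left, norm_smul, Real.norm_eq_abs, abs_of_pos hs.1]
  have : 0 < ‖y - x‖ := by linarith
  nlinarith [hs.2]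

end PC992LG
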