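import Mathlib
import Pool.Agent.Work.MP_992d6e_an.LG.LDefs
import Pool.Agent.Work.MP_992d6e_an.WC.Defs
import Pool.Agent.Work.MP_992d6e_an.SM.Grad
import Pool.Agent.Work.MP_992d6e_an.SM.Der

/-!
MODULE FHe (M). From the Hessian condition to the field.

hess_eq: `hess (potential q a) x v w = - <DF q a x v, w>` for `x` off the charges: iteratedFDeriv of order 2 as the
derivative of the derivative (iteratedFDeriv_two_apply) and the proof of `fderiv2_potential` in SM/FinA.lean (copy the private lemma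
hasFDerivAt_potential from there; `B = innerSL`).
cond_field: `σ, κ, ρ` from `CondLE`. `σ ‖v‖ ≤ |<DF v, w>| ≤ ‖DF v‖ ‖w‖ ≤ ‖DF v‖`. With `w = DF v`: `‖DF v‖^2 ≤ κ σ ‖v‖ ‖DF v‖`,
so `‖DF q a x v‖ ≤ κ σ ‖v‖`. For `y` with `‖y - x‖ ≤ ρ ‖x - a j‖` for all `j` (these `y` are off the charges since `ρ < 1` and
`x ≠ a j`): `|<DF y v - DF x v, w>| ≤ σ/4 ‖v‖ ‖w‖`, so `‖DF y v‖ ≤ (κ σ + σ/4) ‖v‖ ≤ 2 κ σ ‖v‖`. The set of these `y` is convex (an intersection
of closed balls around `x`) and contains `x`, `F q a x = 0`; mean value inequality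
(Convex.norm_image_sub_le_of_norm_hasFDerivWithin_le, hasStrictFDerivAt_F): `‖F q a y‖ ≤ 2 κ σ ‖y - x‖`. Finally
`κ ≤ M ρ` and `ρ < 1`, `1 ≤ κ` give `1 ≤ M ρ` and `κ ≤ M`.
-/

set_option autoImplicit false

namespace PC992LG

open Metric SM992 N62f3cee0

/-- the inner product as a linear map into the dual -/
private noncomputable def B : E →L[ℝ] (E →L[ℝ] ℝ) :=
  LinearMap.toContinuousLinearMap
    { toFun := fun w => innerSL ℝ w
      map_add' := fun u w => map_add _ u w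
      map_smul' := fun c w => by
        rw [map_smul]
        rfl }

private theorem B_apply (w : E) : B w = innerSL ℝ w := rfl

private theorem hasFDerivAt_potential {n : ℕ} (q : Fin n → ℝ) (a : Fin n → E) {x : E}
    (hx : ∀ l, x ≠ a l) : HasFDerivAt (potential q a) (-(B (F q a x))) x := by
  have h1 : ∀ l ∈ (Finset.univ : Finset (Fin n)),
      HasFDerivAt (fun y : E => q l / dist y (a l))
        (-(q l * (‖x - a l‖ ^ 3)⁻¹) • innerSL ℝ (x - a l)) x :=
    fun l _ => PC992.Sard.hasFDerivAt_inv_dist (q l) (hx l)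
  have h2 := HasFDerivAt.fun_sum h1
  have h3 : ∑ l, -(q l * (‖x - a l‖ ^ 3)⁻¹) • innerSL ℝ (x - a l) = -(B (F q a x)) := by
    rw [F, map_sum, ← Finset.sum_neg_distrib]
    refine Finset.sum_congr rfl fun l _ => ?_
    rw [map_smul, g, map_smul, smul_smul, neg_smul, B_apply]
  rw [h3] at h2
  exact h2

theorem hess_eq {n : ℕ} (q : Fin n → ℝ) (a : Fin n → E) {x : E} (hx : ∀ l, x ≠ a l) (v w : E) :
    PC992WC.hess (potential q a) x v w = - (inner ℝ (DF q a x v) w : ℝ) := by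
  have h1 : fderiv ℝ (potential q a) =ᶠ[nhds x] fun y => -(B (F q a y)) := by
    have h2 : ∀ᶠ y in nhds x, ∀ l, y ≠ a l := by
      rw [Filter.eventually_all]
      intro l
      exact isOpen_ne.mem_nhds (hx l)
    filter_upwards [h2] with y hy
    exact (hasFDerivAt_potential q a hy).fderiv
  have h2 : HasFDerivAt (fun y => -(B (F q a y))) (-(B.comp (DF q a x))) x :=
    (B.hasFDerivAt.comp x (hasStrictFDerivAt_F q a hx).hasFDerivAt).neg
  rw [PC992WC.hess, iteratedFDeriv_two_apply, h1.fderiv_eq, h2.fderiv]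
  have h3 : (-(B.comp (DF q a x))) v = -(innerSL ℝ (DF q a x v)) := rfl
  simp only [Matrix.cons_val_zero, Matrix.cons_val_one]
  rw [h3]
  rfl

private theorem inner_bd {u : E} {c : ℝ} (h : ∀ w : E, |(inner ℝ u w : ℝ)| ≤ c * ‖w‖) : ‖u‖ ≤ c := by
  have h1 := h u
  rw [real_inner_self_eq_norm_sq, abs_of_nonneg (by positivity)] at h1
  by_cases hu : ‖u‖ = 0
  · rw [hu]
    obtain ⟨w, hw⟩ := exists_ne (0 : E)
    have h2 := h w
    have h3 : 0 < ‖w‖ := norm_pos_iff.2 hw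
    have h4 : 0 ≤ c * ‖w‖ := (abs_nonneg _).trans h2
    exact nonneg_of_mul_nonneg_left h4 h3
  · have h3 : 0 < ‖u‖ := lt_of_le_of_ne (norm_nonneg _) (Ne.symm hu)
    nlinarith

theorem cond_field {n : ℕ} (q : Fin n → ℝ) (a : Fin n → E) (M : ℝ) (x : E) (hn : 0 < n)
    (hx : x ∈ equilibria q a) (h : PC992WC.CondLE q a M x) :
    (∀ l, x ≠ a l) ∧ F q a x = 0 ∧ ∃ σ ρ : ℝ, 0 < σ ∧ 0 < ρ ∧ ρ < 1 ∧ 1 ≤ M * ρ ∧
      (∀ v, σ * ‖v‖ ≤ ‖DF q a x v‖) ∧
      ∀ y, (∀ j, ‖y - x‖ ≤ ρ * ‖x - a j‖) → ‖F q a y‖ ≤ 2 * M * σ * ‖y - x‖ := by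
  obtain ⟨hxa, hF⟩ := (mem_equilibria_iff q a x).1 hx
  obtain ⟨σ, κ, ρ, hσ, hκ, hρ, hρ1, hκM, h1, h2, h3⟩ := h
  have hM : 0 < M := by
    have : 0 < M * ρ := by linarith
    exact pos_of_mul_pos_left this hρ.le
  have hκ' : κ ≤ M := by nlinarith
  refine ⟨hxa, hF, σ, ρ, hσ, hρ, hρ1, by linarith, ?_, ?_⟩
  · intro v
    obtain ⟨w, hw, hw2⟩ := h1 v
    rw [hess_eq q a hxa, abs_neg] at hw2
    calc σ * ‖v‖ ≤ |(inner ℝ (DF q a x v) w : ℝ)| := hw2
      _ ≤ ‖DF q a x v‖ * ‖w‖ := abs_real_inner_le_norm _ _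
      _ ≤ ‖DF q a x v‖ * 1 := by gcongr
      _ = _ := mul_one _
  · have hDx : ∀ v, ‖DF q a x v‖ ≤ κ * σ * ‖v‖ := by
      intro v
      refine inner_bd fun w => ?_
      have := h2 v w
      rw [hess_eq q a hxa, abs_neg] at this
      exact this
    set T : Set E := {y | ∀ j, ‖y - x‖ ≤ ρ * ‖x - a j‖} with hT
    have hTa : ∀ y ∈ T, ∀ l, y ≠ a l := by
      rintro y hy l rfl
      have h4 := hy l
      rw [norm_sub_rev] at h4
      have h5 : 0 < ‖x - a l‖ := norm_pos_iff.2 (sub_ne_zero.2 (hxa l))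
      nlinarith
    have hDy : ∀ y ∈ T, ∀ v, ‖DF q a y v‖ ≤ 2 * M * σ * ‖v‖ := by
      intro y hy v
      have h4 : ‖DF q a y v - DF q a x v‖ ≤ σ / 4 * ‖v‖ := by
        refine inner_bd fun w => ?_
        have h5 := h3 y (fun j => by rw [dist_eq_norm, dist_eq_norm]; exact hy j) v w
        rw [hess_eq q a hxa, hess_eq q a (hTa y hy)] at h5
        rw [inner_sub_left, abs_sub_comm]
        convert h5 using 2
        ring
      have h5 : ‖DF q a y v‖ ≤ ‖DF q a y v - DF q a x v‖ + ‖DF q a x v‖ := by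
        have := norm_add_le (DF q a y v - DF q a x v) (DF q a x v)
        rwa [sub_add_cancel] at this
      have h6 := hDx v
      have h7 : κ * σ * ‖v‖ ≤ M * σ * ‖v‖ := by gcongr
      have h8 : σ / 4 * ‖v‖ ≤ M * σ * ‖v‖ := by
        have : σ / 4 ≤ M * σ := by nlinarith
        gcongr
      linarith
    have hconv : Convex ℝ T := by
      have : T = ⋂ j, closedBall x (ρ * ‖x - a j‖) := by
        ext y
        simp only [hT, Set.mem_ofPred_eq, Set.mem_iInter, mem_closedBall, dist_eq_norm]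
      rw [this]
      exact convex_iInter fun j => convex_closedBall _ _
    have hxT : x ∈ T := by
      intro j
      rw [sub_self, norm_zero]
      positivity
    intro y hy
    have h4 := hconv.norm_image_sub_le_of_norm_hasFDerivWithin_le (f := F q a)
      (f' := fun z => DF q a z) (C := 2 * M * σ) (x := x) (y := y)
      (fun z hz => (hasStrictFDerivAt_F q a (hTa z hz)).hasFDerivAt.hasFDerivWithinAt)
      (fun z hz => ContinuousLinearMap.opNorm_le_bound _ (by positivity) (hDy z hz)) hxT hy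
    rw [hF, sub_zero] at h4
    exact h4

end PC992LG
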