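import Pool.Agent.Work.MP_992d6e_an.LG.LDefs
import Pool.Agent.Work.MP_992d6e_an.WC.Defs
import Pool.Agent.Work.MP_992d6e_an.LG.FDb
import Pool.Agent.Work.MP_992d6e_an.LG.FHe

/-!
MODULE FLine (M). Interface of part F: the field on complex lines and the local condition.

line_bd: `C₁, c₀` from `real_to_complex`, `c = min (c₀/2) (1/8)`. For `x ∈ closedBall y (c s)`: `‖x - a l‖ ≥ 7 s/8 =: R`. `line_cls` gives
`φ` in `Cls n 0 R` with the right values for real `|t| < R` (in particular for `|t| < c s`); it is holomorphic on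
`ball 0 R ⊇ ball 0 (c s)` (Cls.differentiableOn, Val.lean). With `ρ = c s ≤ c₀ R`: for real `|t| ≤ ρ` the point `x + t e` has distance at
most `2 c s ≤ s/4` from `y`, so `‖φ t‖ ≤ ‖F q a (x + t e)‖ ≤ m`. `real_to_complex`: `‖φ z‖ ≤ exp (C₁ n^4) m` on `closedBall 0 ρ`.
cond_loc: `σ, ρ` from `cond_field`, `d = min_l ‖x - a l‖` (`Finset.exists_min_image`, `n > 0`), `r = ρ d ≤ d`. For
`‖y - x‖ ≤ r`: `‖F q a y‖ ≤ 2 M σ r ≤ 2 M σ d =: m`. `field_doubling`: for `2 ‖y - x‖ ≤ d`
`‖F q a y‖ ≤ (1/ρ)^(C₃ n^4) exp (C₃ n^4) 2 M σ d`, and `1/ρ ≤ M`, so this is at most `exp (C n^4 log M) d σ` with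
`C = C₃ + C₃/log 2 + 2` (use `n ≥ 1`, `log M ≥ log 2 > 0`, `2 M ≤ M^2 = exp (2 log M)`), and `d ≤ ‖x - a l‖`. The
hypothesis of LocC `∀ l, 2 ‖y - x‖ ≤ ‖x - a l‖` gives `2 ‖y - x‖ ≤ d`.
-/

set_option autoImplicit false

namespace PC992LG

open Metric SM992 N62f3cee0

/-- a real bound of the field in a charge-free ball gives a bound of the complex extensions -/
theorem line_bd : ∃ C c : ℝ, 0 < C ∧ 0 < c ∧ c ≤ 1 / 8 ∧ ∀ (n : ℕ) (q : Fin n → ℝ)
    (a : Fin n → E) (y : E) (s m : ℝ), 0 < n → 0 < s → (∀ l, s ≤ ‖y - a l‖) →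
    (∀ x, ‖x - y‖ ≤ s / 4 → ‖F q a x‖ ≤ m) →
    LineBd (F q a) y (c * s) (Real.exp (C * n ^ 4) * m) := by
  obtain ⟨C, c₀, hC, hc₀, hc₁, hrc⟩ := real_to_complex
  refine ⟨C, min (c₀ / 2) (1 / 8), hC, by positivity, min_le_right _ _, ?_⟩
  intro n q a y s m hn hs hya hm x hx e e' he he'
  set c : ℝ := min (c₀ / 2) (1 / 8) with hc
  have hc0 : 0 < c := by positivity
  have hcs : c * s ≤ s / 8 := by
    have : c ≤ 1 / 8 := min_le_right _ _
    nlinarith
  have hcs2 : c * s ≤ c₀ * (7 * s / 8) := by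
    have : c ≤ c₀ / 2 := min_le_left _ _
    have h1 : c * s ≤ c₀ / 2 * s := by gcongr
    have h2 : 0 < c₀ * s := by positivity
    linarith
  have hxy : ‖x - y‖ ≤ c * s := by
    rw [mem_closedBall, dist_eq_norm] at hx
    exact hx
  have hxa : ∀ l, 7 * s / 8 ≤ ‖x - a l‖ := by
    intro l
    have h1 := hya l
    have h2 : ‖y - a l‖ ≤ ‖x - a l‖ + ‖x - y‖ := by
      rw [show y - a l = (x - a l) - (x - y) by abel]
      exact norm_sub_le _ _
    linarith
  obtain ⟨φ, hφ, hval⟩ := line_cls n q a x e e' (7 * s / 8) (by positivity) hxa he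
  refine ⟨φ, hφ.differentiableOn.mono (ball_subset_ball (by linarith)), ?_, ?_⟩
  · intro t ht
    exact hval t (by linarith)
  · intro z hz
    refine hrc n hn 0 (7 * s / 8) φ hφ (c * s) m (by positivity) hcs2 ?_ z
      (ball_subset_closedBall hz)
    intro t ht
    rw [zero_add, hval t (by linarith), Complex.norm_real, Real.norm_eq_abs]
    calc |(inner ℝ e' (F q a (x + t • e)) : ℝ)| ≤ ‖e'‖ * ‖F q a (x + t • e)‖ :=
          abs_real_inner_le_norm _ _
      _ = ‖F q a (x + t • e)‖ := by rw [he', one_mul]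
      _ ≤ m := by
          apply hm
          rw [show x + t • e - y = (x - y) + t • e by abel]
          refine (norm_add_le _ _).trans ?_
          rw [norm_smul, he, mul_one, Real.norm_eq_abs]
          linarith

/-- intrinsic condition number `≤ M` implies local condition number `≤ M^(C n^4)` -/
theorem cond_loc : ∃ C : ℝ, 0 < C ∧ ∀ (n : ℕ) (q : Fin n → ℝ) (a : Fin n → E) (M : ℝ) (x : E),
    0 < n → 2 ≤ M → x ∈ equilibria q a → PC992WC.CondLE q a M x →
    LocC q a (Real.exp (C * n ^ 4 * Real.log M)) x := by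
  obtain ⟨C, hC, hdoub⟩ := field_doubling
  have hlog2 : 0 < Real.log 2 := Real.log_pos (by norm_num)
  refine ⟨C + C / Real.log 2 + 2, by positivity, ?_⟩
  intro n q a M x hn hM hx h
  obtain ⟨hxa, hF, σ, ρ, hσ, hρ, hρ1, hMρ, hDF, hbd⟩ := cond_field q a M x hn hx h
  refine ⟨hxa, hF, σ, hσ, hDF, ?_⟩
  obtain ⟨j, _, hj⟩ := Finset.exists_min_image (Finset.univ : Finset (Fin n))
    (fun l => ‖x - a l‖) ⟨⟨0, hn⟩, Finset.mem_univ _⟩
  have hd : 0 < ‖x - a j‖ := norm_pos_iff.2 (sub_ne_zero.2 (hxa j))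
  set d : ℝ := ‖x - a j‖ with hd'
  have hlog : Real.log 2 ≤ Real.log M := Real.log_le_log (by norm_num) hM
  have hlog0 : 0 < Real.log M := hlog2.trans_le hlog
  have hn1 : (1 : ℝ) ≤ (n : ℝ) ^ 4 := one_le_pow₀ (by exact_mod_cast hn)
  have hM0 : 0 < M := by linarith
  have key : ∀ y, 2 * ‖y - x‖ ≤ d →
      ‖F q a y‖ ≤ Real.exp ((C + C / Real.log 2 + 2) * n ^ 4 * Real.log M) * d * σ := by
    intro y hy
    have h1 := hdoub n q a x (ρ * d) d (2 * M * σ * d) hn (by positivity) (by nlinarith)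
      (fun l => hj l (Finset.mem_univ l)) (by
        intro z hz _
        have h2 := hbd z (fun l => hz.trans (by
          have := hj l (Finset.mem_univ l)
          gcongr))
        refine h2.trans ?_
        have h3 : ‖z - x‖ ≤ d := hz.trans (by nlinarith)
        gcongr) y hy
    refine h1.trans ?_
    have h2 : d / (ρ * d) ≤ M := by
      rw [div_le_iff₀ (by positivity)]
      nlinarith
    have h3 : (d / (ρ * d)) ^ (C * (n : ℝ) ^ 4) ≤ Real.exp (C * n ^ 4 * Real.log M) := by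
      calc (d / (ρ * d)) ^ (C * (n : ℝ) ^ 4) ≤ M ^ (C * (n : ℝ) ^ 4) := by
            apply Real.rpow_le_rpow (by positivity) h2 (by positivity)
        _ = _ := by
            rw [Real.rpow_def_of_pos hM0, mul_comm]
    have h4 : Real.exp (C * n ^ 4) ≤ Real.exp (C / Real.log 2 * n ^ 4 * Real.log M) := by
      apply Real.exp_le_exp.2
      have h5 : C * (n : ℝ) ^ 4 = C / Real.log 2 * n ^ 4 * Real.log 2 := by field_simp
      rw [h5]
      gcongr
    have h5 : 2 * M ≤ Real.exp (2 * n ^ 4 * Real.log M) := by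
      calc 2 * M ≤ M ^ 2 := by nlinarith
        _ = Real.exp (2 * 1 * Real.log M) := by
            rw [mul_one, mul_comm, Real.exp_mul, Real.exp_log hM0]
            norm_cast
        _ ≤ _ := by
            apply Real.exp_le_exp.2
            gcongr
    calc (d / (ρ * d)) ^ (C * (n : ℝ) ^ 4) * (Real.exp (C * n ^ 4) * (2 * M * σ * d))
        = (d / (ρ * d)) ^ (C * (n : ℝ) ^ 4) * Real.exp (C * n ^ 4) * (2 * M) * (d * σ) := by ring
      _ ≤ Real.exp (C * n ^ 4 * Real.log M) * Real.exp (C / Real.log 2 * n ^ 4 * Real.log M) *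
          Real.exp (2 * n ^ 4 * Real.log M) * (d * σ) := by gcongr
      _ = _ := by
          rw [← Real.exp_add, ← Real.exp_add, mul_assoc (Real.exp _) d σ]
          congr 2
          ring
  intro y hy l
  refine (key y (hy j)).trans ?_
  have := hj l (Finset.mem_univ l)
  gcongr

end PC992LG
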