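import Pool.Agent.Work.MP_992d6e_an.LG.LCnt
import Pool.Agent.Work.MP_992d6e_an.LG.FLine
import Pool.Agent.Work.MP_992d6e_an.SM.Grad
import Pool.Agent.Work.MP_992d6e_an.SM.Der

/-!
MODULE LLoc (M). Equilibria of local condition number at most `K` in a small ball.

`C₁, c₁` from `line_bd`, `C₀` from `local_abs`; `c = c₁/800`. We may assume `Z` nonempty. `m` = maximum of `‖F q a‖` on the compact
ball `closedBall y (s/4)` (free of charges, `F` continuous there). For `x ∈ Z`: `‖x - a l‖ ≥ s - c s ≥ (15/16) s` for all `l`,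
so every `z` with `‖z - y‖ ≤ s/4` has `2 ‖z - x‖ ≤ 2 (s/4 + s/1000) ≤ ‖x - a l‖`; hence `m ≤ K ‖x - a l‖ σ_x` for the
`l` with `‖y - a l‖ ≤ 16 s`, where `‖x - a l‖ ≤ 17 s`: `m ≤ 17 K s σ_x`. If `m = 0` then `F = 0` near `x`, `DF q a x = 0` (HasFDerivAt,
uniqueness of derivatives), contradiction with `σ_x > 0`. So `m > 0`; `s' = c₁ s`, `S = exp (C₁ n^4) m`, `f = F q a`:
LineBd by `line_bd`; `f` is analytic on `ball y (2 s')` (no charges there); `fderiv ℝ (F q a) x = DF q a x`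
(the derivative of `F` is in SM: look for `HasFDerivAt (F q a) (DF q a x) x`, e.g. SM/Der.lean or SM/Local.lean).
`S ‖v‖ ≤ exp (C₁ n^4) 17 K s σ_x ‖v‖ ≤ K' s' ‖DF v‖` with `K' = (17/c₁) exp (C₁ n^4) K`. `local_abs`: the number is at most
`C₀ (log K')^3 ≤ C (n^4 + log K)^3` (`n ≥ 1`).
-/

set_option autoImplicit false

namespace PC992LG

open Metric SM992

private theorem analytic_F {n : ℕ} (q : Fin n → ℝ) (a : Fin n → E) {x : E} (hx : ∀ l, x ≠ a l) :
    AnalyticAt ℝ (F q a) x := by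
  have h1 : ContDiffAt ℝ (⊤ : WithTop ℕ∞) (F q a) x := by
    have h2 : F q a = fun x => ∑ l, q l • ((‖x - a l‖ ^ 3)⁻¹ • (x - a l)) := rfl
    rw [h2]
    refine ContDiffAt.sum fun l _ => ?_
    have h3 : ContDiffAt ℝ (⊤ : WithTop ℕ∞) (fun x : E => x - a l) x :=
      contDiffAt_id.sub contDiffAt_const
    have h4 : x - a l ≠ 0 := sub_ne_zero.2 (hx l)
    have h5 : ContDiffAt ℝ (⊤ : WithTop ℕ∞) (fun x : E => ‖x - a l‖) x := h3.norm ℝ h4
    have h6 : ContDiffAt ℝ (⊤ : WithTop ℕ∞) (fun x : E => (‖x - a l‖ ^ 3)⁻¹) x :=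
      (h5.pow 3).inv (pow_ne_zero _ (norm_ne_zero_iff.2 h4))
    have h7 : ContDiffAt ℝ (⊤ : WithTop ℕ∞) (fun x : E => (‖x - a l‖ ^ 3)⁻¹ • (x - a l)) x :=
      h6.smul h3
    exact h7.const_smul (q l)
  exact h1.analyticAt

theorem loc_count : ∃ C c : ℝ, 0 < C ∧ 0 < c ∧ c ≤ 1 / 64 ∧ ∀ (n : ℕ) (q : Fin n → ℝ)
    (a : Fin n → E) (K : ℝ) (y : E) (s : ℝ), 0 < n → 2 ≤ K → 0 < s → (∀ l, s ≤ ‖y - a l‖) →
    (∃ l, ‖y - a l‖ ≤ 16 * s) → ∀ Z : Finset E, (∀ x ∈ Z, LocC q a K x ∧ ‖x - y‖ ≤ c * s) →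
    (Z.card : ℝ) ≤ C * (n ^ 4 + Real.log K) ^ 3 := by
  obtain ⟨C₁, c₁, hC₁, hc₁, hc₁8, hline⟩ := line_bd
  obtain ⟨C₀, hC₀, habs⟩ := local_abs
  have hlc : 0 ≤ Real.log (17 / c₁) := by
    apply Real.log_nonneg
    rw [le_div_iff₀ hc₁]
    linarith
  refine ⟨C₀ * (Real.log (17 / c₁) + C₁ + 1) ^ 3, c₁ / 800, by positivity, by positivity,
    by linarith, ?_⟩
  intro n q a K y s hn hK hs hsa hl Z hZ
  have hn1 : (1 : ℝ) ≤ n := by exact_mod_cast hn
  have hn4 : (1 : ℝ) ≤ (n : ℝ) ^ 4 := one_le_pow₀ hn1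
  have hlogK : 0 < Real.log K := Real.log_pos (by linarith)
  rcases Z.eq_empty_or_nonempty with h | ⟨x₀, hx₀⟩
  · rw [h, Finset.card_empty, Nat.cast_zero]
    positivity
  -- the maximum of the field
  have hfree : ∀ z ∈ closedBall y (s / 4), ∀ l, z ≠ a l := by
    intro z hz l hzl
    have h1 := hsa l
    rw [mem_closedBall, dist_eq_norm, hzl, norm_sub_rev] at hz
    linarith
  have hcont : ContinuousOn (fun z => ‖F q a z‖) (closedBall y (s / 4)) := fun z hz =>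
    (hasStrictFDerivAt_F q a (hfree z hz)).continuousAt.norm.continuousWithinAt
  obtain ⟨z₀, hz₀, hmax⟩ := (isCompact_closedBall y (s / 4)).exists_isMaxOn
    ⟨y, mem_closedBall_self (by positivity)⟩ hcont
  set m : ℝ := ‖F q a z₀‖ with hm
  have hbd : ∀ x, ‖x - y‖ ≤ s / 4 → ‖F q a x‖ ≤ m := by
    intro x hx
    exact hmax (mem_closedBall_iff_norm.2 hx)
  obtain ⟨l₀, hl₀⟩ := hl
  -- the relation with the equilibria
  have hσ : ∀ x ∈ Z, ∃ σ : ℝ, 0 < σ ∧ (∀ v, σ * ‖v‖ ≤ ‖DF q a x v‖) ∧ m ≤ 17 * K * s * σ := by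
    intro x hx
    obtain ⟨⟨h1, h2, σ, hσ, h3, h4⟩, h5⟩ := hZ x hx
    refine ⟨σ, hσ, h3, ?_⟩
    have hcs : c₁ / 800 * s ≤ s / 1000 := by nlinarith
    have hz₀' : ‖z₀ - y‖ ≤ s / 4 := mem_closedBall_iff_norm.1 hz₀
    have h6 := h4 z₀ (fun l => by
      have e1 : ‖z₀ - x‖ ≤ ‖z₀ - y‖ + ‖x - y‖ := by
        rw [show z₀ - x = (z₀ - y) - (x - y) by abel]
        exact norm_sub_le _ _
      have e2 : ‖y - a l‖ ≤ ‖x - y‖ + ‖x - a l‖ := by
        rw [show y - a l = (x - a l) - (x - y) by abel]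
        exact (norm_sub_le _ _).trans (le_of_eq (add_comm _ _))
      have e3 := hsa l
      linarith) l₀
    have e4 : ‖x - a l₀‖ ≤ 17 * s := by
      have e5 : ‖x - a l₀‖ ≤ ‖x - y‖ + ‖y - a l₀‖ := by
        rw [show x - a l₀ = (x - y) + (y - a l₀) by abel]
        exact norm_add_le _ _
      linarith
    calc m ≤ K * ‖x - a l₀‖ * σ := h6
      _ ≤ K * (17 * s) * σ := by gcongr
      _ = 17 * K * s * σ := by ring
  -- the maximum is positive
  have hm0 : 0 < m := by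
    rcases (norm_nonneg (F q a z₀)).lt_or_eq with h | h
    · exact h
    · exfalso
      obtain ⟨⟨h1, h2, -⟩, h5⟩ := hZ x₀ hx₀
      obtain ⟨σ, hσ0, h3, -⟩ := hσ x₀ hx₀
      have hcs : c₁ / 800 * s ≤ s / 1000 := by nlinarith
      have e1 : F q a =ᶠ[nhds x₀] fun _ => 0 := by
        have e2 : ball y (s / 4) ∈ nhds x₀ := by
          apply isOpen_ball.mem_nhds
          rw [mem_ball_iff_norm]
          linarith
        filter_upwards [e2] with z hz
        have e3 := hbd z (le_of_lt (mem_ball_iff_norm.1 hz))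
        rw [hm, ← h] at e3
        exact norm_le_zero_iff.1 e3
      have e2 : DF q a x₀ = 0 :=
        (hasStrictFDerivAt_F q a h1).hasFDerivAt.unique
          ((hasFDerivAt_const (0 : E) x₀).congr_of_eventuallyEq e1)
      have e3 := h3 (EuclideanSpace.single 0 1)
      rw [e2] at e3
      simp at e3
      linarith
  have hS : 0 < Real.exp (C₁ * n ^ 4) * m := by positivity
  have hexp1 : 1 ≤ Real.exp (C₁ * n ^ 4) := Real.one_le_exp (by positivity)
  have h17 : 1 ≤ 17 / c₁ := by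
    rw [le_div_iff₀ hc₁]
    linarith
  have hK' : 2 ≤ 17 / c₁ * Real.exp (C₁ * n ^ 4) * K := by
    have e1 : 1 ≤ 17 / c₁ * Real.exp (C₁ * n ^ 4) := by nlinarith
    nlinarith
  have hmain := habs (F q a) y (c₁ * s) (Real.exp (C₁ * n ^ 4) * m)
    (17 / c₁ * Real.exp (C₁ * n ^ 4) * K) (by positivity) hS hK' (by
      intro x hx
      apply analytic_F
      intro l hxl
      have h1 := hsa l
      rw [mem_ball_iff_norm, hxl, norm_sub_rev] at hx
      nlinarith) (hline n q a y s m hn hs hsa hbd) Z (by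
      intro x hx
      obtain ⟨⟨h1, h2, -⟩, h5⟩ := hZ x hx
      obtain ⟨σ, hσ0, h3, h4⟩ := hσ x hx
      refine ⟨by linarith, h2, fun v => ?_⟩
      rw [(hasStrictFDerivAt_F q a h1).hasFDerivAt.fderiv]
      calc Real.exp (C₁ * n ^ 4) * m * ‖v‖ ≤ Real.exp (C₁ * n ^ 4) * (17 * K * s * σ) * ‖v‖ := by
            gcongr
        _ = Real.exp (C₁ * n ^ 4) * (17 * K * s) * (σ * ‖v‖) := by ring
        _ ≤ Real.exp (C₁ * n ^ 4) * (17 * K * s) * ‖DF q a x v‖ := by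
            gcongr
            exact h3 v
        _ = 17 / c₁ * Real.exp (C₁ * n ^ 4) * K * (c₁ * s) * ‖DF q a x v‖ := by
            field_simp)
  refine hmain.trans ?_
  have hlogK' : Real.log (17 / c₁ * Real.exp (C₁ * n ^ 4) * K) =
      Real.log (17 / c₁) + C₁ * n ^ 4 + Real.log K := by
    rw [Real.log_mul (by positivity) (by positivity), Real.log_mul (by positivity) (by positivity),
      Real.log_exp]
  rw [hlogK']
  have hX : Real.log (17 / c₁) + C₁ * n ^ 4 + Real.log K ≤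
      (Real.log (17 / c₁) + C₁ + 1) * (n ^ 4 + Real.log K) := by nlinarith [mul_nonneg hlc hlogK.le, mul_nonneg hC₁.le hlogK.le]
  calc C₀ * (Real.log (17 / c₁) + C₁ * n ^ 4 + Real.log K) ^ 3 ≤
        C₀ * ((Real.log (17 / c₁) + C₁ + 1) * (n ^ 4 + Real.log K)) ^ 3 := by gcongr
    _ = _ := by ring

end PC992LG
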