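import Pool.Agent.Work.MP_992d6e_an.LG.AAsm
import Pool.Agent.Work.MP_992d6e_an.LG.LLoc
import Pool.Agent.Work.MP_992d6e_an.LG.GGap

/-!
MODULE AFin (M). The theorem.

loc_total: `c, C₁` from `loc_count`, `C₂` from `gap`, `C₃` from `assemble c`. `N = ⌊C₁ (n^4 + log K)^3⌋₊`,
`W = ⌊C₂ n^4 (n^4 + log K)⌋₊`, `P = LocC q a K`. Then `Z.card ≤ C₃ n (1 + W) N ≤ C n^5 (n^4 + log K)^4` (`n^4 + log K ≥ 1`).
log_count: `cond_loc`: the equilibria of condition number at most `M` are in `LocC q a K`, `K = exp (C₀ n^4 log M)`; we may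
increase `C₀` so that `K ≥ 2` (`C₀ ≥ 1`, `log M ≥ log 2`: LocC is monotone in `K`). `n^4 + log K = n^4 + C₀ n^4 log M ≤
(2 + C₀) n^4 log M` (`log M ≥ log 2 ≥ 1/2`), so the bound for each finset is `C n^21 (log M)^4`. Finite and ncard from the
bound for all finsets (Set.encard_le.., or: if infinite, `Set.Infinite.exists_subset_card_eq`), see the end of SM/FinA.lean.
-/

set_option autoImplicit false

namespace PC992LG

open SM992 N62f3cee0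

theorem loc_total : ∃ C : ℝ, 0 < C ∧ ∀ (n : ℕ) (q : Fin n → ℝ) (a : Fin n → E) (K : ℝ), 0 < n →
    2 ≤ K → ∀ Z : Finset E, (∀ x ∈ Z, LocC q a K x) →
      (Z.card : ℝ) ≤ C * n ^ 5 * (n ^ 4 + Real.log K) ^ 4 := by
  obtain ⟨C₁, c, hC₁, hc, hc64, hloc⟩ := loc_count
  obtain ⟨C₂, hC₂, hgap⟩ := gap
  obtain ⟨C₃, has⟩ := assemble c hc
  refine ⟨C₃ * C₁ * (1 + C₂) + 1, by positivity, ?_⟩
  intro n q a K hn hK Z hZ
  have hlogK : 0 < Real.log K := Real.log_pos (by linarith)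
  have hn1 : (1 : ℝ) ≤ n := by exact_mod_cast hn
  have hn4 : (1 : ℝ) ≤ (n : ℝ) ^ 4 := one_le_pow₀ hn1
  set X : ℝ := n ^ 4 + Real.log K with hX
  have hX1 : 1 ≤ X := by linarith
  have h1 := has n a (LocC q a K) ⌊C₁ * X ^ 3⌋₊ ⌊C₂ * n ^ 4 * X⌋₊ hn (fun x hx => hx.1)
    (fun y s hs hsa hl Z' hZ' => Nat.le_floor (hloc n q a K y s hn hK hs hsa hl Z' hZ'))
    (fun I p A B hne hA hI hI' => by
      obtain ⟨U, hU, hU2⟩ := hgap n q a K I p A B hn hK hne hA hI hI'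
      exact ⟨U, Nat.le_floor hU, hU2⟩) Z hZ
  have h2 : (Z.card : ℝ) ≤ C₃ * n * (1 + (⌊C₂ * n ^ 4 * X⌋₊ : ℝ)) * (⌊C₁ * X ^ 3⌋₊ : ℝ) := by
    exact_mod_cast h1
  have h3 : (⌊C₂ * n ^ 4 * X⌋₊ : ℝ) ≤ C₂ * n ^ 4 * X := Nat.floor_le (by positivity)
  have h4 : (⌊C₁ * X ^ 3⌋₊ : ℝ) ≤ C₁ * X ^ 3 := Nat.floor_le (by positivity)
  have h5 : 1 ≤ (n : ℝ) ^ 4 * X := by nlinarith
  calc (Z.card : ℝ) ≤ _ := h2
    _ ≤ C₃ * n * ((n : ℝ) ^ 4 * X + C₂ * n ^ 4 * X) * (C₁ * X ^ 3) := by gcongr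
    _ = C₃ * C₁ * (1 + C₂) * n ^ 5 * X ^ 4 := by ring
    _ ≤ (C₃ * C₁ * (1 + C₂) + 1) * n ^ 5 * X ^ 4 := by
        gcongr
        linarith

private theorem set_bound {T : Set E} {N : ℝ} (h : ∀ Z : Finset E, (Z : Set E) ⊆ T → (Z.card : ℝ) ≤ N) :
    T.Finite ∧ (T.ncard : ℝ) ≤ N := by
  have hfin : T.Finite := by
    by_contra hcon
    obtain ⟨Z, hZ, hZc⟩ := (Set.Infinite.exists_subset_card_eq hcon (⌊N⌋₊ + 1))
    have h1 := h Z hZ
    rw [hZc] at h1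
    have h2 := Nat.lt_floor_add_one N
    push_cast at h1
    linarith
  refine ⟨hfin, ?_⟩
  rw [Set.ncard_eq_toFinset_card T hfin]
  exact h _ (by simp)

theorem log_count : ∃ C : ℝ, 0 < C ∧ ∀ (n : ℕ) (q : Fin n → ℝ) (a : Fin n → E) (M : ℝ), 0 < n →
    2 ≤ M → {x ∈ equilibria q a | PC992WC.CondLE q a M x}.Finite ∧
      ({x ∈ equilibria q a | PC992WC.CondLE q a M x}.ncard : ℝ) ≤
        C * n ^ 21 * Real.log M ^ 4 := by
  obtain ⟨C, hC, htot⟩ := loc_total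
  obtain ⟨C₀, hC₀, hcond⟩ := cond_loc
  refine ⟨C * (C₀ + 3) ^ 4, by positivity, ?_⟩
  intro n q a M hn hM
  have hn1 : (1 : ℝ) ≤ n := by exact_mod_cast hn
  have hn4 : (1 : ℝ) ≤ (n : ℝ) ^ 4 := one_le_pow₀ hn1
  have hlog : Real.log 2 ≤ Real.log M := Real.log_le_log (by norm_num) hM
  have hlog2 : 1 / 2 < Real.log 2 := by
    have := Real.log_two_gt_d9
    linarith
  have hlogM : 0 < Real.log M := by linarith
  set K : ℝ := Real.exp ((C₀ + 1) * n ^ 4 * Real.log M) with hK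
  have hK2 : 2 ≤ K := by
    have e1 : Real.log 2 ≤ (C₀ + 1) * n ^ 4 * Real.log M := by
      have e2 : 1 ≤ (C₀ + 1) * (n : ℝ) ^ 4 := by nlinarith
      nlinarith
    calc (2 : ℝ) = Real.exp (Real.log 2) := (Real.exp_log (by norm_num)).symm
      _ ≤ K := Real.exp_le_exp.2 e1
  have hX : (n : ℝ) ^ 4 + Real.log K ≤ (C₀ + 3) * n ^ 4 * Real.log M := by
    rw [hK, Real.log_exp]
    have e3 : (n : ℝ) ^ 4 ≤ 2 * (n ^ 4 * Real.log M) := by nlinarith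
    nlinarith
  apply set_bound
  intro Z hZ
  have h1 := htot n q a K hn hK2 Z (by
    intro x hx
    obtain ⟨h2, h3⟩ := hZ hx
    obtain ⟨h4, h5, σ, hσ, h6, h7⟩ := hcond n q a M x hn hM h2 h3
    refine ⟨h4, h5, σ, hσ, h6, fun y hy l => (h7 y hy l).trans ?_⟩
    have e1 : Real.exp (C₀ * n ^ 4 * Real.log M) ≤ K := by
      rw [hK]
      apply Real.exp_le_exp.2
      have : 0 ≤ (n : ℝ) ^ 4 * Real.log M := by positivity
      nlinarith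
    gcongr)
  refine h1.trans ?_
  have hK0 : 0 ≤ Real.log K := Real.log_nonneg (by linarith)
  calc C * n ^ 5 * (n ^ 4 + Real.log K) ^ 4 ≤
        C * n ^ 5 * ((C₀ + 3) * n ^ 4 * Real.log M) ^ 4 := by gcongr
    _ = C * (C₀ + 3) ^ 4 * n ^ 21 * Real.log M ^ 4 := by ring

end PC992LG
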