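import Pool.Agent.Work.MP_992d6e_an.LG.ANet

/-!
MODULE AGap (M). Points in the gap around one cluster `I`.

We may assume `Z` nonempty. Fix `j₀ ∈ I`, `p = a j₀`. For `x ∈ Z` with nearest charge `j ∈ I`, `r = ‖x - a j‖ > 0`: all `i ∈ I`
have `‖a i - a j‖ ≤ r/100`, so `| ‖x - p‖ - r | ≤ r/100` and `‖a i - p‖ ≤ r/50 ≤ ‖x - p‖/8`; all `i ∉ I` have
`‖a i - p‖ ≥ 100 r - r/100 ≥ 8 ‖x - p‖`. Let `A = (1/8)` times the minimum of `‖x - p‖` on `Z` and `B = 8` times the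
maximum. Then `hgap` gives `U`. For `k ∈ U` let `σ = 2^k / 2`: the `x ∈ Z` with `2^k ≤ ‖x - p‖ < 2^(k+1)` satisfy `‖x - p‖ ≤ 4 σ`,
`‖x - a l‖ ≥ r ≥ ‖x - p‖/1.01 ≥ σ`, `‖x - a j‖ = r ≤ ‖x - p‖/0.99 ≤ 8 σ`. `ball_count`: at most `N₀ N` of them.
Total `W N₀ N`.
-/

set_option autoImplicit false

namespace PC992LG

open SM992

theorem gap_count (c : ℝ) (hc : 0 < c) : ∃ N₀ : ℕ, ∀ (n : ℕ) (a : Fin n → E) (P : E → Prop)
    (N W : ℕ), (∀ x, P x → ∀ l, x ≠ a l) →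
    (∀ (y : E) (s : ℝ), 0 < s → (∀ l, s ≤ ‖y - a l‖) → (∃ l, ‖y - a l‖ ≤ 16 * s) →
      ∀ Z : Finset E, (∀ x ∈ Z, P x ∧ ‖x - y‖ ≤ c * s) → Z.card ≤ N) →
    (∀ (I : Finset (Fin n)) (p : E) (A B : ℝ), I.Nonempty → 0 < A → (∀ i ∈ I, ‖a i - p‖ ≤ A) →
      (∀ i, i ∉ I → B ≤ ‖a i - p‖) → ∃ U : Finset ℤ, U.card ≤ W ∧
        ∀ x, P x → 8 * A ≤ ‖x - p‖ → 8 * ‖x - p‖ ≤ B →
          ∃ k ∈ U, (2 : ℝ) ^ k ≤ ‖x - p‖ ∧ ‖x - p‖ < 2 ^ (k + 1)) →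
    ∀ (I : Finset (Fin n)) (Z : Finset E), (∀ x ∈ Z, P x ∧ ∃ j ∈ I, (∀ l, ‖x - a j‖ ≤ ‖x - a l‖) ∧
      (∀ i ∈ I, ‖a i - a j‖ ≤ ‖x - a j‖ / 100) ∧ ∀ i, i ∉ I → 100 * ‖x - a j‖ ≤ ‖a i - a j‖) →
    Z.card ≤ N₀ * W * N := by
  classical
  obtain ⟨N₀, hN₀⟩ := ball_count c hc
  refine ⟨N₀, ?_⟩
  intro n a P N W hP hsmall hgap I Z hZ
  rcases Z.eq_empty_or_nonempty with rfl | hne
  · simp
  obtain ⟨x₀, hx₀⟩ := hne
  obtain ⟨-, j₀, hj₀, -⟩ := hZ x₀ hx₀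
  obtain ⟨p, hp⟩ : ∃ p, p = a j₀ := ⟨_, rfl⟩
  -- basic estimates
  have hbas : ∀ x ∈ Z, ∃ r : ℝ, 0 < r ∧ ‖x - p‖ ≤ r + r / 100 ∧ r ≤ ‖x - p‖ + r / 100 ∧
      (∀ i ∈ I, ‖a i - p‖ ≤ r / 50) ∧ (∀ i, i ∉ I → 100 * r - r / 100 ≤ ‖a i - p‖) ∧
      (∀ l, r ≤ ‖x - a l‖) ∧ ∃ l, ‖x - a l‖ ≤ r := by
    intro x hx
    obtain ⟨hPx, j, hj, hnear, hin, hout⟩ := hZ x hx
    have hr : 0 < ‖x - a j‖ := norm_pos_iff.2 (sub_ne_zero.2 (hP x hPx j))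
    have h1 : ‖p - a j‖ ≤ ‖x - a j‖ / 100 := by
      rw [hp]
      exact hin j₀ hj₀
    have h1' : ‖a j - p‖ ≤ ‖x - a j‖ / 100 := by
      rw [norm_sub_rev]
      exact h1
    refine ⟨‖x - a j‖, hr, ?_, ?_, fun i hi => ?_, fun i hi => ?_, hnear, j, le_rfl⟩
    · have e : x - p = (x - a j) + (a j - p) := by abel
      rw [e]
      exact (norm_add_le _ _).trans (by linarith)
    · have e : x - a j = (x - p) + (p - a j) := by abel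
      have h2 : ‖x - a j‖ ≤ ‖x - p‖ + ‖p - a j‖ := by
        conv_lhs => rw [e]
        exact norm_add_le _ _
      linarith
    · have e : a i - p = (a i - a j) + (a j - p) := by abel
      rw [e]
      refine (norm_add_le _ _).trans ?_
      have := hin i hi
      linarith
    · have e : a i - a j = (a i - p) + (p - a j) := by abel
      have h2 : ‖a i - a j‖ ≤ ‖a i - p‖ + ‖p - a j‖ := by
        conv_lhs => rw [e]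
        exact norm_add_le _ _
      have h3 := hout i hi
      linarith
  obtain ⟨xm, hxm, hmin⟩ := Finset.exists_min_image Z (fun x => ‖x - p‖) ⟨x₀, hx₀⟩
  obtain ⟨xM, hxM, hmax⟩ := Finset.exists_max_image Z (fun x => ‖x - p‖) ⟨x₀, hx₀⟩
  obtain ⟨rm, hrm, hm1, hm2, hm3, -, -, -⟩ := hbas xm hxm
  obtain ⟨rM, hrM, hM1, hM2, -, hM4, -, -⟩ := hbas xM hxM
  obtain ⟨U, hU, hUk⟩ := hgap I p (‖xm - p‖ / 8) (8 * ‖xM - p‖) ⟨j₀, hj₀⟩ (by linarith)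
    (fun i hi => by
      have := hm3 i hi
      linarith)
    (fun i hi => by
      have := hM4 i hi
      linarith)
  have hcov : Z ⊆ U.biUnion fun k => Z.filter fun x => (2 : ℝ) ^ k ≤ ‖x - p‖ ∧
      ‖x - p‖ < 2 ^ (k + 1) := by
    intro x hx
    obtain ⟨k, hk, hk1, hk2⟩ := hUk x (hZ x hx).1 (by
      have := hmin x hx
      linarith) (by
      have := hmax x hx
      linarith)
    exact Finset.mem_biUnion.2 ⟨k, hk, Finset.mem_filter.2 ⟨hx, hk1, hk2⟩⟩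
  have hk : ∀ k ∈ U, (Z.filter fun x => (2 : ℝ) ^ k ≤ ‖x - p‖ ∧ ‖x - p‖ < 2 ^ (k + 1)).card ≤
      N₀ * N := by
    intro k _
    have h2k : (0 : ℝ) < 2 ^ k := by positivity
    refine hN₀ n a P N hsmall p ((2 : ℝ) ^ k / 2) (by linarith) _ fun x hx => ?_
    obtain ⟨hx1, hx2, hx3⟩ := Finset.mem_filter.1 hx
    rw [zpow_add_one₀ (by norm_num : (2 : ℝ) ≠ 0)] at hx3
    obtain ⟨r, hr, h1, h2, -, -, h5, l, h6⟩ := hbas x hx1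
    refine ⟨(hZ x hx1).1, by linarith, fun l => ?_, l, by linarith⟩
    have := h5 l
    linarith
  calc Z.card ≤ (U.biUnion fun k => Z.filter fun x => (2 : ℝ) ^ k ≤ ‖x - p‖ ∧
      ‖x - p‖ < 2 ^ (k + 1)).card := Finset.card_le_card hcov
    _ ≤ U.card * (N₀ * N) := Finset.card_biUnion_le_card_mul _ _ _ hk
    _ ≤ W * (N₀ * N) := Nat.mul_le_mul_right _ hU
    _ = N₀ * W * N := by ring

end PC992LG
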