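import Pool.Agent.Work.MP_992d6e_an.SM.Lam

/-!
MODULE ALam (M). The clusters seen from the points form a laminar family (compare `lam_part` in SM/FinA.lean).

For `x ∈ Z` choose the nearest charge `j = nr x` of the hypothesis and put `I x = {i | ‖a i - a j‖ < ‖x - a j‖ / 100}`. `j ∈ I x` (`‖x - a j‖ > 0`). The
complement: `100 ‖x - a j‖ < ‖a i - a j‖`. Let `𝓛 = Z.image I`. Laminar: let `r = ‖x - a (nr x)‖ ≤ r' = ‖x' - a (nr x')‖` and
`c ∈ I x ∩ I x'`. For `i ∈ I x`: `‖a i - a (nr x')‖ ≤ ‖a i - a (nr x)‖ + ‖a (nr x) - a c‖ + ‖a c - a (nr x')‖ < 3 r'/100 ≤ 100 r'`, so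
`i` is not in the complement of `I x'` (where `> 100 r'`), so `i ∈ I x'`. So `I x ⊆ I x'`. `laminar_card` gives
`𝓛.card ≤ 2 n`.
-/

set_option autoImplicit false

namespace PC992LG

open SM992

theorem lam_cover (n : ℕ) (a : Fin n → E) (Z : Finset E) (hZ : ∀ x ∈ Z, (∀ l, x ≠ a l) ∧
    ∃ j, (∀ l, ‖x - a j‖ ≤ ‖x - a l‖) ∧
      ∀ i, ‖a i - a j‖ < ‖x - a j‖ / 100 ∨ 100 * ‖x - a j‖ < ‖a i - a j‖) :
    ∃ 𝓛 : Finset (Finset (Fin n)), 𝓛.card ≤ 2 * n ∧ ∀ x ∈ Z, ∃ I ∈ 𝓛, ∃ j ∈ I,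
      (∀ l, ‖x - a j‖ ≤ ‖x - a l‖) ∧ (∀ i ∈ I, ‖a i - a j‖ ≤ ‖x - a j‖ / 100) ∧
      ∀ i, i ∉ I → 100 * ‖x - a j‖ ≤ ‖a i - a j‖ := by
  classical
  choose nr hnr using fun x (hx : x ∈ Z) => (hZ x hx).2
  let I : {x // x ∈ Z} → Finset (Fin n) := fun x =>
    Finset.univ.filter fun i => ‖a i - a (nr x.1 x.2)‖ < ‖x.1 - a (nr x.1 x.2)‖ / 100
  have hI : ∀ x i, i ∈ I x ↔ ‖a i - a (nr x.1 x.2)‖ < ‖x.1 - a (nr x.1 x.2)‖ / 100 := by
    intro x i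
    exact ⟨fun h => (Finset.mem_filter.1 h).2, fun h => Finset.mem_filter.2 ⟨Finset.mem_univ _, h⟩⟩
  have hpos : ∀ x : {x // x ∈ Z}, 0 < ‖x.1 - a (nr x.1 x.2)‖ := fun x =>
    norm_pos_iff.2 (sub_ne_zero.2 ((hZ x.1 x.2).1 _))
  have hself : ∀ x, nr x.1 x.2 ∈ I x := by
    intro x
    rw [hI, sub_self, norm_zero]
    have := hpos x
    linarith
  have hout : ∀ x i, i ∉ I x → 100 * ‖x.1 - a (nr x.1 x.2)‖ < ‖a i - a (nr x.1 x.2)‖ := by
    intro x i hi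
    rw [hI] at hi
    exact ((hnr x.1 x.2).2 i).resolve_left hi
  have key : ∀ x x' : {x // x ∈ Z}, ‖x.1 - a (nr x.1 x.2)‖ ≤ ‖x'.1 - a (nr x'.1 x'.2)‖ →
      I x ⊆ I x' ∨ Disjoint (I x) (I x') := by
    intro x x' hxx
    by_cases hd : Disjoint (I x) (I x')
    · exact Or.inr hd
    · left
      rw [Finset.not_disjoint_iff] at hd
      obtain ⟨c, hc, hc'⟩ := hd
      rw [hI] at hc hc'
      intro i hi
      by_contra hi'
      rw [hI] at hi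
      have h1 := hout x' i hi'
      have h2 : ‖a i - a (nr x'.1 x'.2)‖ ≤ ‖a i - a (nr x.1 x.2)‖ + ‖a c - a (nr x.1 x.2)‖ +
          ‖a c - a (nr x'.1 x'.2)‖ := by
        have e : a i - a (nr x'.1 x'.2) = (a i - a (nr x.1 x.2)) - (a c - a (nr x.1 x.2)) +
            (a c - a (nr x'.1 x'.2)) := by abel
        rw [e]
        refine (norm_add_le _ _).trans ?_
        gcongr
        exact norm_sub_le _ _
      have h3 := hpos x'
      linarith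
  refine ⟨Z.attach.image I, ?_, ?_⟩
  · apply laminar_card
    · intro J hJ
      obtain ⟨x, -, rfl⟩ := Finset.mem_image.1 hJ
      exact ⟨_, hself x⟩
    · intro J hJ J' hJ'
      obtain ⟨x, -, rfl⟩ := Finset.mem_image.1 hJ
      obtain ⟨x', -, rfl⟩ := Finset.mem_image.1 hJ'
      rcases le_total ‖x.1 - a (nr x.1 x.2)‖ ‖x'.1 - a (nr x'.1 x'.2)‖ with h | h
      · rcases key x x' h with h1 | h1
        · exact Or.inl h1
        · exact Or.inr (Or.inr h1)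
      · rcases key x' x h with h1 | h1
        · exact Or.inr (Or.inl h1)
        · exact Or.inr (Or.inr h1.symm)
  · intro x hx
    refine ⟨I ⟨x, hx⟩, Finset.mem_image_of_mem _ (Finset.mem_attach _ _), nr x hx,
      hself ⟨x, hx⟩, (hnr x hx).1, fun i hi => ?_, fun i hi => ?_⟩
    · exact ((hI ⟨x, hx⟩ i).1 hi).le
    · exact (hout ⟨x, hx⟩ i hi).le

end PC992LG
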