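import Pool.Agent.Work.MP_992d6e_an.LG.ANear
import Pool.Agent.Work.MP_992d6e_an.LG.AGap
import Pool.Agent.Work.MP_992d6e_an.LG.ALam

/-!
MODULE AAsm (S-M). The total count.

Choose for each `x` a nearest charge `nr x` (`n ≥ 1`, Finset.exists_min_image). `Z₁` = the `x ∈ Z` for which some `i` has
`‖x - a (nr x)‖/100 ≤ ‖a i - a (nr x)‖ ≤ 100 ‖x - a (nr x)‖`: `near_count`, at most `C₁ n N`. `Z₂` = the others: `lam_cover` gives `𝓛`;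
for `I ∈ 𝓛` the part of `Z₂` belonging to `I` has at most `N₀ W N` points (`gap_count`), so `Z₂.card ≤ 2 n N₀ W N`.
`C = C₁ + 2 N₀`.
-/

set_option autoImplicit false

namespace PC992LG

open SM992

theorem assemble (c : ℝ) (hc : 0 < c) : ∃ C : ℕ, ∀ (n : ℕ) (a : Fin n → E) (P : E → Prop)
    (N W : ℕ), 0 < n → (∀ x, P x → ∀ l, x ≠ a l) →
    (∀ (y : E) (s : ℝ), 0 < s → (∀ l, s ≤ ‖y - a l‖) → (∃ l, ‖y - a l‖ ≤ 16 * s) →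
      ∀ Z : Finset E, (∀ x ∈ Z, P x ∧ ‖x - y‖ ≤ c * s) → Z.card ≤ N) →
    (∀ (I : Finset (Fin n)) (p : E) (A B : ℝ), I.Nonempty → 0 < A → (∀ i ∈ I, ‖a i - p‖ ≤ A) →
      (∀ i, i ∉ I → B ≤ ‖a i - p‖) → ∃ U : Finset ℤ, U.card ≤ W ∧
        ∀ x, P x → 8 * A ≤ ‖x - p‖ → 8 * ‖x - p‖ ≤ B →
          ∃ k ∈ U, (2 : ℝ) ^ k ≤ ‖x - p‖ ∧ ‖x - p‖ < 2 ^ (k + 1)) →
    ∀ Z : Finset E, (∀ x ∈ Z, P x) → Z.card ≤ C * n * (1 + W) * N := by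
  classical
  obtain ⟨C₁, h1⟩ := near_count c hc
  obtain ⟨N₀, h2⟩ := gap_count c hc
  refine ⟨C₁ + 2 * N₀, ?_⟩
  intro n a P N W hn hP hloc hgap Z hZ
  set Z₁ := Z.filter fun x => ∃ i j, (∀ l, ‖x - a j‖ ≤ ‖x - a l‖) ∧
      ‖x - a j‖ / 100 ≤ ‖a i - a j‖ ∧ ‖a i - a j‖ ≤ 100 * ‖x - a j‖ with hZ₁
  set Z₂ := Z.filter fun x => ¬ ∃ i j, (∀ l, ‖x - a j‖ ≤ ‖x - a l‖) ∧
      ‖x - a j‖ / 100 ≤ ‖a i - a j‖ ∧ ‖a i - a j‖ ≤ 100 * ‖x - a j‖ with hZ₂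
  have hsplit : Z.card = Z₁.card + Z₂.card :=
    (Finset.card_filter_add_card_filter_not _).symm
  have hc1 : Z₁.card ≤ C₁ * n * N := by
    refine h1 n a P N hP hloc Z₁ fun x hx => ?_
    obtain ⟨hx1, hx2⟩ := Finset.mem_filter.1 hx
    exact ⟨hZ x hx1, hx2⟩
  obtain ⟨𝓛, hL, hcov⟩ := lam_cover n a Z₂ (by
    intro x hx
    obtain ⟨hx1, hx2⟩ := Finset.mem_filter.1 hx
    refine ⟨hP x (hZ x hx1), ?_⟩
    obtain ⟨j, -, hj⟩ := Finset.exists_min_image (Finset.univ : Finset (Fin n))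
      (fun l => ‖x - a l‖) ⟨⟨0, hn⟩, Finset.mem_univ _⟩
    refine ⟨j, fun l => hj l (Finset.mem_univ _), fun i => ?_⟩
    by_contra hcon
    push Not at hcon
    exact hx2 ⟨i, j, fun l => hj l (Finset.mem_univ _), hcon.1, hcon.2⟩)
  have hc2 : Z₂.card ≤ 2 * n * (N₀ * W * N) := by
    have hsub : Z₂ ⊆ 𝓛.biUnion fun I => Z₂.filter fun x => ∃ j ∈ I,
        (∀ l, ‖x - a j‖ ≤ ‖x - a l‖) ∧ (∀ i ∈ I, ‖a i - a j‖ ≤ ‖x - a j‖ / 100) ∧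
        ∀ i, i ∉ I → 100 * ‖x - a j‖ ≤ ‖a i - a j‖ := by
      intro x hx
      obtain ⟨I, hI, h3⟩ := hcov x hx
      exact Finset.mem_biUnion.2 ⟨I, hI, Finset.mem_filter.2 ⟨hx, h3⟩⟩
    calc Z₂.card ≤ _ := Finset.card_le_card hsub
      _ ≤ ∑ I ∈ 𝓛, _ := Finset.card_biUnion_le
      _ ≤ ∑ I ∈ 𝓛, N₀ * W * N := by
          refine Finset.sum_le_sum fun I _ => ?_
          refine h2 n a P N W hP hloc hgap I _ fun x hx => ?_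
          obtain ⟨hx1, hx2⟩ := Finset.mem_filter.1 hx
          exact ⟨hZ x (Finset.mem_filter.1 hx1).1, hx2⟩
      _ = 𝓛.card * (N₀ * W * N) := by rw [Finset.sum_const, smul_eq_mul]
      _ ≤ 2 * n * (N₀ * W * N) := Nat.mul_le_mul_right _ hL
  rw [hsplit]
  calc Z₁.card + Z₂.card ≤ C₁ * n * N + 2 * n * (N₀ * W * N) := Nat.add_le_add hc1 hc2
    _ ≤ (C₁ + 2 * N₀) * n * (1 + W) * N := by
        have e1 : (C₁ + 2 * N₀) * n * (1 + W) * N = C₁ * n * N + 2 * n * (N₀ * W * N) +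
          (C₁ * n * W * N + 2 * N₀ * n * N) := by ring
        rw [e1]
        exact Nat.le_add_right _ _

end PC992LG
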