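import Pool.Agent.Work.MP_992d6e_an.LG.ANet
import Pool.Agent.Work.MP_992d6e_an.SM.PackS

/-!
MODULE ANear (M). Points whose nearest charge has another charge at a comparable distance (compare the proof
of `cond_near` in SM/CondA.lean: it is the same argument).

We may assume `Z` nonempty. For `x ∈ Z` let `r x = ‖x - a (nr x)‖` with `nr x` the nearest charge `j` of the hypothesis,
`b > 0` the minimum of `r` on `Z` (`hP`), `J` with `r x < b 2^J` on `Z`, `k < J` with `σ ≤ r x < 2 σ`, `σ = b 2^k`. `cover` for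
`A = univ.image a`, `200` in place of `L` (`r/100 ≥ σ/200`, `100 r ≤ 200 σ`), `m = 10` (`4 * 200 ≤ 2^10`): there is `c ∈ U k` with
`‖a_j - c‖ ≤ 20 σ`, so `‖x - c‖ ≤ 22 σ ≤ 32 σ`. `ball_count` (p = c, radius parameter `σ`): at most `N₀ N` points of `Z` for
each pair `(k, c)`. The number of pairs is at most `6 * 10 * n`. `C = 60 N₀`.
-/

set_option autoImplicit false

namespace PC992LG

open SM992

theorem near_count (c : ℝ) (hc : 0 < c) : ∃ C : ℕ, ∀ (n : ℕ) (a : Fin n → E) (P : E → Prop)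
    (N : ℕ), (∀ x, P x → ∀ l, x ≠ a l) →
    (∀ (y : E) (s : ℝ), 0 < s → (∀ l, s ≤ ‖y - a l‖) → (∃ l, ‖y - a l‖ ≤ 16 * s) →
      ∀ Z : Finset E, (∀ x ∈ Z, P x ∧ ‖x - y‖ ≤ c * s) → Z.card ≤ N) →
    ∀ Z : Finset E, (∀ x ∈ Z, P x ∧ ∃ i j, (∀ l, ‖x - a j‖ ≤ ‖x - a l‖) ∧
      ‖x - a j‖ / 100 ≤ ‖a i - a j‖ ∧ ‖a i - a j‖ ≤ 100 * ‖x - a j‖) →
    Z.card ≤ C * n * N := by
  classical
  obtain ⟨N₀, hball⟩ := ball_count c hc
  refine ⟨60 * N₀, ?_⟩
  intro n a P N hP hloc Z hZ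
  rcases Z.eq_empty_or_nonempty with h | hne
  · rw [h, Finset.card_empty]
    exact Nat.zero_le _
  -- the nearest charge
  have hex : ∀ x : E, ∃ j, x ∈ Z → (∀ l, ‖x - a j‖ ≤ ‖x - a l‖) ∧ ∃ i,
      ‖x - a j‖ / 100 ≤ ‖a i - a j‖ ∧ ‖a i - a j‖ ≤ 100 * ‖x - a j‖ := by
    intro x
    by_cases hx : x ∈ Z
    · obtain ⟨_, i, j, h1, h2, h3⟩ := hZ x hx
      exact ⟨j, fun _ => ⟨h1, i, h2, h3⟩⟩
    · obtain ⟨x0, hx0⟩ := hne
      obtain ⟨_, i, j, h1, h2, h3⟩ := hZ x0 hx0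
      exact ⟨j, fun h => absurd h hx⟩
  choose nr hnr using hex
  obtain ⟨xm, hxm, hmin⟩ := Finset.exists_min_image Z (fun x => ‖x - a (nr x)‖) hne
  obtain ⟨xM, hxM, hmax⟩ := Finset.exists_max_image Z (fun x => ‖x - a (nr x)‖) hne
  obtain ⟨b, hb⟩ : ∃ b : ℝ, b = ‖xm - a (nr xm)‖ := ⟨_, rfl⟩
  have hb0 : 0 < b := by
    rw [hb]
    exact norm_pos_iff.2 (sub_ne_zero.2 (hP xm (hZ xm hxm).1 _))
  obtain ⟨J, hJ⟩ := pow_unbounded_of_one_lt (‖xM - a (nr xM)‖ / b) (by norm_num : (1 : ℝ) < 2)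
  obtain ⟨U, hU, hcov⟩ := cover (Finset.univ.image a) hb0 (by norm_num : (10 : ℝ) ≤ 200) 10 J
    (by norm_num)
  let Zp : ℕ → E → Finset E := fun k y => Z.filter fun x =>
    ‖x - y‖ ≤ 32 * (b * 2 ^ k) ∧ b * 2 ^ k ≤ ‖x - a (nr x)‖ ∧ ‖x - a (nr x)‖ ≤ 2 * (b * 2 ^ k)
  have hsub : Z ⊆ (Finset.range J).biUnion fun k => (U k).biUnion fun c => Zp k c := by
    intro x hx
    have hx1 : b ≤ ‖x - a (nr x)‖ := by
      rw [hb]
      exact hmin x hx
    obtain ⟨k, hk1, hk2⟩ := exists_nat_pow_near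
      (by rwa [one_le_div hb0] : 1 ≤ ‖x - a (nr x)‖ / b) (by norm_num : (1 : ℝ) < 2)
    rw [le_div_iff₀ hb0] at hk1
    rw [div_lt_iff₀ hb0, pow_succ] at hk2
    have hkJ : k < J := by
      have h1 : (2 : ℝ) ^ k < 2 ^ J := by
        refine lt_of_le_of_lt ?_ hJ
        rw [le_div_iff₀ hb0]
        exact hk1.trans (hmax x hx)
      exact (pow_lt_pow_iff_right₀ (by norm_num)).1 h1
    have hσ : 0 < b * 2 ^ k := by positivity
    obtain ⟨hnx, i, hi1, hi2⟩ := hnr x hx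
    obtain ⟨c, hc, hxc⟩ := hcov k hkJ (a (nr x)) (Finset.mem_image_of_mem a (Finset.mem_univ _))
      ⟨a i, Finset.mem_image_of_mem a (Finset.mem_univ _), by
        rw [dist_comm, dist_eq_norm]
        refine le_trans ?_ hi1
        linarith, by
        rw [dist_comm, dist_eq_norm]
        refine hi2.trans ?_
        linarith⟩
    simp only [Finset.mem_biUnion, Finset.mem_range]
    refine ⟨k, hkJ, c, hc, ?_⟩
    rw [Finset.mem_filter]
    refine ⟨hx, ?_, by linarith, by linarith⟩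
    have h1 : ‖x - c‖ ≤ ‖x - a (nr x)‖ + ‖a (nr x) - c‖ := by
      rw [show x - c = (x - a (nr x)) + (a (nr x) - c) by abel]
      exact norm_add_le _ _
    rw [dist_eq_norm] at hxc
    linarith
  have hpiece : ∀ k y, (Zp k y).card ≤ N₀ * N := by
    intro k y
    refine hball n a P N hloc y (b * 2 ^ k) (by positivity) _ ?_
    intro x hx
    obtain ⟨hx1, hx2, hx3, hx4⟩ := Finset.mem_filter.1 hx
    refine ⟨(hZ x hx1).1, hx2, fun l => hx3.trans ((hnr x hx1).1 l), nr x, ?_⟩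
    have h0 : 0 < b * 2 ^ k := by positivity
    linarith
  have h1 : (Finset.univ.image a).card ≤ n := by
    have := Finset.card_image_le (s := (Finset.univ : Finset (Fin n))) (f := a)
    rwa [Finset.card_univ, Fintype.card_fin] at this
  calc Z.card ≤ _ := Finset.card_le_card hsub
    _ ≤ ∑ k ∈ Finset.range J, _ := Finset.card_biUnion_le
    _ ≤ ∑ k ∈ Finset.range J, (U k).card * (N₀ * N) := by
        refine Finset.sum_le_sum fun k _ => Finset.card_biUnion_le.trans ?_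
        rw [← smul_eq_mul]
        exact Finset.sum_le_card_nsmul _ _ _ fun c _ => hpiece k c
    _ = (∑ k ∈ Finset.range J, (U k).card) * (N₀ * N) := by rw [Finset.sum_mul]
    _ ≤ (6 * 10 * n) * (N₀ * N) := by
        refine Nat.mul_le_mul_right _ (hU.trans (Nat.mul_le_mul_left _ h1))
    _ = 60 * N₀ * n * N := by ring

end PC992LG
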