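import Pool.Agent.Work.MP_992d6e_an.SM.Net

/-!
MODULE ANet (S). Nets in balls (compare SM/Net.lean, the same proof with a constant `c`), and the number of
points of a set near a ball if each small ball contains few of them.

net_c: compactness of `closedBall 0 32`, balls of radius `c`, scaling.
ball_count: `c' = min (c/2) (1/16)`; `net_c` for `c'` gives `N₀` and `T`. For `x ∈ Z` choose `y ∈ T` with `‖x - y‖ ≤ c' σ`. Put
`s = (15/16) σ`: `‖y - a l‖ ≥ σ - σ/16 = s` for all `l`, and `‖y - a l‖ ≤ 8 σ + σ/16 ≤ 16 s` for some `l`; `‖x - y‖ ≤ c s` as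
`c/2 ≤ (15/16) c`. So each `y ∈ T` takes at most `N` points of `Z` (if none, the bound is clear), `Z.card ≤ N₀ * N`
(Finset.card_le_mul_card_image_of_maps_to or card_biUnion_le).
-/

set_option autoImplicit false

namespace PC992LG

open SM992

theorem net_c (c : ℝ) (hc : 0 < c) : ∃ N₀ : ℕ, ∀ (p : E) (σ : ℝ), 0 < σ → ∃ T : Finset E,
    T.card ≤ N₀ ∧ ∀ x : E, ‖x - p‖ ≤ 32 * σ → ∃ y ∈ T, ‖x - y‖ ≤ c * σ := by
  classical
  have hK : IsCompact (Metric.closedBall (0 : E) 32) := isCompact_closedBall _ _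
  obtain ⟨t, ht⟩ := hK.elim_finite_subcover (fun y : E => Metric.ball y c)
    (fun _ => Metric.isOpen_ball)
    (fun x _ => Set.mem_iUnion.2 ⟨x, Metric.mem_ball_self hc⟩)
  refine ⟨t.card, fun p σ hσ => ⟨t.image (fun y => p + σ • y), Finset.card_image_le, ?_⟩⟩
  intro x hx
  have h1 : σ⁻¹ • (x - p) ∈ Metric.closedBall (0 : E) 32 := by
    rw [mem_closedBall_zero_iff, norm_smul, norm_inv, Real.norm_of_nonneg hσ.le,
      inv_mul_le_iff₀ hσ]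
    linarith
  obtain ⟨y, hy, hxy⟩ := Set.mem_iUnion₂.1 (ht h1)
  refine ⟨p + σ • y, Finset.mem_image.2 ⟨y, hy, rfl⟩, ?_⟩
  rw [Metric.mem_ball, dist_eq_norm] at hxy
  have h2 : x - (p + σ • y) = σ • (σ⁻¹ • (x - p) - y) := by
    rw [smul_sub, smul_inv_smul₀ hσ.ne']
    abel
  rw [h2, norm_smul, Real.norm_of_nonneg hσ.le]
  have := mul_le_mul_of_nonneg_left hxy.le hσ.le
  linarith

theorem ball_count (c : ℝ) (hc : 0 < c) : ∃ N₀ : ℕ, ∀ (n : ℕ) (a : Fin n → E) (P : E → Prop)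
    (N : ℕ), (∀ (y : E) (s : ℝ), 0 < s → (∀ l, s ≤ ‖y - a l‖) → (∃ l, ‖y - a l‖ ≤ 16 * s) →
      ∀ Z : Finset E, (∀ x ∈ Z, P x ∧ ‖x - y‖ ≤ c * s) → Z.card ≤ N) →
    ∀ (p : E) (σ : ℝ), 0 < σ → ∀ Z : Finset E, (∀ x ∈ Z, P x ∧ ‖x - p‖ ≤ 32 * σ ∧
      (∀ l, σ ≤ ‖x - a l‖) ∧ ∃ l, ‖x - a l‖ ≤ 8 * σ) → Z.card ≤ N₀ * N := by
  classical
  obtain ⟨c', hc'⟩ : ∃ c' : ℝ, c' = min (c / 2) (1 / 16) := ⟨_, rfl⟩
  have hc'0 : 0 < c' := by
    rw [hc']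
    positivity
  have hc'1 : c' ≤ c / 2 := hc' ▸ min_le_left _ _
  have hc'2 : c' ≤ 1 / 16 := hc' ▸ min_le_right _ _
  obtain ⟨N₀, hN₀⟩ := net_c c' hc'0
  refine ⟨N₀, fun n a P N h p σ hσ Z hZ => ?_⟩
  obtain ⟨T, hT, hT2⟩ := hN₀ p σ hσ
  have hcov : Z ⊆ T.biUnion fun y => Z.filter fun x => ‖x - y‖ ≤ c' * σ := by
    intro x hx
    obtain ⟨y, hy, hxy⟩ := hT2 x (hZ x hx).2.1
    exact Finset.mem_biUnion.2 ⟨y, hy, Finset.mem_filter.2 ⟨hx, hxy⟩⟩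
  have hcs : c' * σ ≤ σ / 16 := by
    calc c' * σ ≤ 1 / 16 * σ := mul_le_mul_of_nonneg_right hc'2 hσ.le
      _ = σ / 16 := by ring
  have hcs2 : c' * σ ≤ c * (15 / 16 * σ) := by
    calc c' * σ ≤ c / 2 * σ := mul_le_mul_of_nonneg_right hc'1 hσ.le
      _ ≤ _ := by nlinarith [mul_pos hc hσ]
  have hy : ∀ y ∈ T, (Z.filter fun x => ‖x - y‖ ≤ c' * σ).card ≤ N := by
    intro y _
    rcases (Z.filter fun x => ‖x - y‖ ≤ c' * σ).eq_empty_or_nonempty with h0 | ⟨x₀, hx₀⟩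
    · rw [h0, Finset.card_empty]
      exact Nat.zero_le _
    · rw [Finset.mem_filter] at hx₀
      obtain ⟨g1, g2, g3, l, g4⟩ := hZ x₀ hx₀.1
      have key : ∀ l, ‖x₀ - a l‖ ≤ ‖y - a l‖ + ‖x₀ - y‖ := by
        intro l
        have e : x₀ - a l = (y - a l) + (x₀ - y) := by abel
        calc ‖x₀ - a l‖ = ‖(y - a l) + (x₀ - y)‖ := by rw [← e]
          _ ≤ _ := norm_add_le _ _
      have key2 : ∀ l, ‖y - a l‖ ≤ ‖x₀ - a l‖ + ‖x₀ - y‖ := by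
        intro l
        have e : y - a l = (x₀ - a l) - (x₀ - y) := by abel
        calc ‖y - a l‖ = ‖(x₀ - a l) - (x₀ - y)‖ := by rw [← e]
          _ ≤ _ := norm_sub_le _ _
      refine h y (15 / 16 * σ) (by positivity) (fun l => ?_) ⟨l, ?_⟩ _ fun x hx => ?_
      · linarith [key l, g3 l, hx₀.2]
      · linarith [key2 l, hx₀.2]
      · rw [Finset.mem_filter] at hx
        exact ⟨(hZ x hx.1).1, hx.2.trans hcs2⟩
  calc Z.card ≤ (T.biUnion fun y => Z.filter fun x => ‖x - y‖ ≤ c' * σ).card :=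
        Finset.card_le_card hcov
    _ ≤ ∑ y ∈ T, (Z.filter fun x => ‖x - y‖ ≤ c' * σ).card := Finset.card_biUnion_le
    _ ≤ ∑ _y ∈ T, N := Finset.sum_le_sum hy
    _ = T.card * N := by rw [Finset.sum_const, smul_eq_mul]
    _ ≤ N₀ * N := Nat.mul_le_mul_right _ hT

end PC992LG
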