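import Mathlib

/-!
MODULE GCen (M). Existence and size of the central index (Mathlib only).

For `k ≥ 0`: `γ k (2ρ)^k = 4^(-k) γ k (8ρ)^k ≤ 4^(-k) e^Λ m` and `γ k ρ^k ≤ 8^(-k) e^Λ m ≤ 4^(-k) e^Λ m`. For `k < 0`:
`γ k ρ^k = 4^(-|k|) γ k (ρ/4)^k ≤ 4^(-|k|) e^Λ m` and `γ k (2ρ)^k ≤ 4^(-|k|) e^Λ m`. So
`γ k (ρ^k + (2ρ)^k) ≤ 2 * 4^(-|k|) e^Λ m` for all `k`. Let `4^k₀ ≥ 4 e^Λ`, `k₀ ≤ Λ + 2`: for each finite set the sum over `|k| > k₀`
is at most `4 ∑_(j > k₀) 4^(-j) e^Λ m ≤ (4/3) 4^(-k₀) e^Λ m ≤ m/2`... so, by hypothesis (c) with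
`T = (2 k₀ + 1)(1 + 2^k₀) μ + m/2`, `μ = max_(|k| ≤ k₀) γ k ρ^k` (`γ k (ρ^k + (2ρ)^k) ≤ (1 + 2^k₀) γ k ρ^k` for `|k| ≤ k₀`):
`μ ≥ m / (2 (2 k₀ + 1)(1 + 2^k₀)) > 0`. For `|k| > k₁` with `4^k₁ ≥ e^Λ 2 (2 k₀ + 1)(1 + 2^k₀)`, `γ k ρ^k ≤ 4^(-|k|) e^Λ m < μ`.
So the maximum over `|k| ≤ max k₀ k₁` (Finset.exists_max_image on `Finset.Icc (-k₂) k₂`) is a maximum over all `k`;
`k₂ ≤ C (Λ + 1)`.
-/

set_option autoImplicit false

namespace PC992LG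

private lemma gx_sum (s : Finset ℤ) : ∑ k ∈ s, (1 / 2 : ℝ) ^ k.natAbs ≤ 3 := by
  have h1 : HasSum (fun n : ℕ => (1 / 2 : ℝ) ^ ((n : ℤ)).natAbs) 2 := by
    simpa using hasSum_geometric_two
  have h2 : HasSum (fun n : ℕ => (1 / 2 : ℝ) ^ (-((n : ℤ) + 1)).natAbs) 1 := by
    have h3 : (fun n : ℕ => (1 / 2 : ℝ) ^ (-((n : ℤ) + 1)).natAbs) =
        fun n : ℕ => (1 / 2 : ℝ) * (1 / 2) ^ n := by
      funext n
      have : (-((n : ℤ) + 1)).natAbs = n + 1 := by omega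
      rw [this, pow_succ, mul_comm]
    rw [h3]
    have h4 := hasSum_geometric_two.mul_left (1 / 2 : ℝ)
    norm_num at h4 ⊢
    exact h4
  have h5 : HasSum (fun k : ℤ => (1 / 2 : ℝ) ^ k.natAbs) (2 + 1) :=
    HasSum.of_nat_of_neg_add_one h1 h2
  have h6 := sum_le_hasSum s (fun k _ => by positivity) h5
  linarith

theorem cen_exists : ∃ C : ℝ, 0 < C ∧ ∀ (γ : ℤ → ℝ) (ρ m Λ : ℝ), (∀ k, 0 ≤ γ k) → 0 < ρ →
    0 < m → 0 ≤ Λ → (∀ k : ℤ, γ k * (8 * ρ) ^ k ≤ Real.exp Λ * m) →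
    (∀ k : ℤ, γ k * (ρ / 4) ^ k ≤ Real.exp Λ * m) →
    (∀ T : ℝ, (∀ s : Finset ℤ, ∑ k ∈ s, γ k * (ρ ^ k + (2 * ρ) ^ k) ≤ T) → m ≤ T) →
    ∃ k₀ : ℤ, |(k₀ : ℝ)| ≤ C * (Λ + 1) ∧ 0 < γ k₀ ∧ ∀ k : ℤ, γ k * ρ ^ k ≤ γ k₀ * ρ ^ k₀ := by
  refine ⟨10, by norm_num, ?_⟩
  intro γ ρ m Λ hγ hρ hm hΛ ha hb hc
  set D : ℝ := Real.exp Λ * m with hD
  have hD0 : 0 < D := mul_pos (Real.exp_pos _) hm
  -- the two estimates
  have hx : ∀ k : ℤ, γ k * ρ ^ k ≤ (1 / 4 : ℝ) ^ k.natAbs * D := by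
    intro k
    rcases le_total 0 k with hk | hk
    · obtain ⟨j, rfl⟩ := Int.eq_ofNat_of_zero_le hk
      have h1 := ha j
      rw [Int.natAbs_natCast]
      rw [zpow_natCast] at h1 ⊢
      have h2 : γ j * (8 * ρ) ^ j = 8 ^ j * (γ j * ρ ^ j) := by
        rw [mul_pow]
        ring
      rw [h2] at h1
      have h3 : γ j * ρ ^ j = (1 / 8 : ℝ) ^ j * (8 ^ j * (γ j * ρ ^ j)) := by
        rw [← mul_assoc, ← mul_pow]
        norm_num
      rw [h3]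
      refine mul_le_mul ?_ h1 (by have := hγ j; positivity) (by positivity)
      exact pow_le_pow_left₀ (by norm_num) (by norm_num) j
    · obtain ⟨j, hj⟩ := Int.eq_ofNat_of_zero_le (neg_nonneg.2 hk)
      obtain rfl : k = -(j : ℤ) := by linarith
      have h1 := hb (-(j : ℤ))
      rw [Int.natAbs_neg, Int.natAbs_natCast]
      rw [zpow_neg, zpow_natCast] at h1 ⊢
      have h2 : γ (-(j : ℤ)) * ((ρ / 4) ^ j)⁻¹ = 4 ^ j * (γ (-(j : ℤ)) * (ρ ^ j)⁻¹) := by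
        rw [div_pow, inv_div]
        field_simp
      rw [h2] at h1
      have h3 : γ (-(j : ℤ)) * (ρ ^ j)⁻¹ =
          (1 / 4 : ℝ) ^ j * (4 ^ j * (γ (-(j : ℤ)) * (ρ ^ j)⁻¹)) := by
        rw [← mul_assoc, ← mul_pow]
        norm_num
      rw [h3]
      exact mul_le_mul_of_nonneg_left h1 (by positivity)
  have hy : ∀ k : ℤ, γ k * (2 * ρ) ^ k ≤ (1 / 4 : ℝ) ^ k.natAbs * D := by
    intro k
    rcases le_total 0 k with hk | hk
    · obtain ⟨j, rfl⟩ := Int.eq_ofNat_of_zero_le hk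
      have h1 := ha j
      rw [Int.natAbs_natCast]
      rw [zpow_natCast] at h1 ⊢
      have h2 : γ j * (8 * ρ) ^ j = 4 ^ j * (γ j * (2 * ρ) ^ j) := by
        have : (8 : ℝ) * ρ = 4 * (2 * ρ) := by ring
        rw [this, mul_pow]
        ring
      rw [h2] at h1
      have h3 : γ j * (2 * ρ) ^ j = (1 / 4 : ℝ) ^ j * (4 ^ j * (γ j * (2 * ρ) ^ j)) := by
        rw [← mul_assoc, ← mul_pow]
        norm_num
      rw [h3]
      exact mul_le_mul_of_nonneg_left h1 (by positivity)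
    · obtain ⟨j, hj⟩ := Int.eq_ofNat_of_zero_le (neg_nonneg.2 hk)
      obtain rfl : k = -(j : ℤ) := by linarith
      have h1 := hb (-(j : ℤ))
      rw [Int.natAbs_neg, Int.natAbs_natCast]
      rw [zpow_neg, zpow_natCast] at h1 ⊢
      have h2 : γ (-(j : ℤ)) * ((ρ / 4) ^ j)⁻¹ = 8 ^ j * (γ (-(j : ℤ)) * ((2 * ρ) ^ j)⁻¹) := by
        have : (ρ / 4 : ℝ) = (2 * ρ) / 8 := by ring
        rw [this, div_pow, inv_div]
        field_simp
      rw [h2] at h1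
      have h3 : γ (-(j : ℤ)) * ((2 * ρ) ^ j)⁻¹ =
          (1 / 8 : ℝ) ^ j * (8 ^ j * (γ (-(j : ℤ)) * ((2 * ρ) ^ j)⁻¹)) := by
        rw [← mul_assoc, ← mul_pow]
        norm_num
      rw [h3]
      refine mul_le_mul ?_ h1 (by have := hγ (-(j : ℤ)); positivity) (by positivity)
      exact pow_le_pow_left₀ (by norm_num) (by norm_num) j
  -- the cut-off
  set N : ℕ := ⌈2 * Λ⌉₊ + 4 with hN
  have hN1 : (N : ℝ) ≤ 5 * (Λ + 1) := by
    have h1 : (⌈2 * Λ⌉₊ : ℝ) < 2 * Λ + 1 := Nat.ceil_lt_add_one (by linarith)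
    rw [hN]
    push_cast
    linarith
  have hlog : (1 / 2 : ℝ) < Real.log 2 := by
    have := Real.log_two_gt_d9
    linarith
  have hN2 : 16 * Real.exp Λ ≤ 2 ^ N := by
    have h1 : Real.exp Λ ≤ 2 ^ ⌈2 * Λ⌉₊ := by
      have h2 : (2 : ℝ) ^ ⌈2 * Λ⌉₊ = Real.exp ((⌈2 * Λ⌉₊ : ℝ) * Real.log 2) := by
        rw [Real.exp_nat_mul, Real.exp_log (by norm_num)]
      rw [h2, Real.exp_le_exp]
      have h3 : 2 * Λ ≤ (⌈2 * Λ⌉₊ : ℝ) := Nat.le_ceil _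
      have h4 : (⌈2 * Λ⌉₊ : ℝ) * (1 / 2) ≤ (⌈2 * Λ⌉₊ : ℝ) * Real.log 2 :=
        mul_le_mul_of_nonneg_left hlog.le (Nat.cast_nonneg _)
      linarith
    rw [hN, pow_add]
    have : (0 : ℝ) < 2 ^ ⌈2 * Λ⌉₊ := by positivity
    nlinarith
  have hP0 : (0 : ℝ) < 2 ^ N := by positivity
  have hP1 : (16 : ℝ) ≤ 2 ^ N := by
    have := Real.one_le_exp hΛ
    linarith
  -- the maximum
  obtain ⟨k₀, hk₀, hmax⟩ := Finset.exists_max_image (Finset.Icc (-(2 * N : ℤ)) (2 * N))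
    (fun k => γ k * ρ ^ k) ⟨0, by rw [Finset.mem_Icc]; omega⟩
  set μ : ℝ := γ k₀ * ρ ^ k₀ with hμ
  have hμ0 : 0 ≤ μ := mul_nonneg (hγ _) (by positivity)
  have hterm : ∀ k : ℤ, γ k * (ρ ^ k + (2 * ρ) ^ k) ≤
      (2 * 2 ^ N * 2 ^ N * μ + 2 * (1 / 2 ^ N) * D) * (1 / 2) ^ k.natAbs := by
    intro k
    have hq0 : (0 : ℝ) < (1 / 2) ^ k.natAbs := by positivity
    rcases le_or_gt k.natAbs N with hk | hk
    · have h1 : γ k * ρ ^ k ≤ μ := hmax k (by rw [Finset.mem_Icc]; omega)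
      have h2 : (2 * ρ) ^ k ≤ 2 ^ N * ρ ^ k := by
        rw [mul_zpow]
        refine mul_le_mul_of_nonneg_right ?_ (by positivity)
        rw [← zpow_natCast]
        exact zpow_le_zpow_right₀ (by norm_num) (by omega)
      have h3 : γ k * (ρ ^ k + (2 * ρ) ^ k) ≤ (1 + 2 ^ N) * μ := by
        have h4 : γ k * (2 * ρ) ^ k ≤ 2 ^ N * (γ k * ρ ^ k) := by
          have := mul_le_mul_of_nonneg_left h2 (hγ k)
          linarith
        have h5 : 2 ^ N * (γ k * ρ ^ k) ≤ 2 ^ N * μ := mul_le_mul_of_nonneg_left h1 hP0.le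
        linarith
      have h6 : 1 ≤ 2 ^ N * (1 / 2 : ℝ) ^ k.natAbs := by
        have h7 : (1 / 2 : ℝ) ^ N ≤ (1 / 2 : ℝ) ^ k.natAbs :=
          pow_le_pow_of_le_one (by norm_num) (by norm_num) hk
        have h8 : (2 : ℝ) ^ N * (1 / 2) ^ N = 1 := by
          rw [← mul_pow]
          norm_num
        have h9 := mul_le_mul_of_nonneg_left h7 hP0.le
        linarith
      have h10 : (1 + 2 ^ N) * μ ≤ 2 * 2 ^ N * μ * (2 ^ N * (1 / 2 : ℝ) ^ k.natAbs) := by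
        have h11 : (1 + 2 ^ N) * μ ≤ 2 * 2 ^ N * μ := by nlinarith
        have h12 : 0 ≤ 2 * 2 ^ N * μ := by positivity
        nlinarith
      have h13 : 0 ≤ 2 * (1 / 2 ^ N) * D * (1 / 2) ^ k.natAbs := by positivity
      have h14 : (2 * 2 ^ N * 2 ^ N * μ + 2 * (1 / 2 ^ N) * D) * (1 / 2) ^ k.natAbs =
          2 * 2 ^ N * μ * (2 ^ N * (1 / 2 : ℝ) ^ k.natAbs) +
            2 * (1 / 2 ^ N) * D * (1 / 2) ^ k.natAbs := by ring
      rw [h14]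
      linarith
    · have h1 : γ k * (ρ ^ k + (2 * ρ) ^ k) ≤ 2 * ((1 / 4 : ℝ) ^ k.natAbs * D) := by
        have := hx k
        have := hy k
        linarith
      have h2 : (1 / 4 : ℝ) ^ k.natAbs = (1 / 2) ^ k.natAbs * (1 / 2) ^ k.natAbs := by
        rw [← mul_pow]
        norm_num
      have h3 : (1 / 2 : ℝ) ^ k.natAbs ≤ 1 / 2 ^ N := by
        rw [← one_div_pow]
        exact pow_le_pow_of_le_one (by norm_num) (by norm_num) hk.le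
      rw [h2] at h1
      have h4 : (1 / 2 : ℝ) ^ k.natAbs * (1 / 2) ^ k.natAbs ≤ (1 / 2 ^ N) * (1 / 2) ^ k.natAbs :=
        mul_le_mul_of_nonneg_right h3 hq0.le
      have h5 : (1 / 2 : ℝ) ^ k.natAbs * (1 / 2) ^ k.natAbs * D ≤
          (1 / 2 ^ N) * (1 / 2) ^ k.natAbs * D := mul_le_mul_of_nonneg_right h4 hD0.le
      have h6 : 0 ≤ 2 * 2 ^ N * 2 ^ N * μ * (1 / 2) ^ k.natAbs := by positivity
      have h7 : (2 * 2 ^ N * 2 ^ N * μ + 2 * (1 / 2 ^ N) * D) * (1 / 2) ^ k.natAbs =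
          2 * 2 ^ N * 2 ^ N * μ * (1 / 2) ^ k.natAbs +
            2 * ((1 / 2 ^ N) * (1 / 2) ^ k.natAbs * D) := by ring
      rw [h7]
      linarith
  have hcoef : 0 ≤ 2 * 2 ^ N * 2 ^ N * μ + 2 * (1 / 2 ^ N) * D := by positivity
  have hmT := hc (3 * (2 * 2 ^ N * 2 ^ N * μ + 2 * (1 / 2 ^ N) * D)) (fun s => by
    calc ∑ k ∈ s, γ k * (ρ ^ k + (2 * ρ) ^ k)
        ≤ ∑ k ∈ s, (2 * 2 ^ N * 2 ^ N * μ + 2 * (1 / 2 ^ N) * D) * (1 / 2) ^ k.natAbs :=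
          Finset.sum_le_sum fun k _ => hterm k
      _ = (2 * 2 ^ N * 2 ^ N * μ + 2 * (1 / 2 ^ N) * D) * ∑ k ∈ s, (1 / 2) ^ k.natAbs := by
          rw [Finset.mul_sum]
      _ ≤ (2 * 2 ^ N * 2 ^ N * μ + 2 * (1 / 2 ^ N) * D) * 3 :=
          mul_le_mul_of_nonneg_left (gx_sum s) hcoef
      _ = _ := by ring)
  have hDm : (1 / 2 ^ N) * D ≤ m / 16 := by
    rw [hD, one_div_mul_eq_div, div_le_div_iff₀ hP0 (by norm_num)]
    nlinarith
  have hm2 : m ≤ 12 * 2 ^ N * 2 ^ N * μ := by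
    have h1 : m ≤ 6 * 2 ^ N * 2 ^ N * μ + 6 * ((1 / 2 ^ N) * D) := by linarith
    linarith
  have hμpos : 0 < μ := by
    by_contra hcon
    rw [not_lt] at hcon
    have : μ = 0 := le_antisymm hcon hμ0
    rw [this, mul_zero] at hm2
    linarith
  refine ⟨k₀, ?_, ?_, ?_⟩
  · rw [Finset.mem_Icc] at hk₀
    have h1 : ((-(2 * N : ℤ) : ℤ) : ℝ) ≤ k₀ := by exact_mod_cast hk₀.1
    have h2 : (k₀ : ℝ) ≤ ((2 * N : ℤ) : ℝ) := by exact_mod_cast hk₀.2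
    push_cast at h1 h2
    rw [abs_le]
    constructor <;> linarith
  · by_contra hcon
    rw [not_lt] at hcon
    have h1 : γ k₀ = 0 := le_antisymm hcon (hγ k₀)
    rw [hμ, h1, zero_mul] at hμpos
    exact lt_irrefl _ hμpos
  · intro k
    rcases le_or_gt k.natAbs (2 * N) with hk | hk
    · exact hmax k (by rw [Finset.mem_Icc]; omega)
    · have h1 := hx k
      have h2 : (1 / 4 : ℝ) ^ k.natAbs ≤ (1 / 4) ^ (2 * N) :=
        pow_le_pow_of_le_one (by norm_num) (by norm_num) hk.le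
      have h3 : (1 / 4 : ℝ) ^ (2 * N) = (1 / 2 ^ N) * (1 / 2 ^ N) * (1 / 2 ^ N) * (1 / 2 ^ N) := by
        have : (1 / 4 : ℝ) ^ (2 * N) = ((1 / 4) ^ 2) ^ N := by rw [← pow_mul]
        rw [this, ← one_div_pow, ← mul_pow, ← mul_pow, ← mul_pow]
        norm_num
      have h4 : (1 / 4 : ℝ) ^ k.natAbs * D ≤ (1 / 4) ^ (2 * N) * D :=
        mul_le_mul_of_nonneg_right h2 hD0.le
      set i : ℝ := 1 / 2 ^ N with hi
      have hi0 : 0 < i := by positivity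
      have hi1 : i * 2 ^ N = 1 := by
        rw [hi]
        field_simp
      have hi2 : i ≤ 1 / 16 := by
        rw [hi]
        exact one_div_le_one_div_of_le (by norm_num) hP1
      have h5 : (1 / 4 : ℝ) ^ (2 * N) * D ≤ i * i * i * (m / 16) := by
        rw [h3]
        have : i * i * i * i * D = i * i * i * (i * D) := by ring
        rw [this]
        exact mul_le_mul_of_nonneg_left hDm (by positivity)
      have h6 : i * i * i * (m / 16) ≤ i * i * i * ((12 * 2 ^ N * 2 ^ N * μ) / 16) :=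
        mul_le_mul_of_nonneg_left (by linarith) (by positivity)
      have h7 : i * i * i * ((12 * 2 ^ N * 2 ^ N * μ) / 16) = (12 / 16) * i * μ := by
        have : i * i * i * ((12 * 2 ^ N * 2 ^ N * μ) / 16) =
            (12 / 16) * i * μ * (i * 2 ^ N) * (i * 2 ^ N) := by ring
        rw [this, hi1]
        ring
      have h8 : (12 / 16) * i * μ ≤ μ := by nlinarith
      linarith

end PC992LG
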