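import Mathlib

/-!
MODULE GCount (S-M). The number of jumps of a monotone integer valued function (Mathlib only).

For the `j` in the filter, `ν (j+N) - ν (j-N) ≥ 1`, so the cardinality is at most
`∑_(j ∈ Icc (j₀+N) (j₁-N)) (ν (j+N) - ν (j-N)) = ∑_(i=-N)^(N-1) ∑_j (ν (j+i+1) - ν (j+i))`, each inner sum telescopes to a difference of
two values of `ν` on `[j₀, j₁]`, at most `2 b`. Total `2 N * 2 b`. (Compare `tele` in SM/PackS.lean. If `j₀+N > j₁-N` the filter is
empty. Replace `ν` by its restriction extended constantly outside `[j₀, j₁]` to have a monotone function on `ℤ`.)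
-/

set_option autoImplicit false

namespace PC992LG

private theorem shift_sum (f : ℤ → ℝ) (a b c : ℤ) :
    ∑ j ∈ Finset.Icc a b, f (j + c) = ∑ i ∈ Finset.Icc (a + c) (b + c), f i := by
  refine Finset.sum_nbij' (fun j => j + c) (fun j => j - c) ?_ ?_ ?_ ?_ ?_
  · intro j hj
    rw [Finset.mem_Icc] at hj ⊢
    constructor <;> linarith [hj.1, hj.2]
  · intro j hj
    rw [Finset.mem_Icc] at hj ⊢
    constructor <;> linarith [hj.1, hj.2]
  · intro j _
    ring
  · intro j _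
    ring
  · intro j _
    rfl

private theorem split_sum (f : ℤ → ℝ) (a b c : ℤ) (h1 : a ≤ b + 1) (h2 : b ≤ c) :
    ∑ i ∈ Finset.Icc a c, f i = ∑ i ∈ Finset.Icc a b, f i + ∑ i ∈ Finset.Icc (b + 1) c, f i := by
  rw [← Finset.sum_union]
  · congr 1
    ext i
    simp only [Finset.mem_union, Finset.mem_Icc]
    omega
  · rw [Finset.disjoint_left]
    intro i hi hi'
    rw [Finset.mem_Icc] at hi hi'
    omega

private theorem bd_sum (f : ℤ → ℝ) (a c : ℤ) (b : ℝ) (h : ∀ i ∈ Finset.Icc a c, |f i| ≤ b) :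
    |∑ i ∈ Finset.Icc a c, f i| ≤ (c + 1 - a).toNat * b := by
  refine (Finset.abs_sum_le_sum_abs _ _).trans ?_
  have := Finset.sum_le_card_nsmul _ _ _ h
  rw [Int.card_Icc, nsmul_eq_mul] at this
  exact this

theorem count_jumps (ν : ℤ → ℤ) (j₀ j₁ : ℤ) (b : ℝ) (N : ℕ) (hb0 : 0 ≤ b)
    (hmono : ∀ i j, j₀ ≤ i → i ≤ j → j ≤ j₁ → ν i ≤ ν j)
    (hb : ∀ j, j₀ ≤ j → j ≤ j₁ → |(ν j : ℝ)| ≤ b) :
    (((Finset.Icc (j₀ + N) (j₁ - N)).filter fun j => ν (j - N) ≠ ν (j + N)).card : ℝ) ≤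
      4 * N * b := by
  set S := Finset.Icc (j₀ + N) (j₁ - N) with hS
  by_cases hcase : j₁ - N < j₀ + N
  · have : S = ∅ := Finset.Icc_eq_empty (not_le.2 hcase)
    rw [this, Finset.filter_empty, Finset.card_empty, Nat.cast_zero]
    positivity
  push Not at hcase
  set f : ℤ → ℝ := fun j => (ν j : ℝ) with hf
  have h1 : ∀ j ∈ S, ν (j - N) ≤ ν (j + N) := by
    intro j hj
    rw [hS, Finset.mem_Icc] at hj
    exact hmono _ _ (by linarith [hj.1]) (by omega) (by linarith [hj.2])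
  have h2 : ((S.filter fun j => ν (j - N) ≠ ν (j + N)).card : ℝ) ≤
      ∑ j ∈ S, (f (j + N) - f (j - N)) := by
    calc ((S.filter fun j => ν (j - N) ≠ ν (j + N)).card : ℝ) =
        ∑ j ∈ S.filter (fun j => ν (j - N) ≠ ν (j + N)), (1 : ℝ) := by
          rw [Finset.sum_const, nsmul_eq_mul, mul_one]
      _ ≤ ∑ j ∈ S.filter (fun j => ν (j - N) ≠ ν (j + N)), (f (j + N) - f (j - N)) := by
          refine Finset.sum_le_sum fun j hj => ?_
          obtain ⟨hjS, hne⟩ := Finset.mem_filter.1 hj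
          have h3 : ν (j - N) + 1 ≤ ν (j + N) := by
            have := h1 j hjS
            omega
          have h4 : (ν (j - N) : ℝ) + 1 ≤ ν (j + N) := by exact_mod_cast h3
          show (1 : ℝ) ≤ (ν (j + N) : ℝ) - ν (j - N)
          linarith
      _ ≤ ∑ j ∈ S, (f (j + N) - f (j - N)) := by
          refine Finset.sum_le_sum_of_subset_of_nonneg (Finset.filter_subset _ _) ?_
          intro j hj _
          have h4 : (ν (j - N) : ℝ) ≤ ν (j + N) := by exact_mod_cast h1 j hj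
          show (0 : ℝ) ≤ (ν (j + N) : ℝ) - ν (j - N)
          linarith
  refine h2.trans ?_
  rw [Finset.sum_sub_distrib]
  have e1 : ∑ j ∈ S, f (j + N) = ∑ i ∈ Finset.Icc (j₀ + 2 * N) j₁, f i := by
    rw [hS, shift_sum]
    congr 2 <;> ring
  have e2 : ∑ j ∈ S, f (j - N) = ∑ i ∈ Finset.Icc j₀ (j₁ - 2 * N), f i := by
    have := shift_sum f (j₀ + N) (j₁ - N) (-N)
    simp only [← sub_eq_add_neg] at this
    rw [hS, this]
    congr 2 <;> ring
  have e3 := split_sum f j₀ (j₀ + 2 * N - 1) j₁ (by omega) (by omega)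
  have e4 := split_sum f j₀ (j₁ - 2 * N) j₁ (by omega) (by omega)
  rw [show j₀ + 2 * (N : ℤ) - 1 + 1 = j₀ + 2 * N by ring] at e3
  have hN0 : (0 : ℤ) ≤ N := Int.natCast_nonneg N
  have b1 := bd_sum f j₀ (j₀ + 2 * N - 1) b fun i hi => by
    rw [Finset.mem_Icc] at hi
    exact hb i hi.1 (by omega)
  have b2 := bd_sum f (j₁ - 2 * N + 1) j₁ b fun i hi => by
    rw [Finset.mem_Icc] at hi
    exact hb i (by omega) hi.2
  have c1 : (j₀ + 2 * (N : ℤ) - 1 + 1 - j₀).toNat = 2 * N := by omega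
  have c2 : (j₁ + 1 - (j₁ - 2 * (N : ℤ) + 1)).toNat = 2 * N := by omega
  rw [c1] at b1
  rw [c2] at b2
  push_cast at b1 b2
  rw [e1, e2]
  have b3 := (abs_le.1 b1).1
  have b4 := (abs_le.1 b2).2
  linarith

end PC992LG
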