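import Pool.Agent.Work.MP_992d6e_an.LG.GDefs

/-!
MODULE GDom (S-M). Monotonicity of the central index and domination (elementary).

cen_mono: multiply `γ m ρ'^m ≤ γ m' ρ'^m'` and `γ m' ρ^m' ≤ γ m ρ^m`; `γ m, γ m' > 0`, so `(ρ'/ρ)^(m - m') ≤ 1`, so `m ≤ m'`.
cen_dom: `k > m`: `γ k ρ^k = γ k ρ₂^k (ρ/ρ₂)^k ≤ γ m ρ₂^m (ρ/ρ₂)^k = γ m ρ^m (ρ/ρ₂)^(k-m)` and `ρ/ρ₂ ≤ 2^(-N)`.
`k < m`: `γ k ρ^k ≤ γ m ρ₁^m (ρ/ρ₁)^k = γ m ρ^m (ρ₁/ρ)^(m-k)` and `ρ₁/ρ ≤ 2^(-N)`.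
dom_sum: `‖φ ζ - c m ζ^m‖ ≤ ∑_(k ≠ m) ‖c k‖ ρ^k` (HasSum minus one term: hasSum_ite or `HasSum.sub`, hasSum_single), bounded by
`∑_(j ≥ 1) 2 * 2^(-N j) γ m ρ^m ≤ 4 * 2^(-N) γ m ρ^m` (`N ≥ 1`).
-/

set_option autoImplicit false

namespace PC992LG

theorem cen_mono (γ : ℤ → ℝ) (ρ ρ' : ℝ) (m m' : ℤ) (hγ : ∀ k, 0 ≤ γ k) (h0 : 0 < ρ)
    (h1 : ρ < ρ') (hm : ∀ k : ℤ, γ k * ρ ^ k ≤ γ m * ρ ^ m)
    (hm' : ∀ k : ℤ, γ k * ρ' ^ k ≤ γ m' * ρ' ^ m') (hpos : 0 < γ m) : m ≤ m' := by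
  set r : ℝ := ρ' / ρ with hr
  have hr1 : 1 < r := by
    rw [hr, one_lt_div h0]
    exact h1
  have hρ' : ρ' = r * ρ := by
    rw [hr, div_mul_cancel₀ _ h0.ne']
  have e1 := hm m'
  have e2 := hm' m
  rw [hρ', mul_zpow, mul_zpow] at e2
  have hr0 : 0 < r := by linarith
  have hp : 0 < γ m * ρ ^ m := mul_pos hpos (zpow_pos h0 m)
  have e3 : γ m * ρ ^ m * r ^ m ≤ γ m * ρ ^ m * r ^ m' := by
    calc γ m * ρ ^ m * r ^ m = γ m * (r ^ m * ρ ^ m) := by ring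
      _ ≤ γ m' * (r ^ m' * ρ ^ m') := e2
      _ = (γ m' * ρ ^ m') * r ^ m' := by ring
      _ ≤ γ m * ρ ^ m * r ^ m' := mul_le_mul_of_nonneg_right e1 (zpow_pos hr0 m').le
  have e4 : r ^ m ≤ r ^ m' := le_of_mul_le_mul_left e3 hp
  exact (zpow_le_zpow_iff_right₀ hr1).1 e4

theorem cen_dom (γ : ℤ → ℝ) (ρ₁ ρ₂ ρ : ℝ) (m : ℤ) (N : ℕ) (hγ : ∀ k, 0 ≤ γ k) (h1 : 0 < ρ₁)
    (hm1 : ∀ k : ℤ, γ k * ρ₁ ^ k ≤ γ m * ρ₁ ^ m) (hm2 : ∀ k : ℤ, γ k * ρ₂ ^ k ≤ γ m * ρ₂ ^ m)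
    (h2 : 2 ^ N * ρ₁ ≤ ρ) (h3 : 2 ^ N * ρ ≤ ρ₂) (k : ℤ) :
    γ k * ρ ^ k ≤ γ m * ρ ^ m * ((1 / 2) ^ N) ^ (k - m).natAbs := by
  have h2N : (0 : ℝ) < 2 ^ N := by positivity
  have hρ : 0 < ρ := lt_of_lt_of_le (mul_pos h2N h1) h2
  have hρ2 : 0 < ρ₂ := lt_of_lt_of_le (mul_pos h2N hρ) h3
  have hq : ((1 : ℝ) / 2) ^ N = 1 / 2 ^ N := by rw [one_div_pow]
  rcases le_total m k with hk | hk
  · obtain ⟨j, rfl⟩ := Int.le.dest hk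
    have hj : (m + (j : ℤ) - m).natAbs = j := by simp
    rw [hj]
    set s : ℝ := ρ / ρ₂ with hs
    have hs0 : 0 < s := div_pos hρ hρ2
    have hs1 : s ≤ (1 / 2) ^ N := by
      rw [hq, hs, div_le_div_iff₀ hρ2 h2N]
      linarith
    have hρs : ρ = s * ρ₂ := by rw [hs, div_mul_cancel₀ _ hρ2.ne']
    have e1 := hm2 (m + j)
    have e2 : γ (m + j) * ρ ^ (m + (j : ℤ)) = (γ (m + j) * ρ₂ ^ (m + (j : ℤ))) * s ^ (m + (j : ℤ)) := by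
      rw [hρs, mul_zpow]
      ring
    have e3 : γ m * ρ ^ m * s ^ j = (γ m * ρ₂ ^ m) * s ^ (m + (j : ℤ)) := by
      rw [hρs, mul_zpow, zpow_add₀ hs0.ne', zpow_natCast]
      ring
    calc γ (m + j) * ρ ^ (m + (j : ℤ)) = (γ (m + j) * ρ₂ ^ (m + (j : ℤ))) * s ^ (m + (j : ℤ)) := e2
      _ ≤ (γ m * ρ₂ ^ m) * s ^ (m + (j : ℤ)) := mul_le_mul_of_nonneg_right e1 (zpow_pos hs0 _).le
      _ = γ m * ρ ^ m * s ^ j := e3.symm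
      _ ≤ γ m * ρ ^ m * ((1 / 2) ^ N) ^ j := by
          have := mul_nonneg (hγ m) (zpow_pos hρ m).le
          gcongr
  · obtain ⟨j, rfl⟩ := Int.le.dest hk
    have hj : (k - (k + (j : ℤ))).natAbs = j := by
      rw [show k - (k + (j : ℤ)) = -(j : ℤ) by ring, Int.natAbs_neg, Int.natAbs_natCast]
    rw [hj]
    set s : ℝ := ρ₁ / ρ with hs
    have hs0 : 0 < s := div_pos h1 hρ
    have hs1 : s ≤ (1 / 2) ^ N := by
      rw [hq, hs, div_le_div_iff₀ hρ h2N]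
      linarith
    have hρs : ρ₁ = s * ρ := by rw [hs, div_mul_cancel₀ _ hρ.ne']
    have e1 := hm1 k
    rw [hρs, mul_zpow, mul_zpow] at e1
    have hsk : 0 < s ^ k := zpow_pos hs0 k
    have e3 : s ^ (k + (j : ℤ)) = s ^ k * s ^ j := by
      rw [zpow_add₀ hs0.ne', zpow_natCast]
    have e4 : s ^ k * (γ k * ρ ^ k) ≤ s ^ k * (γ (k + j) * ρ ^ (k + (j : ℤ)) * s ^ j) := by
      calc s ^ k * (γ k * ρ ^ k) = γ k * (s ^ k * ρ ^ k) := by ring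
        _ ≤ γ (k + j) * (s ^ (k + (j : ℤ)) * ρ ^ (k + (j : ℤ))) := e1
        _ = s ^ k * (γ (k + j) * ρ ^ (k + (j : ℤ)) * s ^ j) := by
            rw [e3]
            ring
    have e5 := le_of_mul_le_mul_left e4 hsk
    refine e5.trans ?_
    have := mul_nonneg (hγ (k + j)) (zpow_pos hρ (k + (j : ℤ))).le
    gcongr

private theorem geo_int (q : ℝ) (m : ℤ) :
    HasSum (fun k : ℤ => if k - m = 0 then (0 : ℝ) else 2 * q * (1 / 2) ^ (k - m).natAbs)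
      (4 * q) := by
  have h1 : HasSum (fun n : ℕ => ((1 : ℝ) / 2) ^ n) 2 := by
    have h0 := hasSum_geometric_of_lt_one (r := (1 : ℝ) / 2) (by norm_num) (by norm_num)
    have h0' : (1 - (1 : ℝ) / 2)⁻¹ = 2 := by norm_num
    rw [h0'] at h0
    exact h0
  have hA : HasSum (fun n : ℕ => (if ((n : ℕ) : ℤ) = 0 then (0 : ℝ)
      else 2 * q * (1 / 2) ^ ((n : ℕ) : ℤ).natAbs)) (2 * q) := by
    have h3 := (h1.mul_left (2 * q)).sub (hasSum_ite_eq (0 : ℕ) (2 * q))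
    have e : (fun n : ℕ => (if ((n : ℕ) : ℤ) = 0 then (0 : ℝ)
        else 2 * q * (1 / 2) ^ ((n : ℕ) : ℤ).natAbs)) =
        fun n : ℕ => 2 * q * (1 / 2) ^ n - (if n = 0 then 2 * q else 0) := by
      funext n
      rcases Nat.eq_zero_or_pos n with hn | hn
      · subst hn
        simp
      · have : ((n : ℕ) : ℤ) ≠ 0 := by omega
        rw [if_neg this, if_neg hn.ne', Int.natAbs_natCast, sub_zero]
    have h4 : 2 * q * 2 - 2 * q = 2 * q := by ring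
    rw [h4] at h3
    rw [e]
    exact h3
  have hB : HasSum (fun n : ℕ => (if (-(((n : ℕ) : ℤ) + 1)) = 0 then (0 : ℝ)
      else 2 * q * (1 / 2) ^ (-(((n : ℕ) : ℤ) + 1)).natAbs)) (2 * q) := by
    have h3 := h1.mul_left q
    have e : (fun n : ℕ => (if (-(((n : ℕ) : ℤ) + 1)) = 0 then (0 : ℝ)
        else 2 * q * (1 / 2) ^ (-(((n : ℕ) : ℤ) + 1)).natAbs)) =
        fun n : ℕ => q * (1 / 2) ^ n := by
      funext n
      have h5 : (-(((n : ℕ) : ℤ) + 1)) ≠ 0 := by omega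
      rw [if_neg h5]
      have h4 : (-(((n : ℕ) : ℤ) + 1)).natAbs = n + 1 := by omega
      rw [h4, pow_succ]
      ring
    rw [e]
    rw [show 2 * q = q * 2 by ring]
    exact h3
  have h2 : HasSum (fun j : ℤ => if j = 0 then (0 : ℝ) else 2 * q * (1 / 2) ^ j.natAbs)
      (2 * q + 2 * q) :=
    HasSum.of_nat_of_neg_add_one (f := fun j : ℤ => if j = 0 then (0 : ℝ)
      else 2 * q * (1 / 2) ^ j.natAbs) hA hB
  have h3 := (Equiv.subRight m).hasSum_iff.2 h2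
  rw [show 4 * q = 2 * q + 2 * q by ring]
  exact h3

theorem dom_sum (γ : ℤ → ℝ) (c : ℤ → ℂ) (v ζ : ℂ) (m : ℤ) (N : ℕ) (hN : 1 ≤ N) (hζ : ζ ≠ 0)
    (hc : ∀ k, ‖c k‖ ≤ γ k) (hs : HasSum (fun k : ℤ => c k * ζ ^ k) v)
    (hd : ∀ k : ℤ, γ k * ‖ζ‖ ^ k ≤ γ m * ‖ζ‖ ^ m * ((1 / 2) ^ N) ^ (k - m).natAbs) :
    ‖v - c m * ζ ^ m‖ ≤ 4 * (γ m * ‖ζ‖ ^ m) / 2 ^ N := by
  set B : ℝ := γ m * ‖ζ‖ ^ m with hB
  set q : ℝ := (1 / 2) ^ N with hq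
  have hγm : 0 ≤ γ m := (norm_nonneg _).trans (hc m)
  have hζ0 : 0 < ‖ζ‖ := norm_pos_iff.2 hζ
  have hB0 : 0 ≤ B := mul_nonneg hγm (zpow_pos hζ0 m).le
  have hq0 : 0 < q := by positivity
  have hq1 : q ≤ 1 / 2 := by
    rw [hq]
    calc ((1 : ℝ) / 2) ^ N ≤ (1 / 2) ^ 1 := pow_le_pow_of_le_one (by norm_num) (by norm_num) hN
      _ = 1 / 2 := pow_one _
  have h1 := hs.sub (hasSum_ite_eq m (c m * ζ ^ m))
  have h2 := (geo_int q m).mul_left B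
  have h3 : ∀ k : ℤ, ‖c k * ζ ^ k - (if k = m then c m * ζ ^ m else 0)‖ ≤
      B * (if k - m = 0 then (0 : ℝ) else 2 * q * (1 / 2) ^ (k - m).natAbs) := by
    intro k
    by_cases hk : k = m
    · subst hk
      simp
    · have hk' : k - m ≠ 0 := sub_ne_zero.2 hk
      rw [if_neg hk, if_neg hk', sub_zero, norm_mul, norm_zpow]
      have e1 : ‖c k‖ * ‖ζ‖ ^ k ≤ γ k * ‖ζ‖ ^ k :=
        mul_le_mul_of_nonneg_right (hc k) (zpow_pos hζ0 k).le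
      refine e1.trans ((hd k).trans ?_)
      refine mul_le_mul_of_nonneg_left ?_ hB0
      obtain ⟨j, hj⟩ : ∃ j, (k - m).natAbs = j + 1 :=
        ⟨(k - m).natAbs - 1, by have := Int.natAbs_pos.2 hk'; omega⟩
      rw [hj, pow_succ, pow_succ]
      have e2 : q ^ j ≤ (1 / 2) ^ j := by gcongr
      calc q ^ j * q ≤ (1 / 2) ^ j * q := mul_le_mul_of_nonneg_right e2 hq0.le
        _ = 2 * q * ((1 / 2) ^ j * (1 / 2)) := by ring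
  have h4 := h1.norm_le_of_bounded h2 h3
  refine h4.trans (le_of_eq ?_)
  rw [hq, one_div_pow]
  ring

end PC992LG
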