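import Pool.Agent.Work.MP_992d6e_an.LG.GCoef
import Pool.Agent.Work.MP_992d6e_an.LG.GCen
import Pool.Agent.Work.MP_992d6e_an.LG.GDom
import Pool.Agent.Work.MP_992d6e_an.LG.GCount

/-!
MODULE GAbs (M-L). The abstract gap theorem.

`C₁` from `cen_exists`. Let `J` = the integers `j` with `64 A ≤ 2^j`, `64 * 2^j ≤ B` (an interval `[j₀, j₁]`, or empty), and let
`U` = the `j` with `A < 2^j < B` that are not in `[j₀ + N + 3, j₁ - N - 3]` (at most `2 (N + 12)` of them: `A < 2^j < 2^(N+3) * 128 A` or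
`B/(2^(N+3) * 128) < 2^j < B`; if `J` is empty all `j` with `A < 2^j < B`, at most `13`),
and the bad `j` of `count_jumps` with `N + 2` in place of `N`.
If all `c i k = 0` then `φ = 0` on the annulus and `m = 0` works for `j ∉ U`. Otherwise `γ k = ⨆ i, ‖c i k‖` (bounded by `lau_coef` and the
boundedness hypothesis at some `ρ = 2^j`, `j ∈ J`; if `J` is empty there is nothing to prove). For `j ∈ J`, `ρ = 2^j`: let `m_j` be the supremum of `‖φ i ζ‖`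
over all `i` and `ρ ≤ ‖ζ‖ ≤ 2ρ`; it is positive (otherwise all coefficients vanish by `lau_coef`). By doubling and `lau_coef`
`γ k (8ρ)^k ≤ e^Λ m_j`, `γ k (ρ/4)^k ≤ e^Λ m_j`; and if all finite sums of `γ k (ρ^k + (2ρ)^k)` are at most `T` then
`‖φ i ζ‖ ≤ ∑ ‖c i k‖ ‖ζ‖^k ≤ T` for `ρ ≤ ‖ζ‖ ≤ 2ρ` (`‖ζ‖^k ≤ (2ρ)^k` for `k ≥ 0`, `≤ ρ^k` for `k < 0`), so `m_j ≤ T`. `cen_exists` gives the
central index `ν j`, `|ν j| ≤ C₁ (Λ+1)`, nondecreasing on `J` by `cen_mono`. For `j ∉ U`: `m = ν (j-N-2) = ν (j+N+2)`; `cen_dom` with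
`ρ₁ = 2^(j-N-2)`, `ρ₂ = 2^(j+N+2)` for all `‖ζ‖ ∈ [2^(j-1), 2^(j+2)]`, `dom_sum`, and `γ m ‖ζ‖^m ≤ M` (lau_coef on the circle of radius `‖ζ‖` for
each `i`, then supremum).
-/

set_option autoImplicit false

namespace PC992LG

private theorem zp_le {a b : ℤ} (h : a ≤ b) : (2 : ℝ) ^ a ≤ (2 : ℝ) ^ b :=
  zpow_le_zpow_right₀ (by norm_num) h

private theorem zp_lt {a b : ℤ} (h : a < b) : (2 : ℝ) ^ a < (2 : ℝ) ^ b :=
  zpow_lt_zpow_right₀ (by norm_num) h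

private theorem zp_add (a : ℤ) (n : ℕ) : (2 : ℝ) ^ (a + n) = 2 ^ a * 2 ^ n := by
  rw [zpow_add₀ (by norm_num), zpow_natCast]

private theorem zp_pos (a : ℤ) : (0 : ℝ) < (2 : ℝ) ^ a := zpow_pos (by norm_num) a

/-- `t^k ≤ ρ^k + (2ρ)^k` for `ρ ≤ t ≤ 2ρ` -/
private theorem zpow_le_sum {ρ t : ℝ} (hρ : 0 < ρ) (h1 : ρ ≤ t) (h2 : t ≤ 2 * ρ) (k : ℤ) :
    t ^ k ≤ ρ ^ k + (2 * ρ) ^ k := by
  have hp1 : 0 < ρ ^ k := zpow_pos hρ k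
  have hp2 : 0 < (2 * ρ) ^ k := zpow_pos (by linarith) k
  rcases le_total 0 k with hk | hk
  · have := zpow_le_zpow_left₀ hk (hρ.le.trans h1) h2
    linarith
  · have h3 : t ^ k ≤ ρ ^ k := by
      obtain ⟨n, hn⟩ := Int.eq_ofNat_of_zero_le (show 0 ≤ -k by omega)
      have hk' : k = -(n : ℤ) := by omega
      rw [hk', zpow_neg, zpow_neg, zpow_natCast, zpow_natCast]
      have h4 : ρ ^ n ≤ t ^ n := pow_le_pow_left₀ hρ.le h1 n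
      exact inv_anti₀ (pow_pos hρ n) h4
    linarith

theorem gap_abs : ∃ C : ℝ, 0 < C ∧ ∀ (ι : Type) (c : ι → ℤ → ℂ) (φ : ι → ℂ → ℂ) (A B Λ : ℝ),
    0 < A → 0 ≤ Λ → (∀ i, Lau A B (c i) (φ i)) →
    (∀ ρ, 64 * A ≤ ρ → 64 * ρ ≤ B →
      ∃ M, ∀ (i : ι) (ζ : ℂ), ρ ≤ ‖ζ‖ → ‖ζ‖ ≤ 2 * ρ → ‖φ i ζ‖ ≤ M) →
    (∀ ρ m, 64 * A ≤ ρ → 64 * ρ ≤ B →
      (∀ (i : ι) (ζ : ℂ), ρ ≤ ‖ζ‖ → ‖ζ‖ ≤ 2 * ρ → ‖φ i ζ‖ ≤ m) →
      ∀ (i : ι) (ζ : ℂ), ρ / 4 ≤ ‖ζ‖ → ‖ζ‖ ≤ 8 * ρ → ‖φ i ζ‖ ≤ Real.exp Λ * m) →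
    ∀ N : ℕ, 1 ≤ N → ∃ U : Finset ℤ, (U.card : ℝ) ≤ C * (Λ + 1) * N ∧
      ∀ j : ℤ, A < (2 : ℝ) ^ j → (2 : ℝ) ^ j < B → j ∉ U →
        128 * A ≤ (2 : ℝ) ^ j ∧ 128 * (2 : ℝ) ^ j ≤ B ∧
        ∃ m : ℤ, |(m : ℝ)| ≤ C * (Λ + 1) ∧ ∀ M : ℝ,
          (∀ (i : ι) (ζ : ℂ), (2 : ℝ) ^ (j - 1) ≤ ‖ζ‖ → ‖ζ‖ ≤ (2 : ℝ) ^ (j + 2) → ‖φ i ζ‖ ≤ M) →
          ∀ (i : ι) (ζ : ℂ), (2 : ℝ) ^ (j - 1) ≤ ‖ζ‖ → ‖ζ‖ ≤ (2 : ℝ) ^ (j + 2) →
            ‖φ i ζ - c i m * ζ ^ m‖ ≤ 4 * M / 2 ^ N := by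
  classical
  obtain ⟨C₁, hC₁, hcen⟩ := cen_exists
  refine ⟨20 + 12 * C₁, by positivity, ?_⟩
  intro ι c φ A B Λ hA hΛ hlau hbd hdb N hN
  have hN1 : (1 : ℝ) ≤ N := by exact_mod_cast hN
  by_cases hBA : B ≤ A
  · refine ⟨∅, ?_, fun j h1 h2 _ => absurd (h1.trans h2) (not_lt.2 hBA)⟩
    simp only [Finset.card_empty, Nat.cast_zero]
    positivity
  push Not at hBA
  have hB : 0 < B := hA.trans hBA
  obtain ⟨a', ha'⟩ := exists_mem_Ioc_zpow (show (0 : ℝ) < 64 * A by positivity)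
    (show (1 : ℝ) < 2 by norm_num)
  obtain ⟨b, hb⟩ := exists_mem_Ico_zpow (show (0 : ℝ) < B / 64 by positivity)
    (show (1 : ℝ) < 2 by norm_num)
  obtain ⟨ha1, ha2⟩ := ha'
  obtain ⟨hb1, hb2⟩ := hb
  set a : ℤ := a' + 1 with haa
  -- `2^(a-1) < 64 A ≤ 2^a`, `2^b ≤ B/64 < 2^(b+1)`
  have haJ : ∀ j : ℤ, a ≤ j → 64 * A ≤ (2 : ℝ) ^ j := fun j hj => ha2.trans (zp_le hj)
  have hbJ : ∀ j : ℤ, j ≤ b → 64 * (2 : ℝ) ^ j ≤ B := by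
    intro j hj
    have := zp_le hj
    linarith
  have hlow : ∀ j : ℤ, A < (2 : ℝ) ^ j → a - 6 ≤ j := by
    intro j hj
    by_contra hcon
    push Not at hcon
    have h1 : (2 : ℝ) ^ j ≤ 2 ^ (a - 7) := zp_le (by omega)
    have h2 : (2 : ℝ) ^ a' = 2 ^ (a - 7) * 2 ^ (6 : ℕ) := by
      rw [← zp_add]; congr 1; push_cast; omega
    rw [h2] at ha1
    norm_num at ha1
    linarith
  have hhigh : ∀ j : ℤ, (2 : ℝ) ^ j < B → j ≤ b + 6 := by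
    intro j hj
    by_contra hcon
    push Not at hcon
    have h1 : (2 : ℝ) ^ (b + 7) ≤ 2 ^ j := zp_le (by omega)
    have h2 : (2 : ℝ) ^ (b + 7) = 2 ^ (b + 1) * 2 ^ (6 : ℕ) := by
      rw [← zp_add]; congr 1; push_cast; ring
    rw [h2] at h1
    norm_num at h1
    linarith
  set U0 : Finset ℤ := Finset.Icc (a - 6) (a + N + 2) ∪ Finset.Icc (b - N - 2) (b + 6) with hU0
  have hU0c : (U0.card : ℝ) ≤ 2 * N + 18 := by
    have h1 : U0.card ≤ (N + 9) + (N + 9) := by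
      refine (Finset.card_union_le _ _).trans (add_le_add ?_ ?_)
      · rw [Int.card_Icc]; omega
      · rw [Int.card_Icc]; omega
    have h2 : (U0.card : ℝ) ≤ ((N + 9 : ℕ) : ℝ) + ((N + 9 : ℕ) : ℝ) := by exact_mod_cast h1
    push_cast at h2
    linarith
  have hrange : ∀ j : ℤ, A < (2 : ℝ) ^ j → (2 : ℝ) ^ j < B → j ∉ U0 →
      a + N + 3 ≤ j ∧ j ≤ b - N - 3 := by
    intro j h1 h2 h3
    have h4 := hlow j h1
    have h5 := hhigh j h2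
    rw [hU0, Finset.mem_union, Finset.mem_Icc, Finset.mem_Icc] at h3
    push Not at h3
    constructor
    · by_contra hcon
      have := h3.1 h4
      omega
    · by_contra hcon
      have : b - N - 2 ≤ j := by omega
      have := h3.2 this
      omega
  have hbas : ∀ j : ℤ, A < (2 : ℝ) ^ j → (2 : ℝ) ^ j < B → j ∉ U0 →
      128 * A ≤ (2 : ℝ) ^ j ∧ 128 * (2 : ℝ) ^ j ≤ B := by
    intro j h1 h2 h3
    obtain ⟨h4, h5⟩ := hrange j h1 h2 h3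
    constructor
    · have h6 := haJ (j - 1) (by omega)
      have h7 : (2 : ℝ) ^ j = 2 ^ (j - 1) * 2 ^ (1 : ℕ) := by
        rw [← zp_add]; congr 1; push_cast; ring
      rw [h7, pow_one]
      linarith
    · have h6 := hbJ (j + 1) (by omega)
      have h7 : (2 : ℝ) ^ (j + 1) = 2 ^ j * 2 ^ (1 : ℕ) := by
        rw [← zp_add]; rfl
      rw [h7, pow_one] at h6
      linarith
  have hcirc : ∀ (j : ℤ) (ζ : ℂ), 128 * A ≤ (2 : ℝ) ^ j → 128 * (2 : ℝ) ^ j ≤ B →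
      (2 : ℝ) ^ (j - 1) ≤ ‖ζ‖ → ‖ζ‖ ≤ (2 : ℝ) ^ (j + 2) → A < ‖ζ‖ ∧ ‖ζ‖ < B := by
    intro j ζ h1 h2 h3 h4
    have h7 : (2 : ℝ) ^ j = 2 ^ (j - 1) * 2 ^ (1 : ℕ) := by
      rw [← zp_add]; congr 1; push_cast; ring
    have h8 : (2 : ℝ) ^ (j + 2) = 2 ^ j * 2 ^ (2 : ℕ) := by
      rw [← zp_add]; rfl
    have h9 := zp_pos j
    rw [pow_one] at h7
    norm_num at h8
    constructor
    · linarith
    · linarith
  have hsmall : (2 * (N : ℝ) + 18) ≤ (20 + 12 * C₁) * (Λ + 1) * N := by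
    have h1 : 2 * (N : ℝ) + 18 ≤ 20 * N := by linarith
    have h2 : 20 * (N : ℝ) ≤ 20 * (Λ + 1) * N := by nlinarith
    have h3 : 0 ≤ 12 * C₁ * (Λ + 1) * N := by positivity
    nlinarith
  by_cases hz : (∀ i k, c i k = 0) ∨ b < a
  · refine ⟨U0, hU0c.trans hsmall, ?_⟩
    intro j h1 h2 h3
    obtain ⟨h4, h5⟩ := hbas j h1 h2 h3
    refine ⟨h4, h5, 0, by simp; positivity, ?_⟩
    intro M hM i ζ hζ1 hζ2
    rcases hz with hz | hz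
    · obtain ⟨h6, h7⟩ := hcirc j ζ h4 h5 hζ1 hζ2
      obtain ⟨-, h8⟩ := hlau i ζ h6 h7
      have h9 : φ i ζ = 0 := by
        have h10 : (fun k : ℤ => c i k * ζ ^ k) = fun _ => 0 := by
          funext k; rw [hz, zero_mul]
        rw [h10] at h8
        exact h8.unique hasSum_zero
      have h11 : 0 ≤ M := (norm_nonneg _).trans (hM i ζ hζ1 hζ2)
      rw [h9, hz, zero_mul, sub_zero, norm_zero]
      positivity
    · exfalso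
      obtain ⟨h6, h7⟩ := hrange j h1 h2 h3
      omega
  push Not at hz
  obtain ⟨⟨i₀, k₀, hc0⟩, hab⟩ := hz
  set γ : ℤ → ℝ := fun k => ⨆ i, ‖c i k‖ with hγ
  have hJ : ∀ j : ℤ, a ≤ j → j ≤ b → 64 * A ≤ (2 : ℝ) ^ j ∧ 64 * (2 : ℝ) ^ j ≤ B :=
    fun j h1 h2 => ⟨haJ j h1, hbJ j h2⟩
  have hbdd : ∀ k, BddAbove (Set.range fun i => ‖c i k‖) := by
    intro k
    obtain ⟨h1, h2⟩ := hJ a le_rfl hab
    obtain ⟨M, hM⟩ := hbd _ h1 h2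
    have hp := zp_pos a
    refine ⟨M / ((2 : ℝ) ^ a) ^ k, ?_⟩
    rintro _ ⟨i, rfl⟩
    have h3 := lau_coef A B (c i) (φ i) (hlau i) ((2 : ℝ) ^ a) M hA.le (by linarith) (by linarith)
      (fun ζ hζ => hM i ζ hζ.ge (by rw [hζ]; linarith)) k
    rw [le_div_iff₀ (zpow_pos hp k)]
    exact h3
  have hle : ∀ i k, ‖c i k‖ ≤ γ k := fun i k => le_ciSup (hbdd k) i
  have : Nonempty ι := ⟨i₀⟩
  have hsup : ∀ (k : ℤ) (t T : ℝ), 0 < t → (∀ i, ‖c i k‖ * t ≤ T) → γ k * t ≤ T := by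
    intro k t T ht h
    rw [← le_div_iff₀ ht]
    exact ciSup_le fun i => (le_div_iff₀ ht).2 (h i)
  have hγ0 : ∀ k, 0 ≤ γ k := fun k => (norm_nonneg _).trans (hle i₀ k)
  -- the central index
  have hcentral : ∀ j : ℤ, ∃ v : ℤ, a ≤ j → j ≤ b →
      |(v : ℝ)| ≤ C₁ * (Λ + 1) ∧ 0 < γ v ∧
        ∀ k : ℤ, γ k * ((2 : ℝ) ^ j) ^ k ≤ γ v * ((2 : ℝ) ^ j) ^ v := by
    intro j
    by_cases hj : a ≤ j ∧ j ≤ b
    swap
    · exact ⟨0, fun h1 h2 => absurd ⟨h1, h2⟩ hj⟩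
    obtain ⟨h1, h2⟩ := hJ j hj.1 hj.2
    obtain ⟨M, hM⟩ := hbd _ h1 h2
    set ρ : ℝ := (2 : ℝ) ^ j with hρ
    have hρ0 : 0 < ρ := zp_pos j
    set V : Set ℝ := {x | ∃ (i : ι) (ζ : ℂ), ρ ≤ ‖ζ‖ ∧ ‖ζ‖ ≤ 2 * ρ ∧ x = ‖φ i ζ‖} with hV
    have hVb : BddAbove V := ⟨M, by
      rintro _ ⟨i, ζ, h3, h4, rfl⟩
      exact hM i ζ h3 h4⟩
    have hVn : V.Nonempty := ⟨‖φ i₀ (ρ : ℂ)‖, i₀, ρ, by
      rw [Complex.norm_real, Real.norm_of_nonneg hρ0.le], by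
      rw [Complex.norm_real, Real.norm_of_nonneg hρ0.le]; linarith, rfl⟩
    set m : ℝ := sSup V with hm
    have hmle : ∀ (i : ι) (ζ : ℂ), ρ ≤ ‖ζ‖ → ‖ζ‖ ≤ 2 * ρ → ‖φ i ζ‖ ≤ m :=
      fun i ζ h3 h4 => le_csSup hVb ⟨i, ζ, h3, h4, rfl⟩
    have hm0 : 0 < m := by
      have h3 := lau_coef A B (c i₀) (φ i₀) (hlau i₀) ρ m hA.le (by linarith) (by linarith)
        (fun ζ hζ => hmle i₀ ζ hζ.ge (by rw [hζ]; linarith)) k₀
      have h4 : 0 < ‖c i₀ k₀‖ * ρ ^ k₀ := mul_pos (norm_pos_iff.2 hc0) (zpow_pos hρ0 k₀)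
      linarith
    have hdb' := hdb ρ m h1 h2 hmle
    obtain ⟨v, hv1, hv2, hv3⟩ := hcen γ ρ m Λ hγ0 hρ0 hm0 hΛ (fun k => by
        refine hsup k _ _ (zpow_pos (by linarith) k) fun i => ?_
        exact lau_coef A B (c i) (φ i) (hlau i) (8 * ρ) _ hA.le (by linarith) (by linarith)
          (fun ζ hζ => hdb' i ζ (by rw [hζ]; linarith) hζ.le) k) (fun k => by
        refine hsup k _ _ (zpow_pos (by linarith) k) fun i => ?_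
        exact lau_coef A B (c i) (φ i) (hlau i) (ρ / 4) _ hA.le (by linarith) (by linarith)
          (fun ζ hζ => hdb' i ζ hζ.ge (by rw [hζ]; linarith)) k) (fun T hT => by
        refine csSup_le hVn ?_
        rintro _ ⟨i, ζ, h3, h4, rfl⟩
        obtain ⟨hs1, hs2⟩ := hlau i ζ (by linarith) (by linarith)
        rw [← hs2.tsum_eq]
        have hnorm : (fun k : ℤ => ‖c i k * ζ ^ k‖) = fun k : ℤ => ‖c i k‖ * ‖ζ‖ ^ k := by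
          funext k
          rw [norm_mul, norm_zpow]
        refine (norm_tsum_le_tsum_norm (by rw [hnorm]; exact hs1)).trans ?_
        rw [hnorm]
        refine hs1.tsum_le_of_sum_le fun s => ?_
        refine le_trans (Finset.sum_le_sum fun k _ => ?_) (hT s)
        exact mul_le_mul (hle i k) (zpow_le_sum hρ0 h3 h4 k)
          (zpow_nonneg (norm_nonneg _) k) (hγ0 k))
    exact ⟨v, fun _ _ => ⟨hv1, hv2, hv3⟩⟩
  choose ν hν using hcentral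
  have hmono : ∀ i j, a ≤ i → i ≤ j → j ≤ b → ν i ≤ ν j := by
    intro i j h1 h2 h3
    rcases h2.lt_or_eq with h4 | h4
    · obtain ⟨-, h5, h6⟩ := hν i h1 (by omega)
      obtain ⟨-, -, h7⟩ := hν j (by omega) h3
      exact cen_mono γ _ _ _ _ hγ0 (zp_pos i) (zp_lt h4) h6 h7 h5
    · rw [h4]
  have hjump := count_jumps ν a b (C₁ * (Λ + 1)) (N + 2) (by positivity) hmono
    (fun j h1 h2 => (hν j h1 h2).1)
  set bad : Finset ℤ := (Finset.Icc (a + ((N + 2 : ℕ) : ℤ)) (b - ((N + 2 : ℕ) : ℤ))).filter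
    (fun j => ν (j - ((N + 2 : ℕ) : ℤ)) ≠ ν (j + ((N + 2 : ℕ) : ℤ))) with hbad
  refine ⟨U0 ∪ bad, ?_, ?_⟩
  · have h1 : (((U0 ∪ bad).card : ℕ) : ℝ) ≤ (U0.card : ℝ) + (bad.card : ℝ) := by
      exact_mod_cast Finset.card_union_le _ _
    have h2 : (bad.card : ℝ) ≤ 4 * ((N : ℝ) + 2) * (C₁ * (Λ + 1)) := by
      have := hjump
      push_cast at this ⊢
      exact this
    have h3 : 4 * ((N : ℝ) + 2) * (C₁ * (Λ + 1)) ≤ 12 * C₁ * (Λ + 1) * N := by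
      have h4 : 0 ≤ C₁ * (Λ + 1) := by positivity
      nlinarith
    have h5 : 2 * (N : ℝ) + 18 ≤ 20 * (Λ + 1) * N := by nlinarith
    have h6 : (20 + 12 * C₁) * (Λ + 1) * (N : ℝ) = 20 * (Λ + 1) * N + 12 * C₁ * (Λ + 1) * N := by
      ring
    linarith
  · intro j h1 h2 h3
    rw [Finset.mem_union, not_or] at h3
    obtain ⟨h4, h5⟩ := hbas j h1 h2 h3.1
    obtain ⟨h6, h7⟩ := hrange j h1 h2 h3.1
    refine ⟨h4, h5, ?_⟩
    have heq : ν (j - ((N + 2 : ℕ) : ℤ)) = ν (j + ((N + 2 : ℕ) : ℤ)) := by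
      by_contra hne
      refine h3.2 ?_
      rw [hbad, Finset.mem_filter, Finset.mem_Icc]
      exact ⟨⟨by push_cast; omega, by push_cast; omega⟩, hne⟩
    obtain ⟨g1, g2, g3⟩ := hν (j - ((N + 2 : ℕ) : ℤ)) (by push_cast; omega) (by push_cast; omega)
    obtain ⟨-, -, g4⟩ := hν (j + ((N + 2 : ℕ) : ℤ)) (by push_cast; omega) (by push_cast; omega)
    rw [← heq] at g4
    set m : ℤ := ν (j - ((N + 2 : ℕ) : ℤ)) with hm
    refine ⟨m, ?_, ?_⟩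
    · refine g1.trans ?_
      have : 0 ≤ (20 + 11 * C₁) * (Λ + 1) := by positivity
      nlinarith
    intro M hM i ζ hζ1 hζ2
    obtain ⟨k1, k2⟩ := hcirc j ζ h4 h5 hζ1 hζ2
    have hζ0 : 0 < ‖ζ‖ := hA.trans k1
    have hζne : ζ ≠ 0 := norm_pos_iff.1 hζ0
    have e1 : (2 : ℝ) ^ N * (2 : ℝ) ^ (j - ((N + 2 : ℕ) : ℤ)) = 2 ^ (j - 2) := by
      rw [mul_comm, ← zp_add]; congr 1; push_cast; ring
    have e2 : (2 : ℝ) ^ N * (2 : ℝ) ^ (j + 2) = 2 ^ (j + ((N + 2 : ℕ) : ℤ)) := by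
      rw [mul_comm, ← zp_add]; congr 1; push_cast; ring
    have hdom := cen_dom γ _ _ ‖ζ‖ m N hγ0 (zp_pos (j - ((N + 2 : ℕ) : ℤ))) g3 g4 (by
        rw [e1]
        exact (zp_le (by omega)).trans hζ1) (by
        rw [← e2]
        exact mul_le_mul_of_nonneg_left hζ2 (by positivity))
    have hfin := dom_sum γ (c i) (φ i ζ) ζ m N hN hζne (fun k => hle i k) (hlau i ζ k1 k2).2 hdom
    refine hfin.trans ?_
    have hM' : γ m * ‖ζ‖ ^ m ≤ M := by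
      refine hsup m _ _ (zpow_pos hζ0 m) fun i' => ?_
      exact lau_coef A B (c i') (φ i') (hlau i') ‖ζ‖ M hA.le k1 k2
        (fun z hz => hM i' z (by rw [hz]; exact hζ1) (by rw [hz]; exact hζ2)) m
    have h2N : (0 : ℝ) < 2 ^ N := by positivity
    gcongr

end PC992LG
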