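import Pool.Agent.Work.MP_992d6e_an.LG.GLin
import Pool.Agent.Work.MP_992d6e_an.LG.RCx

/-!
MODULE GBall (M). Growth of the field on real balls.

`C₁, c₀` from `real_to_complex`, `C₂` from `doubling`. Let `0 < ‖x - y‖ ≤ s/8` (for `x = y` the bound is the hypothesis), `e = (x - y)/‖x - y‖`, `e'` the normalised
`F q a x` (if it is not zero), `φ` from `gLineCls`. Let `r' = min r (c₀ s)`. On `|t| ≤ r'` real, `‖φ t‖ ≤ m`. `real_to_complex` (`z0 = 0`, `R = s`,
`ρ = r'`): `‖φ z‖ ≤ exp (C₁ n^4) m` on `closedBall 0 r'`. `doubling` with `ρ₁ = r'`, `ρ₂ = s/16` if `r' ≤ s/16` (`4 ρ₂ = s/4 < s`; otherwise `r' > s/16` and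
use `doubling` with `ρ₁ = s/16`): on `closedBall 0 (s/8)`, `‖φ‖ ≤ (s/(8 r'))^(C₂ n^4) exp (C₁ n^4) m` (or constant `2^(C₂ n^4)`). `s/r' ≤ (s/r)/c₀`,
`log (s/(8 r')) ≤ log (s/r) + log (1/c₀)`, so everything is at most `exp (C n^4 (1 + log (s/r))) m` (`log (s/r) ≥ 0`).
-/

set_option autoImplicit false

namespace PC992LG

open Metric SM992

theorem ball_growth : ∃ C : ℝ, 0 < C ∧ ∀ (n : ℕ) (q : Fin n → ℝ) (a : Fin n → E) (y : E)
    (s r m : ℝ), 0 < n → 0 < r → r ≤ s / 8 → (∀ l, s ≤ ‖y - a l‖) →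
    (∀ x, ‖x - y‖ ≤ r → ‖F q a x‖ ≤ m) →
    ∀ x, ‖x - y‖ ≤ s / 8 → ‖F q a x‖ ≤ Real.exp (C * n ^ 4 * (1 + Real.log (s / r))) * m := by
  obtain ⟨C1, c0, hC1, hc0, hc01, hrc⟩ := real_to_complex
  obtain ⟨C2, hC2, hdb⟩ := doubling
  have hlogc : 0 ≤ Real.log (1 / c0) := by
    apply Real.log_nonneg
    rw [one_div]
    exact (one_le_inv₀ hc0).2 hc01
  refine ⟨C1 + C2 * (1 + Real.log (1 / c0)), by positivity, ?_⟩
  intro n q a y s r m hn hr hrs hy hm x hx
  have hs : 0 < s := by linarith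
  have hm0 : 0 ≤ m := le_trans (norm_nonneg _) (hm y (by simpa using hr.le))
  have hlog : 0 ≤ Real.log (s / r) := by
    apply Real.log_nonneg
    rw [le_div_iff₀ hr]
    linarith
  have hn4 : (0 : ℝ) ≤ (n : ℝ) ^ 4 := by positivity
  have hexp1 : 1 ≤ Real.exp ((C1 + C2 * (1 + Real.log (1 / c0))) * n ^ 4 * (1 + Real.log (s / r))) := by
    apply Real.one_le_exp
    positivity
  by_cases hxy : x = y
  · subst hxy
    have h1 := hm x (by simpa using hr.le)
    calc ‖F q a x‖ ≤ m := h1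
      _ ≤ _ := le_mul_of_one_le_left hm0 hexp1
  by_cases hv : F q a x = 0
  · rw [hv, norm_zero]
    positivity
  have hd : 0 < ‖x - y‖ := norm_pos_iff.2 (sub_ne_zero.2 hxy)
  have hvn : 0 < ‖F q a x‖ := norm_pos_iff.2 hv
  set e : E := ‖x - y‖⁻¹ • (x - y) with he_def
  set e' : E := ‖F q a x‖⁻¹ • F q a x with he'_def
  have he : ‖e‖ = 1 := by
    rw [he_def, norm_smul, norm_inv, norm_norm]
    exact inv_mul_cancel₀ hd.ne'
  have he' : ‖e'‖ = 1 := by
    rw [he'_def, norm_smul, norm_inv, norm_norm]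
    exact inv_mul_cancel₀ hvn.ne'
  obtain ⟨φ, hφ, hφr⟩ := gLineCls q a y s hs hy e e' he he'
  have hxe : y + ‖x - y‖ • e = x := by
    rw [he_def, smul_smul, mul_inv_cancel₀ hd.ne', one_smul]
    abel
  have hval : ‖F q a x‖ = ‖φ ((‖x - y‖ : ℝ) : ℂ)‖ := by
    have h1 := hφr ‖x - y‖ (by rw [abs_norm]; linarith)
    rw [hxe] at h1
    rw [h1, Complex.norm_real, Real.norm_eq_abs, he'_def, inner_smul_left,
      real_inner_self_eq_norm_sq]
    simp only [RCLike.conj_to_real]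
    have h2 : ‖F q a x‖⁻¹ * ‖F q a x‖ ^ 2 = ‖F q a x‖ := by
      field_simp
    rw [h2, abs_norm]
  have hsmall : ∀ t : ℝ, |t| ≤ c0 * r / 2 → ‖φ ((0 : ℂ) + t)‖ ≤ m := by
    intro t ht
    have h0 : c0 * r / 2 ≤ r := by nlinarith
    have h1 : |t| < s := by linarith
    have h2 := hφr t h1
    rw [zero_add, h2, Complex.norm_real, Real.norm_eq_abs]
    refine le_trans (abs_real_inner_le_norm _ _) ?_
    rw [he', one_mul]
    refine hm _ ?_
    rw [add_sub_cancel_left, norm_smul, he, mul_one, Real.norm_eq_abs]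
    linarith
  have h1 := hrc n hn 0 s φ hφ (c0 * r / 2) m (by positivity) (by nlinarith) hsmall
  have h2 := hdb n hn 0 s φ hφ (c0 * r / 2) (s / 16) _ (by positivity) (by nlinarith) (by linarith)
    h1 ((‖x - y‖ : ℝ) : ℂ) (by
      rw [mem_closedBall, dist_zero_right, Complex.norm_real, norm_norm]
      linarith)
  rw [hval]
  refine le_trans h2 ?_
  rw [← mul_assoc]
  refine mul_le_mul_of_nonneg_right ?_ hm0
  have hq : 0 < 2 * (s / 16) / (c0 * r / 2) := by positivity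
  rw [Real.rpow_def_of_pos hq, ← Real.exp_add]
  refine Real.exp_le_exp.2 ?_
  have h3 : Real.log (2 * (s / 16) / (c0 * r / 2)) ≤ Real.log (s / r) + Real.log (1 / c0) := by
    rw [← Real.log_mul (by positivity) (by positivity)]
    refine Real.log_le_log hq ?_
    have : 2 * (s / 16) / (c0 * r / 2) = s / r * (1 / c0) / 4 := by
      field_simp
      norm_num
    rw [this]
    have h4 : 0 ≤ s / r * (1 / c0) := by positivity
    linarith
  have h5 : Real.log (2 * (s / 16) / (c0 * r / 2)) * (C2 * (n : ℝ) ^ 4) ≤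
      (Real.log (s / r) + Real.log (1 / c0)) * (C2 * (n : ℝ) ^ 4) :=
    mul_le_mul_of_nonneg_right h3 (by positivity)
  have h6 : 0 ≤ C1 * (n : ℝ) ^ 4 * Real.log (s / r) := by positivity
  have h7 : 0 ≤ C2 * Real.log (1 / c0) * (n : ℝ) ^ 4 * Real.log (s / r) := by positivity
  have h8 : 0 ≤ C2 * (n : ℝ) ^ 4 := by positivity
  nlinarith

end PC992LG
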