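import Pool.Agent.Work.MP_992d6e_an.LG.GDefs

/-!
MODULE GCoef (M). Cauchy's estimate for Laurent coefficients (needs only the definition `Lau`).

Average over the `N`-th roots of unity: for `ω = exp (2πi/N)`,
`(1/N) ∑_{s<N} φ(ρ ω^s) ω^(-s k) = ∑_(j ≡ k mod N) c_j ρ^j` (exchange the finite sum and the series; the geometric sum
`∑_{s<N} ω^(s(j-k))` is `N` if `N ∣ j-k` and `0` otherwise). The left side has absolute value at most `M`, the right side differs from
`c_k ρ^k` by at most `∑_(j ≠ k, N ∣ j-k) |c_j| ρ^j ≤ ∑_(|j-k| ≥ N) |c_j| ρ^j`, which tends to `0` (summability).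
Or: integrate the uniformly convergent series against `exp (-i k θ)` over `[0, 2π]` (`hasSum_integral_of_summable_integral_norm` or
`intervalIntegral.hasSum_integral_of_summable_norm`), orthogonality of `exp (i j θ)` (fourier, integral_exp_mul_complex).
-/

set_option autoImplicit false

namespace PC992LG

open Metric

private lemma gc_int (n : ℤ) : ∫ t in (0 : ℝ)..(2 * Real.pi), Complex.exp ((n : ℂ) * Complex.I * t) =
    if n = 0 then ((2 * Real.pi : ℝ) : ℂ) else 0 := by
  split_ifs with h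
  · subst h
    simp
  · have hn : (n : ℂ) * Complex.I ≠ 0 := by
      simp [h]
    rw [integral_exp_mul_complex hn]
    have h1 : (n : ℂ) * Complex.I * ((2 * Real.pi : ℝ) : ℂ) = n * (2 * Real.pi * Complex.I) := by
      push_cast
      ring
    rw [h1, Complex.exp_int_mul_two_pi_mul_I]
    simp

theorem lau_coef (A B : ℝ) (c : ℤ → ℂ) (φ : ℂ → ℂ) (h : Lau A B c φ) (ρ M : ℝ) (hA : 0 ≤ A)
    (h1 : A < ρ) (h2 : ρ < B) (hM : ∀ ζ : ℂ, ‖ζ‖ = ρ → ‖φ ζ‖ ≤ M) (k : ℤ) :
    ‖c k‖ * ρ ^ k ≤ M := by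
  have hρ : 0 < ρ := lt_of_le_of_lt hA h1
  have hpi := Real.pi_pos
  have hn : ∀ t : ℝ, ‖(ρ : ℂ) * Complex.exp (t * Complex.I)‖ = ρ := by
    intro t
    rw [norm_mul, Complex.norm_exp_ofReal_mul_I, mul_one, Complex.norm_real,
      Real.norm_of_nonneg hρ.le]
  have hs : Summable (fun j : ℤ => ‖c j‖ * ρ ^ j) := by
    have := (h _ (by rw [hn 0]; exact h1) (by rw [hn 0]; exact h2)).1
    simpa only [hn] using this
  have hnk : ∀ (j : ℤ) (t : ℝ), ‖Complex.exp ((j : ℂ) * Complex.I * t)‖ = 1 := by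
    intro j t
    have : (j : ℂ) * Complex.I * t = ((j * t : ℝ) : ℂ) * Complex.I := by
      push_cast
      ring
    rw [this, Complex.norm_exp_ofReal_mul_I]
  have hpt : ∀ t : ℝ, HasSum (fun j : ℤ => c j * (ρ : ℂ) ^ j *
      Complex.exp (((j - k : ℤ) : ℂ) * Complex.I * t))
      (φ (ρ * Complex.exp (t * Complex.I)) * Complex.exp (((-k : ℤ) : ℂ) * Complex.I * t)) := by
    intro t
    have h3 := ((h _ (by rw [hn t]; exact h1) (by rw [hn t]; exact h2)).2).mul_right
      (Complex.exp (((-k : ℤ) : ℂ) * Complex.I * t))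
    refine h3.congr_fun ?_
    intro j
    have e1 : Complex.exp (((j - k : ℤ) : ℂ) * Complex.I * t) =
        Complex.exp (t * Complex.I) ^ j * Complex.exp (((-k : ℤ) : ℂ) * Complex.I * t) := by
      rw [← Complex.exp_int_mul, ← Complex.exp_add]
      congr 1
      push_cast
      ring
    rw [e1, mul_zpow]
    ring
  have hsum := intervalIntegral.hasSum_integral_of_dominated_convergence
    (μ := MeasureTheory.volume) (a := (0 : ℝ)) (b := 2 * Real.pi)
    (F := fun (j : ℤ) (t : ℝ) => c j * (ρ : ℂ) ^ j *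
      Complex.exp (((j - k : ℤ) : ℂ) * Complex.I * t))
    (f := fun t : ℝ => φ (ρ * Complex.exp (t * Complex.I)) *
      Complex.exp (((-k : ℤ) : ℂ) * Complex.I * t))
    (fun j _ => ‖c j‖ * ρ ^ j)
    (fun j => by
      refine Continuous.aestronglyMeasurable ?_
      fun_prop)
    (fun j => Filter.Eventually.of_forall fun t _ => by
      rw [norm_mul, norm_mul, hnk, mul_one, norm_zpow, Complex.norm_real,
        Real.norm_of_nonneg hρ.le])
    (Filter.Eventually.of_forall fun t _ => hs)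
    (by simp)
    (Filter.Eventually.of_forall fun t _ => hpt t)
  have hF : (fun j : ℤ => ∫ t in (0 : ℝ)..(2 * Real.pi), c j * (ρ : ℂ) ^ j *
      Complex.exp (((j - k : ℤ) : ℂ) * Complex.I * t)) =
      fun j : ℤ => if j = k then c k * (ρ : ℂ) ^ k * ((2 * Real.pi : ℝ) : ℂ) else 0 := by
    funext j
    rw [intervalIntegral.integral_const_mul, gc_int]
    by_cases hj : j = k
    · subst hj
      simp
    · rw [if_neg (by omega), if_neg hj, mul_zero]
  rw [hF] at hsum
  have huniq := hsum.unique (hasSum_ite_eq k (c k * (ρ : ℂ) ^ k * ((2 * Real.pi : ℝ) : ℂ)))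
  have hb := intervalIntegral.norm_integral_le_of_norm_le_const (a := (0 : ℝ))
    (b := 2 * Real.pi) (C := M) (f := fun t : ℝ => φ (ρ * Complex.exp (t * Complex.I)) *
      Complex.exp (((-k : ℤ) : ℂ) * Complex.I * t)) (fun t _ => by
      rw [norm_mul, hnk, mul_one]
      exact hM _ (hn t))
  rw [huniq, norm_mul, norm_mul, norm_zpow, Complex.norm_real, Complex.norm_real,
    Real.norm_of_nonneg hρ.le, Real.norm_of_nonneg (by positivity : (0 : ℝ) ≤ 2 * Real.pi),
    sub_zero, abs_of_pos (by positivity : (0 : ℝ) < 2 * Real.pi)] at hb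
  exact le_of_mul_le_mul_right hb (by positivity)

end PC992LG
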