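import Pool.Agent.Work.MP_992d6e_an.LG.Defs
import Pool.Agent.Work.MP_992d6e_an.LG.LDefs

/-!
MP_992d6e_an, LG, part G (gaps): definitions.

PLAN. Let the charges `a i`, `i ∈ I`, be within distance `A` of `p` and the others beyond distance `B`. On the complex lines
`ζ ↦ p + ζ e` the field has a Laurent expansion on `A < |ζ| < B`. With `γ k` the supremum over all directions of the
absolute values of the `k`-th coefficients let `m(ρ)` be the central index: `γ k ρ^k ≤ γ m ρ^m` for all `k`. The doubling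
inequality gives `|m(ρ)| ≤ C n^4`, and `m(ρ)` is nondecreasing, so it is constant on `[2^(j-N), 2^(j+N)]` for all `j` except at most
`C n^4 N`. For the other `j` the field is `c ζ^m` up to a relative error `2^(-N)` at the scale `2^j`, and
Euler's identity excludes conditioned equilibria there.
-/

set_option autoImplicit false

namespace PC992LG

open Metric SM992

/-- `φ` is the sum of the Laurent series with coefficients `c` on `A < |ζ| < B`. -/
def Lau (A B : ℝ) (c : ℤ → ℂ) (φ : ℂ → ℂ) : Prop :=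
  ∀ ζ : ℂ, A < ‖ζ‖ → ‖ζ‖ < B →
    Summable (fun k : ℤ => ‖c k‖ * ‖ζ‖ ^ k) ∧ HasSum (fun k : ℤ => c k * ζ ^ k) (φ ζ)

/-- `φ e e'` is the complex extension of `t ↦ ⟪e', F (p + t e)⟫` to `A < |ζ| < B`, with
Laurent coefficients `c e e'`. -/
structure Fam {n : ℕ} (q : Fin n → ℝ) (a : Fin n → E) (p : E) (A B : ℝ) (c : E → E → ℤ → ℂ)
    (φ : E → E → ℂ → ℂ) : Prop where
  lau : ∀ e e' : E, ‖e‖ = 1 → ‖e'‖ = 1 → Lau A B (c e e') (φ e e')
  real : ∀ e e' : E, ‖e‖ = 1 → ‖e'‖ = 1 → ∀ t : ℝ, A < t → t < B →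
    φ e e' t = ((inner ℝ e' (F q a (p + t • e)) : ℝ) : ℂ)
  cls : ∀ e e' : E, ‖e‖ = 1 → ‖e'‖ = 1 → ∀ (z0 : ℂ) (R : ℝ),
    (∀ z ∈ ball z0 R, A < ‖z‖ ∧ ‖z‖ < B) → Cls n z0 R (φ e e')

end PC992LG
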