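import Pool.Agent.Work.MP_992d6e_an.LG.GDefs
import Pool.Agent.Work.MP_992d6e_an.LG.GBr

/-!
MODULE GLin (M). The field on a line through a point away from the charges is of class `Cls`.

`b l = y - a l`, `‖b l‖ ≥ s > 0`, `P l = C ‖b l‖^2 + C (2⟪b l, e⟫) X + X^2`. `gBranch` with `β = ⟪b l, e⟫/‖b l‖^2`, `κ = 1/‖b l‖`,
`ρ = s` (`κ s ≤ 1`); `h l z = ‖b l‖^(-3) g z`, `h l ^2 * P l ^3 = 1` since `P l (z) = ‖b l‖^2 R(z)`; for real `t`, `‖b l + t e‖ = ‖b l‖ √R(t)`, so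
`h l t = ‖b l + t e‖^(-3)`. `φ z = ∑ l, q l (⟪e', b l⟫ + z ⟪e', e⟫) h l z`, `γ = 0`. (`F q a (y + t e) = ∑ l, q l • (‖b l + t e‖^3)⁻¹ • (b l + t e)`.)
-/

set_option autoImplicit false

namespace PC992LG

open Metric SM992

private theorem norm_line (b e : E) (he : ‖e‖ = 1) (t : ℝ) (hb : 0 < ‖b‖)
    (hR : 0 < 1 + 2 * ((inner ℝ b e : ℝ) / ‖b‖ ^ 2) * t + (1 / ‖b‖) ^ 2 * t ^ 2) :
    ‖b + t • e‖ = ‖b‖ * Real.sqrt (1 + 2 * ((inner ℝ b e : ℝ) / ‖b‖ ^ 2) * t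
      + (1 / ‖b‖) ^ 2 * t ^ 2) := by
  have h1 : ‖b + t • e‖ ^ 2 = ‖b‖ ^ 2 + 2 * (t * (inner ℝ b e : ℝ)) + t ^ 2 := by
    rw [norm_add_sq_real, inner_smul_right, norm_smul, he, mul_one, Real.norm_eq_abs, sq_abs]
  have h2 : ‖b + t • e‖ ^ 2 = (‖b‖ * Real.sqrt (1 + 2 * ((inner ℝ b e : ℝ) / ‖b‖ ^ 2) * t
      + (1 / ‖b‖) ^ 2 * t ^ 2)) ^ 2 := by
    rw [mul_pow, Real.sq_sqrt hR.le, h1]
    field_simp
  exact (pow_left_inj₀ (norm_nonneg _) (by positivity) (by norm_num)).1 h2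

private theorem deg_aux (A B : ℂ) : (Polynomial.C A + Polynomial.C B * Polynomial.X
    + Polynomial.X ^ 2 : Polynomial ℂ).natDegree ≤ 2 := by
  compute_degree

theorem gLineCls {n : ℕ} (q : Fin n → ℝ) (a : Fin n → E) (y : E) (s : ℝ) (hs : 0 < s)
    (hy : ∀ l, s ≤ ‖y - a l‖) (e e' : E) (he : ‖e‖ = 1) (he' : ‖e'‖ = 1) :
    ∃ φ : ℂ → ℂ, Cls n 0 s φ ∧
      ∀ t : ℝ, |t| < s → φ t = ((inner ℝ e' (F q a (y + t • e)) : ℝ) : ℂ) := by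
  have hb : ∀ l, 0 < ‖y - a l‖ := fun l => lt_of_lt_of_le hs (hy l)
  have hbr : ∀ l, ∃ (g : ℂ → ℂ), DifferentiableOn ℂ g (ball 0 s) ∧
      (∀ w ∈ ball (0 : ℂ) s, g w ^ 2 * (1 + 2 * (((inner ℝ (y - a l) e : ℝ) / ‖y - a l‖ ^ 2 : ℝ) : ℂ) * w
        + ((1 / ‖y - a l‖ : ℝ) : ℂ) ^ 2 * w ^ 2) ^ 3 = 1) ∧
      (∀ t : ℝ, |t| < s → 0 < 1 + 2 * ((inner ℝ (y - a l) e : ℝ) / ‖y - a l‖ ^ 2) * t
          + (1 / ‖y - a l‖) ^ 2 * t ^ 2 ∧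
        g t = (((Real.sqrt (1 + 2 * ((inner ℝ (y - a l) e : ℝ) / ‖y - a l‖ ^ 2) * t
          + (1 / ‖y - a l‖) ^ 2 * t ^ 2) ^ 3)⁻¹ : ℝ) : ℂ)) := by
    intro l
    have h1 : |(inner ℝ (y - a l) e : ℝ) / ‖y - a l‖ ^ 2| ≤ 1 / ‖y - a l‖ := by
      rw [abs_div, abs_of_pos (pow_pos (hb l) 2), div_le_div_iff₀ (pow_pos (hb l) 2) (hb l)]
      have h2 := abs_real_inner_le_norm (y - a l) e
      rw [he, mul_one] at h2
      calc |(inner ℝ (y - a l) e : ℝ)| * ‖y - a l‖ ≤ ‖y - a l‖ * ‖y - a l‖ :=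
            mul_le_mul_of_nonneg_right h2 (norm_nonneg _)
        _ = 1 * ‖y - a l‖ ^ 2 := by ring
    have h3 : 1 / ‖y - a l‖ * s ≤ 1 := by
      rw [one_div, inv_mul_le_iff₀ (hb l), mul_one]
      exact hy l
    obtain ⟨g, d, hg1, hg2, hg3, -⟩ := gBranch _ _ s h1 hs h3
    exact ⟨g, hg1, hg2, hg3⟩
  choose g hg1 hg2 hg3 using hbr
  refine ⟨fun z => ∑ l, (((q l * (inner ℝ e' (y - a l) : ℝ) : ℝ) : ℂ)
      + ((q l * (inner ℝ e' e : ℝ) : ℝ) : ℂ) * z) * ((((‖y - a l‖ ^ 3)⁻¹ : ℝ) : ℂ) * g l z), ?_, ?_⟩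
  · refine ⟨0, fun l => ((q l * (inner ℝ e' (y - a l) : ℝ) : ℝ) : ℂ),
      fun l => ((q l * (inner ℝ e' e : ℝ) : ℝ) : ℂ),
      fun l => Polynomial.C ((‖y - a l‖ ^ 2 : ℝ) : ℂ)
        + Polynomial.C ((2 * (inner ℝ (y - a l) e : ℝ) : ℝ) : ℂ) * Polynomial.X + Polynomial.X ^ 2,
      fun l z => (((‖y - a l‖ ^ 3)⁻¹ : ℝ) : ℂ) * g l z, ?_, ?_, ?_, ?_⟩
    · intro l
      exact deg_aux _ _
    · intro l
      exact (hg1 l).const_mul _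
    · intro l z hz
      have h1 := hg2 l z hz
      have hbl : ((‖y - a l‖ : ℝ) : ℂ) ≠ 0 := by exact_mod_cast (hb l).ne'
      simp only [Polynomial.eval_add, Polynomial.eval_mul, Polynomial.eval_C, Polynomial.eval_X,
        Polynomial.eval_pow]
      have h2 : (((‖y - a l‖ ^ 2 : ℝ) : ℂ) + ((2 * (inner ℝ (y - a l) e : ℝ) : ℝ) : ℂ) * z + z ^ 2)
          = ((‖y - a l‖ : ℝ) : ℂ) ^ 2 * (1 + 2 * (((inner ℝ (y - a l) e : ℝ) / ‖y - a l‖ ^ 2 : ℝ) : ℂ) * z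
        + ((1 / ‖y - a l‖ : ℝ) : ℂ) ^ 2 * z ^ 2) := by
        push_cast
        field_simp
      rw [h2, mul_pow, mul_pow]
      have h3 : ((((‖y - a l‖ ^ 3)⁻¹ : ℝ) : ℂ)) ^ 2 * (((‖y - a l‖ : ℝ) : ℂ) ^ 2) ^ 3 = 1 := by
        push_cast
        field_simp
      calc _ = (((((‖y - a l‖ ^ 3)⁻¹ : ℝ) : ℂ)) ^ 2 * (((‖y - a l‖ : ℝ) : ℂ) ^ 2) ^ 3)
            * (g l z ^ 2 * (1 + 2 * (((inner ℝ (y - a l) e : ℝ) / ‖y - a l‖ ^ 2 : ℝ) : ℂ) * z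
        + ((1 / ‖y - a l‖ : ℝ) : ℂ) ^ 2 * z ^ 2) ^ 3) := by ring
        _ = 1 := by rw [h3, h1, one_mul]
    · intro z hz
      simp
  · intro t ht
    simp only [F]
    rw [inner_sum]
    push_cast
    refine Finset.sum_congr rfl fun l _ => ?_
    obtain ⟨hR, hgt⟩ := hg3 l t ht
    have hn := norm_line (y - a l) e he t (hb l) hR
    have h1 : y + t • e - a l = (y - a l) + t • e := by abel
    rw [hgt, SM992.g, h1, inner_smul_right, inner_smul_right, inner_add_right, inner_smul_right, hn]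
    push_cast
    rw [mul_pow, mul_inv]
    ring

end PC992LG
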