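import Pool.Agent.Work.MP_992d6e_an.LG.GDefs

/-!
MODULE GPath (M). Chains of points in an annulus (elementary geometry).

Radial part (200 steps): `z i = p + λ^i • (x - p)` with `λ = (‖y - p‖/‖x - p‖)^(1/200)`; the ratio is in `[1/256, 256]`, so
`|λ - 1| ≤ 1/20` (`1.05^200 ≥ 256`, `0.95^200 ≤ 1/256`), and `‖z i - p‖` is between `‖x - p‖` and `‖y - p‖`. It ends at `x'` with
`‖x' - p‖ = ‖y - p‖ = t`. Rotation (100 steps): `x' = p + t u`, `y = p + t w`, `u, w` unit; there are a unit vector `v ⟂ u` and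
`θ ∈ [0, π]` with `w = cos θ • u + sin θ • v` (if `w = ± u` take any unit `v ⟂ u`, dimension 3; otherwise `v` = the normalised `w - ⟪u, w⟫ u`,
`θ = arccos ⟪u, w⟫`); `z i = p + t (cos (iθ/100) u + sin (iθ/100) v)`, `‖z i - p‖ = t` and `‖z (i+1) - z i‖ ≤ t θ/100 ≤ t/20`
(`‖(cos α - cos β, sin α - sin β)‖ ≤ |α - β|`). `N₀ = 300`.
-/

set_option autoImplicit false

namespace PC992LG

open SM992

private def Chain (p : E) (r : ℝ) (N : ℕ) (x y : E) : Prop :=
  ∃ z : ℕ → E, z 0 = x ∧ z N = y ∧ (∀ i < N, ‖z (i + 1) - z i‖ ≤ ‖z i - p‖ / 20) ∧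
      ∀ i ≤ N, r / 16 ≤ ‖z i - p‖ ∧ ‖z i - p‖ ≤ 16 * r

private theorem Chain.trans {p : E} {r : ℝ} {N N' : ℕ} {x y w : E} (h : Chain p r N x y)
    (h' : Chain p r N' y w) : Chain p r (N + N') x w := by
  obtain ⟨z, h1, h2, h3, h4⟩ := h
  obtain ⟨z', k1, k2, k3, k4⟩ := h'
  refine ⟨fun i => if i ≤ N then z i else z' (i - N), ?_, ?_, fun i hi => ?_, fun i hi => ?_⟩
  · simp only [Nat.zero_le, if_true]
    exact h1
  · show (if N + N' ≤ N then z (N + N') else z' (N + N' - N)) = w
    split_ifs with hc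
    · have : N' = 0 := by omega
      subst this
      rw [Nat.add_zero, h2, ← k1, k2]
    · rw [Nat.add_sub_cancel_left, k2]
  · show ‖(if i + 1 ≤ N then z (i + 1) else z' (i + 1 - N)) - (if i ≤ N then z i else z' (i - N))‖ ≤
      ‖(if i ≤ N then z i else z' (i - N)) - p‖ / 20
    rcases lt_trichotomy i N with hc | hc | hc
    · rw [if_pos (by omega : i + 1 ≤ N), if_pos hc.le]
      exact h3 i hc
    · subst hc
      rw [if_neg (by omega : ¬ i + 1 ≤ i), if_pos le_rfl, h2, Nat.add_sub_cancel_left]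
      have := k3 0 (by omega)
      rw [k1, Nat.zero_add] at this
      exact this
    · rw [if_neg (by omega : ¬ i + 1 ≤ N), if_neg (by omega : ¬ i ≤ N),
        show i + 1 - N = i - N + 1 by omega]
      exact k3 (i - N) (by omega)
  · show r / 16 ≤ ‖(if i ≤ N then z i else z' (i - N)) - p‖ ∧
      ‖(if i ≤ N then z i else z' (i - N)) - p‖ ≤ 16 * r
    split_ifs with hc
    · exact h4 i hc
    · exact k4 (i - N) (by omega)

private theorem radial {p x : E} {r t : ℝ} (hr : 0 < r) (hx1 : r / 16 ≤ ‖x - p‖)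
    (hx2 : ‖x - p‖ ≤ 16 * r) (ht1 : r / 16 ≤ t) (ht2 : t ≤ 16 * r) :
    ∃ x' : E, ‖x' - p‖ = t ∧ Chain p r 300 x x' := by
  have hs0 : 0 < ‖x - p‖ := lt_of_lt_of_le (by positivity) hx1
  have ht0 : 0 < t := lt_of_lt_of_le (by positivity) ht1
  set s : ℝ := ‖x - p‖ with hs
  set L : ℝ := Real.log (t / s) with hL
  have hts : 0 < t / s := div_pos ht0 hs0
  have hexp : Real.exp L = t / s := Real.exp_log hts
  have hlog : Real.log 256 < 5.6 := by
    have h1 : Real.log 256 = 8 * Real.log 2 := by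
      rw [show (256 : ℝ) = 2 ^ (8 : ℕ) by norm_num, Real.log_pow]
      norm_num
    have := Real.log_two_lt_d9
    rw [h1]
    linarith
  have hLa : |L| ≤ 5.6 := by
    rw [abs_le]
    constructor
    · have h1 : (1 : ℝ) / 256 ≤ t / s := by
        rw [div_le_div_iff₀ (by norm_num) hs0]
        linarith
      have h2 := Real.log_le_log (by norm_num) h1
      rw [one_div, Real.log_inv] at h2
      linarith
    · have h1 : t / s ≤ 256 := by
        rw [div_le_iff₀ hs0]
        linarith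
      have h2 := Real.log_le_log hts h1
      linarith
  have hnorm : ∀ u : ℝ, ‖(p + Real.exp u • (x - p)) - p‖ = Real.exp u * s := by
    intro u
    rw [add_sub_cancel_left, norm_smul, Real.norm_of_nonneg (Real.exp_pos u).le]
  refine ⟨p + Real.exp L • (x - p), ?_, fun i => p + Real.exp (i * (L / 300)) • (x - p), ?_, ?_,
    fun i hi => ?_, fun i hi => ?_⟩
  · rw [hnorm, hexp, div_mul_cancel₀ _ hs0.ne']
  · simp
  · show p + Real.exp (((300 : ℕ) : ℝ) * (L / 300)) • (x - p) = _
    congr 3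
    push_cast
    ring
  · rw [hnorm]
    have e1 : (p + Real.exp (((i + 1 : ℕ) : ℝ) * (L / 300)) • (x - p)) -
        (p + Real.exp (i * (L / 300)) • (x - p)) =
        (Real.exp (i * (L / 300)) * (Real.exp (L / 300) - 1)) • (x - p) := by
      rw [add_sub_add_left_eq_sub, ← sub_smul]
      congr 1
      push_cast
      rw [add_mul, one_mul, Real.exp_add]
      ring
    rw [e1, norm_smul, norm_mul, Real.norm_of_nonneg (Real.exp_pos _).le, Real.norm_eq_abs]
    have h1 : |L / 300| ≤ 5.6 / 300 := by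
      rw [abs_div, abs_of_pos (by norm_num : (0 : ℝ) < 300)]
      gcongr
    have h2 := Real.abs_exp_sub_one_le (x := L / 300) (h1.trans (by norm_num))
    have h3 : |Real.exp (L / 300) - 1| ≤ 1 / 20 := by
      refine h2.trans ?_
      linarith
    have h4 : 0 < Real.exp (i * (L / 300)) * s := by positivity
    calc Real.exp (i * (L / 300)) * |Real.exp (L / 300) - 1| * s =
        Real.exp (i * (L / 300)) * s * |Real.exp (L / 300) - 1| := by ring
      _ ≤ Real.exp (i * (L / 300)) * s * (1 / 20) := by gcongr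
      _ = Real.exp (i * (L / 300)) * s / 20 := by ring
  · rw [hnorm]
    have hi0 : (0 : ℝ) ≤ i := Nat.cast_nonneg i
    have hi1 : (i : ℝ) ≤ 300 := by exact_mod_cast hi
    have hes : Real.exp L * s = t := by rw [hexp, div_mul_cancel₀ _ hs0.ne']
    rcases le_total 0 L with hL0 | hL0
    · have e1 : 0 ≤ i * (L / 300) := by positivity
      have e2 : i * (L / 300) ≤ L := by
        have : (i : ℝ) * L ≤ 300 * L := mul_le_mul_of_nonneg_right hi1 hL0
        linarith
      have e3 : 1 ≤ Real.exp (i * (L / 300)) := Real.one_le_exp e1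
      have e4 := Real.exp_le_exp.2 e2
      constructor
      · nlinarith
      · have := mul_le_mul_of_nonneg_right e4 hs0.le
        linarith
    · have e1 : i * (L / 300) ≤ 0 := by
        have : (i : ℝ) * L ≤ 0 := mul_nonpos_of_nonneg_of_nonpos hi0 hL0
        linarith
      have e2 : L ≤ i * (L / 300) := by
        have : 300 * L ≤ (i : ℝ) * L := mul_le_mul_of_nonpos_right hi1 hL0
        linarith
      have e3 : Real.exp (i * (L / 300)) ≤ 1 := Real.exp_le_one_iff.2 e1
      have e4 := Real.exp_le_exp.2 e2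
      constructor
      · have := mul_le_mul_of_nonneg_right e4 hs0.le
        linarith
      · nlinarith

private theorem norm_comb {u v : E} (hu : ‖u‖ = 1) (hv : ‖v‖ = 1) (huv : inner ℝ u v = 0)
    (a b : ℝ) : ‖a • u + b • v‖ ^ 2 = a ^ 2 + b ^ 2 := by
  rw [norm_add_sq_real, norm_smul, norm_smul, hu, hv, inner_smul_left, inner_smul_right, huv]
  simp [sq_abs]

private theorem quarter {p u v : E} {r t : ℝ} (ht1 : r / 16 ≤ t) (ht2 : t ≤ 16 * r) (ht0 : 0 < t)
    (hu : ‖u‖ = 1) (hv : ‖v‖ = 1) (huv : inner ℝ u v = 0) :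
    Chain p r 50 (p + t • u) (p + t • v) := by
  have hnorm : ∀ a : ℝ, ‖(p + t • (Real.cos a • u + Real.sin a • v)) - p‖ = t := by
    intro a
    rw [add_sub_cancel_left, norm_smul, Real.norm_of_nonneg ht0.le]
    have h1 := norm_comb hu hv huv (Real.cos a) (Real.sin a)
    rw [Real.cos_sq_add_sin_sq] at h1
    have h2 : ‖Real.cos a • u + Real.sin a • v‖ = 1 := by
      have := norm_nonneg (Real.cos a • u + Real.sin a • v)
      nlinarith
    rw [h2, mul_one]
  refine ⟨fun i => p + t • (Real.cos (i * (Real.pi / 100)) • u +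
    Real.sin (i * (Real.pi / 100)) • v), ?_, ?_, fun i hi => ?_, fun i hi => ?_⟩
  · simp
  · show p + t • (Real.cos (((50 : ℕ) : ℝ) * (Real.pi / 100)) • u +
      Real.sin (((50 : ℕ) : ℝ) * (Real.pi / 100)) • v) = _
    rw [show ((50 : ℕ) : ℝ) * (Real.pi / 100) = Real.pi / 2 by push_cast; ring,
      Real.cos_pi_div_two, Real.sin_pi_div_two]
    simp
  · rw [hnorm]
    set α : ℝ := ((i + 1 : ℕ) : ℝ) * (Real.pi / 100) with hα
    set β : ℝ := (i : ℝ) * (Real.pi / 100) with hβ
    have hαβ : α - β = Real.pi / 100 := by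
      rw [hα, hβ]
      push_cast
      ring
    have e1 : (p + t • (Real.cos α • u + Real.sin α • v)) -
        (p + t • (Real.cos β • u + Real.sin β • v)) =
        t • ((Real.cos α - Real.cos β) • u + (Real.sin α - Real.sin β) • v) := by
      rw [add_sub_add_left_eq_sub, ← smul_sub]
      congr 1
      rw [sub_smul, sub_smul]
      abel
    have hgoal : ‖(p + t • (Real.cos α • u + Real.sin α • v)) -
        (p + t • (Real.cos β • u + Real.sin β • v))‖ ≤ t / 20 := by
      rw [e1, norm_smul, Real.norm_of_nonneg ht0.le]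
      have h1 := norm_comb hu hv huv (Real.cos α - Real.cos β) (Real.sin α - Real.sin β)
      have h2 : (Real.cos α - Real.cos β) ^ 2 + (Real.sin α - Real.sin β) ^ 2 =
          2 - 2 * Real.cos (α - β) := by
        rw [Real.cos_sub]
        have := Real.cos_sq_add_sin_sq α
        have := Real.cos_sq_add_sin_sq β
        nlinarith
      have h3 := Real.one_sub_sq_div_two_le_cos (x := α - β)
      have h4 : ‖(Real.cos α - Real.cos β) • u + (Real.sin α - Real.sin β) • v‖ ^ 2 ≤
          (Real.pi / 100) ^ 2 := by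
        rw [h1, h2, ← hαβ]
        linarith
      have h5 : ‖(Real.cos α - Real.cos β) • u + (Real.sin α - Real.sin β) • v‖ ≤
          Real.pi / 100 := by
        have hpi := Real.pi_pos
        exact (sq_le_sq₀ (norm_nonneg _) (by positivity)).1 h4
      have h6 : Real.pi / 100 ≤ 1 / 20 := by
        have := Real.pi_lt_d2
        linarith
      calc t * _ ≤ t * (1 / 20) := mul_le_mul_of_nonneg_left (h5.trans h6) ht0.le
        _ = t / 20 := by ring
    exact hgoal
  · rw [hnorm]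
    exact ⟨ht1, ht2⟩

private theorem third (u w : E) : ∃ v : E, ‖v‖ = 1 ∧ inner ℝ u v = 0 ∧ inner ℝ v w = 0 := by
  have h1 : Module.finrank ℝ (Submodule.span ℝ ({u, w} : Set E)) ≤ 2 := by
    have h2 := finrank_span_finset_le_card (R := ℝ) (M := E) ({u, w} : Finset E)
    rw [Finset.coe_pair] at h2
    exact h2.trans Finset.card_le_two
  have h3 := Submodule.finrank_add_finrank_orthogonal (Submodule.span ℝ ({u, w} : Set E))
  have h4 : Module.finrank ℝ E = 3 := by simp [E]
  rw [h4] at h3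
  have h5 : 0 < Module.finrank ℝ (Submodule.span ℝ ({u, w} : Set E))ᗮ := by omega
  have h6 : (Submodule.span ℝ ({u, w} : Set E))ᗮ ≠ ⊥ := by
    intro h
    rw [h, finrank_bot] at h5
    omega
  obtain ⟨v, hv, hv0⟩ := Submodule.exists_mem_ne_zero_of_ne_bot h6
  have hn : 0 < ‖v‖ := norm_pos_iff.2 hv0
  have a1 : inner ℝ u v = 0 := (Submodule.mem_orthogonal _ v).1 hv u
    (Submodule.subset_span (by simp))
  have a2 : inner ℝ w v = 0 := (Submodule.mem_orthogonal _ v).1 hv w
    (Submodule.subset_span (by simp))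
  refine ⟨‖v‖⁻¹ • v, ?_, ?_, ?_⟩
  · rw [norm_smul, norm_inv, norm_norm, inv_mul_cancel₀ hn.ne']
  · rw [inner_smul_right, a1, mul_zero]
  · rw [real_inner_comm, inner_smul_right, a2, mul_zero]

theorem path_exists : ∃ N₀ : ℕ, ∀ (p x y : E) (r : ℝ), 0 < r → r / 16 ≤ ‖x - p‖ →
    ‖x - p‖ ≤ 16 * r → r / 16 ≤ ‖y - p‖ → ‖y - p‖ ≤ 16 * r →
    ∃ z : ℕ → E, z 0 = x ∧ z N₀ = y ∧ (∀ i < N₀, ‖z (i + 1) - z i‖ ≤ ‖z i - p‖ / 20) ∧
      ∀ i ≤ N₀, r / 16 ≤ ‖z i - p‖ ∧ ‖z i - p‖ ≤ 16 * r := by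
  refine ⟨300 + 50 + 50, fun p x y r hr hx1 hx2 hy1 hy2 => ?_⟩
  obtain ⟨x', hx', hc⟩ := radial (x := x) (p := p) (t := ‖y - p‖) hr hx1 hx2 hy1 hy2
  set t : ℝ := ‖y - p‖ with ht
  have ht0 : 0 < t := lt_of_lt_of_le (by positivity) hy1
  obtain ⟨v, hv, h1, h2⟩ := third (t⁻¹ • (x' - p)) (t⁻¹ • (y - p))
  have hu : ‖t⁻¹ • (x' - p)‖ = 1 := by
    rw [norm_smul, norm_inv, Real.norm_of_nonneg ht0.le, hx', inv_mul_cancel₀ ht0.ne']
  have hw : ‖t⁻¹ • (y - p)‖ = 1 := by
    rw [norm_smul, norm_inv, Real.norm_of_nonneg ht0.le, ← ht, inv_mul_cancel₀ ht0.ne']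
  have q1 := quarter (p := p) hy1 hy2 ht0 hu hv h1
  have q2 := quarter (p := p) hy1 hy2 ht0 hv hw h2
  have e1 : ∀ z : E, p + t • (t⁻¹ • (z - p)) = z := by
    intro z
    rw [smul_smul, mul_inv_cancel₀ ht0.ne', one_smul, add_sub_cancel]
  rw [e1] at q1 q2
  exact (hc.trans q1).trans q2

end PC992LG
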