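import Pool.Agent.Work.MP_992d6e_an.LG.GBall
import Pool.Agent.Work.MP_992d6e_an.LG.GPath

/-!
MODULE GReal (M). From one real ball to the whole real annulus.

`z, N₀` from `path_exists` (from `x₀` to `y`), `t i = ‖z i - p‖ ∈ [r/16, 16 r]`. Charges: for `l ∈ I`, `‖z i - a l‖ ≥ t i - A ≥ (3/4) t i` (`t i ≥ r/16 ≥ 4 A`); for
`l ∉ I`, `‖z i - a l‖ ≥ B - t i ≥ 64 r - t i ≥ (3/4) t i`. Put `s i = (3/4) t i`. Claim by induction on `i ≤ N₀`: `‖F‖ ≤ E^i m` on
`closedBall (z i) (t i / 32)`, `E = exp (C₁ n^4 (1 + log 24))`, `C₁` from `ball_growth` (`s i / (t i / 32) = 24`, `t i/32 ≤ s i/8 = 3 t i/32`). Step: `ball_growth` at `z i` gives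
`‖F‖ ≤ E^(i+1) m` on `closedBall (z i) (s i / 8)`, `s i/8 = 0.09375 t i`, and `closedBall (z (i+1)) (t (i+1)/32)` is contained in it, since
`t i/20 + (1 + 1/20) t i/32 ≤ 0.0829 t i`. At `i = N₀`: `y` itself. `C = N₀ C₁ (1 + log 24)`.
-/

set_option autoImplicit false

namespace PC992LG

open SM992

theorem real_chain : ∃ C : ℝ, 0 < C ∧ ∀ (n : ℕ) (q : Fin n → ℝ) (a : Fin n → E)
    (I : Finset (Fin n)) (p : E) (A B r m : ℝ) (x₀ : E), 0 < n → 0 < A →
    (∀ i ∈ I, ‖a i - p‖ ≤ A) → (∀ i, i ∉ I → B ≤ ‖a i - p‖) → 64 * A ≤ r → 64 * r ≤ B →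
    r / 16 ≤ ‖x₀ - p‖ → ‖x₀ - p‖ ≤ 16 * r →
    (∀ y, ‖y - x₀‖ ≤ ‖x₀ - p‖ / 32 → ‖F q a y‖ ≤ m) →
    ∀ y, r / 16 ≤ ‖y - p‖ → ‖y - p‖ ≤ 16 * r → ‖F q a y‖ ≤ Real.exp (C * n ^ 4) * m := by
  obtain ⟨C₁, hC₁, hball⟩ := ball_growth
  obtain ⟨N₀, hpath⟩ := path_exists
  have hl24 : (0 : ℝ) ≤ Real.log 24 := Real.log_nonneg (by norm_num)
  refine ⟨(N₀ + 1) * C₁ * (1 + Real.log 24), by positivity, ?_⟩
  intro n q a I p A B r m x₀ hn hA hI hB hAr hrB h0 h1 hm y hy0 hy1
  have hr : 0 < r := by linarith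
  obtain ⟨z, hz0, hzN, hstep, hrange⟩ := hpath p x₀ y r hr h0 h1 hy0 hy1
  have hm0 : 0 ≤ m := by
    refine (norm_nonneg _).trans (hm x₀ ?_)
    rw [sub_self, norm_zero]
    positivity
  have hEX : ∀ i : ℕ, i ≤ N₀ → ∀ w, ‖w - z i‖ ≤ ‖z i - p‖ / 32 →
      ‖F q a w‖ ≤ Real.exp (C₁ * n ^ 4 * (1 + Real.log 24)) ^ i * m := by
    intro i
    induction i with
    | zero =>
      intro _ w hw
      rw [hz0] at hw
      rw [pow_zero, one_mul]
      exact hm w hw
    | succ i ih =>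
      intro hi w hw
      obtain ⟨ht0, ht1⟩ := hrange i (by omega)
      have hs := hstep i (by omega)
      have htp : 0 < ‖z i - p‖ := by linarith
      have hchg : ∀ l, 3 / 4 * ‖z i - p‖ ≤ ‖z i - a l‖ := by
        intro l
        have e1 : ‖z i - p‖ ≤ ‖z i - a l‖ + ‖a l - p‖ := by
          have : z i - p = (z i - a l) + (a l - p) := by abel
          rw [this]
          exact norm_add_le _ _
        have e2 : ‖a l - p‖ ≤ ‖z i - a l‖ + ‖z i - p‖ := by
          have : a l - p = -(z i - a l) + (z i - p) := by abel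
          rw [this]
          refine (norm_add_le _ _).trans ?_
          rw [norm_neg]
        by_cases hl : l ∈ I
        · have := hI l hl
          linarith
        · have := hB l hl
          linarith
      have hb := hball n q a (z i) (3 / 4 * ‖z i - p‖) (‖z i - p‖ / 32)
        (Real.exp (C₁ * n ^ 4 * (1 + Real.log 24)) ^ i * m) hn (by positivity) (by linarith) hchg
        (ih (by omega)) w (by
          have e1 : ‖w - z i‖ ≤ ‖w - z (i + 1)‖ + ‖z (i + 1) - z i‖ := by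
            have : w - z i = (w - z (i + 1)) + (z (i + 1) - z i) := by abel
            rw [this]
            exact norm_add_le _ _
          have e2 : ‖z (i + 1) - p‖ ≤ ‖z (i + 1) - z i‖ + ‖z i - p‖ := by
            have : z (i + 1) - p = (z (i + 1) - z i) + (z i - p) := by abel
            rw [this]
            exact norm_add_le _ _
          linarith)
      have h24 : 3 / 4 * ‖z i - p‖ / (‖z i - p‖ / 32) = 24 := by
        field_simp
        norm_num
      rw [h24] at hb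
      rw [pow_succ', mul_assoc]
      exact hb
  have hfin := hEX N₀ le_rfl y (by
    rw [hzN, sub_self, norm_zero]
    positivity)
  refine hfin.trans (mul_le_mul_of_nonneg_right ?_ hm0)
  rw [← Real.exp_nat_mul]
  apply Real.exp_le_exp.2
  have h3 : 0 ≤ C₁ * (n : ℝ) ^ 4 * (1 + Real.log 24) := by positivity
  have h4 : (N₀ + 1) * C₁ * (1 + Real.log 24) * (n : ℝ) ^ 4 =
      N₀ * (C₁ * (n : ℝ) ^ 4 * (1 + Real.log 24)) + C₁ * (n : ℝ) ^ 4 * (1 + Real.log 24) := by ring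
  rw [h4]
  linarith

end PC992LG
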