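import Mathlib

/-!
MODULE LCau (M). A real function with a bounded holomorphic extension (Mathlib only).

deriv_ofReal: induction on `k` over all `t` with `|t| < s`: near `t` (real) the function
  `u ↦ ((iteratedDeriv k g u : ℝ) : ℂ)` is the restriction to the real line of `iteratedDeriv k φ`, which is holomorphic on
  the ball (DifferentiableOn.analyticOnNhd, AnalyticOnNhd.iteratedDeriv or induction); `HasDerivAt.comp_ofReal` gives the complex
  derivative of the restriction; its values near `t` are real, so `iteratedDeriv k g` is differentiable at `t` (real part: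
  `HasDerivAt.real_of_complex`: if `φ_k` has derivative `φ'` at the real point `t` then `u ↦ (φ_k u).re` has derivative
  `φ'.re`), and the imaginary part of the derivative is zero because `u ↦ (φ_k u).im` vanishes near `t`.
cauchy_real: deriv_ofReal and `Complex.norm_iteratedDeriv_le_of_forall_mem_sphere_norm_le` on the circle of radius
  `r' < r` around `t`, then `r' → r` (ge_of_tendsto or le_of_forall_lt; or prove `|..| * r'^k ≤ k! S` for all `r' < r` and use
  continuity).
taylor_real: `Complex.hasSum_taylorSeries_on_ball` at `0` for `z = t`, real parts; by cauchy_real with `r = s` the `k`-th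
  term is at most `S (|t|/s)^k`, and `|t|/s ≤ 1/4`, so the tail is at most `S (|t|/s)^(D+1) * (4/3)`.
-/

set_option autoImplicit false

namespace PC992LG

open Metric

private theorem lCau_diffAt (φ : ℂ → ℂ) (s : ℝ)
    (hφ : DifferentiableOn ℂ φ (ball 0 s)) (k : ℕ) (z : ℂ) (hz : z ∈ ball (0 : ℂ) s) :
    DifferentiableAt ℂ (iteratedDeriv k φ) z := by
  have h1 : AnalyticOnNhd ℂ φ (ball 0 s) := hφ.analyticOnNhd isOpen_ball
  have h2 : AnalyticAt ℂ (iteratedDeriv k φ) z := by
    rw [iteratedDeriv_eq_iterate]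
    exact (h1.iterated_deriv k) z hz
  exact h2.differentiableAt

theorem deriv_ofReal (φ : ℂ → ℂ) (g : ℝ → ℝ) (s : ℝ) (hs : 0 < s)
    (hφ : DifferentiableOn ℂ φ (ball 0 s)) (hg : ∀ t : ℝ, |t| < s → φ t = ((g t : ℝ) : ℂ)) (k : ℕ)
    (t : ℝ) (ht : |t| < s) : iteratedDeriv k φ (t : ℂ) = ((iteratedDeriv k g t : ℝ) : ℂ) := by
  induction k generalizing t with
  | zero => simpa using hg t ht
  | succ k ih =>
    have hmem : ((t : ℝ) : ℂ) ∈ ball (0 : ℂ) s := by
      rw [mem_ball_zero_iff, Complex.norm_real, Real.norm_eq_abs]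
      exact ht
    have hd := (lCau_diffAt φ s hφ k t hmem).hasDerivAt
    have h1 := hd.real_of_complex
    have hev : ∀ᶠ u : ℝ in nhds t, |u| < s := (continuous_abs.tendsto t).eventually_lt_const ht
    have h2 : HasDerivAt (iteratedDeriv k g) (deriv (iteratedDeriv k φ) (t : ℂ)).re t := by
      refine h1.congr_of_eventuallyEq ?_
      filter_upwards [hev] with u hu
      rw [ih u hu]
      simp
    have h3 : HasDerivAt (fun y : ℝ => ((iteratedDeriv k g y : ℝ) : ℂ))
        (((deriv (iteratedDeriv k φ) (t : ℂ)).re : ℝ) : ℂ) t := h2.ofReal_comp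
    have h4 : HasDerivAt (fun y : ℝ => ((iteratedDeriv k g y : ℝ) : ℂ))
        (deriv (iteratedDeriv k φ) (t : ℂ)) t := by
      refine hd.comp_ofReal.congr_of_eventuallyEq ?_
      filter_upwards [hev] with u hu
      rw [ih u hu]
    rw [iteratedDeriv_succ, iteratedDeriv_succ, h2.deriv]
    exact h4.unique h3

theorem cauchy_real (φ : ℂ → ℂ) (g : ℝ → ℝ) (s S : ℝ) (hs : 0 < s)
    (hφ : DifferentiableOn ℂ φ (ball 0 s)) (hg : ∀ t : ℝ, |t| < s → φ t = ((g t : ℝ) : ℂ))
    (hS : ∀ z ∈ ball (0 : ℂ) s, ‖φ z‖ ≤ S) (k : ℕ) (t r : ℝ) (hr : 0 < r) (htr : |t| + r ≤ s) :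
    |iteratedDeriv k g t| ≤ k.factorial * S / r ^ k := by
  have ht : |t| < s := by linarith
  have key : ∀ r' : ℝ, 0 < r' → r' < r → |iteratedDeriv k g t| * r' ^ k ≤ k.factorial * S := by
    intro r' h0 h1
    have hsub : closedBall (t : ℂ) r' ⊆ ball (0 : ℂ) s := by
      intro z hz
      rw [mem_closedBall, dist_eq_norm] at hz
      rw [mem_ball_zero_iff]
      have h2 : ‖z‖ ≤ ‖z - (t : ℂ)‖ + ‖(t : ℂ)‖ := by
        have := norm_add_le (z - (t : ℂ)) (t : ℂ)
        simpa using this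
      rw [Complex.norm_real, Real.norm_eq_abs] at h2
      linarith
    have hdc : DiffContOnCl ℂ φ (ball (t : ℂ) r') := by
      apply DifferentiableOn.diffContOnCl
      rw [closure_ball _ h0.ne']
      exact hφ.mono hsub
    have h3 := Complex.norm_iteratedDeriv_le_of_forall_mem_sphere_norm_le (C := S) k h0 hdc
      (fun z hz => hS z (hsub (sphere_subset_closedBall hz)))
    rw [deriv_ofReal φ g s hs hφ hg k t ht, Complex.norm_real, Real.norm_eq_abs,
      le_div_iff₀ (pow_pos h0 k)] at h3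
    exact h3
  rw [le_div_iff₀ (pow_pos hr k)]
  have hcont : Filter.Tendsto (fun r' : ℝ => |iteratedDeriv k g t| * r' ^ k) (nhdsWithin r (Set.Iio r))
      (nhds (|iteratedDeriv k g t| * r ^ k)) := by
    have : Continuous (fun r' : ℝ => |iteratedDeriv k g t| * r' ^ k) := by fun_prop
    exact (this.tendsto r).mono_left nhdsWithin_le_nhds
  refine le_of_tendsto hcont ?_
  have : Set.Ioo 0 r ∈ nhdsWithin r (Set.Iio r) := Ioo_mem_nhdsLT hr
  filter_upwards [this] with r' hr'
  exact key r' hr'.1 hr'.2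

theorem taylor_real (φ : ℂ → ℂ) (g : ℝ → ℝ) (s S : ℝ) (hs : 0 < s)
    (hφ : DifferentiableOn ℂ φ (ball 0 s)) (hg : ∀ t : ℝ, |t| < s → φ t = ((g t : ℝ) : ℂ))
    (hS : ∀ z ∈ ball (0 : ℂ) s, ‖φ z‖ ≤ S) (D : ℕ) (t : ℝ) (ht : |t| ≤ s / 4) :
    |g t - ∑ k ∈ Finset.range (D + 1), (k.factorial : ℝ)⁻¹ * iteratedDeriv k g 0 * t ^ k| ≤
      2 * S * (|t| / s) ^ (D + 1) := by
  have ht' : |t| < s := by linarith
  have hS0 : 0 ≤ S := (norm_nonneg _).trans (hS 0 (mem_ball_self hs))
  have hmem : ((t : ℝ) : ℂ) ∈ ball (0 : ℂ) s := by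
    rw [mem_ball_zero_iff, Complex.norm_real, Real.norm_eq_abs]
    exact ht'
  have h1 := Complex.hasSum_taylorSeries_on_ball hφ hmem
  have h0 : |(0 : ℝ)| < s := by simpa using hs
  have h2 : HasSum (fun n : ℕ => (((n.factorial : ℝ)⁻¹ * iteratedDeriv n g 0 * t ^ n : ℝ) : ℂ))
      ((g t : ℝ) : ℂ) := by
    rw [← hg t ht']
    have he : (fun n : ℕ => (((n.factorial : ℝ)⁻¹ * iteratedDeriv n g 0 * t ^ n : ℝ) : ℂ)) =
        fun n : ℕ => (n.factorial : ℂ)⁻¹ • ((t : ℂ) - 0) ^ n • iteratedDeriv n φ 0 := by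
      funext n
      have h3 := deriv_ofReal φ g s hs hφ hg n 0 h0
      rw [Complex.ofReal_zero] at h3
      rw [h3]
      simp only [smul_eq_mul, sub_zero]
      push_cast
      ring
    rw [he]
    exact h1
  rw [Complex.hasSum_ofReal] at h2
  set a : ℕ → ℝ := fun n => (n.factorial : ℝ)⁻¹ * iteratedDeriv n g 0 * t ^ n with ha
  set q : ℝ := |t| / s with hq
  have hq0 : 0 ≤ q := by positivity
  have hq1 : q ≤ 1 / 4 := by
    rw [hq, div_le_iff₀ hs]
    linarith
  have hbd : ∀ n, |a n| ≤ S * q ^ n := by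
    intro n
    have h4 := cauchy_real φ g s S hs hφ hg hS n 0 s hs (by simp)
    have hfac : (0 : ℝ) < n.factorial := by exact_mod_cast n.factorial_pos
    rw [ha]
    simp only
    rw [abs_mul, abs_mul, abs_pow, abs_of_nonneg (inv_nonneg.mpr hfac.le), hq, div_pow]
    calc (n.factorial : ℝ)⁻¹ * |iteratedDeriv n g 0| * |t| ^ n
        ≤ (n.factorial : ℝ)⁻¹ * (n.factorial * S / s ^ n) * |t| ^ n := by gcongr
      _ = S * (|t| ^ n / s ^ n) := by field_simp
  have hgeo : HasSum (fun n : ℕ => S * q ^ (n + (D + 1))) (S * q ^ (D + 1) * (1 - q)⁻¹) := by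
    have h5 := (hasSum_geometric_of_lt_one hq0 (by linarith)).mul_left (S * q ^ (D + 1))
    have he : (fun n : ℕ => S * q ^ (n + (D + 1))) = fun n : ℕ => S * q ^ (D + 1) * q ^ n := by
      funext n
      rw [pow_add]
      ring
    rw [he]
    exact h5
  have htail : g t - ∑ k ∈ Finset.range (D + 1), a k = ∑' n, a (n + (D + 1)) := by
    have h9 := h2.summable.sum_add_tsum_nat_add (D + 1)
    rw [h2.tsum_eq] at h9
    linarith
  rw [htail]
  have h6 : ‖∑' n, a (n + (D + 1))‖ ≤ S * q ^ (D + 1) * (1 - q)⁻¹ :=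
    tsum_of_norm_bounded hgeo (fun n => hbd _)
  rw [Real.norm_eq_abs] at h6
  refine h6.trans ?_
  have h7 : (1 - q)⁻¹ ≤ 2 := by
    rw [inv_le_comm₀ (by linarith) (by norm_num)]
    linarith
  have h8 : 0 ≤ S * q ^ (D + 1) := by positivity
  nlinarith [mul_le_mul_of_nonneg_left h7 h8]

end PC992LG
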