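import Pool.Agent.Work.MP_992d6e_an.LG.LErr
import Pool.Agent.Work.MP_992d6e_an.SM.Pert

/-!
MODULE LCnt (M). The abstract local count (compare the end of SM/Local.lean).

`σ = S/(K s)`, so `σ ‖v‖ ≤ ‖fderiv f x v‖` on `Z`. Apply `pert` with `F = f`, `F' = fderiv ℝ f`, `G x = Pm P (x - y)`,
`G' x = fderiv ℝ (Pm P) (x - y)` (Pm_contDiff, HasFDerivAt.comp with `x ↦ x - y`), `ρ = s/800` (`2ρ = s/400 < s`),
`L = 2 S/s^2` (lip), `r = s/(16 K · 100)` say: `8 L r = 16 S r/s^2 ≤ σ = S/(K s)` needs `r ≤ s/(16 K)`; `2 r ≤ ρ` needs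
`r ≤ s/1600`; so `r = s/(1600 K)` (`K ≥ 2`). `ε₀ = S/2^D`, `ε₁ = 30 S/(s 2^D)`: `4 ε₁ ≤ σ` iff `120 K ≤ 2^D`, and
`4 ε₀ ≤ σ r = S/(1600 K^2)` iff `6400 K^2 ≤ 2^D`. Choose the least `D` with `6400 K^2 ≤ 2^D`; then `2^D ≤ 12800 K^2`, so
`D ≤ (log 12800 + 2 log K)/log 2 ≤ 24 log K` for `K ≥ 2` (crude). `pert` gives `Z'` with the same cardinality, zeros of
`G` with injective `G'`; the translated set `Z'.image (· - y)` and `bezout`: `Z.card ≤ 27 D^3 ≤ C (log K)^3`.
-/

set_option autoImplicit false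

namespace PC992LG

open Metric SM992

private theorem lc_deg (K : ℝ) (hK : 2 ≤ K) : ∃ D : ℕ, 1 ≤ D ∧ 6400 * K ^ 2 ≤ 2 ^ D ∧
    (D : ℝ) ≤ 16 / Real.log 2 * Real.log K := by
  have hl2 : 0 < Real.log 2 := Real.log_pos (by norm_num)
  have hlK : Real.log 2 ≤ Real.log K := Real.log_le_log (by norm_num) hK
  have hK2 : (4 : ℝ) ≤ K ^ 2 := by nlinarith
  have hA : (1 : ℝ) ≤ 6400 * K ^ 2 := by linarith
  have hA0 : (0 : ℝ) < 6400 * K ^ 2 := by linarith
  set L : ℝ := Real.log (6400 * K ^ 2) / Real.log 2 with hL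
  have hL0 : 0 ≤ L := div_nonneg (Real.log_nonneg hA) hl2.le
  have h1 : 6400 * K ^ 2 ≤ 2 ^ ⌈L⌉₊ := by
    have h2 : L ≤ (⌈L⌉₊ : ℝ) := Nat.le_ceil L
    have h3 : Real.log (6400 * K ^ 2) ≤ (⌈L⌉₊ : ℝ) * Real.log 2 := by
      rw [hL, div_le_iff₀ hl2] at h2
      exact h2
    rw [← Real.log_pow] at h3
    exact (Real.log_le_log_iff hA0 (by positivity)).mp h3
  refine ⟨⌈L⌉₊, ?_, h1, ?_⟩
  · by_contra hc
    have h4 : ⌈L⌉₊ = 0 := by omega
    rw [h4, pow_zero] at h1
    linarith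
  · have h5 : (⌈L⌉₊ : ℝ) < L + 1 := Nat.ceil_lt_add_one hL0
    have h6 : Real.log (6400 * K ^ 2) ≤ 13 * Real.log 2 + 2 * Real.log K := by
      rw [Real.log_mul (by norm_num) (by positivity), Real.log_pow]
      have h7 : Real.log 6400 ≤ 13 * Real.log 2 := by
        have h8 : (13 : ℝ) * Real.log 2 = Real.log (2 ^ 13) := by
          rw [Real.log_pow]
          norm_num
        rw [h8]
        exact Real.log_le_log (by norm_num) (by norm_num)
      push_cast
      linarith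
    have h9 : L ≤ (13 * Real.log 2 + 2 * Real.log K) / Real.log 2 :=
      div_le_div_of_nonneg_right h6 hl2.le
    have h10 : (13 * Real.log 2 + 2 * Real.log K) / Real.log 2 + 1 ≤
        16 / Real.log 2 * Real.log K := by
      rw [div_add_one hl2.ne', div_mul_eq_mul_div]
      refine div_le_div_of_nonneg_right ?_ hl2.le
      linarith
    linarith

theorem local_abs : ∃ C : ℝ, 0 < C ∧ ∀ (f : E → E) (y : E) (s S K : ℝ), 0 < s → 0 < S → 2 ≤ K →
    (∀ x ∈ ball y (2 * s), AnalyticAt ℝ f x) → LineBd f y s S →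
    ∀ Z : Finset E, (∀ x ∈ Z, ‖x - y‖ ≤ s / 800 ∧ f x = 0 ∧
      ∀ v, S * ‖v‖ ≤ K * s * ‖fderiv ℝ f x v‖) → (Z.card : ℝ) ≤ C * Real.log K ^ 3 := by
  classical
  have hl2 : 0 < Real.log 2 := Real.log_pos (by norm_num)
  refine ⟨27 * (16 / Real.log 2) ^ 3, by positivity, ?_⟩
  intro f y s S K hs hS hK hf hLB Z hZ
  obtain ⟨D, hD1, hD2, hD3⟩ := lc_deg K hK
  obtain ⟨P, hPd, hP0, hP1⟩ := approx f y s S hs hS hf hLB D hD1
  obtain ⟨-, hlip⟩ := lip f y s S hs hf hLB
  have hK0 : 0 < K := by linarith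
  have h2D : (0 : ℝ) < 2 ^ D := by positivity
  have hball : closedBall y (2 * (s / 800)) ⊆ closedBall y (s / 400) :=
    closedBall_subset_closedBall (by linarith)
  have hball2 : closedBall y (2 * (s / 800)) ⊆ closedBall y s :=
    closedBall_subset_closedBall (by linarith)
  have hball3 : closedBall y (2 * (s / 800)) ⊆ ball y (2 * s) :=
    closedBall_subset_ball (by linarith)
  have hPdiff : Differentiable ℝ (Pm P) := (Pm_contDiff P).differentiable one_ne_zero
  obtain ⟨Z', hc, hZ'⟩ := pert (F := f) (G := fun x => Pm P (x - y)) (F' := fun x => fderiv ℝ f x)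
    (G' := fun x => fderiv ℝ (Pm P) (x - y)) (y := y) (ρ := s / 800) (r := s / (1600 * K))
    (σ := S / (K * s)) (L := 2 * S / s ^ 2) (ε₀ := S / 2 ^ D) (ε₁ := 30 * S / s / 2 ^ D)
    (by positivity) (by positivity) (by positivity)
    (by
      rw [← mul_div_assoc, div_le_div_iff₀ (by positivity) (by norm_num)]
      nlinarith)
    (fun x hx => (hf x (hball3 hx)).differentiableAt.hasFDerivAt)
    (fun x hx => by
      have h1 : HasFDerivAt (fun x : E => x - y) (ContinuousLinearMap.id ℝ E) x :=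
        (hasFDerivAt_id x).sub_const y
      have h2 := ((hPdiff (x - y)).hasFDerivAt).comp x h1
      rw [ContinuousLinearMap.comp_id] at h2
      exact h2)
    (fun x hx x' hx' v => hlip x (hball2 hx) x' (hball2 hx') v)
    (fun x hx => hP0 x (hball hx)) (fun x hx v => hP1 x (hball hx) v)
    (by
      have h1 : 8 * (2 * S / s ^ 2 * (s / (1600 * K))) = S / (K * s) * (1 / 100) := by
        field_simp
        norm_num
      rw [h1]
      have h2 : 0 < S / (K * s) := by positivity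
      linarith)
    (by
      have h1 : 4 * (30 * S / s / 2 ^ D) = (120 * S) / (s * 2 ^ D) := by
        field_simp
        norm_num
      rw [h1, div_le_div_iff₀ (by positivity) (by positivity)]
      have h2 : 120 * K ≤ 2 ^ D := by nlinarith
      have h3 : 120 * S * (K * s) = (S * s) * (120 * K) := by ring
      have h4 : S * (s * 2 ^ D) = (S * s) * 2 ^ D := by ring
      rw [h3, h4]
      exact mul_le_mul_of_nonneg_left h2 (by positivity))
    (by
      have h1 : S / (K * s) * (s / (1600 * K)) = S / (1600 * K ^ 2) := by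
        field_simp
      rw [h1, ← mul_div_assoc, div_le_div_iff₀ (by positivity) (by positivity)]
      have h3 : 4 * S * (1600 * K ^ 2) = S * (6400 * K ^ 2) := by ring
      rw [h3]
      exact mul_le_mul_of_nonneg_left hD2 hS.le)
    Z
    (fun x hx => by
      obtain ⟨h1, h2, h3⟩ := hZ x hx
      refine ⟨mem_closedBall_iff_norm.mpr h1, h2, fun v => ?_⟩
      rw [div_mul_eq_mul_div, div_le_iff₀ (by positivity), mul_comm]
      have := h3 v
      linarith [mul_comm (K * s) ‖fderiv ℝ f x v‖])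
  have hinj : Function.Injective (fun x : E => x - y) := sub_left_injective
  have hbez := bezout D P hPd (Z'.image (fun x => x - y)) (by
    intro w hw
    obtain ⟨x, hx, rfl⟩ := Finset.mem_image.mp hw
    obtain ⟨-, h2, h3⟩ := hZ' x hx
    exact ⟨h2, fderiv ℝ (Pm P) (x - y), (hPdiff _).hasFDerivAt, h3⟩)
  rw [Finset.card_image_of_injective _ hinj, hc] at hbez
  have h5 : (Z.card : ℝ) ≤ 27 * (D : ℝ) ^ 3 := by exact_mod_cast hbez
  refine h5.trans ?_
  have h6 : (D : ℝ) ^ 3 ≤ (16 / Real.log 2 * Real.log K) ^ 3 :=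
    pow_le_pow_left₀ (Nat.cast_nonneg D) hD3 3
  rw [mul_assoc, ← mul_pow]
  linarith

end PC992LG
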