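import Pool.Agent.Work.MP_992d6e_an.LG.LCau
import Pool.Agent.Work.MP_992d6e_an.LG.BW

/-!
MODULE LIntp (M). The derivative of a function that is small on the real line and bounded off it.

`Q` on the real interval `|t| ≤ s/4`: `|Q t| ≤ |g t| + S ≤ 2 S` (`|g t| = ‖φ t‖ ≤ S`), so `bernstein_walsh'` (for
`Q.map (algebraMap ℝ ℂ)`, radius `s/4`, centre `0`) gives `‖Q z‖ ≤ 12^D * 2 S` for `‖z‖ ≤ s/4`, and `φ - Q` is bounded by
`3 S 12^D` on `ball 0 (s/4)`. `h = g - Q` on the real line. `cauchy_real` with `s/4` in place of `s`, `k = 2`,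
`|t| ≤ τ ≤ s/8`, `r = s/8`: `|h''(t)| ≤ 2 * 3 S 12^D / (s/8)^2 = 384 S 12^D / s^2` (`iteratedDeriv 2 h`). Taylor's formula of
order two (taylor_mean_remainder_lagrange, or: `h' ` is Lipschitz with that constant on `[0,τ]` and the mean value
theorem gives `h(τ) - h(0) = τ h'(ξ)`) : `|h'(0)| ≤ (|h τ| + |h 0|)/τ + τ * 384 S 12^D/s^2`. (`h` is smooth for `|t| < s/4`, since
`g` is the real part of `φ` there; the conclusion is stated with `deriv`.)
-/

set_option autoImplicit false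

namespace PC992LG

open Metric Polynomial

/-- The real part of a holomorphic function, restricted to the real line, is real analytic. -/
private lemma re_analytic (Φ : ℂ → ℂ) (ρ : ℝ) (hΦ : DifferentiableOn ℂ Φ (ball 0 ρ)) (t : ℝ)
    (ht : |t| < ρ) : AnalyticAt ℝ (fun u : ℝ => (Φ (u : ℂ)).re) t := by
  have hmem : (t : ℂ) ∈ ball (0 : ℂ) ρ := by
    simpa [Metric.mem_ball, dist_zero_right] using ht
  have h1 : AnalyticAt ℂ Φ (t : ℂ) := hΦ.analyticAt (isOpen_ball.mem_nhds hmem)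
  have h2 : AnalyticAt ℝ Φ (t : ℂ) := h1.restrictScalars
  have h3 : AnalyticAt ℝ (fun u : ℝ => (u : ℂ)) t := Complex.ofRealCLM.analyticAt t
  have h4 : AnalyticAt ℝ (fun u : ℝ => Φ (u : ℂ)) t := h2.fun_comp h3
  exact (Complex.reCLM.analyticAt _).fun_comp h4

private lemma re_analytic' (Φ : ℂ → ℂ) (g : ℝ → ℝ) (ρ : ℝ) (hΦ : DifferentiableOn ℂ Φ (ball 0 ρ))
    (hg : ∀ t : ℝ, |t| < ρ → Φ t = ((g t : ℝ) : ℂ)) (t : ℝ) (ht : |t| < ρ) : AnalyticAt ℝ g t := by
  refine (re_analytic Φ ρ hΦ t ht).congr ?_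
  have hev : ∀ᶠ u in nhds t, |u| < ρ :=
    (continuous_abs.continuousAt (x := t)).eventually (gt_mem_nhds ht)
  filter_upwards [hev] with u hu
  rw [hg u hu]
  simp

/-- A function with small values at `0` and `τ` and bounded second derivative has small
derivative at `0`. -/
private lemma small_deriv (h : ℝ → ℝ) (τ ε M : ℝ) (hτ : 0 < τ)
    (han : ∀ t : ℝ, |t| ≤ τ → AnalyticAt ℝ h t)
    (hM : ∀ t : ℝ, |t| ≤ τ → |iteratedDeriv 2 h t| ≤ M)
    (hε : ∀ t : ℝ, |t| ≤ τ → |h t| ≤ ε) : |deriv h 0| ≤ 2 * ε / τ + M * τ := by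
  have hmem : ∀ t ∈ Set.Icc (0 : ℝ) τ, |t| ≤ τ := by
    intro t ht
    rw [abs_of_nonneg ht.1]
    exact ht.2
  have hM0 : 0 ≤ M := (abs_nonneg _).trans (hM 0 (by simpa using hτ.le))
  have h1 : ∀ t ∈ Set.Icc (0 : ℝ) τ, ‖deriv h t - deriv h 0‖ ≤ M * τ := by
    intro t ht
    have := (convex_Icc (0 : ℝ) τ).norm_image_sub_le_of_norm_deriv_le (f := deriv h) (C := M)
      (fun x hx => (han x (hmem x hx)).deriv.differentiableAt)
      (fun x hx => by
        have := hM x (hmem x hx)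
        rwa [iteratedDeriv_succ, iteratedDeriv_one, ← Real.norm_eq_abs] at this)
      (Set.left_mem_Icc.2 hτ.le) ht
    refine this.trans ?_
    rw [sub_zero, Real.norm_eq_abs]
    exact mul_le_mul_of_nonneg_left (hmem t ht) hM0
  have h2 := (convex_Icc (0 : ℝ) τ).norm_image_sub_le_of_norm_deriv_le
      (f := fun t => h t - t * deriv h 0) (C := M * τ)
      (fun x hx => ((han x (hmem x hx)).differentiableAt.sub
        (differentiableAt_id.mul_const _)))
      (fun x hx => by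
        have e : deriv (fun t => h t - t * deriv h 0) x = deriv h x - deriv h 0 := by
          have d1 : HasDerivAt (fun t : ℝ => t * deriv h 0) (1 * deriv h 0) x :=
            (hasDerivAt_id' x).mul_const _
          have d2 := (han x (hmem x hx)).differentiableAt.hasDerivAt
          have d3 := (d2.sub d1).deriv
          rw [one_mul] at d3
          exact d3
        rw [e]
        exact h1 x hx)
      (Set.left_mem_Icc.2 hτ.le) (Set.right_mem_Icc.2 hτ.le)
  simp only [zero_mul, sub_zero, Real.norm_eq_abs] at h2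
  rw [abs_of_pos hτ] at h2
  have h3 : |τ * deriv h 0| ≤ 2 * ε + M * τ * τ := by
    have a1 := abs_le.1 h2
    have a2 := abs_le.1 (hε τ (by rw [abs_of_pos hτ]))
    have a3 := abs_le.1 (hε 0 (by simpa using hτ.le))
    rw [abs_le]
    constructor <;> linarith [a1.1, a1.2, a2.1, a2.2, a3.1, a3.2]
  rw [abs_mul, abs_of_pos hτ] at h3
  have h4 : |deriv h 0| ≤ (2 * ε + M * τ * τ) / τ := by
    rw [le_div_iff₀ hτ]
    linarith
  refine h4.trans (le_of_eq ?_)
  field_simp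

theorem intp (φ : ℂ → ℂ) (g : ℝ → ℝ) (s S ε τ : ℝ) (D : ℕ) (Q : ℝ[X]) (hs : 0 < s) (hτ : 0 < τ)
    (hτs : τ ≤ s / 8) (hφ : DifferentiableOn ℂ φ (ball 0 s))
    (hg : ∀ t : ℝ, |t| < s → φ t = ((g t : ℝ) : ℂ)) (hS : ∀ z ∈ ball (0 : ℂ) s, ‖φ z‖ ≤ S)
    (hQ : Q.natDegree ≤ D) (h1 : ∀ t : ℝ, |t| ≤ s / 4 → |g t - Q.eval t| ≤ S)
    (h2 : ∀ t : ℝ, |t| ≤ τ → |g t - Q.eval t| ≤ ε) :
    |deriv g 0 - Q.derivative.eval 0| ≤ 2 * ε / τ + 384 * 12 ^ D * S * τ / s ^ 2 := by
  have hs4 : 0 < s / 4 := by positivity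
  have h12 : (1 : ℝ) ≤ 12 ^ D := one_le_pow₀ (by norm_num)
  -- `S` is nonnegative
  have hS0 : 0 ≤ S := (norm_nonneg _).trans (hS 0 (mem_ball_self hs))
  -- bound for `Q` on the disc
  have hQd : ∀ z : ℂ, ‖z‖ ≤ s / 4 → ‖(Q.map (algebraMap ℝ ℂ)).eval z‖ ≤ 12 ^ D * (2 * S) := by
    intro z hz
    refine bernstein_walsh' D (Q.map (algebraMap ℝ ℂ)) ((natDegree_map_le).trans hQ) 0 (s / 4)
      (2 * S) hs4 ?_ z (by simpa using hz)
    intro t ht
    have e : (Q.map (algebraMap ℝ ℂ)).eval (0 + (t : ℂ)) = ((Q.eval t : ℝ) : ℂ) := by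
      rw [zero_add]
      have := Polynomial.eval_map_algebraMap (B := ℂ) Q (t : ℂ)
      rw [this]
      have h' := Polynomial.aeval_algebraMap_apply_eq_algebraMap_eval (A := ℂ) t Q
      simpa using h'
    rw [e, Complex.norm_real, Real.norm_eq_abs]
    have hts : |t| < s := by linarith
    have hgt : |g t| ≤ S := by
      have := hS (t : ℂ) (by simpa [Metric.mem_ball, dist_zero_right] using hts)
      rw [hg t hts, Complex.norm_real, Real.norm_eq_abs] at this
      exact this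
    have a1 := abs_le.1 (h1 t ht)
    have a2 := abs_le.1 hgt
    rw [abs_le]
    constructor <;> linarith [a1.1, a1.2, a2.1, a2.2]
  -- the difference
  set Φ : ℂ → ℂ := fun z => φ z - (Q.map (algebraMap ℝ ℂ)).eval z with hΦdef
  set h : ℝ → ℝ := fun t => g t - Q.eval t with hhdef
  have hsub : ball (0 : ℂ) (s / 4) ⊆ ball 0 s := ball_subset_ball (by linarith)
  have hΦd : DifferentiableOn ℂ Φ (ball 0 (s / 4)) :=
    (hφ.mono hsub).sub (Polynomial.differentiable _).differentiableOn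
  have hΦh : ∀ t : ℝ, |t| < s / 4 → Φ t = ((h t : ℝ) : ℂ) := by
    intro t ht
    have e : (Q.map (algebraMap ℝ ℂ)).eval (t : ℂ) = ((Q.eval t : ℝ) : ℂ) := by
      have := Polynomial.eval_map_algebraMap (B := ℂ) Q (t : ℂ)
      rw [this]
      have h' := Polynomial.aeval_algebraMap_apply_eq_algebraMap_eval (A := ℂ) t Q
      simpa using h'
    simp only [hΦdef, hhdef]
    rw [e, hg t (by linarith)]
    push_cast
    ring
  have hΦS : ∀ z ∈ ball (0 : ℂ) (s / 4), ‖Φ z‖ ≤ 3 * 12 ^ D * S := by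
    intro z hz
    have hz' : ‖z‖ ≤ s / 4 := by
      have := mem_ball_zero_iff.1 hz
      exact this.le
    calc ‖Φ z‖ ≤ ‖φ z‖ + ‖(Q.map (algebraMap ℝ ℂ)).eval z‖ := norm_sub_le _ _
      _ ≤ S + 12 ^ D * (2 * S) := add_le_add (hS z (hsub hz)) (hQd z hz')
      _ ≤ 12 ^ D * S + 12 ^ D * (2 * S) := by
        gcongr
        nlinarith
      _ = 3 * 12 ^ D * S := by ring
  have hM : ∀ t : ℝ, |t| ≤ τ → |iteratedDeriv 2 h t| ≤ 384 * 12 ^ D * S / s ^ 2 := by
    intro t ht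
    have := cauchy_real Φ h (s / 4) (3 * 12 ^ D * S) hs4 hΦd hΦh hΦS 2 t (s / 8) (by positivity)
      (by linarith)
    refine this.trans (le_of_eq ?_)
    simp only [Nat.factorial]
    push_cast
    field_simp
    ring
  have han : ∀ t : ℝ, |t| ≤ τ → AnalyticAt ℝ h t := fun t ht =>
    re_analytic' Φ h (s / 4) hΦd hΦh t (by linarith)
  have key := small_deriv h τ ε (384 * 12 ^ D * S / s ^ 2) hτ han hM h2
  have hgan : AnalyticAt ℝ g 0 := re_analytic' φ g s hφ hg 0 (by simpa using hs)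
  have hder : deriv h 0 = deriv g 0 - Q.derivative.eval 0 := by
    simp only [hhdef]
    rw [deriv_fun_sub hgan.differentiableAt Q.differentiableAt, Polynomial.deriv]
  rw [hder] at key
  refine key.trans (le_of_eq ?_)
  ring

end PC992LG
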