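import Pool.Agent.Work.MP_992d6e_an.LG.LDefs
import Pool.Agent.Work.MP_992d6e_an.LG.LCau

/-!
MODULE LLip (M). First and second derivatives of a map with bounded complex extensions on lines.

For `x ∈ closedBall y s`, unit vectors `e, e'` the function `g t = ⟪e', f (x + t • e)⟫` satisfies `|g' 0| ≤ S/s`,
`|g'' 0| ≤ 2 S/s^2` (cauchy_real, `t = 0`, `r = s`). `g' 0 = ⟪e', fderiv f x e⟫`, so `‖fderiv f x e‖ ≤ S/s`.
`g'' 0 = B e e` with `B v w = ⟪e', fderiv ℝ (fderiv ℝ f) x v w⟫` (HasFDerivAt of `x ↦ fderiv ℝ f x e`, chain rule along the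
line; `x ∈ ball y (2 s)`, where `f` is analytic), symmetric: `second_derivative_symmetric` / `ContDiffAt.isSymmSndFDerivAt`. So
`|B v v| ≤ β ‖v‖^2`, `β = 2 S/s^2`, and `4 B v w = B (v+w) (v+w) - B (v-w) (v-w)` gives for unit `v, w`:
`4 |B v w| ≤ β (‖v+w‖^2 + ‖v-w‖^2) = 4 β`. So `‖fderiv ℝ (fderiv ℝ f) x v w‖ ≤ β ‖v‖ ‖w‖` (take `e'` = the normalised value),
and the mean value inequality on the convex set `closedBall y s` for `x ↦ fderiv ℝ f x v`
(Convex.norm_image_sub_le_of_norm_fderiv_le or the HasFDerivWithin version) gives the Lipschitz bound.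
-/

set_option autoImplicit false

namespace PC992LG

open Metric SM992

private theorem LLip_norm {w : E} {β : ℝ} (hβ : 0 ≤ β)
    (h : ∀ e' : E, ‖e'‖ = 1 → |(inner ℝ e' w : ℝ)| ≤ β) : ‖w‖ ≤ β := by
  by_cases hw : w = 0
  · rw [hw, norm_zero]
    exact hβ
  · have hw0 : ‖w‖ ≠ 0 := norm_ne_zero_iff.2 hw
    have h1 := h ((‖w‖)⁻¹ • w) (by rw [norm_smul, norm_inv, norm_norm, inv_mul_cancel₀ hw0])
    rw [inner_smul_left, real_inner_self_eq_norm_sq] at h1
    have e : (starRingEnd ℝ) (‖w‖)⁻¹ * ‖w‖ ^ 2 = ‖w‖ := by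
      simp only [conj_trivial]
      field_simp
    rw [e, abs_of_nonneg (norm_nonneg _)] at h1
    exact h1

private theorem LLip_line (x e : E) : HasDerivAt (fun t : ℝ => x + t • e) e 0 := by
  have h := ((hasDerivAt_id (0 : ℝ)).smul_const e).const_add x
  rw [one_smul] at h
  exact h

private theorem LLip_line' (x e : E) (t : ℝ) : HasDerivAt (fun t : ℝ => x + t • e) e t := by
  have h := ((hasDerivAt_id t).smul_const e).const_add x
  rw [one_smul] at h
  exact h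

theorem lip (f : E → E) (y : E) (s S : ℝ) (hs : 0 < s)
    (hf : ∀ x ∈ ball y (2 * s), AnalyticAt ℝ f x) (hL : LineBd f y s S) :
    (∀ x ∈ closedBall y s, ∀ v, ‖fderiv ℝ f x v‖ ≤ S / s * ‖v‖) ∧
    ∀ x ∈ closedBall y s, ∀ x' ∈ closedBall y s, ∀ v,
      ‖fderiv ℝ f x v - fderiv ℝ f x' v‖ ≤ 2 * S / s ^ 2 * ‖x - x'‖ * ‖v‖ := by
  have hsub : ∀ x ∈ closedBall y s, x ∈ ball y (2 * s) := by
    intro x hx
    rw [mem_closedBall] at hx
    rw [mem_ball]
    linarith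
  have hder : ∀ x : E, AnalyticAt ℝ f x → ∀ e e' : E, ∀ t : ℝ, AnalyticAt ℝ f (x + t • e) →
      HasDerivAt (fun t : ℝ => (inner ℝ e' (f (x + t • e)) : ℝ))
        (inner ℝ e' (fderiv ℝ f (x + t • e) e)) t := by
    intro x _ e e' t ht
    have h1 : HasDerivAt (fun t : ℝ => f (x + t • e)) (fderiv ℝ f (x + t • e) e) t :=
      ht.differentiableAt.hasFDerivAt.comp_hasDerivAt t (LLip_line' x e t)
    have h2 := (hasDerivAt_const t e').inner ℝ h1
    simpa using h2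
  -- the bounds from Cauchy's estimates
  have hS0 : ∀ x ∈ closedBall y s, 0 ≤ S := by
    intro x hx
    obtain ⟨e, he⟩ : ∃ e : E, ‖e‖ = 1 := ⟨EuclideanSpace.single 0 1, by simp⟩
    obtain ⟨φ, -, -, hS⟩ := hL x hx e e he he
    exact (norm_nonneg _).trans (hS 0 (mem_ball_self hs))
  have hD1 : ∀ x ∈ closedBall y s, ∀ e e' : E, ‖e‖ = 1 → ‖e'‖ = 1 →
      |(inner ℝ e' (fderiv ℝ f x e) : ℝ)| ≤ S / s := by
    intro x hx e e' he he'
    obtain ⟨φ, hφ, hg, hS⟩ := hL x hx e e' he he'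
    have h1 := cauchy_real φ (fun t : ℝ => (inner ℝ e' (f (x + t • e)) : ℝ)) s S hs hφ hg hS 1 0 s hs
      (by rw [abs_zero, zero_add])
    rw [iteratedDeriv_one, Nat.factorial_one, Nat.cast_one, one_mul, pow_one] at h1
    have hx0 : AnalyticAt ℝ f (x + (0 : ℝ) • e) := by
      rw [zero_smul, add_zero]
      exact hf x (hsub x hx)
    have h2 := (hder x (hf x (hsub x hx)) e e' 0 hx0).deriv
    rw [h2, zero_smul, add_zero] at h1
    exact h1
  have hD2 : ∀ x ∈ closedBall y s, ∀ e e' : E, ‖e‖ = 1 → ‖e'‖ = 1 →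
      |(inner ℝ e' (fderiv ℝ (fderiv ℝ f) x e e) : ℝ)| ≤ 2 * S / s ^ 2 := by
    intro x hx e e' he he'
    obtain ⟨φ, hφ, hg, hS⟩ := hL x hx e e' he he'
    have h1 := cauchy_real φ (fun t : ℝ => (inner ℝ e' (f (x + t • e)) : ℝ)) s S hs hφ hg hS 2 0 s hs
      (by rw [abs_zero, zero_add])
    have hfx := hf x (hsub x hx)
    have hev : ∀ᶠ t : ℝ in nhds 0, AnalyticAt ℝ f (x + t • e) := by
      have hc : Filter.Tendsto (fun t : ℝ => x + t • e) (nhds 0) (nhds x) := by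
        have := (LLip_line x e).continuousAt.tendsto
        simpa using this
      exact hc.eventually hfx.eventually_analyticAt
    have hd1 : deriv (fun t : ℝ => (inner ℝ e' (f (x + t • e)) : ℝ)) =ᶠ[nhds 0]
        fun t : ℝ => (inner ℝ e' (fderiv ℝ f (x + t • e) e) : ℝ) := by
      filter_upwards [hev] with t ht
      exact (hder x hfx e e' t ht).deriv
    have hd2 : HasDerivAt (fun t : ℝ => (inner ℝ e' (fderiv ℝ f (x + t • e) e) : ℝ))
        (inner ℝ e' (fderiv ℝ (fderiv ℝ f) x e e)) 0 := by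
      have hG : HasFDerivAt (fderiv ℝ f) (fderiv ℝ (fderiv ℝ f) x) (x + (0 : ℝ) • e) := by
        rw [zero_smul, add_zero]
        exact hfx.fderiv.differentiableAt.hasFDerivAt
      have h3 : HasDerivAt (fun t : ℝ => fderiv ℝ f (x + t • e)) (fderiv ℝ (fderiv ℝ f) x e) 0 :=
        hG.comp_hasDerivAt (0 : ℝ) (LLip_line x e)
      have h4 : HasDerivAt (fun t : ℝ => fderiv ℝ f (x + t • e) e)
          (fderiv ℝ (fderiv ℝ f) x e e) 0 := by
        have := h3.clm_apply (hasDerivAt_const (0 : ℝ) e)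
        simpa using this
      have h5 := (hasDerivAt_const (0 : ℝ) e').inner ℝ h4
      simpa using h5
    rw [iteratedDeriv_succ, iteratedDeriv_one, hd1.deriv_eq, hd2.deriv] at h1
    have e1 : ((Nat.factorial 2 : ℕ) : ℝ) = 2 := by norm_num [Nat.factorial]
    rwa [e1] at h1
  have hB : ∀ x ∈ closedBall y s, ∀ v w : E,
      ‖fderiv ℝ (fderiv ℝ f) x v w‖ ≤ 2 * S / s ^ 2 * ‖v‖ * ‖w‖ := by
    intro x hx v w
    have hfx := hf x (hsub x hx)
    have hβ : 0 ≤ 2 * S / s ^ 2 := by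
      have := hS0 x hx
      positivity
    have hsym : ∀ v w, fderiv ℝ (fderiv ℝ f) x v w = fderiv ℝ (fderiv ℝ f) x w v := by
      have h1 : IsSymmSndFDerivAt ℝ f x := (hfx.contDiffAt (n := ⊤)).isSymmSndFDerivAt le_top
      exact fun v w => h1 v w
    have hs1 : ∀ (c : ℝ) (u v : E), fderiv ℝ (fderiv ℝ f) x (c • u) v =
        c • fderiv ℝ (fderiv ℝ f) x u v := fun c u v => by
      rw [map_smul]
      rfl
    have hs2 : ∀ (c : ℝ) (u v : E), fderiv ℝ (fderiv ℝ f) x u (c • v) =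
        c • fderiv ℝ (fderiv ℝ f) x u v := fun c u v => map_smul _ _ _
    have ha1 : ∀ (u v z : E), fderiv ℝ (fderiv ℝ f) x (u + v) z =
        fderiv ℝ (fderiv ℝ f) x u z + fderiv ℝ (fderiv ℝ f) x v z := fun u v z => by
      rw [map_add]
      rfl
    have ha2 : ∀ (u v z : E), fderiv ℝ (fderiv ℝ f) x z (u + v) =
        fderiv ℝ (fderiv ℝ f) x z u + fderiv ℝ (fderiv ℝ f) x z v := fun u v z => map_add _ _ _
    have hb1 : ∀ (u v z : E), fderiv ℝ (fderiv ℝ f) x (u - v) z =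
        fderiv ℝ (fderiv ℝ f) x u z - fderiv ℝ (fderiv ℝ f) x v z := fun u v z => by
      rw [map_sub]
      rfl
    have hb2 : ∀ (u v z : E), fderiv ℝ (fderiv ℝ f) x z (u - v) =
        fderiv ℝ (fderiv ℝ f) x z u - fderiv ℝ (fderiv ℝ f) x z v := fun u v z => map_sub _ _ _
    -- quadratic bound
    have hq : ∀ e' : E, ‖e'‖ = 1 → ∀ u : E,
        |(inner ℝ e' (fderiv ℝ (fderiv ℝ f) x u u) : ℝ)| ≤ 2 * S / s ^ 2 * ‖u‖ ^ 2 := by
      intro e' he' u
      by_cases hu : u = 0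
      · rw [hu]
        simp
      · have hu0 : ‖u‖ ≠ 0 := norm_ne_zero_iff.2 hu
        have h1 := hD2 x hx ((‖u‖)⁻¹ • u) e'
          (by rw [norm_smul, norm_inv, norm_norm, inv_mul_cancel₀ hu0]) he'
        rw [hs1, hs2, inner_smul_right, inner_smul_right,
          ← mul_assoc, abs_mul, abs_of_nonneg (by positivity : 0 ≤ (‖u‖)⁻¹ * (‖u‖)⁻¹)] at h1
        have h2 : 0 < ‖u‖ := norm_pos_iff.2 hu
        have h3 : ‖u‖ ^ 2 * ((‖u‖)⁻¹ * (‖u‖)⁻¹) = 1 := by field_simp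
        calc |(inner ℝ e' (fderiv ℝ (fderiv ℝ f) x u u) : ℝ)|
            = ‖u‖ ^ 2 * ((‖u‖)⁻¹ * (‖u‖)⁻¹ *
              |(inner ℝ e' (fderiv ℝ (fderiv ℝ f) x u u) : ℝ)|) := by
                rw [← mul_assoc, h3, one_mul]
          _ ≤ ‖u‖ ^ 2 * (2 * S / s ^ 2) := by gcongr
          _ = 2 * S / s ^ 2 * ‖u‖ ^ 2 := mul_comm _ _
    -- unit vectors
    have hunit : ∀ v w : E, ‖v‖ = 1 → ‖w‖ = 1 →
        ‖fderiv ℝ (fderiv ℝ f) x v w‖ ≤ 2 * S / s ^ 2 := by
      intro v w hv hw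
      refine LLip_norm hβ fun e' he' => ?_
      have h1 := hq e' he' (v + w)
      have h2 := hq e' he' (v - w)
      have h3 : 4 * (inner ℝ e' (fderiv ℝ (fderiv ℝ f) x v w) : ℝ) =
          (inner ℝ e' (fderiv ℝ (fderiv ℝ f) x (v + w) (v + w)) : ℝ) -
            inner ℝ e' (fderiv ℝ (fderiv ℝ f) x (v - w) (v - w)) := by
        rw [ha1, ha2, ha2, hb1, hb2, hb2, hsym w v, inner_add_right, inner_add_right,
          inner_add_right, inner_sub_right, inner_sub_right, inner_sub_right]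
        ring
      have h4 : ‖v + w‖ ^ 2 + ‖v - w‖ ^ 2 = 4 := by
        have := parallelogram_law_with_norm ℝ v w
        rw [hv, hw] at this
        nlinarith
      have h5 := abs_sub (inner ℝ e' (fderiv ℝ (fderiv ℝ f) x (v + w) (v + w)) : ℝ)
        (inner ℝ e' (fderiv ℝ (fderiv ℝ f) x (v - w) (v - w)))
      rw [← h3, abs_mul, abs_of_nonneg (by norm_num : (0 : ℝ) ≤ 4)] at h5
      nlinarith
    by_cases hv : v = 0
    · rw [hv]
      simp
    by_cases hw : w = 0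
    · rw [hw]
      simp
    have hv0 : 0 < ‖v‖ := norm_pos_iff.2 hv
    have hw0 : 0 < ‖w‖ := norm_pos_iff.2 hw
    have h1 := hunit ((‖v‖)⁻¹ • v) ((‖w‖)⁻¹ • w)
      (by rw [norm_smul, norm_inv, norm_norm, inv_mul_cancel₀ hv0.ne'])
      (by rw [norm_smul, norm_inv, norm_norm, inv_mul_cancel₀ hw0.ne'])
    rw [hs1, hs2, norm_smul, norm_smul, norm_inv, norm_inv, norm_norm, norm_norm] at h1
    have h2 : ‖v‖ * ‖w‖ * ((‖v‖)⁻¹ * (‖w‖)⁻¹) = 1 := by field_simp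
    calc ‖fderiv ℝ (fderiv ℝ f) x v w‖ = ‖v‖ * ‖w‖ * ((‖v‖)⁻¹ * ((‖w‖)⁻¹ *
          ‖fderiv ℝ (fderiv ℝ f) x v w‖)) := by
            rw [← mul_assoc (‖v‖)⁻¹, ← mul_assoc, h2, one_mul]
      _ ≤ ‖v‖ * ‖w‖ * (2 * S / s ^ 2) := by gcongr
      _ = 2 * S / s ^ 2 * ‖v‖ * ‖w‖ := by ring
  refine ⟨fun x hx v => ?_, fun x hx x' hx' v => ?_⟩
  · by_cases hv : v = 0
    · rw [hv]
      simp
    · have hv0 : 0 < ‖v‖ := norm_pos_iff.2 hv
      have h1 : ‖fderiv ℝ f x ((‖v‖)⁻¹ • v)‖ ≤ S / s := by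
        refine LLip_norm (by have := hS0 x hx; positivity) fun e' he' => ?_
        exact hD1 x hx _ e' (by rw [norm_smul, norm_inv, norm_norm, inv_mul_cancel₀ hv0.ne']) he'
      rw [map_smul, norm_smul, norm_inv, norm_norm] at h1
      calc ‖fderiv ℝ f x v‖ = ‖v‖ * ((‖v‖)⁻¹ * ‖fderiv ℝ f x v‖) := by field_simp
        _ ≤ ‖v‖ * (S / s) := by gcongr
        _ = S / s * ‖v‖ := mul_comm _ _
  · have hdF : ∀ z ∈ closedBall y s, HasFDerivAt (fun z => fderiv ℝ f z v)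
        ((fderiv ℝ (fderiv ℝ f) z).flip v) z := by
      intro z hz
      have hG : HasFDerivAt (fderiv ℝ f) (fderiv ℝ (fderiv ℝ f) z) z :=
        (hf z (hsub z hz)).fderiv.differentiableAt.hasFDerivAt
      have := hG.clm_apply (hasFDerivAt_const v z)
      simpa using this
    have h1 := Convex.norm_image_sub_le_of_norm_hasFDerivWithin_le (𝕜 := ℝ)
      (f := fun z => fderiv ℝ f z v) (f' := fun z => (fderiv ℝ (fderiv ℝ f) z).flip v)
      (C := 2 * S / s ^ 2 * ‖v‖) (s := closedBall y s) (x := x') (y := x)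
      (fun z hz => (hdF z hz).hasFDerivWithinAt)
      (fun z hz => by
        refine ContinuousLinearMap.opNorm_le_bound _ ?_ fun w => ?_
        · have := hS0 z hz
          positivity
        · rw [ContinuousLinearMap.flip_apply]
          calc ‖fderiv ℝ (fderiv ℝ f) z w v‖ ≤ 2 * S / s ^ 2 * ‖w‖ * ‖v‖ := hB z hz w v
            _ = 2 * S / s ^ 2 * ‖v‖ * ‖w‖ := by ring)
      (convex_closedBall y s) hx' hx
    calc ‖fderiv ℝ f x v - fderiv ℝ f x' v‖ ≤ 2 * S / s ^ 2 * ‖v‖ * ‖x - x'‖ := h1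
      _ = 2 * S / s ^ 2 * ‖x - x'‖ * ‖v‖ := by ring

end PC992LG
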