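import Pool.Agent.Work.MP_992d6e_an.LG.LPoly
import Pool.Agent.Work.MP_992d6e_an.LG.LIntp
import Pool.Agent.Work.MP_992d6e_an.LG.LLip

/-!
MODULE LErr (M). The Taylor polynomial approximates the map and its derivative.

`P` from `taylor_poly` at `y`.
(a) For `‖x - y‖ = ρ ≤ s/4`, `x = y + ρ • e` (`e` a unit vector, any unit vector if `ρ = 0`), unit `e'`:
  `⟪e', f x - Pm P (x - y)⟫ = g ρ - ∑_(k ≤ D) (k!)⁻¹ ρ^k iteratedDeriv k g 0`, `g t = ⟪e', f (y + t • e)⟫` (taylor_poly for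
  `v = ρ • e`, homog), so `taylor_real` and `LineBd` at `y`: `‖f x - Pm P (x - y)‖ ≤ 2 S (ρ/s)^(D+1)` (take for `e'` the
  normalised difference). As `ρ/s ≤ 1/4` and `D ≥ 1` this is at most `S/8` for all `ρ ≤ s/4`.
(b) `c = 1/400`. Let `‖x - y‖ ≤ c s`, `w`, `e'` unit vectors, `g t = ⟪e', f (x + t • w)⟫` (LineBd at `x`, `φ`),
  `Q t = ⟪e', Pm P (x - y + t • w)⟫` (line_poly). For `|t| ≤ s/5`, `‖x + t w - y‖ ≤ s/4`, so `|g t - Q t| ≤ S`; to apply `intp`,
  use it with `s' = 4 s/5` in place of `s` (`s'/4 = s/5`; `φ` restricted). `τ = s * (1/24)^(D+1) ≤ s/576`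
  (`D ≥ 1`): for `|t| ≤ τ`, `‖x + t w - y‖ ≤ s/400 + s/576 ≤ s/200`, so `|g t - Q t| ≤ ε = 2 S (1/200)^(D+1)`. `intp`:
  `|⟪e', fderiv f x w⟫ - ⟪e', fderiv (Pm P) (x-y) w⟫| ≤ 4 (S/s) (24/200)^(D+1) + 384 * 12^D S s (1/24)^(D+1)/(s')^2`
  `≤ (S/s) (4 * 2^(-(D+1)) + 384 * (25/16) / 12 * 2^(-(D+1))) ≤ 30 (S/s) 2^(-D)`.
  (`384 * 25/16 / 12 = 50`, `(4 + 50)/2 = 27`.) `deriv g 0 = ⟪e', fderiv f x w⟫` by the chain rule, same for `Q` (Pm_contDiff).
-/

set_option autoImplicit false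

namespace PC992LG

open Metric SM992

private theorem LErr_norm {w : E} {β : ℝ} (hβ : 0 ≤ β)
    (h : ∀ e' : E, ‖e'‖ = 1 → |(inner ℝ e' w : ℝ)| ≤ β) : ‖w‖ ≤ β := by
  by_cases hw : w = 0
  · rw [hw, norm_zero]
    exact hβ
  · have hw0 : ‖w‖ ≠ 0 := norm_ne_zero_iff.2 hw
    have h1 := h ((‖w‖)⁻¹ • w) (by rw [norm_smul, norm_inv, norm_norm, inv_mul_cancel₀ hw0])
    rw [inner_smul_left, real_inner_self_eq_norm_sq] at h1
    have e : (starRingEnd ℝ) (‖w‖)⁻¹ * ‖w‖ ^ 2 = ‖w‖ := by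
      simp only [conj_trivial]
      field_simp
    rw [e, abs_of_nonneg (norm_nonneg _)] at h1
    exact h1

private theorem LErr_line (x e : E) (t : ℝ) : HasDerivAt (fun t : ℝ => x + t • e) e t := by
  have h := ((hasDerivAt_id t).smul_const e).const_add x
  rw [one_smul] at h
  exact h

/-- a map along a line, tested against a vector -/
private theorem LErr_deriv {h : E → E} {x e e' : E} (hx : DifferentiableAt ℝ h x) :
    deriv (fun t : ℝ => (inner ℝ e' (h (x + t • e)) : ℝ)) 0 = inner ℝ e' (fderiv ℝ h x e) := by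
  have hx' : HasFDerivAt h (fderiv ℝ h x) (x + (0 : ℝ) • e) := by
    rw [zero_smul, add_zero]
    exact hx.hasFDerivAt
  have h1 : HasDerivAt (fun t : ℝ => h (x + t • e)) (fderiv ℝ h x e) 0 :=
    hx'.comp_hasDerivAt (0 : ℝ) (LErr_line x e 0)
  have h2 := (hasDerivAt_const (0 : ℝ) e').inner ℝ h1
  have h3 : HasDerivAt (fun t : ℝ => (inner ℝ e' (h (x + t • e)) : ℝ))
      (inner ℝ e' (fderiv ℝ h x e)) 0 := by
    simpa using h2
  exact h3.deriv

/-- (a): the Taylor polynomial approximates the map -/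
private theorem LErr_a (f : E → E) (y : E) (s S : ℝ) (hs : 0 < s) (hS : 0 < S)
    (hf : AnalyticAt ℝ f y) (hL : LineBd f y s S) (D : ℕ)
    (P : Fin 3 → MvPolynomial (Fin 3) ℝ)
    (hP : ∀ v e' : E, (inner ℝ e' (Pm P v) : ℝ) = ∑ k ∈ Finset.range (D + 1),
        (k.factorial : ℝ)⁻¹ * iteratedDeriv k (fun t : ℝ => (inner ℝ e' (f (y + t • v)) : ℝ)) 0)
    (x : E) (hx : ‖x - y‖ ≤ s / 4) :
    ‖f x - Pm P (x - y)‖ ≤ 2 * S * (‖x - y‖ / s) ^ (D + 1) := by
  obtain ⟨e, he, hxe⟩ : ∃ e : E, ‖e‖ = 1 ∧ x - y = ‖x - y‖ • e := by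
    by_cases h0 : x - y = 0
    · exact ⟨EuclideanSpace.single 0 1, by simp, by rw [h0]; simp⟩
    · have hn : ‖x - y‖ ≠ 0 := norm_ne_zero_iff.2 h0
      exact ⟨(‖x - y‖)⁻¹ • (x - y), by rw [norm_smul, norm_inv, norm_norm, inv_mul_cancel₀ hn],
        by rw [smul_smul, mul_inv_cancel₀ hn, one_smul]⟩
  obtain ⟨ρ, hρ⟩ : ∃ ρ, ρ = ‖x - y‖ := ⟨_, rfl⟩
  rw [← hρ] at hxe hx ⊢
  have hρ0 : 0 ≤ ρ := by rw [hρ]; exact norm_nonneg _
  refine LErr_norm (by positivity) fun e' he' => ?_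
  obtain ⟨φ, hφ, hg, hSφ⟩ := hL y (mem_closedBall_self hs.le) e e' he he'
  have h1 := taylor_real φ (fun t : ℝ => (inner ℝ e' (f (y + t • e)) : ℝ)) s S hs hφ hg hSφ D ρ
    (by rw [abs_of_nonneg hρ0]; exact hx)
  rw [abs_of_nonneg hρ0] at h1
  have h2 : (inner ℝ e' (Pm P (x - y)) : ℝ) = ∑ k ∈ Finset.range (D + 1), (k.factorial : ℝ)⁻¹ *
      iteratedDeriv k (fun t : ℝ => (inner ℝ e' (f (y + t • e)) : ℝ)) 0 * ρ ^ k := by
    rw [hP]
    refine Finset.sum_congr rfl fun k _ => ?_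
    rw [hxe, homog f y hf e e' ρ k]
    ring
  have h3 : y + ρ • e = x := by rw [← hxe]; abel
  rw [inner_sub_right, h2]
  rw [h3] at h1
  exact h1

private theorem LErr_pow {a : ℝ} (ha0 : 0 ≤ a) (ha : a ≤ 1 / 4) {D : ℕ} (hD : 1 ≤ D) :
    a ^ (D + 1) ≤ 1 / 16 := by
  obtain ⟨k, rfl⟩ : ∃ k, D = k + 1 := ⟨D - 1, by omega⟩
  calc a ^ (k + 1 + 1) ≤ (1 / 4 : ℝ) ^ (k + 1 + 1) := by gcongr
    _ = (1 / 4) ^ k * (1 / 16) := by ring
    _ ≤ 1 * (1 / 16) := by
        gcongr
        exact pow_le_one₀ (by norm_num) (by norm_num)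
    _ = 1 / 16 := one_mul _

theorem approx (f : E → E) (y : E) (s S : ℝ) (hs : 0 < s) (hS : 0 < S)
    (hf : ∀ x ∈ ball y (2 * s), AnalyticAt ℝ f x) (hL : LineBd f y s S) (D : ℕ) (hD : 1 ≤ D) :
    ∃ P : Fin 3 → MvPolynomial (Fin 3) ℝ, (∀ i, (P i).totalDegree ≤ D) ∧
      (∀ x ∈ closedBall y (s / 400), ‖f x - Pm P (x - y)‖ ≤ S / 2 ^ D) ∧
      ∀ x ∈ closedBall y (s / 400), ∀ v,
        ‖fderiv ℝ f x v - fderiv ℝ (Pm P) (x - y) v‖ ≤ 30 * S / s / 2 ^ D * ‖v‖ := by
  have hfy : AnalyticAt ℝ f y := hf y (mem_ball_self (by linarith))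
  obtain ⟨P, hPd, hP⟩ := taylor_poly f y hfy D
  have ha := LErr_a f y s S hs hS hfy hL D P hP
  have hpowmono : ∀ (ρ c : ℝ), 0 ≤ ρ → ρ ≤ c * s → 0 ≤ c → (ρ / s) ^ (D + 1) ≤ c ^ (D + 1) := by
    intro ρ c hρ hc _
    have : ρ / s ≤ c := (div_le_iff₀ hs).2 hc
    gcongr
  refine ⟨P, hPd, fun x hx => ?_, fun x hx v => ?_⟩
  · rw [mem_closedBall, dist_eq_norm] at hx
    refine (ha x (by linarith)).trans ?_
    have h1 := hpowmono ‖x - y‖ (1 / 400) (norm_nonneg _) (by linarith) (by norm_num)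
    calc 2 * S * (‖x - y‖ / s) ^ (D + 1) ≤ 2 * S * (1 / 400) ^ (D + 1) := by gcongr
      _ ≤ 2 * S * (1 / 2) ^ (D + 1) := by gcongr; norm_num
      _ = S / 2 ^ D := by
          rw [pow_succ, one_div, inv_pow]
          ring
  · rw [mem_closedBall, dist_eq_norm] at hx
    have hx2 : x ∈ ball y (2 * s) := by
      rw [mem_ball, dist_eq_norm]
      linarith
    have hxs : x ∈ closedBall y s := by
      rw [mem_closedBall, dist_eq_norm]
      linarith
    have hunit : ∀ w : E, ‖w‖ = 1 →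
        ‖fderiv ℝ f x w - fderiv ℝ (Pm P) (x - y) w‖ ≤ 30 * S / s / 2 ^ D := by
      intro w hw
      refine LErr_norm (by positivity) fun e' he' => ?_
      obtain ⟨φ, hφ, hg, hSφ⟩ := hL x hxs w e' hw he'
      obtain ⟨Q, hQd, hQ⟩ := line_poly D P hPd (x - y) w e'
      have hnear : ∀ t : ℝ, |(inner ℝ e' (f (x + t • w)) : ℝ) - Q.eval t| ≤
          ‖f (x + t • w) - Pm P (x + t • w - y)‖ := by
        intro t
        have e1 : x - y + t • w = x + t • w - y := by abel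
        rw [hQ t, e1, ← inner_sub_right]
        have := abs_real_inner_le_norm e' (f (x + t • w) - Pm P (x + t • w - y))
        rwa [he', one_mul] at this
      have hdist : ∀ t : ℝ, ‖x + t • w - y‖ ≤ s / 400 + |t| := by
        intro t
        have e1 : x + t • w - y = (x - y) + t • w := by abel
        rw [e1]
        refine (norm_add_le _ _).trans ?_
        rw [norm_smul, hw, mul_one, Real.norm_eq_abs]
        linarith
      have h24 : (1 / 24 : ℝ) ^ (D + 1) ≤ 1 / 576 := by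
        obtain ⟨k, rfl⟩ : ∃ k, D = k + 1 := ⟨D - 1, by omega⟩
        calc (1 / 24 : ℝ) ^ (k + 1 + 1) = (1 / 24) ^ k * (1 / 576) := by ring
          _ ≤ 1 * (1 / 576) := by
              gcongr
              exact pow_le_one₀ (by norm_num) (by norm_num)
          _ = 1 / 576 := one_mul _
      have hτs : s * (1 / 24 : ℝ) ^ (D + 1) ≤ s / 576 := by
        calc s * (1 / 24 : ℝ) ^ (D + 1) ≤ s * (1 / 576) := by gcongr
          _ = s / 576 := by ring
      have h := intp φ (fun t : ℝ => (inner ℝ e' (f (x + t • w)) : ℝ)) (4 * s / 5) S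
        (2 * S * (1 / 200) ^ (D + 1)) (s * (1 / 24) ^ (D + 1)) D Q (by positivity) (by positivity)
        (by linarith)
        (hφ.mono (ball_subset_ball (by linarith)))
        (fun t ht => hg t (by linarith))
        (fun z hz => hSφ z (ball_subset_ball (by linarith) hz))
        hQd
        (fun t ht => by
          refine (hnear t).trans ?_
          have h1 := hdist t
          have h2 : ‖x + t • w - y‖ ≤ s / 4 := by linarith
          refine (ha _ h2).trans ?_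
          have h3 : (‖x + t • w - y‖ / s) ^ (D + 1) ≤ 1 / 16 :=
            LErr_pow (by positivity) ((div_le_iff₀ hs).2 (by linarith)) hD
          calc 2 * S * (‖x + t • w - y‖ / s) ^ (D + 1) ≤ 2 * S * (1 / 16) := by gcongr
            _ ≤ S := by linarith)
        (fun t ht => by
          refine (hnear t).trans ?_
          have h1 := hdist t
          have h2 : ‖x + t • w - y‖ ≤ 1 / 200 * s := by linarith
          refine (ha _ (by linarith)).trans ?_
          have h3 := hpowmono ‖x + t • w - y‖ (1 / 200) (norm_nonneg _) h2 (by norm_num)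
          gcongr)
      have hd1 := LErr_deriv (h := f) (x := x) (e := w) (e' := e') (hf x hx2).differentiableAt
      have hd2 : Q.derivative.eval 0 = inner ℝ e' (fderiv ℝ (Pm P) (x - y) w) := by
        have h1 := LErr_deriv (h := Pm P) (x := x - y) (e := w) (e' := e')
          ((Pm_contDiff P).differentiable (by simp) _)
        have h2 : (fun t : ℝ => (inner ℝ e' (Pm P (x - y + t • w)) : ℝ)) = fun t => Q.eval t :=
          funext fun t => (hQ t).symm
        rw [h2, Polynomial.deriv] at h1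
        exact h1
      rw [hd1, hd2, ← inner_sub_right] at h
      refine h.trans ?_
      have hDp : (0 : ℝ) < 2 ^ D := by positivity
      -- first term
      have t1 : 2 * (2 * S * (1 / 200) ^ (D + 1)) / (s * (1 / 24) ^ (D + 1)) ≤ 2 * S / s / 2 ^ D := by
        have e1 : 2 * (2 * S * (1 / 200) ^ (D + 1)) / (s * (1 / 24) ^ (D + 1)) =
            4 * S / s * (3 / 25) ^ (D + 1) := by
          have e2 : (3 / 25 : ℝ) ^ (D + 1) = (1 / 200) ^ (D + 1) / (1 / 24) ^ (D + 1) := by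
            rw [← div_pow]
            norm_num
          rw [e2]
          field_simp
          ring
        rw [e1]
        calc 4 * S / s * (3 / 25) ^ (D + 1) ≤ 4 * S / s * (1 / 2) ^ (D + 1) :=
              mul_le_mul_of_nonneg_left (pow_le_pow_left₀ (by norm_num) (by norm_num) _)
                (by positivity)
          _ = 2 * S / s / 2 ^ D := by
              rw [pow_succ, one_div, inv_pow]
              field_simp
              ring
      have t2 : 384 * 12 ^ D * S * (s * (1 / 24) ^ (D + 1)) / (4 * s / 5) ^ 2 = 25 * S / s / 2 ^ D := by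
        have e2 : (12 : ℝ) ^ D * (1 / 24) ^ (D + 1) = 1 / 24 / 2 ^ D := by
          rw [pow_succ, ← mul_assoc, ← mul_pow]
          have : (12 * (1 / 24) : ℝ) = 1 / 2 := by norm_num
          rw [this, one_div, inv_pow]
          field_simp
        calc 384 * 12 ^ D * S * (s * (1 / 24) ^ (D + 1)) / (4 * s / 5) ^ 2
            = 384 * ((12 : ℝ) ^ D * (1 / 24) ^ (D + 1)) * S * s / (4 * s / 5) ^ 2 := by ring
          _ = 25 * S / s / 2 ^ D := by
              rw [e2]
              field_simp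
              ring
      rw [t2]
      have t3 : 2 * S / s / 2 ^ D + 25 * S / s / 2 ^ D ≤ 30 * S / s / 2 ^ D := by
        have : 0 < S / s / 2 ^ D := by positivity
        have e3 : 2 * S / s / 2 ^ D + 25 * S / s / 2 ^ D = 27 * (S / s / 2 ^ D) := by ring
        have e4 : 30 * S / s / 2 ^ D = 30 * (S / s / 2 ^ D) := by ring
        rw [e3, e4]
        linarith
      linarith
    by_cases hv : v = 0
    · rw [hv]
      simp
    · have hv0 : 0 < ‖v‖ := norm_pos_iff.2 hv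
      have h1 := hunit ((‖v‖)⁻¹ • v) (by rw [norm_smul, norm_inv, norm_norm, inv_mul_cancel₀ hv0.ne'])
      rw [map_smul, map_smul, ← smul_sub, norm_smul, norm_inv, norm_norm] at h1
      calc ‖fderiv ℝ f x v - fderiv ℝ (Pm P) (x - y) v‖
          = ‖v‖ * ((‖v‖)⁻¹ * ‖fderiv ℝ f x v - fderiv ℝ (Pm P) (x - y) v‖) := by field_simp
        _ ≤ ‖v‖ * (30 * S / s / 2 ^ D) := by gcongr
        _ = 30 * S / s / 2 ^ D * ‖v‖ := mul_comm _ _

end PC992LG
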