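import Pool.Agent.Work.MP_992d6e_an.LG.LDefs

/-!
MODULE LPoly (M). The Taylor polynomial of an analytic map (Mathlib and the definition `Pm` in SM/Bez).

taylor_poly: `(iteratedDeriv k (fun t => ⟪e', f (y + t • v)⟫) 0) = ⟪e', iteratedFDeriv ℝ k f y (fun _ => v)⟫`:
  `t ↦ y + t • v` is the linear map `ℝ →L[ℝ] E` followed by a translation (iteratedFDeriv_comp_add_left,
  `ContinuousLinearMap.iteratedFDeriv_comp_right` for `ContDiffAt` functions, or the version with `HasFTaylorSeriesUpTo`;
  alternatively induction on `k` with the statement for all `t` near `0`: `AnalyticAt` implies `ContDiffAt ℝ ∞`, the derivative of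
  `t ↦ iteratedFDeriv ℝ k f (y + t v) (fun _ => v)` is `iteratedFDeriv ℝ (k+1) f (y + t v) (fun _ => v)`,
  iteratedFDeriv_succ_apply_left), iteratedDeriv_eq_iteratedFDeriv, inner product is a continuous linear map.
  Expand `v = ∑ j, v j • e_j` (EuclideanSpace.basisFun) in all `k` arguments (`MultilinearMap.map_sum`,
  `MultilinearMap.map_smul_univ`): the `i`-th coordinate of `iteratedFDeriv ℝ k f y (fun _ => v)` is
  `∑_(r : Fin k → Fin 3) (∏_j v (r j)) * (iteratedFDeriv ℝ k f y (fun j => e_(r j))) i`, the value at `v` of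
  `∑_r C (..) * ∏_j X (r j)`, of total degree at most `k`. `P i = ∑_(k ≤ D) C (k!)⁻¹ * (this polynomial)`.
homog: iteratedDeriv_comp_const_mul (or `iteratedDeriv_const_smul`-type lemma for `t ↦ h (r * t)`), using smoothness at `0` of
  `h t = ⟪e', f (y + t • v)⟫`; if the Mathlib lemma needs global smoothness use `r ^ k` homogeneity of the multilinear map instead:
  `iteratedFDeriv ℝ k f y (fun _ => r • v) = r^k • iteratedFDeriv ℝ k f y (fun _ => v)` (map_smul_univ).
-/

set_option autoImplicit false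

namespace PC992LG

open SM992

open Filter Topology in
private theorem lp_iter (f : E → E) (y : E) (hf : AnalyticAt ℝ f y) (v e' : E) (k : ℕ) :
    ∀ᶠ t : ℝ in 𝓝 0, iteratedDeriv k (fun t : ℝ => (inner ℝ e' (f (y + t • v)) : ℝ)) t =
      inner ℝ e' (iteratedFDeriv ℝ k f (y + t • v) (fun _ => v)) := by
  have hc : ContinuousAt (fun t : ℝ => y + t • v) 0 := by fun_prop
  have hy : AnalyticAt ℝ f (y + (0 : ℝ) • v) := by simpa using hf
  have hev : ∀ᶠ t : ℝ in 𝓝 0, AnalyticAt ℝ f (y + t • v) := hc.eventually hy.eventually_analyticAt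
  induction k with
  | zero =>
    filter_upwards with t
    simp
  | succ k ih =>
    have h1 : ∀ᶠ t : ℝ in 𝓝 0, deriv (iteratedDeriv k (fun t : ℝ =>
        (inner ℝ e' (f (y + t • v)) : ℝ))) t =
        deriv (fun t : ℝ => (inner ℝ e' (iteratedFDeriv ℝ k f (y + t • v) (fun _ => v)) : ℝ)) t := by
      have h2 := eventually_eventually_nhds.mpr ih
      filter_upwards [h2] with t ht
      exact Filter.EventuallyEq.deriv_eq ht
    filter_upwards [h1, hev] with t ht hta
    rw [iteratedDeriv_succ, ht]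
    have h3 : DifferentiableAt ℝ (iteratedFDeriv ℝ k f) (y + t • v) :=
      (hta.contDiffAt (n := (k + 1 : ℕ))).differentiableAt_iteratedFDeriv
        (by exact_mod_cast Nat.lt_succ_self k)
    have h4 : HasFDerivAt (iteratedFDeriv ℝ k f) (fderiv ℝ (iteratedFDeriv ℝ k f) (y + t • v))
        (y + t • v) := h3.hasFDerivAt
    have h5 : HasDerivAt (fun t : ℝ => y + t • v) v t := by
      simpa using ((hasDerivAt_id t).smul_const v).const_add y
    have h6 := h4.comp_hasDerivAt t h5
    have h7 : HasDerivAt (fun t : ℝ => iteratedFDeriv ℝ k f (y + t • v) (fun _ => v))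
        ((fderiv ℝ (iteratedFDeriv ℝ k f) (y + t • v) v) (fun _ => v)) t :=
      ((ContinuousMultilinearMap.apply ℝ (fun _ : Fin k => E) E
        (fun _ => v)).hasFDerivAt).comp_hasDerivAt t h6
    have h8 : HasDerivAt (fun t : ℝ => (inner ℝ e' (iteratedFDeriv ℝ k f (y + t • v) (fun _ => v)) : ℝ))
        (inner ℝ e' ((fderiv ℝ (iteratedFDeriv ℝ k f) (y + t • v) v) (fun _ => v))) t :=
      ((innerSL ℝ e').hasFDerivAt).comp_hasDerivAt t h7
    rw [h8.deriv, iteratedFDeriv_succ_apply_left]
    rfl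

private theorem lp_zero (f : E → E) (y : E) (hf : AnalyticAt ℝ f y) (v e' : E) (k : ℕ) :
    iteratedDeriv k (fun t : ℝ => (inner ℝ e' (f (y + t • v)) : ℝ)) 0 =
      inner ℝ e' (iteratedFDeriv ℝ k f y (fun _ => v)) := by
  have h := (lp_iter f y hf v e' k).self_of_nhds
  simpa using h

private noncomputable def lpT (k : ℕ) (B : ContinuousMultilinearMap ℝ (fun _ : Fin k => E) E)
    (i : Fin 3) : MvPolynomial (Fin 3) ℝ :=
  ∑ r : Fin k → Fin 3, MvPolynomial.C
    ((B (fun j => EuclideanSpace.basisFun (Fin 3) ℝ (r j))) i) * ∏ j, MvPolynomial.X (r j)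

private theorem lpT_deg (k : ℕ) (B : ContinuousMultilinearMap ℝ (fun _ : Fin k => E) E)
    (i : Fin 3) : (lpT k B i).totalDegree ≤ k := by
  unfold lpT
  refine MvPolynomial.totalDegree_finsetSum_le fun r _ => ?_
  refine (MvPolynomial.totalDegree_mul _ _).trans ?_
  rw [MvPolynomial.totalDegree_C, zero_add]
  refine (MvPolynomial.totalDegree_finsetProd _ _).trans ?_
  refine (Finset.sum_le_sum (g := fun _ => 1) fun j _ => ?_).trans ?_
  · rw [MvPolynomial.totalDegree_X]
  · simp

private theorem lpT_eval (k : ℕ) (B : ContinuousMultilinearMap ℝ (fun _ : Fin k => E) E)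
    (v : E) (i : Fin 3) : MvPolynomial.eval (fun j => v j) (lpT k B i) = B (fun _ => v) i := by
  have hv : v = ∑ j : Fin 3, v j • EuclideanSpace.basisFun (Fin 3) ℝ j :=
    ((EuclideanSpace.basisFun (Fin 3) ℝ).sum_repr v).symm
  have h1 : B (fun _ => v) = ∑ r : Fin k → Fin 3, (∏ j, v (r j)) •
      B (fun j => EuclideanSpace.basisFun (Fin 3) ℝ (r j)) := by
    conv_lhs => rw [hv]
    rw [ContinuousMultilinearMap.map_sum]
    refine Finset.sum_congr rfl fun r _ => ?_
    rw [ContinuousMultilinearMap.map_smul_univ]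
  rw [h1]
  unfold lpT
  simp [mul_comm]

theorem taylor_poly (f : E → E) (y : E) (hf : AnalyticAt ℝ f y) (D : ℕ) :
    ∃ P : Fin 3 → MvPolynomial (Fin 3) ℝ, (∀ i, (P i).totalDegree ≤ D) ∧
      ∀ v e' : E, (inner ℝ e' (Pm P v) : ℝ) = ∑ k ∈ Finset.range (D + 1),
        (k.factorial : ℝ)⁻¹ * iteratedDeriv k (fun t : ℝ => (inner ℝ e' (f (y + t • v)) : ℝ)) 0 := by
  refine ⟨fun i => ∑ k ∈ Finset.range (D + 1), MvPolynomial.C ((k.factorial : ℝ)⁻¹) *
    lpT k (iteratedFDeriv ℝ k f y) i, fun i => ?_, fun v e' => ?_⟩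
  · refine MvPolynomial.totalDegree_finsetSum_le fun k hk => ?_
    refine (MvPolynomial.totalDegree_mul _ _).trans ?_
    rw [MvPolynomial.totalDegree_C, zero_add]
    have := Finset.mem_range.mp hk
    exact (lpT_deg k _ i).trans (by omega)
  · have h1 : Pm (fun i => ∑ k ∈ Finset.range (D + 1), MvPolynomial.C ((k.factorial : ℝ)⁻¹) *
        lpT k (iteratedFDeriv ℝ k f y) i) v = ∑ k ∈ Finset.range (D + 1),
          (k.factorial : ℝ)⁻¹ • iteratedFDeriv ℝ k f y (fun _ => v) := by
      ext i
      simp [Pm, lpT_eval]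
    rw [h1, inner_sum]
    refine Finset.sum_congr rfl fun k _ => ?_
    rw [inner_smul_right, lp_zero f y hf]

theorem homog (f : E → E) (y : E) (hf : AnalyticAt ℝ f y) (v e' : E) (r : ℝ) (k : ℕ) :
    iteratedDeriv k (fun t : ℝ => (inner ℝ e' (f (y + t • (r • v))) : ℝ)) 0 =
      r ^ k * iteratedDeriv k (fun t : ℝ => (inner ℝ e' (f (y + t • v)) : ℝ)) 0 := by
  rw [lp_zero f y hf, lp_zero f y hf]
  have h := (iteratedFDeriv ℝ k f y).map_smul_univ (fun _ => r) (fun _ => v)
  simp only [Finset.prod_const, Finset.card_univ, Fintype.card_fin] at h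
  rw [h, inner_smul_right]

/-- the restriction of a polynomial map to a line is a polynomial -/
theorem line_poly (D : ℕ) (P : Fin 3 → MvPolynomial (Fin 3) ℝ) (hP : ∀ i, (P i).totalDegree ≤ D)
    (u w e' : E) : ∃ Q : Polynomial ℝ, Q.natDegree ≤ D ∧
      ∀ t : ℝ, Q.eval t = (inner ℝ e' (Pm P (u + t • w)) : ℝ) := by
  refine ⟨∑ i, Polynomial.C (e' i) * MvPolynomial.aeval
    (fun j => Polynomial.C (u j) + Polynomial.X * Polynomial.C (w j)) (P i), ?_, fun t => ?_⟩
  · refine Polynomial.natDegree_sum_le_of_forall_le _ _ fun i _ => ?_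
    refine (Polynomial.natDegree_C_mul_le _ _).trans ?_
    refine (MvPolynomial.aeval_natDegree_le (P i) (hP i) _ (n := 1) fun j => ?_).trans (by omega)
    compute_degree
  · rw [Polynomial.eval_finsetSum, PiLp.inner_apply]
    refine Finset.sum_congr rfl fun i _ => ?_
    have h1 : ∀ Q : MvPolynomial (Fin 3) ℝ, Polynomial.eval t (MvPolynomial.aeval
        (fun j => Polynomial.C (u j) + Polynomial.X * Polynomial.C (w j)) Q) =
        MvPolynomial.eval (fun j => (u + t • w) j) Q := by
      intro Q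
      induction Q using MvPolynomial.induction_on with
      | C c => simp
      | add p q hp hq => rw [map_add, map_add, Polynomial.eval_add, hp, hq]
      | mul_X p i hp =>
        rw [map_mul, map_mul, Polynomial.eval_mul, hp, MvPolynomial.aeval_X, MvPolynomial.eval_X]
        congr 1
        rw [Polynomial.eval_add, Polynomial.eval_mul, Polynomial.eval_C, Polynomial.eval_X,
          Polynomial.eval_C]
        rfl
    rw [Polynomial.eval_mul, Polynomial.eval_C, h1]
    change _ = (MvPolynomial.eval (fun j => (u + t • w) j) (P i)) * e' i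
    rw [mul_comm]

private theorem lp_smooth (P : MvPolynomial (Fin 3) ℝ) :
    ContDiff ℝ 1 (fun x : E => MvPolynomial.eval (fun k => x k) P) := by
  induction P using MvPolynomial.induction_on with
  | C c =>
    simp only [MvPolynomial.eval_C]
    exact contDiff_const
  | add p q hp hq =>
    simp only [map_add]
    exact hp.add hq
  | mul_X p i hp =>
    simp only [map_mul, MvPolynomial.eval_X]
    exact hp.mul (EuclideanSpace.proj (𝕜 := ℝ) i : E →L[ℝ] ℝ).contDiff

theorem Pm_contDiff (P : Fin 3 → MvPolynomial (Fin 3) ℝ) : ContDiff ℝ 1 (Pm P) := by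
  rw [contDiff_euclidean]
  intro i
  exact lp_smooth (P i)

end PC992LG
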